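import Pool.Agent.Lib.MP_305fdd_al.Su.Up.StepB
import Pool.Agent.Lib.MP_305fdd_al.Su.CM.Use
import Pool.Agent.Lib.MP_305fdd_al.Su.AA.Tree
import Pool.Agent.Lib.MP_305fdd_al.Su.Asm.Stm

/-!
# One step up: the interface statement `S_T6` (MP_305fdd_al, surface groups, block UP)
-/

set_option autoImplicit false

namespace Pool.Agent.SuUp

open Matrix (SpecialLinearGroup)
open Pool.Agent.SuT Pool.Agent.SuE Pool.Agent.Su Pool.Agent.SuAA Pool.Agent.SuAsm
  Pool.Agent.Lib.MP_305fdd_al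

/-- the package of a surface group is an isomorphism -/
theorem surf_pk {g : ℕ} (hg : 2 ≤ g) : ∃ (Γ F : Type) (_ : Group Γ) (_ : Field F)
    (_ : Algebra (ZMod 2) F) (π : SurfaceGroup g →* Γ) (ρ : Γ →* SpecialLinearGroup (Fin 2) F),
    Pk g π ρ ∧ Function.Injective π := by
  have hfg : Group.FG (SurfaceGroup g) :=
    Group.fg_of_surjective (PresentedGroup.mk_surjective _)
  obtain ⟨Γ, F, _, _, _, π, ρ, P⟩ := exists_pk hg hfg
    ⟨(⟨fun _ _ _ f => f, fun _ _ _ f => f, fun _ _ _ _ => rfl, fun _ _ _ _ => rfl, fun _ _ => rfl⟩ :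
      NatBij (SurfaceGroup g) (SurfaceGroup g))⟩
  refine ⟨Γ, F, inferInstance, inferInstance, inferInstance, π, ρ, P, ?_⟩
  obtain ⟨E, _, hE, φ, hφ⟩ := Su.exists_rep g hg
  have h1 : Algebra (ZMod 2) E := ZMod.algebra E 2
  have h2 := P.ker_le E φ
  rw [(MonoidHom.ker_eq_bot_iff φ).2 hφ, le_bot_iff] at h2
  exact (MonoidHom.ker_eq_bot_iff π).1 h2

/-- surface groups are torsion free -/
theorem surf_tf {g : ℕ} (hg : 2 ≤ g) (x : SurfaceGroup g) (n : ℕ) (hn : 0 < n) (hx : x ^ n = 1) :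
    x = 1 := by
  obtain ⟨Γ, F, _, _, _, π, ρ, P, hπ⟩ := surf_pk hg
  have h1 := P.tf (SuCM.pk_div P) (π x) n hn.ne' (by rw [← map_pow, hx, map_one])
  rwa [map_eq_one_iff _ hπ] at h1

/-- surface groups are freely indecomposable -/
theorem surf_fi {g : ℕ} (hg : 2 ≤ g) : SuT.FI (SurfaceGroup g) := by
  obtain ⟨Γ, F, _, _, _, π, ρ, P, hπ⟩ := surf_pk hg
  exact fi_equiv (MulEquiv.ofBijective π ⟨hπ, P.surj⟩) P.fiT

/-- a group in the genus of a surface group, with a surface group as the kernel of a homomorphism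
to `ℤ/2`, is torsion free -/
theorem over_tf {g m : ℕ} (hg : 2 ≤ g) (hm : 2 ≤ m) {L : Type} [Group L] (hfg : Group.FG L)
    (h : Nonempty (NatBij L (SurfaceGroup g))) (θ : L →* Multiplicative (ZMod 2))
    (e : θ.ker ≃* SurfaceGroup m) (x : L) (k : ℕ) (hk : 0 < k) (hx : x ^ k = 1) : x = 1 := by
  obtain ⟨Γ, F, _, _, _, π, ρ, P⟩ := exists_pk hg hfg h
  have h1 := P.tf (SuCM.pk_div P) (π x) k hk.ne' (by rw [← map_pow, hx, map_one])
  obtain ⟨κ, _, _, _, j, hj⟩ := SuFI.emb_two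
  have h2 : x ∈ (j.comp θ).ker := P.ker_le κ (j.comp θ) h1
  have h3 : x ∈ θ.ker := by
    rw [MonoidHom.mem_ker] at h2 ⊢
    apply hj
    rw [map_one]
    exact h2
  have h4 := surf_tf hm (e ⟨x, h3⟩) k hk (by
    rw [← map_pow]
    have h5 : (⟨x, h3⟩ : θ.ker) ^ k = 1 := Subtype.ext hx
    rw [h5, map_one])
  rw [map_eq_one_iff _ e.injective] at h4
  exact congrArg Subtype.val h4

/-- **(T6)** -/
theorem p_T6 : S_T6 := by
  intro g n L _ hg hfg h θ hθ ⟨e⟩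
  obtain ⟨Φ⟩ := h
  haveI := hfg
  exact up_step (by omega) Φ (over_tf hg (by omega) hfg ⟨Φ⟩ θ e) θ hθ e (surf_fi (by omega))

end Pool.Agent.SuUp
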