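import Pool.Agent.Lib.MP_305fdd_al.Su.StmTree

/-!
# Crossing is symmetric, at most two crossing edges (MP_305fdd_al, surface groups, block UP)

`p_C1 : S_FS → S_C1`, `p_C2 : S_FS → S_C2`.  Main point (`cross_main`): if the stabiliser of the edge
`x y` of `X` crosses the edge `x' y'` of `X'` and `w` generates the stabiliser of `x' y'`, then `x` and
`y` have the same displacement under `w`.
-/

set_option autoImplicit false

namespace Pool.Agent.SuUp

open Pool.Agent.SuT

section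

variable {G : Type} [Group G] {V : Type} [MulAction G V] {X : SimpleGraph V}

/-- the positions of an edge with respect to its translate -/
theorem tri (hT : TA G X) {u c : V} (h : X.Adj u c) (g : G) :
    (g • u ∈ Hf X u c ∧ u ∉ Hf X (g • u) (g • c) ∧ X.dist u (g • u) = X.dist c (g • c)) ∨
    (g • u ∉ Hf X u c ∧ u ∈ Hf X (g • u) (g • c) ∧ X.dist u (g • u) = X.dist c (g • c)) ∨
    (g • u ∈ Hf X u c ∧ u ∈ Hf X (g • u) (g • c) ∧
      X.dist u (g • u) = X.dist c (g • c) + 2) ∨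
    (g • u ∉ Hf X u c ∧ u ∉ Hf X (g • u) (g • c) ∧
      X.dist c (g • c) = X.dist u (g • u) + 2) ∨
    (g • u = u ∧ g • c = c) := by
  have hg : X.Adj (g • u) (g • c) := hT.act g _ _ h
  have c1 : X.dist (g • u) u = X.dist u (g • u) := SimpleGraph.dist_comm
  have c2 : X.dist (g • c) c = X.dist c (g • c) := SimpleGraph.dist_comm
  have c3 : X.dist (g • u) c = X.dist c (g • u) := SimpleGraph.dist_comm
  have c4 : X.dist (g • c) u = X.dist u (g • c) := SimpleGraph.dist_comm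
  have d1 := dist_adj hT.tree h (g • u)
  have d2 := dist_adj hT.tree h (g • c)
  have d3 := dist_adj hT.tree hg u
  have d4 := dist_adj hT.tree hg c
  by_cases h1 : g • u ∈ Hf X u c
  · by_cases h2 : u ∈ Hf X (g • u) (g • c)
    · -- towards each other
      have h3 : c ∈ Hf X (g • u) (g • c) := by
        by_contra h3
        obtain ⟨e1, e2⟩ := cross_edge hT.tree hg h3 h2 h.symm
        exact hT.noinv g u c h ⟨e1.symm, e2.symm⟩
      right; right; left
      refine ⟨h1, h2, ?_⟩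
      rw [mem_Hf] at h1 h2 h3
      omega
    · have h3 : g • c ∈ Hf X u c := by
        by_contra h3
        obtain ⟨e1, e2⟩ := cross_edge hT.tree h h3 h1 hg.symm
        exact hT.noinv g u c h ⟨e2, e1⟩
      left
      refine ⟨h1, h2, ?_⟩
      rw [mem_Hf] at h1 h2 h3
      omega
  · by_cases h2 : u ∈ Hf X (g • u) (g • c)
    · have h3 : c ∈ Hf X (g • u) (g • c) := by
        by_contra h3
        obtain ⟨e1, e2⟩ := cross_edge hT.tree hg h3 h2 h.symm
        exact hT.noinv g u c h ⟨e1.symm, e2.symm⟩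
      right; left
      refine ⟨h1, h2, ?_⟩
      rw [mem_Hf] at h1 h2 h3
      omega
    · by_cases h3 : g • c ∈ Hf X u c
      · obtain ⟨e1, e2⟩ := cross_edge hT.tree h h1 h3 hg
        right; right; right; right
        exact ⟨e1, e2⟩
      · right; right; right; left
        refine ⟨h1, h2, ?_⟩
        rw [mem_Hf] at h1 h2 h3
        omega

/-- if the displacement grows along `u c`, it grows along every continuation -/
theorem grow (hT : TA G X) {u c c2 : V} (h : X.Adj u c) (h2 : X.Adj c c2) (hne : c2 ≠ u) (g : G)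
    (hlt : X.dist u (g • u) < X.dist c (g • c)) : X.dist c (g • c) < X.dist c2 (g • c2) := by
  have hgc : g • c ≠ c := by
    intro e
    rw [e, SimpleGraph.dist_self] at hlt
    omega
  rcases tri hT h.symm g with ⟨_, _, e⟩ | ⟨_, _, e⟩ | ⟨k1, k2, _⟩ | ⟨_, _, e⟩ | ⟨e, _⟩
  · omega
  · omega
  · have m1 : g • c ∉ Hf X c c2 := by
      intro m1
      exact hne (first_unique hT.tree h2 h.symm m1 k1)
    have m2 : c ∉ Hf X (g • c) (g • c2) := by
      intro m2
      have := first_unique hT.tree (hT.act g _ _ h2) (hT.act g _ _ h.symm) m2 k2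
      exact hne (MulAction.injective g this)
    rcases tri hT h2 g with ⟨n1, _, _⟩ | ⟨_, n1, _⟩ | ⟨n1, _, _⟩ | ⟨_, _, n1⟩ | ⟨n1, _⟩
    · exact absurd n1 m1
    · exact absurd n1 m2
    · exact absurd n1 m1
    · omega
    · exact absurd n1 hgc
  · omega
  · exact absurd e hgc

/-- a walk which crosses an edge contains its end points -/
theorem mem_support_of_cross (hT : X.IsTree) {q r : V} (hqr : X.Adj q r) {a b : V}
    (p : X.Walk a b) (ha : a ∉ Hf X q r) (hb : b ∈ Hf X q r) : q ∈ p.support ∧ r ∈ p.support := by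
  induction p with
  | nil => exact absurd hb ha
  | @cons a c b h p ih =>
    by_cases hc : c ∈ Hf X q r
    · obtain ⟨e1, e2⟩ := cross_edge hT hqr ha hc h
      subst e1
      subst e2
      constructor
      · simp
      · rw [SimpleGraph.Walk.support_cons]
        exact List.mem_cons_of_mem _ (SimpleGraph.Walk.start_mem_support p)
    · obtain ⟨k1, k2⟩ := ih hc hb
      rw [SimpleGraph.Walk.support_cons]
      exact ⟨List.mem_cons_of_mem _ k1, List.mem_cons_of_mem _ k2⟩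

/-- finitely many edges separate two vertices -/
theorem sep_finite (hT : X.IsTree) (a b : V) :
    {e : V × V | X.Adj e.1 e.2 ∧ a ∉ Hf X e.1 e.2 ∧ b ∈ Hf X e.1 e.2}.Finite := by
  classical
  obtain ⟨p, _, _⟩ := exists_path hT a b
  refine Set.Finite.subset (p.support.toFinset ×ˢ p.support.toFinset).finite_toSet ?_
  rintro ⟨q, r⟩ ⟨h1, h2, h3⟩
  obtain ⟨k1, k2⟩ := mem_support_of_cross hT h1 p h2 h3
  simp [k1, k2]

/-- the orbit of `p` under the powers of `z` changes the side -/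
theorem switch {z : G} {p q r : V} (hin : ∃ a ∈ Subgroup.zpowers z, a • p ∈ Hf X q r)
    (hout : ∃ a ∈ Subgroup.zpowers z, a • p ∉ Hf X q r) :
    ∃ k : ℤ, (z ^ k • p ∉ Hf X q r ∧ z ^ (k + 1) • p ∈ Hf X q r) ∨
      (z ^ k • p ∈ Hf X q r ∧ z ^ (k + 1) • p ∉ Hf X q r) := by
  by_contra hc
  push Not at hc
  have key : ∀ k : ℤ, z ^ k • p ∈ Hf X q r ↔ z ^ (k + 1) • p ∈ Hf X q r := by
    intro k
    obtain ⟨h1, h2⟩ := hc k
    constructor
    · exact h2
    · intro h3
      by_contra h4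
      exact h1 h4 h3
  have all : ∀ k : ℤ, z ^ k • p ∈ Hf X q r ↔ p ∈ Hf X q r := by
    intro k
    induction k using Int.induction_on with
    | zero => simp
    | succ n ih => rw [← key, ih]
    | pred n ih =>
      rw [key, show (-(n : ℤ) - 1 + 1) = -(n : ℤ) by ring, ih]
  obtain ⟨a, ⟨i, rfl⟩, h1⟩ := hin
  obtain ⟨b, ⟨j, rfl⟩, h2⟩ := hout
  exact h2 ((all j).2 ((all i).1 h1))

/-- the stabiliser of a translate of an edge -/
theorem mem_ES_smul {a b : V} {g h : G} : h ∈ ES G (g • a) (g • b) ↔ g⁻¹ * h * g ∈ ES G a b := by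
  rw [mem_ES, mem_ES]
  simp only [mul_smul]
  constructor
  · rintro ⟨h1, h2⟩
    exact ⟨by rw [h1, inv_smul_smul], by rw [h2, inv_smul_smul]⟩
  · rintro ⟨h1, h2⟩
    rw [inv_smul_eq_iff] at h1 h2
    exact ⟨h1, h2⟩

/-- malnormal cyclic groups are permuted by conjugation -/
theorem mc_conj {Z Z' : Subgroup G} (g : G) (h : MC Z) (hZ : ∀ a, a ∈ Z' ↔ g⁻¹ * a * g ∈ Z) :
    MC Z' := by
  obtain ⟨⟨z, hz0, hz⟩, hm⟩ := h
  have key : ∀ n : ℤ, (g * z * g⁻¹) ^ n = g * z ^ n * g⁻¹ := by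
    intro n
    rw [conj_zpow]
  refine ⟨⟨g * z * g⁻¹, ?_, ?_⟩, ?_⟩
  · intro n hn h1
    have h2 := key n
    rw [zpow_natCast, zpow_natCast, h1] at h2
    apply hz0 n hn
    have h3 : g * z ^ n * g⁻¹ = 1 := h2.symm
    rwa [mul_inv_eq_one, mul_eq_left] at h3
  · ext a
    rw [hZ, hz, Subgroup.mem_zpowers_iff, Subgroup.mem_zpowers_iff]
    constructor
    · rintro ⟨n, hn⟩
      refine ⟨n, ?_⟩
      rw [key, hn]
      group
    · rintro ⟨n, hn⟩
      refine ⟨n, ?_⟩
      rw [← hn, key]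
      group
  · intro a ha ha1 b hb
    rw [hZ] at ha hb ⊢
    refine hm _ ha ?_ (g⁻¹ * b * g) ?_
    · intro e
      apply ha1
      have : a = g * (g⁻¹ * a * g) * g⁻¹ := by group
      rw [this, e]
      group
    · have : g⁻¹ * b * g * (g⁻¹ * a * g) * (g⁻¹ * b * g)⁻¹ = g⁻¹ * (b * a * b⁻¹) * g := by group
      rw [this]
      exact hb

/-- all edge groups of an HNN tree are malnormal infinite cyclic -/
theorem ht_mc {v : V} {t : G} (hX : HT G X v t) {x y : V} (h : X.Adj x y) : MC (ES G x y) := by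
  obtain ⟨g, ⟨rfl, rfl⟩ | ⟨rfl, rfl⟩⟩ := hX.one x y h
  · exact mc_conj g hX.mc (fun a => mem_ES_smul)
  · rw [ES_symm]
    exact mc_conj g hX.mc (fun a => mem_ES_smul)

/-- roots of elements of vertex groups are in the vertex group -/
theorem root_fix (hT : TA G X) (hmc : ∀ x y, X.Adj x y → MC (ES G x y)) {a : V} {g : G} {n : ℤ}
    (hn : g ^ n ≠ 1) (h : g ^ n • a = a) : g • a = a := by
  by_contra hne
  obtain ⟨c, hc, h1⟩ := first_edge hT.tree (Ne.symm hne)
  have h2 : g ^ n • g • a = g • a := by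
    rw [← mul_smul, ← zpow_add_one, add_comm, zpow_add, zpow_one, mul_smul, h]
  have h3 : g ^ n • c = c := by
    have h4 : g • a ∈ Hf X a (g ^ n • c) := by
      have := (smul_mem_Hf hT.act hT.tree (g ^ n)).2 h1
      rwa [h, h2] at this
    have h5 : X.Adj a (g ^ n • c) := by
      have := hT.act (g ^ n) _ _ hc
      rwa [h] at this
    exact (first_unique hT.tree hc h5 h1 h4).symm
  have h6 : g ^ n ∈ ES G a c := mem_ES.2 ⟨h, h3⟩
  have h7 : g * g ^ n * g⁻¹ ∈ ES G a c := by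
    have : g * g ^ n * g⁻¹ = g ^ n := by
      rw [← zpow_one_add, add_comm, zpow_add_one, mul_inv_cancel_right]
    rw [this]
    exact h6
  have h8 := (hmc a c hc).2 _ h6 hn g h7
  exact hne (mem_ES.1 h8).1

end

section

variable {G : Type} [Group G] {V V' : Type} [MulAction G V] [MulAction G V'] {X : SimpleGraph V}
  {X' : SimpleGraph V'}

/-- displacements are constant on cosets -/
theorem bound_aux (hT : TA G X) {x' y' : V'} {w : G} (hw : ES G x' y' = Subgroup.zpowers w)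
    (v v1 : V) (q r : V') : ∃ D : ℕ, ∀ a : G, a⁻¹ • x' = q → a⁻¹ • y' = r →
      X.dist (a • v) (w • a • v) ≤ D ∧ X.dist (a • v1) (w • a • v1) ≤ D := by
  by_cases hex : ∃ a : G, a⁻¹ • x' = q ∧ a⁻¹ • y' = r
  · obtain ⟨a0, h1, h2⟩ := hex
    refine ⟨max (X.dist (a0 • v) (w • a0 • v)) (X.dist (a0 • v1) (w • a0 • v1)), ?_⟩
    intro a h3 h4
    have hs : a * a0⁻¹ ∈ ES G x' y' := by
      rw [mem_ES, mul_smul, mul_smul, h1, h2, ← h3, ← h4, smul_inv_smul, smul_inv_smul]
      exact ⟨rfl, rfl⟩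
    rw [hw, Subgroup.mem_zpowers_iff] at hs
    obtain ⟨n, hn⟩ := hs
    have ha : a = w ^ n * a0 := by rw [hn, inv_mul_cancel_right]
    have key : ∀ u : V, X.dist (a • u) (w • a • u) = X.dist (a0 • u) (w • a0 • u) := by
      intro u
      have e : w • a • u = w ^ n • w • a0 • u := by
        rw [ha, ← mul_smul, ← mul_smul, ← mul_smul]
        congr 1
        rw [← mul_assoc, ← zpow_one_add, add_comm, zpow_add_one, mul_assoc]
      rw [e, ha, mul_smul]
      exact dist_smul hT.act hT.tree _ _ _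
    rw [key, key]
    exact ⟨le_max_left _ _, le_max_right _ _⟩
  · push Not at hex
    refine ⟨0, ?_⟩
    intro a h3 h4
    exact absurd h4 (hex a h3)

/-- the displacement by `w` is bounded on the edges whose stabiliser crosses `x' y'` -/
theorem bound (hT : TA G X) (hT' : TA G X') {x' y' : V'} (h' : X'.Adj x' y') {w : G}
    (hw : ES G x' y' = Subgroup.zpowers w) {v v1 : V} {z : G}
    (hz : ES G v v1 = Subgroup.zpowers z) : ∃ D : ℕ, ∀ a : G,
      Ess X' (ES G (a • v) (a • v1)) x' y' →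
      X.dist (a • v) (w • a • v) ≤ D ∧ X.dist (a • v1) (w • a • v1) ≤ D := by
  classical
  have hF := sep_finite hT'.tree x' (z • x')
  choose B hB using bound_aux (X := X) hT hw v v1
  obtain ⟨M, hM⟩ := (hF.image (fun e => max (B e.1 e.2) (B e.2 e.1))).bddAbove
  refine ⟨M, ?_⟩
  intro a ha
  have hzk : ∀ k : ℤ, z ^ k ∈ ES G v v1 := by
    intro k
    rw [hz]
    exact Subgroup.zpow_mem _ (Subgroup.mem_zpowers z) k
  have h1 : Ess X' (Subgroup.zpowers z) (a⁻¹ • x') (a⁻¹ • y') := by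
    refine ha.conj hT' a⁻¹ ?_
    intro b hb
    rw [mem_ES_smul] at hb
    rw [← hz, inv_inv]
    exact hb
  obtain ⟨hin, hout⟩ := h1 x'
  obtain ⟨k, hk⟩ := switch hin hout
  have e1 : ∀ u : V', (a * z ^ k)⁻¹ • u = (z ^ k)⁻¹ • a⁻¹ • u := by
    intro u
    rw [mul_inv_rev, mul_smul]
  have e2 : (a * z ^ k) • v = a • v := by
    rw [mul_smul, (mem_ES.1 (hzk k)).1]
  have e3 : (a * z ^ k) • v1 = a • v1 := by
    rw [mul_smul, (mem_ES.1 (hzk k)).2]
  have hadj : X'.Adj ((z ^ k)⁻¹ • a⁻¹ • x') ((z ^ k)⁻¹ • a⁻¹ • y') :=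
    hT'.act _ _ _ (hT'.act _ _ _ h')
  have mv : ∀ (u q r : V'), u ∈ Hf X' ((z ^ k)⁻¹ • q) ((z ^ k)⁻¹ • r) ↔
      z ^ k • u ∈ Hf X' q r := by
    intro u q r
    rw [mem_Hf_smul hT'.act hT'.tree, inv_inv]
  have ez : z ^ k • z • x' = z ^ (k + 1) • x' := by
    rw [← mul_smul, ← zpow_add_one]
  rcases hk with ⟨k1, k2⟩ | ⟨k1, k2⟩
  · have hmem := hM ⟨((z ^ k)⁻¹ • a⁻¹ • x', (z ^ k)⁻¹ • a⁻¹ • y'),
      ⟨hadj, by rw [mv]; exact k1, by rw [mv, ez]; exact k2⟩, rfl⟩
    have h2 := hB ((z ^ k)⁻¹ • a⁻¹ • x') ((z ^ k)⁻¹ • a⁻¹ • y') (a * z ^ k) (e1 _) (e1 _)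
    rw [e2, e3] at h2
    simp only [max_le_iff] at hmem
    exact ⟨h2.1.trans hmem.1, h2.2.trans hmem.1⟩
  · have k1' : z ^ k • x' ∉ Hf X' (a⁻¹ • y') (a⁻¹ • x') := by
      rw [not_mem_Hf hT'.tree (hT'.act _ _ _ h').symm]
      exact k1
    have k2' : z ^ (k + 1) • x' ∈ Hf X' (a⁻¹ • y') (a⁻¹ • x') := by
      rwa [not_mem_Hf hT'.tree (hT'.act _ _ _ h')] at k2
    have hmem := hM ⟨((z ^ k)⁻¹ • a⁻¹ • y', (z ^ k)⁻¹ • a⁻¹ • x'),
      ⟨hadj.symm, by rw [mv]; exact k1', by rw [mv, ez]; exact k2'⟩, rfl⟩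
    have h2 := hB ((z ^ k)⁻¹ • a⁻¹ • x') ((z ^ k)⁻¹ • a⁻¹ • y') (a * z ^ k) (e1 _) (e1 _)
    rw [e2, e3] at h2
    simp only [max_le_iff] at hmem
    exact ⟨h2.1.trans hmem.2, h2.2.trans hmem.2⟩

/-- if `ES G x y` crosses the edge `x' y'` then a generator of `ES G x' y'` is not in `ES G x y` -/
theorem not_mem_of_ess {x y : V} {x' y' : V'} (hz : ∃ z, ES G x y = Subgroup.zpowers z)
    (hmc : MC (ES G x' y')) {w : G} (hw1 : w ≠ 1) (hw : w ∈ ES G x' y')
    (hess : Ess X' (ES G x y) x' y') : w ∉ ES G x y := by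
  intro hwxy
  obtain ⟨z, hz⟩ := hz
  have h1 : z ∈ ES G x' y' := by
    refine hmc.2 w hw hw1 z ?_
    have : z * w * z⁻¹ = w := by
      rw [hz, Subgroup.mem_zpowers_iff] at hwxy
      obtain ⟨n, rfl⟩ := hwxy
      rw [← zpow_one_add, add_comm, zpow_add_one, mul_inv_cancel_right]
    rw [this]
    exact hw
  obtain ⟨⟨a, ha, h2⟩, _⟩ := hess x'
  rw [hz] at ha
  have h3 : a ∈ ES G x' y' := by
    have h4 : Subgroup.zpowers z ≤ ES G x' y' := by
      rw [Subgroup.zpowers_le]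
      exact h1
    exact h4 ha
  rw [(mem_ES.1 h3).1] at h2
  exact left_not_mem_Hf h2

/-- MAIN POINT -/
theorem cross_main (hFS : S_FS) (hFI : FI G) {v : V} {t : G} (hX : HT G X v t)
    (hT' : TA G X') {x' y' : V'} (h' : X'.Adj x' y') {w : G}
    (hw : ES G x' y' = Subgroup.zpowers w) {x y : V} (hadj : X.Adj x y)
    (hess : Ess X' (ES G x y) x' y') : X.dist x (w • x) = X.dist y (w • y) := by
  classical
  have hT : TA G X := hX.toTA
  obtain ⟨⟨z, hz0, hz⟩, _⟩ := hX.mc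
  obtain ⟨D, hD⟩ := bound hT hT' h' hw hz
  have hbd : ∀ a b : V, X.Adj a b → Ess X' (ES G a b) x' y' → X.dist b (w • b) ≤ D := by
    intro a b hab he
    obtain ⟨g, ⟨rfl, rfl⟩ | ⟨rfl, rfl⟩⟩ := hX.one a b hab
    · exact (hD g he).2
    · rw [ES_symm] at he
      exact (hD g he).1
  have key : ∀ (a b : V), X.Adj a b → Ess X' (ES G a b) x' y' →
      ¬ X.dist a (w • a) < X.dist b (w • b) := by
    intro a0 b0 hab0 he0 hlt0
    have hall : ∀ n : ℕ, ∃ a b : V, X.Adj a b ∧ Ess X' (ES G a b) x' y' ∧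
        X.dist a (w • a) < X.dist b (w • b) ∧ n ≤ X.dist b (w • b) := by
      intro n
      induction n with
      | zero => exact ⟨a0, b0, hab0, he0, hlt0, Nat.zero_le _⟩
      | succ n ih =>
        obtain ⟨a, b, hab, he, hlt, hn⟩ := ih
        have hwb : w • b ≠ b := by
          intro e
          rw [e, SimpleGraph.dist_self] at hlt
          omega
        have hstab : Ess X' (MulAction.stabilizer G b) x' y' := by
          refine he.mono ?_
          intro s hs
          exact (mem_ES.1 hs).2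
        have hbot : MulAction.stabilizer G b ⊓ ES G x' y' = ⊥ := by
          rw [eq_bot_iff]
          intro s hs
          obtain ⟨hs1, hs2⟩ := Subgroup.mem_inf.1 hs
          rw [hw, Subgroup.mem_zpowers_iff] at hs2
          obtain ⟨m, rfl⟩ := hs2
          rw [Subgroup.mem_bot]
          by_contra hne
          exact hwb (root_fix hT (fun _ _ h => ht_mc hX h) hne hs1)
        obtain ⟨c, c', hne, hc, hc', hec, hec'⟩ := hFS G V V' X X' v t x' y' hFI hX hT' h' b
          hstab hbot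
        by_cases hca : c = a
        · have hc'a : c' ≠ a := by
            rintro rfl
            exact hne hca
          have := grow hT hab hc' hc'a w hlt
          exact ⟨b, c', hc', hec', this, by omega⟩
        · have := grow hT hab hc hca w hlt
          exact ⟨b, c, hc, hec, this, by omega⟩
    obtain ⟨a, b, hab, he, _, hn⟩ := hall (D + 1)
    have := hbd a b hab he
    omega
  have k1 := key x y hadj hess
  have k2 := key y x hadj.symm (by rw [ES_symm]; exact hess)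
  omega

/-- the two possibilities for a crossing edge -/
theorem cross_two (hFS : S_FS) (hFI : FI G) {v : V} {t : G} (hX : HT G X v t)
    (hT' : TA G X') {x' y' : V'} (h' : X'.Adj x' y') (hmc : MC (ES G x' y')) {w : G}
    (hw0 : ∀ n : ℕ, 0 < n → w ^ n ≠ 1)
    (hw : ES G x' y' = Subgroup.zpowers w) {x y : V} (hadj : X.Adj x y)
    (hess : Ess X' (ES G x y) x' y') :
    (w • x ∈ Hf X x y ∧ x ∉ Hf X (w • x) (w • y)) ∨
      (w • x ∉ Hf X x y ∧ x ∈ Hf X (w • x) (w • y)) := by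
  have hd := cross_main hFS hFI hX hT' h' hw hadj hess
  rcases tri hX.toTA hadj w with ⟨k1, k2, _⟩ | ⟨k1, k2, _⟩ | ⟨_, _, e⟩ | ⟨_, _, e⟩ | ⟨k1, k2⟩
  · exact Or.inl ⟨k1, k2⟩
  · exact Or.inr ⟨k1, k2⟩
  · omega
  · omega
  · exfalso
    obtain ⟨z, _, hz⟩ := (ht_mc hX hadj).1
    refine not_mem_of_ess ⟨z, hz⟩ hmc ?_ ?_ hess (mem_ES.2 ⟨k1, k2⟩)
    · have := hw0 1 one_pos
      rwa [pow_one] at this
    · rw [hw]
      exact Subgroup.mem_zpowers w

end

/-- (C1) crossing is symmetric -/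
theorem p_C1 (hFS : S_FS) : S_C1 := by
  intro G _ V V' _ _ X X' v t v' t' hFI hX hX' x y x' y' hadj h' hess
  have hmc := ht_mc hX' h'
  obtain ⟨w, hw0, hw⟩ := hmc.1
  have hwm : w ∈ ES G x' y' := by
    rw [hw]
    exact Subgroup.mem_zpowers w
  rcases cross_two hFS hFI hX hX'.toTA h' hmc hw0 hw hadj hess with ⟨k1, k2⟩ | ⟨k1, k2⟩
  · exact ess_of_trans hX.toTA hadj hwm k1 k2
  · refine ess_of_trans hX.toTA hadj ((ES G x' y').inv_mem hwm) ?_ ?_
    · rwa [mem_Hf_smul hX.act hX.tree] at k2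
    · rw [mem_Hf_smul hX.act hX.tree, inv_inv]
      exact k1

/-- (C2) at most two crossing edges at a vertex -/
theorem p_C2 (hFS : S_FS) : S_C2 := by
  intro G _ V V' _ _ X X' v t v' t' hFI hX hX' u x' y' h' _ c1 c2 c3 a1 a2 a3 e1 e2 e3
  have hmc := ht_mc hX' h'
  obtain ⟨w, hw0, hw⟩ := hmc.1
  have hT : TA G X := hX.toTA
  have hin : ∀ c c' : V, X.Adj u c → X.Adj u c' → w • u ∈ Hf X u c → w • u ∈ Hf X u c' → c = c' :=
    fun c c' h1 h2 h3 h4 => first_unique hT.tree h1 h2 h3 h4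
  have hout : ∀ c c' : V, X.Adj u c → X.Adj u c' → u ∈ Hf X (w • u) (w • c) →
      u ∈ Hf X (w • u) (w • c') → c = c' := by
    intro c c' h1 h2 h3 h4
    exact MulAction.injective w
      (first_unique hT.tree (hT.act w _ _ h1) (hT.act w _ _ h2) h3 h4)
  have k1 := cross_two hFS hFI hX hX'.toTA h' hmc hw0 hw a1 e1
  have k2 := cross_two hFS hFI hX hX'.toTA h' hmc hw0 hw a2 e2
  have k3 := cross_two hFS hFI hX hX'.toTA h' hmc hw0 hw a3 e3
  rcases k1 with k1 | k1 <;> rcases k2 with k2 | k2 <;> rcases k3 with k3 | k3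
  · exact Or.inl (hin _ _ a1 a2 k1.1 k2.1)
  · exact Or.inl (hin _ _ a1 a2 k1.1 k2.1)
  · exact Or.inr (Or.inl (hin _ _ a1 a3 k1.1 k3.1))
  · exact Or.inr (Or.inr (hout _ _ a2 a3 k2.2 k3.2))
  · exact Or.inr (Or.inr (hin _ _ a2 a3 k2.1 k3.1))
  · exact Or.inr (Or.inl (hout _ _ a1 a3 k1.2 k3.2))
  · exact Or.inl (hout _ _ a1 a2 k1.2 k2.2)
  · exact Or.inl (hout _ _ a1 a2 k1.2 k2.2)

end Pool.Agent.SuUp
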