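import Pool.Agent.Lib.MP_305fdd_al.Su.Up.Met

/-!
# Essential edges (MP_305fdd_al, surface groups, block UP)

An edge `u v` of a tree is essential for a subgroup `E` if every orbit of `E` meets both half trees.
-/

set_option autoImplicit false

namespace Pool.Agent.SuUp

/-- an action on a tree without inversions -/
structure TA (G : Type) [Group G] {V : Type} [MulAction G V] (X : SimpleGraph V) : Prop where
  tree : X.IsTree
  act : ∀ (g : G) (x y : V), X.Adj x y → X.Adj (g • x) (g • y)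
  noinv : ∀ (g : G) (x y : V), X.Adj x y → ¬ (g • x = y ∧ g • y = x)

section

variable {G : Type} [Group G] {V : Type} [MulAction G V] {X : SimpleGraph V}

/-- every orbit of `E` meets both half trees of the edge `u v` -/
def Ess (X : SimpleGraph V) (E : Subgroup G) (u v : V) : Prop :=
  ∀ x : V, (∃ a ∈ E, a • x ∈ Hf X u v) ∧ (∃ a ∈ E, a • x ∉ Hf X u v)

/-- the stabiliser of an edge -/
def ES (G : Type) [Group G] {V : Type} [MulAction G V] (u v : V) : Subgroup G :=
  MulAction.stabilizer G u ⊓ MulAction.stabilizer G v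

theorem mem_ES {u v : V} {g : G} : g ∈ ES G u v ↔ g • u = u ∧ g • v = v := by
  simp [ES, Subgroup.mem_inf]

theorem ES_symm (u v : V) : ES G u v = ES G v u := by
  rw [ES, ES, inf_comm]

theorem Ess.symm (hT : X.IsTree) {E : Subgroup G} {u v : V} (huv : X.Adj u v)
    (h : Ess X E u v) : Ess X E v u := by
  intro x
  obtain ⟨⟨a, ha, h1⟩, ⟨b, hb, h2⟩⟩ := h x
  refine ⟨⟨b, hb, ?_⟩, ⟨a, ha, ?_⟩⟩
  · rwa [not_mem_Hf hT huv] at h2
  · rw [not_mem_Hf hT huv.symm]
    exact h1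

theorem Ess.mono {E E' : Subgroup G} (hE : E ≤ E') {u v : V} (h : Ess X E u v) : Ess X E' u v := by
  intro x
  obtain ⟨⟨a, ha, h1⟩, ⟨b, hb, h2⟩⟩ := h x
  exact ⟨⟨a, hE ha, h1⟩, ⟨b, hE hb, h2⟩⟩

/-- essential edges are permuted; general form -/
theorem Ess.conj (hT : TA G X) {E E' : Subgroup G} (g : G) (hE : ∀ a ∈ E, g * a * g⁻¹ ∈ E')
    {u v : V} (h : Ess X E u v) : Ess X E' (g • u) (g • v) := by
  intro x
  obtain ⟨⟨a, ha, h1⟩, ⟨b, hb, h2⟩⟩ := h (g⁻¹ • x)
  have key : ∀ c : G, (g * c * g⁻¹) • x = g • c • g⁻¹ • x := by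
    intro c
    rw [mul_smul, mul_smul]
  refine ⟨⟨g * a * g⁻¹, hE a ha, ?_⟩, ⟨g * b * g⁻¹, hE b hb, ?_⟩⟩
  · rw [key, smul_mem_Hf hT.act hT.tree]
    exact h1
  · rw [key, smul_mem_Hf hT.act hT.tree]
    exact h2

theorem Ess.smul_mem (hT : TA G X) {E : Subgroup G} {g : G} (hg : g ∈ E)
    {u v : V} (h : Ess X E u v) : Ess X E (g • u) (g • v) :=
  h.conj hT g (fun _ ha => E.mul_mem (E.mul_mem hg ha) (E.inv_mem hg))

/-- `y` is an end point of an essential edge -/
def EssV (X : SimpleGraph V) (E : Subgroup G) (y : V) : Prop := ∃ y', X.Adj y y' ∧ Ess X E y y'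

private theorem half (hT : X.IsTree) {E : Subgroup G} {y2 a b : V} (hab : X.Adj a b)
    (h2 : EssV X E y2) (hy2 : y2 ∈ Hf X a b) :
    Ess X E a b ∨ ∀ x : V, ∃ g ∈ E, g • x ∈ Hf X a b := by
  obtain ⟨y3, hadj, hess⟩ := h2
  by_cases h3 : y3 ∈ Hf X a b
  · right
    intro x
    by_cases ha : a ∈ Hf X y2 y3
    · have ha' : a ∉ Hf X y3 y2 := by
        rw [not_mem_Hf hT hadj.symm]
        exact ha
      have hn := nest hT hadj.symm hab hy2 ha'
      obtain ⟨_, ⟨g, hg, hgx⟩⟩ := hess x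
      rw [not_mem_Hf hT hadj] at hgx
      exact ⟨g, hg, hn hgx⟩
    · have hn := nest hT hadj hab h3 ha
      obtain ⟨⟨g, hg, hgx⟩, _⟩ := hess x
      exact ⟨g, hg, hn hgx⟩
  · left
    obtain ⟨e1, e2⟩ := cross_edge hT hab h3 hy2 hadj.symm
    rw [← e1, ← e2]
    exact hess.symm hT hadj

/-- convexity of the minimal subtree -/
theorem ess_conv (hT : X.IsTree) {E : Subgroup G} {y y2 a b : V} (hab : X.Adj a b)
    (h1 : EssV X E y) (h2 : EssV X E y2) (hy : y ∉ Hf X a b) (hy2 : y2 ∈ Hf X a b) :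
    Ess X E a b := by
  rcases half hT hab h2 hy2 with h | h
  · exact h
  have hy' : y ∈ Hf X b a := by rwa [not_mem_Hf hT hab] at hy
  rcases half hT hab.symm h1 hy' with h' | h'
  · exact h'.symm hT hab.symm
  intro x
  refine ⟨h x, ?_⟩
  obtain ⟨g, hg, hgx⟩ := h' x
  refine ⟨g, hg, ?_⟩
  rw [not_mem_Hf hT hab]
  exact hgx

/-- first edge of the geodesic -/
theorem first_edge (hT : X.IsTree) {a b : V} (hab : a ≠ b) : ∃ c, X.Adj a c ∧ b ∈ Hf X a c := by
  obtain ⟨p, hp, hl⟩ := exists_path hT a b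
  cases p with
  | nil => exact absurd rfl hab
  | @cons _ c _ h q =>
    refine ⟨c, h, ?_⟩
    rw [mem_Hf]
    have h1 : X.dist c b ≤ q.length := SimpleGraph.dist_le q
    rw [SimpleGraph.Walk.length_cons] at hl
    have c1 : X.dist b c = X.dist c b := SimpleGraph.dist_comm
    have c2 : X.dist b a = X.dist a b := SimpleGraph.dist_comm
    omega

/-- the first edge is unique -/
theorem first_unique (hT : X.IsTree) {a b c c' : V} (hc : X.Adj a c) (hc' : X.Adj a c')
    (h : b ∈ Hf X a c) (h' : b ∈ Hf X a c') : c = c' := by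
  by_contra hne
  -- c' is not in Hf a c
  have h1 : c' ∉ Hf X a c := by
    intro h1
    obtain ⟨_, e⟩ := cross_edge hT hc left_not_mem_Hf h1 hc'
    exact hne e.symm
  have h2 : c ∉ Hf X a c' := by
    intro h2
    obtain ⟨_, e⟩ := cross_edge hT hc' left_not_mem_Hf h2 hc
    exact hne e
  have h3 : b ∉ Hf X a c := by
    have h4 : Hf X a c' ⊆ Hf X c a := by
      refine nest hT hc' hc.symm ?_ h2
      rwa [← not_mem_Hf hT hc]
    have := h4 h'
    rw [not_mem_Hf hT hc]
    exact this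
  exact h3 h

end

end Pool.Agent.SuUp
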