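import Pool.Agent.Lib.MP_305fdd_al.Su.Up.Ess2
import Pool.Agent.Lib.MP_305fdd_al.Fr.T.Pot

/-!
# Potentials on square complexes in a product of two trees (MP_305fdd_al, surface groups, block UP)

`S x` is a set of vertices of the second tree for every vertex `x` of the first tree; for adjacent
vertices `x`, `w` the intersection `S x ∩ S w` is convex and not empty.  A cochain on the edges of the
product with sum zero around the squares with corners in `S` has a potential.
-/

set_option autoImplicit false

namespace Pool.Agent.SuUp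

open Pool.Agent.FrT

variable {V V' : Type} {X : SimpleGraph V} {X' : SimpleGraph V'}

/-- induction over the points of a convex set -/
theorem convex_ind (hX : X.IsTree) (S : V → Prop)
    (hconv : ∀ y y2, S y → S y2 → ∀ a b, X.Adj a b → y ∉ Hf X a b → y2 ∈ Hf X a b → S a ∧ S b)
    (P : V → V → Prop) (h0 : ∀ y, S y → P y y)
    (step : ∀ a b c, X.Adj a b → S a → S b → S c → P b c → P a c) :
    ∀ y y2, S y → S y2 → P y y2 := by
  have key : ∀ n : ℕ, ∀ y y2, S y → S y2 → X.dist y y2 = n → P y y2 := by
    intro n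
    induction n using Nat.strong_induction_on with
    | _ n ih =>
      intro y y2 hy hy2 hn
      by_cases hne : y = y2
      · rw [← hne]
        exact h0 y hy
      · obtain ⟨c, hc, hc2⟩ := first_edge hX hne
        obtain ⟨_, h2⟩ := hconv y y2 hy hy2 y c hc left_not_mem_Hf hc2
        have h3 : X.dist c y2 < X.dist y y2 := by
          rw [mem_Hf] at hc2
          rw [SimpleGraph.dist_comm (u := c), SimpleGraph.dist_comm (u := y)]
          exact hc2
        exact step y c y2 hc hy h2 hy2 (ih _ (by omega) c y2 h2 hy2 rfl)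
  intro y y2 hy hy2
  exact key _ y y2 hy hy2 rfl

/-- potentials -/
theorem pot2 (hX : X.IsTree) (hX' : X'.IsTree) (S : V → V' → Prop)
    (hconv : ∀ x w, X.Adj x w → ∀ y y2, (S x y ∧ S w y) → (S x y2 ∧ S w y2) →
      ∀ a b, X'.Adj a b → y ∉ Hf X' a b → y2 ∈ Hf X' a b → (S x a ∧ S w a) ∧ (S x b ∧ S w b))
    (hne : ∀ x w, X.Adj x w → ∃ a, S x a ∧ S w a)
    (c : V × V' → V × V' → ℤ) (hc : ∀ p q, c q p = - c p q)
    (hsq : ∀ x w a b, X.Adj x w → X'.Adj a b → S x a → S w a → S x b → S w b →
      c (x, a) (x, b) + c (x, b) (w, b) = c (x, a) (w, a) + c (w, a) (w, b)) :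
    ∃ F : V × V' → ℤ, (∀ x a b, X'.Adj a b → F (x, b) = F (x, a) + c (x, a) (x, b)) ∧
      ∀ x w a, X.Adj x w → S x a → S w a → F (w, a) = F (x, a) + c (x, a) (w, a) := by
  classical
  have h1 : ∀ x, ∃ P : V' → ℤ, ∀ a b, X'.Adj a b → P b = P a + c (x, a) (x, b) :=
    fun x => pot hX' (fun a b => c (x, a) (x, b)) (fun a b _ => hc _ _)
  choose P hP using h1
  -- the defect is constant
  have h2 : ∀ x w, X.Adj x w → ∀ a b, (S x a ∧ S w a) → (S x b ∧ S w b) →
      P w a - P x a - c (x, a) (w, a) = P w b - P x b - c (x, b) (w, b) := by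
    intro x w hxw
    refine convex_ind hX' (fun a => S x a ∧ S w a) (hconv x w hxw)
      (fun a b => P w a - P x a - c (x, a) (w, a) = P w b - P x b - c (x, b) (w, b))
      (fun _ _ => rfl) ?_
    intro a b d hab ha hb _ h
    rw [← h]
    have e1 := hP w a b hab
    have e2 := hP x a b hab
    have e3 := hsq x w a b hxw hab ha.1 ha.2 hb.1 hb.2
    rw [e1, e2]
    linarith
  let d : V → V → ℤ := fun x w => if h : X.Adj x w then
    - (P w (hne x w h).choose - P x (hne x w h).choose -
      c (x, (hne x w h).choose) (w, (hne x w h).choose)) else 0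
  have hd : ∀ x w, X.Adj x w → ∀ a, S x a → S w a →
      d x w = - (P w a - P x a - c (x, a) (w, a)) := by
    intro x w h a ha ha'
    show (if h : X.Adj x w then _ else _) = _
    rw [dif_pos h, h2 x w h _ a (hne x w h).choose_spec ⟨ha, ha'⟩]
  obtain ⟨Q, hQ⟩ := pot hX d (by
    intro x w h
    obtain ⟨a, ha, ha'⟩ := hne x w h
    rw [hd x w h a ha ha', hd w x h.symm a ha' ha, hc (x, a) (w, a)]
    ring)
  refine ⟨fun p => P p.1 p.2 + Q p.1, ?_, ?_⟩
  · intro x a b hab
    show P x b + Q x = P x a + Q x + _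
    rw [hP x a b hab]
    ring
  · intro x w a hxw ha ha'
    show P w a + Q w = P x a + Q x + _
    rw [hQ x w hxw, hd x w hxw a ha ha']
    ring

end Pool.Agent.SuUp
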