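import Pool.Agent.Lib.MP_305fdd_al.Su.Up.Cross

/-!
# Translations and fixed vertices (MP_305fdd_al, surface groups)

`Tr X g u v`: `g` translates the edge `u v`.  An element has a translated edge iff it has no fixed
vertex (`exists_tr`, `Tr.not_fix`); a power of such an element has no fixed vertex (`pow_fix`); an
essential edge of `E` is translated by an element of `E` (`exists_tr_of_ess`); if `a` has a fixed vertex
and commutes with `h` then `a` fixes all edges translated by `h` (`fix_of_comm`).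
-/

set_option autoImplicit false

namespace Pool.Agent.SuUp

section

variable {G : Type} [Group G] {V : Type} [MulAction G V] {X : SimpleGraph V}

/-- `g` translates the edge `u v` -/
def Tr (X : SimpleGraph V) (g : G) (u v : V) : Prop :=
  g • u ∈ Hf X u v ∧ u ∉ Hf X (g • u) (g • v)

theorem Tr.ess (hT : TA G X) {E : Subgroup G} {u v : V} (hadj : X.Adj u v) {g : G} (hg : g ∈ E)
    (h : Tr X g u v) : Ess X E u v := ess_of_trans hT hadj hg h.1 h.2

/-- a translation has no fixed vertex, nor do its powers -/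
theorem Tr.pow_not_fix (hT : TA G X) {u v : V} (hadj : X.Adj u v) {g : G} (h : Tr X g u v)
    {n : ℕ} (hn : 0 < n) (b : V) : g ^ n • b ≠ b := by
  intro hb
  obtain ⟨_, _, hd, _⟩ := trans_dist hT hadj h.1 h.2
  have hk : ∀ k : ℕ, (g ^ n) ^ k • b = b := by
    intro k
    induction k with
    | zero => simp
    | succ k ih => rw [pow_succ, mul_smul, hb, ih]
  set k := 2 * X.dist u b + 1 with hkdef
  have h1 := hd (n * k)
  rw [pow_mul] at h1
  have h2 := dist_tri hT.tree u b ((g ^ n) ^ k • u)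
  have h3 : X.dist b ((g ^ n) ^ k • u) = X.dist b u := by
    conv_lhs => rw [← hk k]
    exact dist_smul hT.act hT.tree _ _ _
  have h4 : X.dist b u = X.dist u b := SimpleGraph.dist_comm
  have h5 : k ≤ n * k := Nat.le_mul_of_pos_left k hn
  omega

theorem Tr.not_fix (hT : TA G X) {u v : V} (hadj : X.Adj u v) {g : G} (h : Tr X g u v) (b : V) :
    g • b ≠ b := by
  have := h.pow_not_fix hT hadj one_pos b
  rwa [pow_one] at this

/-- if `g ^ n` has a fixed vertex then so has `g` -/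
theorem pow_fix (hT : TA G X) {g : G} {n : ℕ} (hn : 0 < n) {a : V} (ha : g ^ n • a = a) :
    ∃ b : V, g • b = b := by
  classical
  by_contra hc
  push Not at hc
  have hex : ∃ m : ℕ, ∃ b, g ^ n • b = b ∧ X.dist b (g • b) = m := ⟨_, a, ha, rfl⟩
  obtain ⟨b, hb, hbm⟩ := Nat.find_spec hex
  have hmin : ∀ b', g ^ n • b' = b' → X.dist b (g • b) ≤ X.dist b' (g • b') := by
    intro b' hb'
    rw [hbm]
    exact Nat.find_min' hex ⟨b', hb', rfl⟩
  obtain ⟨c, hadj, h1⟩ := first_edge hT.tree (hc b).symm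
  have h2 : g ^ n • g • b = g • b := by
    rw [← mul_smul, ← pow_succ, pow_succ', mul_smul, hb]
  have h3 : g ^ n • c = c := by
    have h4 : g • b ∈ Hf X b (g ^ n • c) := by
      have := (smul_mem_Hf hT.act hT.tree (g ^ n)).2 h1
      rwa [hb, h2] at this
    have h5 : X.Adj b (g ^ n • c) := by
      have := hT.act (g ^ n) _ _ hadj
      rwa [hb] at this
    exact (first_unique hT.tree hadj h5 h1 h4).symm
  have h4 := hmin c h3
  rcases tri hT hadj g with ⟨k1, k2, _⟩ | ⟨k1, _, _⟩ | ⟨_, _, e⟩ | ⟨k1, _, _⟩ | ⟨k1, _⟩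
  · exact Tr.pow_not_fix hT hadj ⟨k1, k2⟩ hn b hb
  · exact k1 h1
  · omega
  · exact k1 h1
  · exact hc b k1

/-- an element without a fixed vertex translates an edge -/
theorem exists_tr (hT : TA G X) {g : G} (hg : ∀ b : V, g • b ≠ b) :
    ∃ u v : V, X.Adj u v ∧ Tr X g u v := by
  classical
  obtain ⟨x0⟩ := hT.tree.connected.nonempty
  have hex : ∃ m : ℕ, ∃ b, X.dist b (g • b) = m := ⟨_, x0, rfl⟩
  obtain ⟨b, hbm⟩ := Nat.find_spec hex
  have hmin : ∀ b', X.dist b (g • b) ≤ X.dist b' (g • b') := by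
    intro b'
    rw [hbm]
    exact Nat.find_min' hex ⟨b', rfl⟩
  obtain ⟨c, hadj, h1⟩ := first_edge hT.tree (hg b).symm
  refine ⟨b, c, hadj, ?_⟩
  have h4 := hmin c
  rcases tri hT hadj g with ⟨k1, k2, _⟩ | ⟨k1, _, _⟩ | ⟨_, _, e⟩ | ⟨k1, _, _⟩ | ⟨k1, _⟩
  · exact ⟨k1, k2⟩
  · exact absurd h1 k1
  · omega
  · exact absurd h1 k1
  · exact absurd k1 (hg b)

/-- an essential edge is translated -/
theorem exists_tr_of_ess (hT : TA G X) {E : Subgroup G} {u v : V} (hadj : X.Adj u v)
    (h : Ess X E u v) : ∃ g ∈ E, Tr X g u v := by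
  by_contra hc
  push Not at hc
  obtain ⟨⟨a, ha, ha1⟩, _⟩ := h u
  obtain ⟨_, ⟨b, hb, hb1⟩⟩ := h v
  -- `a u` beyond the edge, facing
  have ha2 : u ∈ Hf X (a • u) (a • v) := by
    by_contra h2
    exact hc a ha ⟨ha1, h2⟩
  have hav : a • v ∈ Hf X u v := by
    by_contra h3
    obtain ⟨e1, e2⟩ := cross_edge hT.tree hadj h3 ha1 (hT.act a _ _ hadj).symm
    exact hT.noinv a u v hadj ⟨e2, e1⟩
  -- `b v` not beyond the edge, back to back
  have hb2 : b • u ∉ Hf X u v := by
    intro h3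
    obtain ⟨e1, e2⟩ := cross_edge hT.tree hadj hb1 h3 (hT.act b _ _ hadj).symm
    exact hT.noinv b u v hadj ⟨e2, e1⟩
  have hb3 : u ∉ Hf X (b • u) (b • v) := by
    intro h3
    apply hc b⁻¹ (E.inv_mem hb)
    refine ⟨?_, ?_⟩
    · rwa [mem_Hf_smul hT.act hT.tree] at h3
    · rw [mem_Hf_smul hT.act hT.tree, inv_inv]
      exact hb2
  -- half trees
  have n1 : Hf X v u ⊆ Hf X (a • u) (a • v) := by
    refine nest hT.tree hadj.symm (hT.act a _ _ hadj) ha2 ?_
    rw [not_mem_Hf hT.tree hadj.symm]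
    exact ha1
  have n2 : Hf X (b • u) (b • v) ⊆ Hf X v u := by
    refine nest hT.tree (hT.act b _ _ hadj) hadj.symm ?_ ?_
    · rwa [not_mem_Hf hT.tree hadj] at hb1
    · intro h3
      -- `v` beyond `b (u v)`, but `u` is not: the edges are equal
      obtain ⟨e1, e2⟩ := cross_edge hT.tree (hT.act b _ _ hadj) hb3 h3 hadj
      rw [← e2] at hb1
      exact hb1 (right_mem_Hf hT.tree hadj)
  -- the element `(b a)⁻¹ `
  apply hc (b * a)⁻¹ (E.inv_mem (E.mul_mem hb ha))
  have n3 : Hf X (b • v) (b • u) ⊆ Hf X ((b * a) • u) ((b * a) • v) := by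
    intro x hx
    rw [mem_Hf_smul hT.act hT.tree] at hx ⊢
    have h5 := n1 hx
    rw [mem_Hf_smul hT.act hT.tree] at h5
    rwa [mul_inv_rev, mul_smul]
  have h6 : u ∈ Hf X (b • v) (b • u) := by
    rwa [not_mem_Hf hT.tree (hT.act b _ _ hadj)] at hb3
  have h7 : u ∈ Hf X ((b * a) • u) ((b * a) • v) := n3 h6
  have h8 : (b * a) • u ∉ Hf X u v := by
    have h9 : (b * a) • u ∈ Hf X (b • u) (b • v) := by
      rw [mem_Hf_smul hT.act hT.tree, mul_smul, inv_smul_smul]
      exact ha1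
    have h10 := n2 h9
    rwa [not_mem_Hf hT.tree hadj]
  refine ⟨?_, ?_⟩
  · rwa [mem_Hf_smul hT.act hT.tree] at h7
  · rw [mem_Hf_smul hT.act hT.tree, inv_inv]
    exact h8

/-- an element which fixes two vertices fixes all edges between them -/
theorem fix_between (hT : TA G X) {u v : V} (hadj : X.Adj u v) {a : G} {x y : V} (hx : a • x = x)
    (hy : a • y = y) (h1 : x ∉ Hf X u v) (h2 : y ∈ Hf X u v) : a ∈ ES G u v := by
  have hadj' := hT.act a _ _ hadj
  have h1' : x ∉ Hf X (a • u) (a • v) := by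
    intro h
    rw [← hx, smul_mem_Hf hT.act hT.tree] at h
    exact h1 h
  have h2' : y ∈ Hf X (a • u) (a • v) := by
    rw [← hy, smul_mem_Hf hT.act hT.tree]
    exact h2
  have d1 : X.dist x (a • u) = X.dist x u := by
    conv_lhs => rw [← hx]
    exact dist_smul hT.act hT.tree _ _ _
  have d2 : X.dist (a • v) y = X.dist v y := by
    conv_lhs => rw [← hy]
    exact dist_smul hT.act hT.tree _ _ _
  have k1 : u ∉ Hf X (a • u) (a • v) := by
    intro h
    rw [not_mem_Hf hT.tree hadj'] at h1'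
    have := sep hT.tree hadj' h1' h
    omega
  have k2 : v ∈ Hf X (a • u) (a • v) := by
    by_contra h
    rw [not_mem_Hf hT.tree hadj'] at h
    have := sep hT.tree hadj' h h2'
    omega
  obtain ⟨e1, e2⟩ := cross_edge hT.tree hadj' k1 k2 hadj
  exact mem_ES.2 ⟨e1.symm, e2.symm⟩

/-- an element with a fixed vertex which commutes with a translation fixes the translated edges -/
theorem fix_of_comm (hT : TA G X) {u v : V} (hadj : X.Adj u v) {h a : G} (hh : Tr X h u v)
    (hc : a * h = h * a) {p : V} (hp : a • p = p) : a ∈ ES G u v := by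
  obtain ⟨n, hn⟩ := trans_in hT hadj hh.1 hh.2 p
  obtain ⟨m, hm⟩ := trans_out hT hadj hh.1 hh.2 p
  have c1 : ∀ n : ℕ, a * h ^ n = h ^ n * a := fun n => ((show Commute a h from hc).pow_right n)
  refine fix_between hT hadj ?_ ?_ hm hn
  · have : a * (h ^ m)⁻¹ = (h ^ m)⁻¹ * a :=
      ((show Commute a (h ^ m) from c1 m).inv_right)
    rw [← mul_smul, this, mul_smul, hp]
  · rw [← mul_smul, c1, mul_smul, hp]

end

/-- (2.3), part B: if `z` has no fixed vertex in `X1` and an abelian finitely generated edge group `W`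
of `X1` has no fixed vertex in `X`, all of whose edge groups are conjugates of `⟨z⟩`, then `W` meets all
vertex stabilisers of `X` trivially. -/
theorem wc_hyp {B : Type} [Group B] {V V1 : Type} [MulAction B V] [MulAction B V1]
    {X : SimpleGraph V} {X1 : SimpleGraph V1} (hT : TA B X) (hT1 : TA B X1) {z : B}
    (hz : ∀ p : V1, z • p ≠ p)
    (hS : ∀ x y, X.Adj x y → ∃ g : B, ES B x y = Subgroup.zpowers (g * z * g⁻¹))
    {x1 y1 : V1} (hfg : (ES B x1 y1).FG)
    (hab : ∀ a ∈ ES B x1 y1, ∀ b ∈ ES B x1 y1, a * b = b * a)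
    (hnf : ¬ ∃ v : V, ∀ g ∈ ES B x1 y1, g • v = v) (u : V) :
    ES B x1 y1 ⊓ MulAction.stabilizer B u = ⊥ := by
  obtain ⟨c, d, hcd, hess⟩ := exists_ess hT hfg hnf
  obtain ⟨h, hh, htr⟩ := exists_tr_of_ess hT hcd hess
  rw [eq_bot_iff]
  intro a ha
  obtain ⟨ha1, ha2⟩ := Subgroup.mem_inf.1 ha
  have h1 : a ∈ ES B c d := fix_of_comm hT hcd htr (hab a ha1 h hh) ha2
  obtain ⟨g, hg⟩ := hS c d hcd
  rw [hg, Subgroup.mem_zpowers_iff] at h1
  obtain ⟨n, rfl⟩ := h1
  rw [Subgroup.mem_bot]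
  by_contra hne
  -- a power of the conjugate of `z` fixes `x1`
  have hfix : (g * z * g⁻¹) ^ n • x1 = x1 := (mem_ES.1 ha1).1
  have hn0 : n ≠ 0 := by
    rintro rfl
    exact hne (zpow_zero _)
  have hnat : (g * z * g⁻¹) ^ n.natAbs • x1 = x1 := by
    rcases Int.natAbs_eq n with e | e
    · rw [e, zpow_natCast] at hfix
      exact hfix
    · rw [e, zpow_neg, zpow_natCast, inv_smul_eq_iff] at hfix
      exact hfix.symm
  obtain ⟨b, hb⟩ := pow_fix hT1 (Int.natAbs_pos.2 hn0) hnat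
  apply hz (g⁻¹ • b)
  rw [mul_smul, mul_smul] at hb
  rw [← inv_smul_smul g (z • g⁻¹ • b), hb]

end Pool.Agent.SuUp
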