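import Pool.Agent.Lib.MP_305fdd_al.Su.Up.Cross
import Pool.Agent.Lib.MP_305fdd_al.Su.Up.Ess3
import Pool.Agent.Lib.MP_305fdd_al.Fr.T.Pot

/-!
# The coset tree of an HNN extension, from a cocycle (MP_305fdd_al, surface groups, block UP)

`G` is generated by `A` and `t`; `C ≤ A` with `t⁻¹ C t ≤ A`.  If there is a function `D : G → (G → ℤ)`
with `D (g a) = D g` and `D (g t) = D g + 1_{g C}`, then the graph with vertices `G / A` and edges
`(g A, g t A)` is a tree, and the stabiliser of the edge `(A, t A)` is `C`.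
-/

set_option autoImplicit false

namespace Pool.Agent.SuUp

open Pool.Agent.SuT Pool.Agent.FrT

section

variable {G : Type} [Group G] (A C : Subgroup G) (t : G)

open Classical in
/-- the cocycle -/
structure Coc (D : G → G → ℤ) : Prop where
  le : C ≤ A
  le' : ∀ c ∈ C, t⁻¹ * c * t ∈ A
  gen : ∀ K : Subgroup G, A ≤ K → t ∈ K → K = ⊤
  dA : ∀ g, ∀ a ∈ A, D (g * a) = D g
  dt : ∀ g x, D (g * t) x = D g x + if g⁻¹ * x ∈ C then 1 else 0

/-- the coset graph -/
def CosG (h : t ∉ A) : SimpleGraph (G ⧸ A) where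
  Adj x y := ∃ g : G, (x = (g : G ⧸ A) ∧ y = ((g * t : G) : G ⧸ A)) ∨
    (y = (g : G ⧸ A) ∧ x = ((g * t : G) : G ⧸ A))
  symm := ⟨by
    rintro x y ⟨g, h | h⟩
    · exact ⟨g, Or.inr h⟩
    · exact ⟨g, Or.inl h⟩⟩
  loopless := ⟨by
    rintro x ⟨g, ⟨h1, h2⟩ | ⟨h1, h2⟩⟩
    · rw [h1, QuotientGroup.eq] at h2
      rw [inv_mul_cancel_left] at h2
      exact h h2
    · rw [h1, QuotientGroup.eq] at h2
      rw [inv_mul_cancel_left] at h2
      exact h h2⟩

variable {A C t}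

theorem Coc.t_not {D : G → G → ℤ} (hD : Coc A C t D) : t ∉ A := by
  intro h
  have h1 := hD.dt 1 1
  rw [one_mul, inv_one, one_mul, if_pos C.one_mem] at h1
  have h2 := hD.dA 1 t h
  rw [one_mul] at h2
  rw [h2] at h1
  omega

theorem Coc.tree {D : G → G → ℤ} (hD : Coc A C t D) : (CosG A t hD.t_not).IsTree := by
  classical
  refine tree_of_pot ?_ ?_
  · let K : Subgroup G :=
      { carrier := {k | ∀ g : G, (CosG A t hD.t_not).Reachable (g : G ⧸ A) ((g * k : G) : G ⧸ A)}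
        one_mem' := by
          intro g
          rw [mul_one]
        mul_mem' := by
          intro a b ha hb g
          rw [← mul_assoc]
          exact (ha g).trans (hb (g * a))
        inv_mem' := by
          intro a ha g
          have h1 := ha (g * a⁻¹)
          rw [inv_mul_cancel_right] at h1
          exact h1.symm }
    have hK : K = ⊤ := by
      refine hD.gen K ?_ ?_
      · intro a ha g
        have : ((g * a : G) : G ⧸ A) = (g : G ⧸ A) := by
          rw [eq_comm, QuotientGroup.eq, inv_mul_cancel_left]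
          exact ha
        rw [this]
      · intro g
        exact SimpleGraph.Adj.reachable ⟨g, Or.inl ⟨rfl, rfl⟩⟩
    refine ⟨?_⟩
    intro x y
    obtain ⟨a, rfl⟩ := QuotientGroup.mk_surjective x
    obtain ⟨b, rfl⟩ := QuotientGroup.mk_surjective y
    have h1 : a⁻¹ * b ∈ K := by rw [hK]; trivial
    have h2 := h1 a
    rwa [mul_inv_cancel_left] at h2
  · have key : ∀ g : G, ∃ f : G ⧸ A → ℤ, f (g : G ⧸ A) ≠ f ((g * t : G) : G ⧸ A) ∧
        ∀ k : G, f (k : G ⧸ A) ≠ f ((k * t : G) : G ⧸ A) →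
          (k : G ⧸ A) = g ∧ ((k * t : G) : G ⧸ A) = ((g * t : G) : G ⧸ A) := by
      intro g
      let f : G ⧸ A → ℤ := Quotient.lift (fun x => D x g) (by
        intro x y hxy
        have h1 : x⁻¹ * y ∈ A := QuotientGroup.leftRel_apply.1 hxy
        have h2 := hD.dA x _ h1
        rw [mul_inv_cancel_left] at h2
        show D x g = D y g
        rw [h2])
      have hf : ∀ x : G, f (x : G ⧸ A) = D x g := fun x => rfl
      refine ⟨f, ?_, ?_⟩
      · rw [hf, hf, hD.dt, inv_mul_cancel, if_pos C.one_mem]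
        omega
      · intro k hk
        rw [hf, hf, hD.dt] at hk
        have h1 : k⁻¹ * g ∈ C := by
          by_contra h1
          rw [if_neg h1, add_zero] at hk
          exact hk rfl
        constructor
        · rw [QuotientGroup.eq]
          exact hD.le h1
        · rw [QuotientGroup.eq]
          have : (k * t)⁻¹ * (g * t) = t⁻¹ * (k⁻¹ * g) * t := by group
          rw [this]
          exact hD.le' _ h1
    rintro u w ⟨g, ⟨rfl, rfl⟩ | ⟨rfl, rfl⟩⟩
    · obtain ⟨f, h1, h2⟩ := key g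
      refine ⟨f, h1, ?_⟩
      rintro a b ⟨k, ⟨rfl, rfl⟩ | ⟨rfl, rfl⟩⟩ hab
      · exact Or.inl (h2 k hab)
      · exact Or.inr (h2 k hab.symm).symm
    · obtain ⟨f, h1, h2⟩ := key g
      refine ⟨f, h1.symm, ?_⟩
      rintro a b ⟨k, ⟨rfl, rfl⟩ | ⟨rfl, rfl⟩⟩ hab
      · exact Or.inr (h2 k hab)
      · exact Or.inl (h2 k hab.symm).symm

theorem smul_mk (g x : G) : g • (x : G ⧸ A) = ((g * x : G) : G ⧸ A) := rfl

theorem Coc.ta {D : G → G → ℤ} (hD : Coc A C t D) : TA G (CosG A t hD.t_not) := by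
  classical
  refine ⟨hD.tree, ?_, ?_⟩
  · rintro g u w ⟨k, ⟨rfl, rfl⟩ | ⟨rfl, rfl⟩⟩
    · refine ⟨g * k, Or.inl ⟨rfl, ?_⟩⟩
      rw [smul_mk, mul_assoc]
    · refine ⟨g * k, Or.inr ⟨rfl, ?_⟩⟩
      rw [smul_mk, mul_assoc]
  · have key : ∀ g k : G, g • (k : G ⧸ A) = ((k * t : G) : G ⧸ A) →
        g • ((k * t : G) : G ⧸ A) = (k : G ⧸ A) → False := by
      intro g k h1 h2
      have hA : ∀ x y : G, (x : G ⧸ A) = (y : G ⧸ A) → D x = D y := by
        intro x y hxy
        rw [QuotientGroup.eq] at hxy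
        have h2 := hD.dA x _ hxy
        rw [mul_inv_cancel_left] at h2
        exact h2.symm
      rw [smul_mk] at h1 h2
      have e1 := congrFun (hA _ _ h1) k
      have e2 := congrFun (hA _ _ h2) k
      rw [hD.dt, inv_mul_cancel, if_pos C.one_mem] at e1
      rw [← mul_assoc, hD.dt, e1] at e2
      split_ifs at e2 <;> omega
    rintro g u w ⟨k, ⟨rfl, rfl⟩ | ⟨rfl, rfl⟩⟩ ⟨h1, h2⟩
    · exact key g k h1 h2
    · exact key g k h2 h1

theorem Coc.adj {D : G → G → ℤ} (hD : Coc A C t D) :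
    (CosG A t hD.t_not).Adj ((1 : G) : G ⧸ A) (t • ((1 : G) : G ⧸ A)) :=
  ⟨1, Or.inl ⟨rfl, by rw [smul_mk, mul_one, one_mul]⟩⟩

theorem Coc.one {D : G → G → ℤ} (hD : Coc A C t D) (x y : G ⧸ A)
    (h : (CosG A t hD.t_not).Adj x y) :
    ∃ g : G, (g • ((1 : G) : G ⧸ A) = x ∧ g • t • ((1 : G) : G ⧸ A) = y) ∨
      (g • ((1 : G) : G ⧸ A) = y ∧ g • t • ((1 : G) : G ⧸ A) = x) := by
  obtain ⟨g, ⟨rfl, rfl⟩ | ⟨rfl, rfl⟩⟩ := h
  · refine ⟨g, Or.inl ⟨?_, ?_⟩⟩
    · rw [smul_mk, mul_one]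
    · rw [smul_mk, smul_mk, mul_one]
  · refine ⟨g, Or.inr ⟨?_, ?_⟩⟩
    · rw [smul_mk, mul_one]
    · rw [smul_mk, smul_mk, mul_one]

theorem mem_stab_one (g : G) : g ∈ MulAction.stabilizer G ((1 : G) : G ⧸ A) ↔ g ∈ A := by
  rw [MulAction.mem_stabilizer_iff, smul_mk, mul_one, eq_comm, QuotientGroup.eq, inv_one, one_mul]

theorem stab_one : MulAction.stabilizer G ((1 : G) : G ⧸ A) = A := by
  ext g
  exact mem_stab_one g

theorem Coc.es {D : G → G → ℤ} (hD : Coc A C t D) :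
    ES G ((1 : G) : G ⧸ A) (t • ((1 : G) : G ⧸ A)) = C := by
  classical
  ext g
  rw [mem_ES]
  constructor
  · rintro ⟨h1, h2⟩
    have h3 : g ∈ A := (mem_stab_one g).1 h1
    rw [smul_mk, smul_mk, mul_one, eq_comm, QuotientGroup.eq] at h2
    have h4 := hD.dA t _ h2
    rw [mul_inv_cancel_left] at h4
    have e1 := congrFun h4 g
    have h5 := hD.dA 1 g h3
    rw [one_mul] at h5
    have e2 := hD.dt 1 g
    rw [one_mul, inv_one, one_mul] at e2
    rw [hD.dt, inv_mul_cancel, if_pos C.one_mem, e2, h5] at e1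
    by_contra h6
    rw [if_neg h6] at e1
    omega
  · intro hg
    constructor
    · exact (mem_stab_one g).2 (hD.le hg)
    · rw [smul_mk, smul_mk, mul_one, eq_comm, QuotientGroup.eq, ← mul_assoc]
      exact hD.le' g hg

/-- malnormality in the HNN extension -/
theorem Coc.mal {D : G → G → ℤ} (hD : Coc A C t D)
    (m1 : ∀ α ∈ A, ∀ s ∈ C, s ≠ 1 → α⁻¹ * s * α ∈ C → α ∈ C)
    (m2 : ∀ α ∈ A, ∀ s ∈ C, s ≠ 1 → t * (α⁻¹ * s * α) * t⁻¹ ∉ C)
    (m3 : ∀ α ∈ A, ∀ s : G, t * s * t⁻¹ ∈ C → s ≠ 1 → t * (α⁻¹ * s * α) * t⁻¹ ∈ C →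
      t * α * t⁻¹ ∈ C) :
    ∀ a ∈ C, a ≠ 1 → ∀ g : G, g * a * g⁻¹ ∈ C → g ∈ C := by
  classical
  set v : G ⧸ A := ((1 : G) : G ⧸ A) with hv
  have hT := hD.ta
  have hadj := hD.adj
  have hes : ES G v (t • v) = C := hD.es
  have hst : ∀ g : G, g • v = v ↔ g ∈ A := mem_stab_one
  -- the neighbours of `v`
  have hnb : ∀ c, (CosG A t hD.t_not).Adj v c → ∃ α ∈ A, c = α • t • v ∨ c = α • t⁻¹ • v := by
    intro c hc
    obtain ⟨g, ⟨h1, h2⟩ | ⟨h1, h2⟩⟩ := hD.one v c hc
    · exact ⟨g, (hst g).1 h1, Or.inl h2.symm⟩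
    · refine ⟨g * t, (hst _).1 (by rw [mul_smul]; exact h2), Or.inr ?_⟩
      rw [mul_smul, smul_inv_smul]
      exact h1.symm
  -- an element of `A` which fixes a neighbour
  have hfix1 : ∀ α ∈ A, ∀ s ∈ A, s • α • t • v = α • t • v → α⁻¹ * s * α ∈ C := by
    intro α hα s hs h
    rw [← hes, mem_ES]
    constructor
    · rw [hst]
      exact A.mul_mem (A.mul_mem (A.inv_mem hα) hs) hα
    · rw [mul_smul, mul_smul, inv_smul_eq_iff]
      exact h
  have hfix2 : ∀ α ∈ A, ∀ s ∈ A, s • α • t⁻¹ • v = α • t⁻¹ • v →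
      t * (α⁻¹ * s * α) * t⁻¹ ∈ C := by
    intro α hα s hs h
    rw [← hes, mem_ES]
    constructor
    · rw [mul_smul, mul_smul, mul_smul, mul_smul, h, inv_smul_smul, smul_inv_smul]
    · rw [mul_smul, mul_smul, inv_smul_smul]
      congr 1
      rw [hst]
      exact A.mul_mem (A.mul_mem (A.inv_mem hα) hs) hα
  have hC : ∀ a ∈ C, a • v = v ∧ a • t • v = t • v := by
    intro a ha
    rw [← hes, mem_ES] at ha
    exact ha
  -- fixed vertices
  have hU : ∀ a ∈ C, a ≠ 1 → ∀ x, a • x = x → x = v ∨ x = t • v := by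
    intro a ha ha1 x hx
    by_cases hxH : x ∈ Hf (CosG A t hD.t_not) v (t • v)
    · right
      by_contra hne
      obtain ⟨c, hc, hcx⟩ := first_edge hT.tree (Ne.symm hne)
      have h1 : a ∈ ES G (t • v) c := fix_between hT hc (hC a ha).2 hx left_not_mem_Hf hcx
      have hcv : c ≠ v := by
        rintro rfl
        rw [mem_Hf] at hxH hcx
        omega
      have hc' : (CosG A t hD.t_not).Adj v (t⁻¹ • c) := by
        have := hT.act t⁻¹ _ _ hc
        rwa [inv_smul_smul] at this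
      have ht' : t * (t⁻¹ * a * t) * t⁻¹ = a := by group
      have hsA : t⁻¹ * a * t ∈ A := hD.le' a ha
      have hs1 : t⁻¹ * a * t ≠ 1 := by
        intro e
        rw [e, mul_one, mul_inv_cancel] at ht'
        exact ha1 ht'.symm
      have hsc : (t⁻¹ * a * t) • t⁻¹ • c = t⁻¹ • c := by
        rw [mul_smul, mul_smul, smul_inv_smul, (mem_ES.1 h1).2]
      obtain ⟨α, hα, h2 | h2⟩ := hnb _ hc'
      · rw [h2] at hsc
        have h3 := hfix1 α hα _ hsA hsc
        have hα' : α⁻¹ ∈ A := A.inv_mem hα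
        refine m2 α⁻¹ hα' (α⁻¹ * (t⁻¹ * a * t) * α) h3 ?_ ?_
        · intro e
          apply hs1
          have : t⁻¹ * a * t = α * (α⁻¹ * (t⁻¹ * a * t) * α) * α⁻¹ := by group
          rw [this, e, mul_one, mul_inv_cancel]
        · have : t * (α⁻¹⁻¹ * (α⁻¹ * (t⁻¹ * a * t) * α) * α⁻¹) * t⁻¹ = a := by group
          rw [this]
          exact ha
      · rw [h2] at hsc
        have h3 := hfix2 α hα _ hsA hsc
        have h4 := m3 α hα (t⁻¹ * a * t) (by rw [ht']; exact ha) hs1 h3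
        apply hcv
        have h5 : c = t • α • t⁻¹ • v := by rw [← h2, smul_inv_smul]
        rw [h5, ← mul_smul, ← mul_smul]
        exact (hC _ h4).1
    · left
      by_contra hne
      obtain ⟨c, hc, hcx⟩ := first_edge hT.tree (Ne.symm hne)
      have h1 : a ∈ ES G v c := fix_between hT hc (hC a ha).1 hx left_not_mem_Hf hcx
      have hac := (mem_ES.1 h1).2
      obtain ⟨α, hα, rfl | rfl⟩ := hnb _ hc
      · have h3 := hfix1 α hα a (hD.le ha) hac
        have h4 := m1 α hα a ha ha1 h3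
        rw [(hC α h4).2] at hcx
        exact hxH hcx
      · exact m2 α hα a ha ha1 (hfix2 α hα a (hD.le ha) hac)
  intro a ha ha1 g hg
  have h1 := hC _ hg
  have h2 : a • g⁻¹ • v = g⁻¹ • v := by
    have := h1.1
    rw [mul_smul, mul_smul, ← eq_inv_smul_iff] at this
    exact this
  have h3 : a • g⁻¹ • t • v = g⁻¹ • t • v := by
    have := h1.2
    rw [mul_smul, mul_smul, ← eq_inv_smul_iff] at this
    exact this
  have hne := hadj.ne
  rcases hU a ha ha1 _ h2 with e1 | e1 <;> rcases hU a ha ha1 _ h3 with e2 | e2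
  · exact absurd (smul_left_cancel _ (e1.trans e2.symm)) hne
  · rw [← inv_mem_iff, ← hes, mem_ES]
    exact ⟨e1, e2⟩
  · exact absurd ⟨e1, e2⟩ (hT.noinv g⁻¹ _ _ hadj)
  · exact absurd (smul_left_cancel _ (e1.trans e2.symm)) hne

end

end Pool.Agent.SuUp
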