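import Pool.Agent.Lib.MP_305fdd_al.Su.Up.UD

/-!
# GOING UP, part 5: the elliptic case, sections (MP_305fdd_al, surface groups, block UP)
-/

set_option autoImplicit false

namespace Pool.Agent.SuUp

open Pool.Agent.SuT Pool.Agent.FrT Pool.Agent.FrS

theorem cyc_sub {N : Type} [Group N] {P : Subgroup N} {z : N} (h : P ≤ Subgroup.zpowers z) :
    ∃ g : N, P = Subgroup.zpowers g := by
  have h1 : IsCyclic (P.subgroupOf (Subgroup.zpowers z)) := inferInstance
  obtain ⟨g, hg⟩ := h1.exists_generator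
  refine ⟨((g : Subgroup.zpowers z) : N), le_antisymm ?_ ?_⟩
  · intro s hs
    obtain ⟨k, hk⟩ := Subgroup.mem_zpowers_iff.1 (hg ⟨⟨s, h hs⟩, hs⟩)
    rw [Subgroup.mem_zpowers_iff]
    refine ⟨k, ?_⟩
    have := congrArg (fun x : P.subgroupOf (Subgroup.zpowers z) => ((x : Subgroup.zpowers z) : N)) hk
    simpa using this
  · rw [Subgroup.zpowers_le]
    exact g.2

/-- malnormal cyclic groups which meet are equal -/
theorem mc_eq {N : Type} [Group N] {C C1 : Subgroup N} (h : MC C) (h1 : MC C1) {s : N}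
    (hs : s ∈ C) (hs1 : s ∈ C1) (hne : s ≠ 1) : C = C1 := by
  have key : ∀ {C C1 : Subgroup N}, MC C → MC C1 → s ∈ C → s ∈ C1 → C1 ≤ C := by
    intro C C1 h h1 hs hs1
    obtain ⟨z, _, hz⟩ := h1.1
    rw [hz] at hs1 ⊢
    rw [Subgroup.zpowers_le]
    obtain ⟨k, hk⟩ := Subgroup.mem_zpowers_iff.1 hs1
    refine h.2 s hs hne z ?_
    have : z * s * z⁻¹ = s := by
      rw [← hk]
      group
    rw [this]
    exact hs
  exact le_antisymm (key h1 h hs1 hs) (key h h1 hs hs1)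

section

variable {N : Type} [Group N] {V V' : Type} [MulAction N V] [MulAction N V']
  {X : SimpleGraph V} {X' : SimpleGraph V'} {v : V} {t : N} {v' : V'} {t' : N}

/-- edges whose stabilisers meet are equal -/
theorem edge_eq (hX : HT N X v t) {a b c d : V} (hab : X.Adj a b) (hcd : X.Adj c d) {s : N}
    (hs : s ∈ ES N a b) (hs' : s ∈ ES N c d) (hne : s ≠ 1) :
    (a = c ∧ b = d) ∨ (a = d ∧ b = c) := by
  obtain ⟨n, hn⟩ := ht_one hX hab hcd
  have h1 : s ∈ ES N (n • a) (n • b) := by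
    rcases hn with ⟨rfl, rfl⟩ | ⟨rfl, rfl⟩
    · exact hs'
    · rw [ES_symm]
      exact hs'
  rw [mem_ES_smul] at h1
  have h2 : n⁻¹ ∈ ES N a b := by
    refine (ht_mc hX hab).2 s hs hne n⁻¹ ?_
    rw [inv_inv]
    exact h1
  have h3 := mem_ES.1 ((ES N a b).inv_mem h2)
  rw [inv_inv] at h3
  rcases hn with ⟨rfl, rfl⟩ | ⟨rfl, rfl⟩
  · left
    exact ⟨h3.1.symm, h3.2.symm⟩
  · right
    exact ⟨h3.1.symm, h3.2.symm⟩

/-- edge groups of the two trees -/
def CC (N : Type) [Group N] {V V' : Type} [MulAction N V] [MulAction N V'] (X : SimpleGraph V)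
    (X' : SimpleGraph V') (C : Subgroup N) : Prop :=
  (∃ a b, X.Adj a b ∧ C = ES N a b) ∨ ∃ a b, X'.Adj a b ∧ C = ES N a b

theorem CC.symm {C : Subgroup N} (h : CC N X X' C) : CC N X' X C := Or.symm h

theorem cc_mc (D : ND N X X' v t v' t') {C : Subgroup N} (h : CC N X X' C) : MC C := by
  rcases h with ⟨a, b, hab, rfl⟩ | ⟨a, b, hab, rfl⟩
  · exact ht_mc D.ht hab
  · exact ht_mc D.ht' hab

theorem mc_ne {C : Subgroup N} (h : MC C) : ∃ s ∈ C, s ≠ 1 := by
  obtain ⟨z, hz1, hz⟩ := h.1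
  refine ⟨z, ?_, ?_⟩
  · rw [hz]
    exact Subgroup.mem_zpowers z
  · intro e
    exact hz1 1 one_pos (by rw [e, one_pow])

theorem cc_fix (H : Ell N X X') {C : Subgroup N} (h : CC N X X' C) :
    ∃ x : V, C ≤ MulAction.stabilizer N x := by
  rcases h with ⟨a, b, _, rfl⟩ | ⟨a, b, hab, rfl⟩
  · exact ⟨a, fun s hs => (mem_ES.1 hs).1⟩
  · obtain ⟨x, hx⟩ := H.h' a b hab
    exact ⟨x, fun s hs => hx s hs⟩

theorem cc_two (D : ND N X X' v t v' t') {C : Subgroup N} (h : CC N X X' C) {x w : V}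
    (hxw : x ≠ w) (hx : C ≤ MulAction.stabilizer N x) (hw : C ≤ MulAction.stabilizer N w) :
    X.Adj x w ∧ C = ES N x w := by
  obtain ⟨s, hs, hs1⟩ := mc_ne (cc_mc D h)
  obtain ⟨c, hc, hcw⟩ := first_edge D.ht.tree hxw
  have h1 : s ∈ ES N x c := fix_between D.ht.toTA hc (hx hs) (hw hs) left_not_mem_Hf hcw
  have h2 : C = ES N x c := mc_eq (cc_mc D h) (ht_mc D.ht hc) hs h1 hs1
  by_cases hcw' : c = w
  · rw [← hcw']
    exact ⟨hc, h2⟩
  · exfalso
    obtain ⟨d, hd, hdw⟩ := first_edge D.ht.tree hcw'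
    have h3 : s ∈ ES N c d := fix_between D.ht.toTA hd (mem_ES.1 h1).2 (hw hs) left_not_mem_Hf hdw
    rcases edge_eq D.ht hc hd h1 h3 hs1 with ⟨e1, _⟩ | ⟨e1, _⟩
    · exact hc.ne e1
    · rw [← e1] at hdw
      rw [mem_Hf] at hcw hdw
      omega

/-- a group which is not cyclic has at most one fixed vertex -/
theorem ncyc_uniq (hX : HT N X v t) {P : Subgroup N} (hP : NCyc P) {y y2 : V}
    (h1 : ∀ p ∈ P, p • y = y) (h2 : ∀ p ∈ P, p • y2 = y2) : y = y2 := by
  by_contra hne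
  obtain ⟨c, hc, hc2⟩ := first_edge hX.tree hne
  obtain ⟨z, _, hz⟩ := (ht_mc hX hc).1
  apply hP
  refine cyc_sub (z := z) ?_
  intro s hs
  rw [← hz]
  exact fix_between hX.toTA hc (h1 s hs) (h2 s hs) left_not_mem_Hf hc2

theorem sec_ess (D : ND N X X' v t v' t') (H : Ell N X X') {x : V} {y : V'}
    (h : EssV X' (MulAction.stabilizer N x) y) :
    NCyc (MulAction.stabilizer N x ⊓ MulAction.stabilizer N y) := by
  obtain ⟨y', hadj, hess⟩ := h
  have h1 := H.le x y y' hadj hess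
  rintro ⟨u, hu⟩
  obtain ⟨y'', hadj2, hne, hess2⟩ := two_ess D.ht'.toTA hadj hess
  have h2 := H.le x y y'' hadj2 hess2
  have hmc := ht_mc D.ht' hadj
  have hmc2 := ht_mc D.ht' hadj2
  -- both edge groups contain a power of `u`
  have key : ∀ {y1 : V'}, X'.Adj y y1 → ES N y y1 ≤ MulAction.stabilizer N x → MC (ES N y y1) →
      u ∈ ES N y y1 := by
    intro y1 _ hle hm
    obtain ⟨s, hs, hs1⟩ := mc_ne hm
    have h3 : s ∈ Subgroup.zpowers u := by
      rw [← hu]
      exact ⟨hle hs, (mem_ES.1 hs).1⟩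
    obtain ⟨k, hk⟩ := Subgroup.mem_zpowers_iff.1 h3
    refine hm.2 s hs hs1 u ?_
    have : u * s * u⁻¹ = s := by
      rw [← hk]
      group
    rw [this]
    exact hs
  have k1 := key hadj h1 hmc
  have k2 := key hadj2 h2 hmc2
  have hu1 : u ≠ 1 := by
    rintro rfl
    obtain ⟨s, hs, hs1⟩ := mc_ne hmc
    have h3 : s ∈ Subgroup.zpowers (1 : N) := by
      rw [← hu]
      exact ⟨h1 hs, (mem_ES.1 hs).1⟩
    rw [Subgroup.zpowers_one_eq_bot, Subgroup.mem_bot] at h3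
    exact hs1 h3
  rcases edge_eq D.ht' hadj hadj2 k1 k2 hu1 with ⟨_, e⟩ | ⟨e, _⟩
  · exact hne e.symm
  · exact hadj2.ne e

theorem sec_fix (D : ND N X X' v t v' t') {x : V} {y : V'}
    (h : ∀ n ∈ MulAction.stabilizer N x, n • y = y) :
    NCyc (MulAction.stabilizer N x ⊓ MulAction.stabilizer N y) := by
  have : MulAction.stabilizer N x ⊓ MulAction.stabilizer N y = MulAction.stabilizer N x :=
    inf_eq_left.2 fun n hn => h n hn
  rw [this]
  exact D.nc x

theorem sec_ess' (D : ND N X X' v t v' t') {x : V} {y : V'}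
    (h : NCyc (MulAction.stabilizer N x ⊓ MulAction.stabilizer N y))
    (hnf : ¬ ∃ y : V', ∀ n ∈ MulAction.stabilizer N x, n • y = y) :
    EssV X' (MulAction.stabilizer N x) y := by
  obtain ⟨a, b, hab, hess⟩ := exists_ess D.ht'.toTA (D.fg x) hnf
  refine fixed_mem D.ht'.toTA (P := MulAction.stabilizer N x ⊓ MulAction.stabilizer N y)
    inf_le_left (fun p hp => hp.2) ?_ ⟨a, b, hab, hess⟩
  intro u hu
  exact ncyc_uniq D.ht' h hu (fun p hp => hp.2)

/-- the sections are not empty -/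
theorem sec_ne (D : ND N X X' v t v' t') (H : Ell N X X') (x : V) :
    ∃ y : V', NCyc (MulAction.stabilizer N x ⊓ MulAction.stabilizer N y) := by
  by_cases hf : ∃ y : V', ∀ n ∈ MulAction.stabilizer N x, n • y = y
  · obtain ⟨y, hy⟩ := hf
    exact ⟨y, sec_fix D hy⟩
  · obtain ⟨a, b, hab, hess⟩ := exists_ess D.ht'.toTA (D.fg x) hf
    exact ⟨a, sec_ess D H ⟨b, hab, hess⟩⟩

/-- the sections are convex -/
theorem sec_conv (D : ND N X X' v t v' t') (H : Ell N X X') {x : V} {y y2 : V'}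
    (hy : NCyc (MulAction.stabilizer N x ⊓ MulAction.stabilizer N y))
    (hy2 : NCyc (MulAction.stabilizer N x ⊓ MulAction.stabilizer N y2)) {a b : V'}
    (hab : X'.Adj a b) (h1 : y ∉ Hf X' a b) (h2 : y2 ∈ Hf X' a b) :
    NCyc (MulAction.stabilizer N x ⊓ MulAction.stabilizer N a) ∧
      NCyc (MulAction.stabilizer N x ⊓ MulAction.stabilizer N b) ∧
      ES N a b ≤ MulAction.stabilizer N x := by
  have hnf : ¬ ∃ y : V', ∀ n ∈ MulAction.stabilizer N x, n • y = y := by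
    rintro ⟨y0, hy0⟩
    have e1 : y = y0 := ncyc_uniq D.ht' hy (fun p hp => hp.2) (fun p hp => hy0 p hp.1)
    have e2 : y2 = y0 := ncyc_uniq D.ht' hy2 (fun p hp => hp.2) (fun p hp => hy0 p hp.1)
    rw [e1] at h1
    rw [e2] at h2
    exact h1 h2
  have hess : Ess X' (MulAction.stabilizer N x) a b :=
    ess_conv D.ht'.tree hab (sec_ess' D hy hnf) (sec_ess' D hy2 hnf) h1 h2
  refine ⟨sec_ess D H ⟨b, hab, hess⟩, sec_ess D H ⟨a, hab.symm, hess.symm D.ht'.tree hab⟩,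
    H.le x a b hab hess⟩

/-- an edge group in `A_x` fixes a point of the section -/
theorem sec_C (D : ND N X X' v t v' t') (H : Ell N X X') {C : Subgroup N} (hC : CC N X X' C)
    {x : V} (hx : C ≤ MulAction.stabilizer N x) :
    ∃ y : V', NCyc (MulAction.stabilizer N x ⊓ MulAction.stabilizer N y) ∧
      C ≤ MulAction.stabilizer N x ⊓ MulAction.stabilizer N y := by
  classical
  obtain ⟨y0, hy0⟩ := cc_fix H.symm hC.symm
  have hex : ∃ n : ℕ, ∃ y, NCyc (MulAction.stabilizer N x ⊓ MulAction.stabilizer N y) ∧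
      X'.dist y0 y = n := by
    obtain ⟨y, hy⟩ := sec_ne D H x
    exact ⟨_, y, hy, rfl⟩
  obtain ⟨y, hy, hd⟩ := Nat.find_spec hex
  have hmin : ∀ y1, NCyc (MulAction.stabilizer N x ⊓ MulAction.stabilizer N y1) →
      X'.dist y0 y ≤ X'.dist y0 y1 := by
    intro y1 hy1
    rw [hd]
    exact Nat.find_min' hex ⟨y1, hy1, rfl⟩
  refine ⟨y, hy, le_inf hx ?_⟩
  intro c hc
  rw [MulAction.mem_stabilizer_iff]
  by_contra hne
  have hcx : c • x = x := hx hc
  have hcy : NCyc (MulAction.stabilizer N x ⊓ MulAction.stabilizer N (c • y)) := by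
    rintro ⟨z, hz⟩
    apply hy
    refine ⟨c⁻¹ * z * c, ?_⟩
    ext s
    have h1 : s ∈ MulAction.stabilizer N x ⊓ MulAction.stabilizer N y ↔
        c * s * c⁻¹ ∈ MulAction.stabilizer N x ⊓ MulAction.stabilizer N (c • y) := by
      rw [Subgroup.mem_inf, Subgroup.mem_inf, MulAction.mem_stabilizer_iff,
        MulAction.mem_stabilizer_iff, MulAction.mem_stabilizer_iff, MulAction.mem_stabilizer_iff]
      have hcx' : c⁻¹ • x = x := by
        rw [inv_smul_eq_iff, hcx]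
      rw [mul_smul, mul_smul, mul_smul, mul_smul, inv_smul_smul, hcx', smul_left_cancel_iff]
      constructor
      · rintro ⟨h1, h2⟩
        rw [h1, hcx]
        exact ⟨rfl, h2⟩
      · rintro ⟨h1, h2⟩
        refine ⟨?_, h2⟩
        rw [← inv_smul_smul c (s • x), h1, hcx']
    rw [h1, hz, Subgroup.mem_zpowers_iff, Subgroup.mem_zpowers_iff]
    constructor
    · rintro ⟨k, hk⟩
      refine ⟨k, ?_⟩
      have e : c⁻¹ * z * c = c⁻¹ * z * (c⁻¹)⁻¹ := by rw [inv_inv]
      rw [e, conj_zpow, hk]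
      group
    · rintro ⟨k, hk⟩
      refine ⟨k, ?_⟩
      have e : c⁻¹ * z * c = c⁻¹ * z * (c⁻¹)⁻¹ := by rw [inv_inv]
      rw [e, conj_zpow] at hk
      rw [← hk]
      group
  obtain ⟨y1, hadj, hm⟩ := first_edge D.ht'.tree (Ne.symm hne)
  obtain ⟨_, h2, _⟩ := sec_conv D H hy hcy hadj left_not_mem_Hf hm
  have h3 := hmin y1 h2
  have h4 : X'.dist y0 y1 = X'.dist y0 y + 1 := by
    rcases dist_adj D.ht'.tree hadj y0 with h | h
    · exact h
    · omega
  have h5 : y0 ∈ Hf X' y1 y := by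
    rw [mem_Hf]
    omega
  have h6 := sep D.ht'.tree hadj h5 hm
  have h7 : X'.dist y0 (c • y) = X'.dist y0 y := by
    have := dist_smul D.ht'.act D.ht'.tree c y0 y
    rwa [hy0 hc] at this
  omega

end

end Pool.Agent.SuUp
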