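import Pool.Agent.Lib.MP_305fdd_al.Su.Up.EllA
import Pool.Agent.Lib.MP_305fdd_al.Su.Up.Coc

/-!
# GOING UP, part 6: the elliptic case, the tree (MP_305fdd_al, surface groups, block UP)
-/

set_option autoImplicit false

namespace Pool.Agent.SuUp

open Pool.Agent.SuT Pool.Agent.FrT Pool.Agent.FrS

/-- pairs of vertices whose stabilisers have an intersection which is not cyclic -/
abbrev EZ (N : Type) [Group N] (V V' : Type) [MulAction N V] [MulAction N V'] : Type :=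
  {p : V × V' // NCyc (MulAction.stabilizer N p.1 ⊓ MulAction.stabilizer N p.2)}

/-- the edge groups -/
abbrev EC (N : Type) [Group N] {V V' : Type} [MulAction N V] [MulAction N V']
    (X : SimpleGraph V) (X' : SimpleGraph V') : Type := {C : Subgroup N // CC N X X' C}

/-- incidence -/
def Inc {N : Type} [Group N] {V V' : Type} [MulAction N V] [MulAction N V']
    {X : SimpleGraph V} {X' : SimpleGraph V'} (p : EZ N V V') (C : EC N X X') : Prop :=
  C.1 ≤ MulAction.stabilizer N p.1.1 ⊓ MulAction.stabilizer N p.1.2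

/-- the graph -/
def EG (N : Type) [Group N] {V V' : Type} [MulAction N V] [MulAction N V']
    (X : SimpleGraph V) (X' : SimpleGraph V') : SimpleGraph (EZ N V V' ⊕ EC N X X') where
  Adj s s' := (∃ p C, Inc p C ∧ s = Sum.inl p ∧ s' = Sum.inr C) ∨
    ∃ p C, Inc p C ∧ s = Sum.inr C ∧ s' = Sum.inl p
  symm := ⟨by
    rintro s s' (⟨p, C, h, e1, e2⟩ | ⟨p, C, h, e1, e2⟩)
    · exact Or.inr ⟨p, C, h, e2, e1⟩
    · exact Or.inl ⟨p, C, h, e2, e1⟩⟩
  loopless := ⟨by
    rintro s (⟨p, C, _, e1, e2⟩ | ⟨p, C, _, e1, e2⟩)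
    · rw [e1] at e2
      exact absurd e2 (by simp)
    · rw [e1] at e2
      exact absurd e2 (by simp)⟩

section

variable {N : Type} [Group N] {V V' : Type} [MulAction N V] [MulAction N V']
  {X : SimpleGraph V} {X' : SimpleGraph V'} {v : V} {t : N} {v' : V'} {t' : N}

theorem inc_adj {p : EZ N V V'} {C : EC N X X'} (h : Inc p C) :
    (EG N X X').Adj (Sum.inl p) (Sum.inr C) := Or.inl ⟨p, C, h, rfl, rfl⟩

theorem adj_inc {p : EZ N V V'} {C : EC N X X'} (h : (EG N X X').Adj (Sum.inl p) (Sum.inr C)) :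
    Inc p C := by
  rcases h with ⟨p', C', h, e1, e2⟩ | ⟨p', C', h, e1, e2⟩
  · rw [Sum.inl.inj e1, Sum.inr.inj e2]
    exact h
  · exact absurd e1 (by simp)

/-- potentials -/
theorem ell_pot (D : ND N X X' v t v' t') (c : EZ N V V' → EC N X X' → ℤ) :
    ∃ (F : EZ N V V' → ℤ) (Φ : EC N X X' → ℤ), ∀ p C, Inc p C → Φ C = F p + c p C := by
  classical
  let S : V → V' → Prop := fun x y =>
    NCyc (MulAction.stabilizer N x ⊓ MulAction.stabilizer N y)
  let c' : V → V' → Subgroup N → ℤ := fun x y C =>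
    if hp : S x y then (if hC : CC N X X' C then c ⟨(x, y), hp⟩ ⟨C, hC⟩ else 0) else 0
  have hc' : ∀ x y C (hp : S x y) (hC : CC N X X' C), c' x y C = c ⟨(x, y), hp⟩ ⟨C, hC⟩ := by
    intro x y C hp hC
    show (if hp : S x y then (if hC : CC N X X' C then c ⟨(x, y), hp⟩ ⟨C, hC⟩ else 0) else 0) = _
    rw [dif_pos hp, dif_pos hC]
  have h1 : ∀ x, ∃ P : V' → ℤ, ∀ a b, X'.Adj a b →
      P b = P a + (c' x a (ES N a b) - c' x b (ES N a b)) := by
    intro x
    refine pot D.ht'.tree (fun a b => c' x a (ES N a b) - c' x b (ES N a b)) ?_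
    intro a b _
    rw [ES_symm b a]
    ring
  choose P hP using h1
  let A : V → Subgroup N → V' → Prop := fun x C y =>
    S x y ∧ C ≤ MulAction.stabilizer N x ⊓ MulAction.stabilizer N y
  let Φ1 : V → Subgroup N → ℤ := fun x C =>
    if h : ∃ y, A x C y then P x h.choose + c' x h.choose C else 0
  have hΦ1 : ∀ x C y, CC N X X' C → A x C y → Φ1 x C = P x y + c' x y C := by
    intro x C y hC hy
    have hex : ∃ y, A x C y := ⟨y, hy⟩
    show (if h : ∃ y, A x C y then P x h.choose + c' x h.choose C else 0) = _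
    rw [dif_pos hex]
    have h2 := hex.choose_spec
    set y1 := hex.choose with hy1
    by_cases hne : y1 = y
    · rw [hne]
    · obtain ⟨h3, h4⟩ := cc_two D.symm hC.symm hne (h2.2.trans inf_le_right)
        (hy.2.trans inf_le_right)
      have h5 := hP x y1 y h3
      rw [← h4] at h5
      rw [h5]
      ring
  obtain ⟨Q, hQ⟩ := pot D.ht.tree (fun x w => Φ1 x (ES N x w) - Φ1 w (ES N x w)) (by
    intro x w _
    rw [ES_symm w x]
    ring)
  let Φ2 : Subgroup N → ℤ := fun C =>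
    if h : ∃ x : V, C ≤ MulAction.stabilizer N x then Φ1 h.choose C + Q h.choose else 0
  have hΦ2 : ∀ C (x : V), CC N X X' C → C ≤ MulAction.stabilizer N x → Φ2 C = Φ1 x C + Q x := by
    intro C x hC hx
    have hex : ∃ x : V, C ≤ MulAction.stabilizer N x := ⟨x, hx⟩
    show (if h : ∃ x : V, C ≤ MulAction.stabilizer N x then Φ1 h.choose C + Q h.choose else 0) = _
    rw [dif_pos hex]
    have h2 := hex.choose_spec
    set x1 := hex.choose with hx1
    by_cases hne : x1 = x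
    · rw [hne]
    · obtain ⟨h3, h4⟩ := cc_two D hC hne h2 hx
      have h5 := hQ x1 x h3
      rw [← h4] at h5
      rw [h5]
      ring
  refine ⟨fun p => P p.1.1 p.1.2 + Q p.1.1, fun C => Φ2 C.1, ?_⟩
  rintro ⟨⟨x, y⟩, hp⟩ ⟨C, hC⟩ h
  have h' : C ≤ MulAction.stabilizer N x ⊓ MulAction.stabilizer N y := h
  show Φ2 C = P x y + Q x + c ⟨(x, y), hp⟩ ⟨C, hC⟩
  rw [hΦ2 C x hC (h'.trans inf_le_left), hΦ1 x C y hC ⟨hp, h'⟩, hc' x y C hp hC]
  ring

theorem ell_conn (D : ND N X X' v t v' t') (H : Ell N X X') : (EG N X X').Connected := by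
  classical
  -- one section
  have h1 : ∀ x, ∀ a b, (ha : NCyc (MulAction.stabilizer N x ⊓ MulAction.stabilizer N a)) →
      (hb : NCyc (MulAction.stabilizer N x ⊓ MulAction.stabilizer N b)) →
      (EG N X X').Reachable (Sum.inl ⟨(x, a), ha⟩) (Sum.inl ⟨(x, b), hb⟩) := by
    intro x
    have h2 := convex_ind D.ht'.tree
      (fun a => NCyc (MulAction.stabilizer N x ⊓ MulAction.stabilizer N a)) (by
        intro y y2 hy hy2 a b hab h1 h2
        obtain ⟨k1, k2, _⟩ := sec_conv D H hy hy2 hab h1 h2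
        exact ⟨k1, k2⟩)
      (fun a b => ∀ (ha : NCyc (MulAction.stabilizer N x ⊓ MulAction.stabilizer N a))
        (hb : NCyc (MulAction.stabilizer N x ⊓ MulAction.stabilizer N b)),
        (EG N X X').Reachable (Sum.inl ⟨(x, a), ha⟩) (Sum.inl ⟨(x, b), hb⟩))
      (fun _ _ _ _ => SimpleGraph.Reachable.refl _) (by
        intro a b c hab ha hb hc ih ha' hc'
        refine SimpleGraph.Reachable.trans ?_ (ih hb hc')
        obtain ⟨_, _, k3⟩ := sec_conv D H ha hb hab left_not_mem_Hf (right_mem_Hf D.ht'.tree hab)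
        let C : EC N X X' := ⟨ES N a b, Or.inr ⟨a, b, hab, rfl⟩⟩
        have i1 : Inc (⟨(x, a), ha'⟩ : EZ N V V') C :=
          le_inf k3 (fun s hs => (mem_ES.1 hs).1)
        have i2 : Inc (⟨(x, b), hb⟩ : EZ N V V') C :=
          le_inf k3 (fun s hs => (mem_ES.1 hs).2)
        exact (inc_adj i1).reachable.trans (inc_adj i2).symm.reachable)
    intro a b ha hb
    exact h2 a b ha hb ha hb
  -- paths in the first tree
  have h2 : ∀ (x y : V), X.Walk x y →
      ∀ a b (ha : NCyc (MulAction.stabilizer N x ⊓ MulAction.stabilizer N a))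
      (hb : NCyc (MulAction.stabilizer N y ⊓ MulAction.stabilizer N b)),
      (EG N X X').Reachable (Sum.inl ⟨(x, a), ha⟩) (Sum.inl ⟨(y, b), hb⟩) := by
    intro x y p
    induction p with
    | nil => exact fun a b ha hb => h1 _ a b ha hb
    | @cons x w y hxw p ih =>
      intro a b ha hb
      have hC : CC N X X' (ES N x w) := Or.inl ⟨x, w, hxw, rfl⟩
      obtain ⟨c1, hc1, i1⟩ := sec_C D H hC (x := x) (fun s hs => (mem_ES.1 hs).1)
      obtain ⟨c2, hc2, i2⟩ := sec_C D H hC (x := w) (fun s hs => (mem_ES.1 hs).2)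
      have j1 : Inc (⟨(x, c1), hc1⟩ : EZ N V V') (⟨ES N x w, hC⟩ : EC N X X') := i1
      have j2 : Inc (⟨(w, c2), hc2⟩ : EZ N V V') (⟨ES N x w, hC⟩ : EC N X X') := i2
      exact (h1 x a c1 ha hc1).trans ((inc_adj j1).reachable.trans
        ((inc_adj j2).symm.reachable.trans (ih c2 b hc2 hb)))
  have h3 : ∀ p q : EZ N V V', (EG N X X').Reachable (Sum.inl p) (Sum.inl q) := by
    rintro ⟨⟨x, a⟩, hp⟩ ⟨⟨y, b⟩, hq⟩
    obtain ⟨w⟩ := D.ht.tree.connected.preconnected x y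
    exact h2 x y w a b hp hq
  have h4 : ∀ C : EC N X X', ∃ p : EZ N V V', Inc p C := by
    rintro ⟨C, hC⟩
    obtain ⟨x, hx⟩ := cc_fix H hC
    obtain ⟨y, hy, i⟩ := sec_C D H hC hx
    exact ⟨⟨(x, y), hy⟩, i⟩
  have h5 : ∀ s : EZ N V V' ⊕ EC N X X', ∃ p : EZ N V V', (EG N X X').Reachable s (Sum.inl p) := by
    rintro (p | C)
    · exact ⟨p, SimpleGraph.Reachable.refl _⟩
    · obtain ⟨p, hp⟩ := h4 C
      exact ⟨p, (inc_adj hp).symm.reachable⟩
  obtain ⟨y0, hy0⟩ := sec_ne D H v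
  have : Nonempty (EZ N V V' ⊕ EC N X X') := ⟨Sum.inl ⟨(v, y0), hy0⟩⟩
  refine ⟨fun s s' => ?_⟩
  obtain ⟨p, hp⟩ := h5 s
  obtain ⟨q, hq⟩ := h5 s'
  exact hp.trans ((h3 p q).trans hq.symm)

theorem ell_tree (D : ND N X X' v t v' t') (H : Ell N X X') : (EG N X X').IsTree := by
  classical
  refine tree_of_pot (ell_conn D H) ?_
  have key : ∀ (p0 : EZ N V V') (C0 : EC N X X'), Inc p0 C0 →
      ∃ f : EZ N V V' ⊕ EC N X X' → ℤ, f (Sum.inl p0) ≠ f (Sum.inr C0) ∧
        ∀ p C, Inc p C → f (Sum.inl p) ≠ f (Sum.inr C) → p = p0 ∧ C = C0 := by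
    intro p0 C0 h0
    obtain ⟨F, Φ, h⟩ := ell_pot D (fun p C => if p = p0 ∧ C = C0 then 1 else 0)
    refine ⟨Sum.elim F Φ, ?_, ?_⟩
    · show F p0 ≠ Φ C0
      rw [h p0 C0 h0, if_pos ⟨rfl, rfl⟩]
      omega
    · intro p C hpC hne
      have h1 : F p ≠ Φ C := hne
      by_contra h2
      apply h1
      rw [h p C hpC, if_neg h2, add_zero]
  rintro s s' (⟨p0, C0, h0, rfl, rfl⟩ | ⟨p0, C0, h0, rfl, rfl⟩)
  · obtain ⟨f, h1, h2⟩ := key p0 C0 h0
    refine ⟨f, h1, ?_⟩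
    rintro a b (⟨p, C, h, rfl, rfl⟩ | ⟨p, C, h, rfl, rfl⟩) hne
    · obtain ⟨rfl, rfl⟩ := h2 p C h hne
      exact Or.inl ⟨rfl, rfl⟩
    · obtain ⟨rfl, rfl⟩ := h2 p C h hne.symm
      exact Or.inr ⟨rfl, rfl⟩
  · obtain ⟨f, h1, h2⟩ := key p0 C0 h0
    refine ⟨f, h1.symm, ?_⟩
    rintro a b (⟨p, C, h, rfl, rfl⟩ | ⟨p, C, h, rfl, rfl⟩) hne
    · obtain ⟨rfl, rfl⟩ := h2 p C h hne
      exact Or.inr ⟨rfl, rfl⟩
    · obtain ⟨rfl, rfl⟩ := h2 p C h hne.symm
      exact Or.inl ⟨rfl, rfl⟩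

end

end Pool.Agent.SuUp
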