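import Pool.Agent.Lib.MP_305fdd_al.Su.Up.HypT

/-!
# GOING UP, part 4: the hyperbolic case, conclusion (MP_305fdd_al, surface groups, block UP)
-/

set_option autoImplicit false

namespace Pool.Agent.SuUp

open Pool.Agent.SuT Pool.Agent.FrT Pool.Agent.FrS

section

variable {N : Type} [Group N] {V V' : Type} [MulAction N V] [MulAction N V']
  {X : SimpleGraph V} {X' : SimpleGraph V'} {v : V} {t : N} {v' : V'}
  {t' : N} {h : V → ℤ} {h' : V' → ℤ}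

/-- parallel edges of an edge in the second direction -/
theorem par_A1 (hT' : X'.IsTree) (hh : ∀ x y, X.Adj x y → h y = h x + 1 ∨ h x = h y + 1)
    {x : V} {a b : V'} (hab : X'.Adj a b) (hup : h' b = h' a + 1) (hp : Co N X' (x, a))
    (hq : Co N X' (x, b)) {c : V} (hc : X.Adj x c) (hes : Ess X' (ES N x c) a b) :
    ∃ f : Cor N V X' × Cor N V X', Par (CSq N X X' h h') (⟨(x, a), hp⟩, ⟨(x, b), hq⟩) f ∧
      (f.1.1, f.2.1) = (if h c = h x + 1 then (((x, a), (c, a)) : (V × V') × (V × V'))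
        else ((c, b), (x, b))) := by
  obtain ⟨k1, k2, k3, k4⟩ := co_of_sq hT' hab hes
  by_cases hcx : h c = h x + 1
  · rw [if_pos hcx]
    refine ⟨(⟨(x, a), hp⟩, ⟨(c, a), k3⟩), ?_, rfl⟩
    exact ⟨⟨(x, a), hp⟩, ⟨(c, a), k3⟩, ⟨(x, b), hq⟩, ⟨(c, b), k4⟩,
      ⟨x, c, a, b, ⟨hc, hab, hcx, hup, hes⟩, rfl, rfl, rfl, rfl⟩, Or.inr (Or.inl ⟨rfl, rfl⟩)⟩
  · rw [if_neg hcx]
    have hcx' : h x = h c + 1 := (hh x c hc).resolve_left hcx
    refine ⟨(⟨(c, b), k4⟩, ⟨(x, b), hq⟩), ?_, rfl⟩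
    refine ⟨⟨(c, a), k3⟩, ⟨(x, a), hp⟩, ⟨(c, b), k4⟩, ⟨(x, b), hq⟩,
      ⟨c, x, a, b, ⟨hc.symm, hab, hcx', hup, ?_⟩, rfl, rfl, rfl, rfl⟩,
      Or.inr (Or.inr (Or.inl ⟨rfl, rfl⟩))⟩
    rw [ES_symm]
    exact hes

theorem par_A2 {x : V} {a b : V'} (hp : Co N X' (x, a)) (hq : Co N X' (x, b))
    {f : Cor N V X' × Cor N V X'}
    (hf : Par (CSq N X X' h h') (⟨(x, a), hp⟩, ⟨(x, b), hq⟩) f) :
    ∃ c : V, X.Adj x c ∧ Ess X' (ES N x c) a b ∧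
      (f.1.1, f.2.1) = (if h c = h x + 1 then (((x, a), (c, a)) : (V × V') × (V × V'))
        else ((c, b), (x, b))) := by
  obtain ⟨⟨p, hp1⟩, ⟨m, hm⟩, ⟨n, hn⟩, ⟨q, hq1⟩, ⟨x1, w1, a1, b1, hs, h1, h2, h3, h4⟩, h5⟩ := hf
  simp only at h1 h2 h3 h4
  subst h1 h2 h3 h4
  rcases h5 with ⟨e1, e2⟩ | ⟨e1, e2⟩ | ⟨e1, e2⟩ | ⟨e1, e2⟩
  · exfalso
    rw [Prod.mk.injEq, Subtype.mk.injEq, Subtype.mk.injEq, Prod.mk.injEq, Prod.mk.injEq] at e1
    obtain ⟨⟨e3, _⟩, ⟨e4, _⟩⟩ := e1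
    exact hs.ax.ne (e3.symm.trans e4)
  · rw [Prod.mk.injEq, Subtype.mk.injEq, Subtype.mk.injEq, Prod.mk.injEq, Prod.mk.injEq] at e1
    obtain ⟨⟨e3, e4⟩, ⟨_, e5⟩⟩ := e1
    subst e3 e4 e5
    refine ⟨w1, hs.ax, hs.es, ?_⟩
    rw [if_pos hs.hx, e2]
  · rw [Prod.mk.injEq, Subtype.mk.injEq, Subtype.mk.injEq, Prod.mk.injEq, Prod.mk.injEq] at e1
    obtain ⟨⟨e3, e4⟩, ⟨_, e5⟩⟩ := e1
    subst e3 e4 e5
    refine ⟨x1, hs.ax.symm, ?_, ?_⟩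
    · rw [ES_symm]
      exact hs.es
    · have := hs.hx
      rw [if_neg (by omega), e2]
  · exfalso
    rw [Prod.mk.injEq, Subtype.mk.injEq, Subtype.mk.injEq, Prod.mk.injEq, Prod.mk.injEq] at e1
    obtain ⟨⟨e3, _⟩, ⟨e4, _⟩⟩ := e1
    exact hs.ax.ne (e3.symm.trans e4)

theorem two_A (D : ND N X X' v t v' t') (H : Hyp N X X') (hh : ∀ x y, X.Adj x y →
    h y = h x + 1 ∨ h x = h y + 1) {x : V} {a b : V'} (hab : X'.Adj a b)
    (hup : h' b = h' a + 1) (hp : Co N X' (x, a)) (hq : Co N X' (x, b)) :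
    ∃ f1 f2 : Cor N V X' × Cor N V X', f1 ≠ f2 ∧
      Par (CSq N X X' h h') (⟨(x, a), hp⟩, ⟨(x, b), hq⟩) f1 ∧
      Par (CSq N X X' h h') (⟨(x, a), hp⟩, ⟨(x, b), hq⟩) f2 ∧
      ∀ f, Par (CSq N X X' h h') (⟨(x, a), hp⟩, ⟨(x, b), hq⟩) f → f = f1 ∨ f = f2 := by
  obtain ⟨c1, c2, hne, k1, k2, s1, s2, huni⟩ := D.hyp_two H x hab
    (ess_of_co D.ht'.tree hab hp hq)
  obtain ⟨f1, p1, v1⟩ := par_A1 D.ht'.tree hh hab hup hp hq k1 s1
  obtain ⟨f2, p2, v2⟩ := par_A1 D.ht'.tree hh hab hup hp hq k2 s2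
  have hinj : ∀ f g : Cor N V X' × Cor N V X', (f.1.1, f.2.1) = (g.1.1, g.2.1) → f = g := by
    rintro ⟨⟨f, _⟩, ⟨f', _⟩⟩ ⟨⟨g, _⟩, ⟨g', _⟩⟩ hfg
    simp only [Prod.mk.injEq] at hfg
    obtain ⟨rfl, rfl⟩ := hfg
    rfl
  refine ⟨f1, f2, ?_, p1, p2, ?_⟩
  · intro he
    rw [he, v2] at v1
    by_cases i1 : h c1 = h x + 1
    · by_cases i2 : h c2 = h x + 1
      · rw [if_pos i1, if_pos i2] at v1
        simp only [Prod.mk.injEq] at v1
        exact hne v1.2.1.symm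
      · rw [if_pos i1, if_neg i2] at v1
        simp only [Prod.mk.injEq] at v1
        exact k2.ne v1.1.1.symm
    · by_cases i2 : h c2 = h x + 1
      · rw [if_neg i1, if_pos i2] at v1
        simp only [Prod.mk.injEq] at v1
        exact k1.ne v1.1.1
      · rw [if_neg i1, if_neg i2] at v1
        simp only [Prod.mk.injEq] at v1
        exact hne v1.1.1.symm
  · intro f hf
    obtain ⟨c, kc, sc, vc⟩ := par_A2 hp hq hf
    rcases huni c kc sc with rfl | rfl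
    · left
      exact hinj _ _ (vc.trans v1.symm)
    · right
      exact hinj _ _ (vc.trans v2.symm)

/-- parallel edges of an edge in the first direction -/
theorem par_B1 (hT' : X'.IsTree) (hh' : ∀ x y, X'.Adj x y → h' y = h' x + 1 ∨ h' x = h' y + 1)
    {x w : V} {a : V'} (hxw : X.Adj x w) (hup : h w = h x + 1) (hp : Co N X' (x, a))
    (hq : Co N X' (w, a)) {c : V'} (hc : X'.Adj a c) (hes : Ess X' (ES N x w) a c) :
    ∃ f : Cor N V X' × Cor N V X', Par (CSq N X X' h h') (⟨(x, a), hp⟩, ⟨(w, a), hq⟩) f ∧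
      (f.1.1, f.2.1) = (if h' c = h' a + 1 then (((x, a), (x, c)) : (V × V') × (V × V'))
        else ((w, c), (w, a))) := by
  obtain ⟨k1, k2, k3, k4⟩ := co_of_sq hT' hc hes
  by_cases hcx : h' c = h' a + 1
  · rw [if_pos hcx]
    refine ⟨(⟨(x, a), hp⟩, ⟨(x, c), k2⟩), ?_, rfl⟩
    exact ⟨⟨(x, a), hp⟩, ⟨(w, a), hq⟩, ⟨(x, c), k2⟩, ⟨(w, c), k4⟩,
      ⟨x, w, a, c, ⟨hxw, hc, hup, hcx, hes⟩, rfl, rfl, rfl, rfl⟩, Or.inl ⟨rfl, rfl⟩⟩
  · rw [if_neg hcx]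
    have hcx' : h' a = h' c + 1 := (hh' a c hc).resolve_left hcx
    refine ⟨(⟨(w, c), k4⟩, ⟨(w, a), hq⟩), ?_, rfl⟩
    exact ⟨⟨(x, c), k2⟩, ⟨(w, c), k4⟩, ⟨(x, a), hp⟩, ⟨(w, a), hq⟩,
      ⟨x, w, c, a, ⟨hxw, hc.symm, hup, hcx', hes.symm hT' hc⟩, rfl, rfl, rfl, rfl⟩,
      Or.inr (Or.inr (Or.inr ⟨rfl, rfl⟩))⟩

theorem par_B2 (hT' : X'.IsTree) {x w : V} {a : V'} (hxw : x ≠ w) (hp : Co N X' (x, a))
    (hq : Co N X' (w, a)) {f : Cor N V X' × Cor N V X'}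
    (hf : Par (CSq N X X' h h') (⟨(x, a), hp⟩, ⟨(w, a), hq⟩) f) :
    ∃ c : V', X'.Adj a c ∧ Ess X' (ES N x w) a c ∧
      (f.1.1, f.2.1) = (if h' c = h' a + 1 then (((x, a), (x, c)) : (V × V') × (V × V'))
        else ((w, c), (w, a))) := by
  obtain ⟨⟨p, hp1⟩, ⟨m, hm⟩, ⟨n, hn⟩, ⟨q, hq1⟩, ⟨x1, w1, a1, b1, hs, h1, h2, h3, h4⟩, h5⟩ := hf
  simp only at h1 h2 h3 h4
  subst h1 h2 h3 h4
  rcases h5 with ⟨e1, e2⟩ | ⟨e1, e2⟩ | ⟨e1, e2⟩ | ⟨e1, e2⟩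
  · rw [Prod.mk.injEq, Subtype.mk.injEq, Subtype.mk.injEq, Prod.mk.injEq, Prod.mk.injEq] at e1
    obtain ⟨⟨e3, e4⟩, ⟨e5, _⟩⟩ := e1
    subst e3 e4 e5
    refine ⟨b1, hs.ab, hs.es, ?_⟩
    rw [if_pos hs.ha, e2]
  · exfalso
    rw [Prod.mk.injEq, Subtype.mk.injEq, Subtype.mk.injEq, Prod.mk.injEq, Prod.mk.injEq] at e1
    obtain ⟨⟨e3, _⟩, ⟨e4, _⟩⟩ := e1
    exact hxw (e3.trans e4.symm)
  · exfalso
    rw [Prod.mk.injEq, Subtype.mk.injEq, Subtype.mk.injEq, Prod.mk.injEq, Prod.mk.injEq] at e1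
    obtain ⟨⟨e3, _⟩, ⟨e4, _⟩⟩ := e1
    exact hxw (e3.trans e4.symm)
  · rw [Prod.mk.injEq, Subtype.mk.injEq, Subtype.mk.injEq, Prod.mk.injEq, Prod.mk.injEq] at e1
    obtain ⟨⟨e3, e4⟩, ⟨e5, _⟩⟩ := e1
    subst e3 e4 e5
    refine ⟨a1, hs.ab.symm, hs.es.symm hT' hs.ab, ?_⟩
    have := hs.ha
    rw [if_neg (by omega), e2]

theorem two_B (D : ND N X X' v t v' t') (H : Hyp N X X') (hh' : ∀ x y, X'.Adj x y →
    h' y = h' x + 1 ∨ h' x = h' y + 1) {x w : V} {a : V'} (hxw : X.Adj x w)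
    (hup : h w = h x + 1) (hp : Co N X' (x, a)) (hq : Co N X' (w, a)) :
    ∃ f1 f2 : Cor N V X' × Cor N V X', f1 ≠ f2 ∧
      Par (CSq N X X' h h') (⟨(x, a), hp⟩, ⟨(w, a), hq⟩) f1 ∧
      Par (CSq N X X' h h') (⟨(x, a), hp⟩, ⟨(w, a), hq⟩) f2 ∧
      ∀ f, Par (CSq N X X' h h') (⟨(x, a), hp⟩, ⟨(w, a), hq⟩) f → f = f1 ∨ f = f2 := by
  have hes : Ess X (MulAction.stabilizer N a) x w := by
    refine ess_conv D.ht.tree hxw (D.core_symm H hp) (D.core_symm H hq) left_not_mem_Hf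
      (right_mem_Hf D.ht.tree hxw)
  obtain ⟨c1, c2, hne, k1, k2, s1, s2, huni⟩ := D.symm.hyp_two H.symm a hxw hes
  have s1' := D.symm.c1 k1 hxw s1
  have s2' := D.symm.c1 k2 hxw s2
  obtain ⟨f1, p1, v1⟩ := par_B1 D.ht'.tree hh' hxw hup hp hq k1 s1'
  obtain ⟨f2, p2, v2⟩ := par_B1 D.ht'.tree hh' hxw hup hp hq k2 s2'
  have hinj : ∀ f g : Cor N V X' × Cor N V X', (f.1.1, f.2.1) = (g.1.1, g.2.1) → f = g := by
    rintro ⟨⟨f, _⟩, ⟨f', _⟩⟩ ⟨⟨g, _⟩, ⟨g', _⟩⟩ hfg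
    simp only [Prod.mk.injEq] at hfg
    obtain ⟨rfl, rfl⟩ := hfg
    rfl
  refine ⟨f1, f2, ?_, p1, p2, ?_⟩
  · intro he
    rw [he, v2] at v1
    by_cases i1 : h' c1 = h' a + 1
    · by_cases i2 : h' c2 = h' a + 1
      · rw [if_pos i1, if_pos i2] at v1
        simp only [Prod.mk.injEq] at v1
        exact hne v1.2.2.symm
      · rw [if_pos i1, if_neg i2] at v1
        simp only [Prod.mk.injEq] at v1
        exact hxw.ne v1.1.1.symm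
    · by_cases i2 : h' c2 = h' a + 1
      · rw [if_neg i1, if_pos i2] at v1
        simp only [Prod.mk.injEq] at v1
        exact hxw.ne v1.1.1
      · rw [if_neg i1, if_neg i2] at v1
        simp only [Prod.mk.injEq] at v1
        exact hne v1.1.2.symm
  · intro f hf
    obtain ⟨c, kc, sc, vc⟩ := par_B2 D.ht'.tree hxw.ne hp hq hf
    rcases huni c kc (D.c1 hxw kc sc) with rfl | rfl
    · left
      exact hinj _ _ (vc.trans v1.symm)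
    · right
      exact hinj _ _ (vc.trans v2.symm)

theorem cor_two (D : ND N X X' v t v' t') (H : Hyp N X X') (hh : ∀ x y, X.Adj x y →
    h y = h x + 1 ∨ h x = h y + 1) (hh' : ∀ x y, X'.Adj x y →
    h' y = h' x + 1 ∨ h' x = h' y + 1) (p q : Cor N V X') (hpq : CUp N X X' h h' p q) :
    ∃ f1 f2 : Cor N V X' × Cor N V X', f1 ≠ f2 ∧
      Par (CSq N X X' h h') (p, q) f1 ∧ Par (CSq N X X' h h') (p, q) f2 ∧
      ∀ f, Par (CSq N X X' h h') (p, q) f → f = f1 ∨ f = f2 := by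
  obtain ⟨⟨x, a⟩, hp⟩ := p
  obtain ⟨⟨w, b⟩, hq⟩ := q
  have hup : h w + h' b = h x + h' a + 1 := hpq.up
  rcases hpq.ty with ⟨e1, e2⟩ | ⟨e1, e2⟩
  · have e1' : x = w := e1
    subst e1'
    exact two_A D H hh e2 (by linarith) hp hq
  · have e2' : a = b := e2
    subst e2'
    exact two_B D H hh' e1 (by linarith) hp hq

end

section

variable {G : Type} [Group G] {N : Subgroup G} {V V' : Type} [MulAction N V] [MulAction N V']
  [MulAction G (V × V')] {X : SimpleGraph V} {X' : SimpleGraph V'} {v : V} {t : N} {v' : V'}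
  {t' : N} {h : V → ℤ} {h' : V' → ℤ}

theorem cor_free (U : UD G N X X') (D : ND N X X' v t v' t') (H : Hyp N X X') (g : G)
    (p q : V × V') (hpq : ZE N X X' h h' p q) (h1 : g • p = p) (h2 : g • q = q) : g = 1 := by
  obtain ⟨x, a⟩ := p
  obtain ⟨w, b⟩ := q
  by_cases hg : g ∈ N
  · have e : ∀ x y, g • (x, y) = ((⟨g, hg⟩ : N) • x, (⟨g, hg⟩ : N) • y) :=
      fun x y => U.act ⟨g, hg⟩ x y
    rw [e] at h1 h2
    simp only [Prod.mk.injEq] at h1 h2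
    have key : (⟨g, hg⟩ : N) = 1 := by
      rcases hpq.ty with ⟨e1, e2⟩ | ⟨e1, e2⟩
      · have h3 := D.hyp_bot H x e2
        rw [← Subgroup.mem_bot, ← h3]
        exact ⟨h1.1, mem_ES.2 ⟨h1.2, h2.2⟩⟩
      · have h3 := D.symm.hyp_bot H.symm a e1
        rw [← Subgroup.mem_bot, ← h3]
        exact ⟨h1.2, mem_ES.2 ⟨h1.1, h2.1⟩⟩
    exact congrArg Subtype.val key
  · obtain ⟨α, β, S⟩ := U.sw' D.ht.tree D.ht'.tree hg
    rw [S.eq] at h1 h2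
    simp only [Prod.mk.injEq] at h1 h2
    rcases hpq.ty with ⟨e1, e2⟩ | ⟨e1, e2⟩
    · have e1' : x = w := e1
      subst e1'
      exact absurd (h1.2.symm.trans h2.2) e2.ne
    · have e2' : a = b := e2
      subst e2'
      exact absurd (h1.1.symm.trans h2.1) e1.ne

/-- GOING UP in the hyperbolic case -/
theorem up_hyp (U : UD G N X X') (D : ND N X X' v t v' t') (H : Hyp N X X')
    (L : Hgt G X X' h h') (tf : ∀ g : G, ∀ n : ℕ, 0 < n → g ^ n = 1 → g = 1) :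
    ∃ (W : Type) (_ : MulAction G W) (Y : SimpleGraph W) (u w : W) (z : G), TA G Y ∧
      Y.Adj u w ∧ Ess Y (⊤ : Subgroup G) u w ∧ ES G u w = Subgroup.zpowers z ∧
      ∀ n : ℕ, 0 < n → z ^ n ≠ 1 := by
  let := corAct U D H
  have S := cor_sc U D H L
  obtain ⟨W, hW, Y, κ, η, hTA, hsurj, heq, hη, hY, hYη, hmd, hcl⟩ := S.tree
  -- every edge stabiliser is cyclic
  have hcyc : ∀ u w, Y.Adj u w → ∃ z : G, ES G u w = Subgroup.zpowers z := by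
    intro u w huw
    have key : ∀ p q, CUp N X X' h h' p q → ∃ z : G, ES G (κ p) (κ q) = Subgroup.zpowers z := by
      intro p q hpq
      refine S.cyc ?_ (cor_two D H L.hh L.hh') ?_ ?_ κ heq hmd hcl hpq
      · rintro b m n q ⟨x, w, a, b', hs, _, h2, h3, _⟩ hmn
        rw [hmn, h3] at h2
        exact hs.ax.ne (congrArg Prod.fst h2)
      · intro g p q hpq h1 h2
        exact cor_free U D H g p.1 q.1 hpq (congrArg Subtype.val h1) (congrArg Subtype.val h2)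
      · intro g hg
        exact tf g 2 (by norm_num) (by rw [pow_two]; exact hg)
    obtain ⟨p, q, hpq, ⟨rfl, rfl⟩ | ⟨rfl, rfl⟩⟩ := (hY u w).1 huw
    · exact key p q hpq
    · rw [ES_symm]
      exact key p q hpq
  -- an element without fixed vertices
  obtain ⟨g, c, hc0, hc⟩ := L.H1
  have hnf : ∀ w : W, g • w ≠ w := by
    intro w hw
    obtain ⟨p, rfl⟩ := hsurj w
    have h1 := hη (g • p)
    rw [heq, hw, hη] at h1
    have h2 := hc p.1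
    have h3 : h p.1.1 + h' p.1.2 = h (g • p.1).1 + h' (g • p.1).2 := h1
    rw [← h3] at h2
    omega
  obtain ⟨u, w, huw, htr⟩ := exists_tr hTA hnf
  obtain ⟨z, hz⟩ := hcyc u w huw
  refine ⟨W, hW, Y, u, w, z, hTA, huw, htr.ess hTA huw (Subgroup.mem_top g), hz, ?_⟩
  intro n hn hzn
  have hz1 : z = 1 := tf z n hn hzn
  have hbot : ES G u w = ⊥ := by
    rw [hz, hz1, Subgroup.zpowers_one_eq_bot]
  -- a free splitting of `N`
  have hTN : TA N Y := ⟨hTA.tree, fun g => hTA.act g, fun g => hTA.noinv g⟩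
  have hg2 : g ^ 2 ∈ N := by
    rw [pow_two]
    by_cases hg : g ∈ N
    · exact N.mul_mem hg hg
    · exact U.sq g g hg hg
  have htr2 : Tr Y (g ^ 2) u w := by
    obtain ⟨t1, t2, _, _⟩ := trans_dist hTA huw htr.1 htr.2
    exact ⟨t2 1, t1 2⟩
  have hess : Ess Y (⊤ : Subgroup N) u w :=
    Tr.ess (g := (⟨g ^ 2, hg2⟩ : N)) hTN huw (Subgroup.mem_top _) htr2
  refine fit_of_fi D.fi W Y hTN u w huw hess ?_
  rw [eq_bot_iff]
  intro s hs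
  have h1 : (s : G) ∈ ES G u w := mem_ES.2 (mem_ES.1 hs)
  rw [hbot, Subgroup.mem_bot] at h1
  rw [Subgroup.mem_bot]
  exact Subtype.ext h1

end

end Pool.Agent.SuUp
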