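import Pool.Agent.Lib.MP_305fdd_al.Su.Up.EllB
import Pool.Agent.Lib.MP_305fdd_al.Su.Up.HypU

/-!
# GOING UP, part 7: the elliptic case, conclusion (MP_305fdd_al, surface groups, block UP)
-/

set_option autoImplicit false

namespace Pool.Agent.SuUp

open Pool.Agent.SuT Pool.Agent.FrT Pool.Agent.FrS

/-- a torsion free extension of `ℤ` by a group with at most two elements is cyclic -/
theorem cyc_ext {G : Type} [Group G] (tf : ∀ g : G, ∀ n : ℕ, 0 < n → g ^ n = 1 → g = 1)
    {N K : Subgroup G} (hN : N.Normal) (hsq : ∀ g g' : G, g ∉ N → g' ∉ N → g * g' ∈ N) {w : G}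
    (hw : w ≠ 1) (hK : ∀ g ∈ K, g ∈ N → g ∈ Subgroup.zpowers w) (hwK : w ∈ K) (hwN : w ∈ N) :
    ∃ u : G, K = Subgroup.zpowers u := by
  have hinf : ∀ m : ℤ, w ^ m = 1 → m = 0 := by
    intro m hm
    by_contra hne
    apply hw
    have h1 : w ^ m.natAbs = 1 := by
      rcases Int.natAbs_eq m with h | h
      · rw [h, zpow_natCast] at hm
        exact hm
      · rw [h, zpow_neg, inv_eq_one, zpow_natCast] at hm
        exact hm
    exact tf w _ (Int.natAbs_pos.2 hne) h1
  by_cases hle : K ≤ N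
  · refine ⟨w, le_antisymm (fun g hg => hK g hg (hle hg)) ?_⟩
    rw [Subgroup.zpowers_le]
    exact hwK
  · obtain ⟨k, hk, hkN⟩ := SetLike.not_le_iff_exists.1 hle
    have hkN' : k⁻¹ ∉ N := fun h => hkN (by simpa using N.inv_mem h)
    obtain ⟨m, hm⟩ := Subgroup.mem_zpowers_iff.1
      (hK (k * k) (K.mul_mem hk hk) (hsq k k hkN hkN))
    obtain ⟨a, ha⟩ := Subgroup.mem_zpowers_iff.1
      (hK (k * w * k⁻¹) (K.mul_mem (K.mul_mem hk hwK) (K.inv_mem hk)) (hN.conj_mem w hwN k))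
    obtain ⟨b, hb⟩ := Subgroup.mem_zpowers_iff.1
      (hK (k⁻¹ * w * k⁻¹⁻¹) (K.mul_mem (K.mul_mem (K.inv_mem hk) hwK) (K.inv_mem (K.inv_mem hk)))
        (hN.conj_mem w hwN k⁻¹))
    have hconj : ∀ i : ℤ, k * w ^ i * k⁻¹ = w ^ (a * i) := by
      intro i
      rw [← conj_zpow, ← ha, ← zpow_mul]
    have hab : a * b = 1 := by
      have h1 : w = w ^ (a * b) := by
        rw [← hconj b, hb]
        group
      have h2 : w ^ (a * b - 1) = 1 := by
        rw [zpow_sub, ← h1, zpow_one, mul_inv_cancel]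
      have := hinf _ h2
      linarith
    have hk2 : w ^ m = w ^ (a * m) := by
      rw [← hconj m, hm]
      group
    rcases Int.eq_one_or_neg_one_of_mul_eq_one hab with h1 | h1
    · have hcomm : ∀ i : ℤ, k * w ^ i = w ^ i * k := by
        intro i
        have := hconj i
        rw [h1, one_mul] at this
        exact mul_inv_eq_iff_eq_mul.1 this
      obtain ⟨j, hj | hj⟩ := Int.even_or_odd' m
      · exfalso
        have h2 : (k * w ^ (-j)) ^ 2 = 1 := by
          rw [pow_two, mul_assoc, ← mul_assoc (w ^ (-j)), ← hcomm (-j), mul_assoc k, ← mul_assoc,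
            ← hm, hj, ← zpow_add, ← zpow_add]
          have : 2 * j + (-j + -j) = 0 := by ring
          rw [this, zpow_zero]
        have h3 := tf _ 2 (by norm_num) h2
        apply hkN
        have h4 : k = w ^ j := by
          rw [zpow_neg, mul_inv_eq_one] at h3
          exact h3
        rw [h4]
        exact N.zpow_mem hwN j
      · have h2 : (k * w ^ (-j)) ^ 2 = w := by
          rw [pow_two, mul_assoc, ← mul_assoc (w ^ (-j)), ← hcomm (-j), mul_assoc k, ← mul_assoc,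
            ← hm, hj, ← zpow_add, ← zpow_add]
          have : 2 * j + 1 + (-j + -j) = 1 := by ring
          rw [this, zpow_one]
        have h5 : k = (k * w ^ (-j)) * ((k * w ^ (-j)) ^ 2) ^ j := by
          rw [h2, mul_assoc, ← zpow_add, neg_add_cancel, zpow_zero, mul_one]
        refine ⟨k * w ^ (-j), le_antisymm ?_ ?_⟩
        · intro g hg
          have hw' : w ∈ Subgroup.zpowers (k * w ^ (-j)) := by
            have h6 := Subgroup.pow_mem (Subgroup.zpowers (k * w ^ (-j)))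
              (Subgroup.mem_zpowers (k * w ^ (-j))) 2
            rwa [h2] at h6
          have hzw : Subgroup.zpowers w ≤ Subgroup.zpowers (k * w ^ (-j)) := by
            rw [Subgroup.zpowers_le]
            exact hw'
          have hkz : k ∈ Subgroup.zpowers (k * w ^ (-j)) := by
            have h6 := Subgroup.mul_mem (Subgroup.zpowers (k * w ^ (-j)))
              (Subgroup.mem_zpowers (k * w ^ (-j)))
              (Subgroup.zpow_mem (Subgroup.zpowers (k * w ^ (-j))) hw' j)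
            rwa [mul_assoc, ← zpow_add, neg_add_cancel, zpow_zero, mul_one] at h6
          by_cases hgN : g ∈ N
          · exact hzw (hK g hg hgN)
          · have h6 : k⁻¹ * g ∈ Subgroup.zpowers w :=
              hK _ (K.mul_mem (K.inv_mem hk) hg) (hsq _ _ hkN' hgN)
            have h7 := Subgroup.mul_mem _ hkz (hzw h6)
            rwa [mul_inv_cancel_left] at h7
        · rw [Subgroup.zpowers_le]
          exact K.mul_mem hk (K.zpow_mem hwK _)
    · exfalso
      rw [h1] at hk2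
      have h2 : w ^ (m + m) = 1 := by
        rw [zpow_add]
        nth_rw 1 [hk2]
        rw [← zpow_add]
        have : -1 * m + m = 0 := by ring
        rw [this, zpow_zero]
      have h3 := hinf _ h2
      have h4 : m = 0 := by omega
      rw [h4, zpow_zero] at hm
      apply hkN
      rw [tf k 2 (by norm_num) (by rw [pow_two]; exact hm.symm)]
      exact N.one_mem

section

variable {G : Type} [Group G] {N : Subgroup G} {V V' : Type} [MulAction N V] [MulAction N V']
  [MulAction G (V × V')] {X : SimpleGraph V} {X' : SimpleGraph V'} {v : V} {t : N} {v' : V'}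
  {t' : N} {h : V → ℤ} {h' : V' → ℤ}

/-- conjugation as a homomorphism -/
def UD.cjH (U : UD G N X X') (g : G) : N →* N where
  toFun := U.cj g
  map_one' := Subtype.ext (by
    show g * 1 * g⁻¹ = 1
    group)
  map_mul' a b := Subtype.ext (by
    show g * (a * b) * g⁻¹ = (g * a * g⁻¹) * (g * b * g⁻¹)
    group)

/-- conjugation of subgroups -/
def UD.cS (U : UD G N X X') (g : G) (C : Subgroup N) : Subgroup N := C.comap (U.cjH g⁻¹)

theorem UD.mem_cS (U : UD G N X X') {g : G} {C : Subgroup N} {n : N} :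
    n ∈ U.cS g C ↔ U.cj g⁻¹ n ∈ C := Iff.rfl

theorem UD.cj_one (U : UD G N X X') (n : N) : U.cj 1 n = n := Subtype.ext (by
  show 1 * (n : G) * 1⁻¹ = n
  group)

theorem UD.cj_cj (U : UD G N X X') (g g' : G) (n : N) : U.cj g (U.cj g' n) = U.cj (g * g') n :=
  Subtype.ext (by
    show g * (g' * (n : G) * g'⁻¹) * g⁻¹ = g * g' * n * (g * g')⁻¹
    group)

theorem UD.cj_inv (U : UD G N X X') (g : G) (n : N) : U.cj g⁻¹ (U.cj g n) = n := by
  rw [U.cj_cj, inv_mul_cancel, U.cj_one]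

theorem UD.cj_inv' (U : UD G N X X') (g : G) (n : N) : U.cj g (U.cj g⁻¹ n) = n := by
  rw [U.cj_cj, mul_inv_cancel, U.cj_one]

theorem UD.mem_A2 (U : UD G N X X') {n : N} {p : V × V'} :
    n ∈ MulAction.stabilizer N p.1 ⊓ MulAction.stabilizer N p.2 ↔ (n : G) • p = p := by
  obtain ⟨x, y⟩ := p
  rw [U.act, Subgroup.mem_inf, MulAction.mem_stabilizer_iff, MulAction.mem_stabilizer_iff,
    Prod.mk.injEq]

theorem UD.A2_smul (U : UD G N X X') (g : G) (p : V × V') :
    MulAction.stabilizer N (g • p).1 ⊓ MulAction.stabilizer N (g • p).2 =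
      U.cS g (MulAction.stabilizer N p.1 ⊓ MulAction.stabilizer N p.2) := by
  ext n
  rw [U.mem_A2, U.mem_cS, U.mem_A2]
  show (n : G) • g • p = g • p ↔ (g⁻¹ * n * g⁻¹⁻¹) • p = p
  rw [inv_inv, mul_smul, mul_smul, inv_smul_eq_iff]

theorem UD.cyc_cS (U : UD G N X X') {g : G} {A : Subgroup N} (hA : NCyc A) : NCyc (U.cS g A) := by
  rintro ⟨z, hz⟩
  apply hA
  refine ⟨U.cjH g⁻¹ z, ?_⟩
  ext m
  have h1 : m ∈ A ↔ U.cj g m ∈ U.cS g A := by rw [U.mem_cS, U.cj_inv]
  rw [h1, hz, Subgroup.mem_zpowers_iff, Subgroup.mem_zpowers_iff]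
  constructor
  · rintro ⟨k, hk⟩
    refine ⟨k, ?_⟩
    rw [← map_zpow, hk]
    exact U.cj_inv g m
  · rintro ⟨k, hk⟩
    refine ⟨k, ?_⟩
    rw [← map_zpow] at hk
    have h2 : U.cj g (U.cj g⁻¹ (z ^ k)) = U.cj g m := congrArg (U.cj g) hk
    rwa [U.cj_inv'] at h2

theorem UD.cc_cS (U : UD G N X X') (hX : TA N X) (hX' : TA N X') (g : G) {C : Subgroup N}
    (hC : CC N X X' C) : CC N X X' (U.cS g C) := by
  by_cases hg : g ∈ N
  · have key : ∀ {W : Type} [MulAction N W] (a b : W), U.cS g (ES N a b) =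
        ES N ((⟨g, hg⟩ : N) • a) ((⟨g, hg⟩ : N) • b) := by
      intro W _ a b
      ext n
      rw [U.mem_cS, mem_ES_smul]
      have : U.cj g⁻¹ n = (⟨g, hg⟩ : N)⁻¹ * n * (⟨g, hg⟩ : N) := Subtype.ext (by
        show g⁻¹ * (n : G) * g⁻¹⁻¹ = g⁻¹ * n * g
        rw [inv_inv])
      rw [this]
    rcases hC with ⟨a, b, hab, rfl⟩ | ⟨a, b, hab, rfl⟩
    · left
      exact ⟨_, _, hX.act ⟨g, hg⟩ _ _ hab, key a b⟩
    · right
      exact ⟨_, _, hX'.act ⟨g, hg⟩ _ _ hab, key a b⟩
  · obtain ⟨α, β, S⟩ := U.sw' hX.tree hX'.tree hg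
    obtain ⟨x0⟩ := hX.tree.connected.nonempty
    obtain ⟨y0⟩ := hX'.tree.connected.nonempty
    have hβ : ∀ x w, β x = β w → x = w := by
      intro x w he
      have h1 : g • (x, y0) = g • (w, y0) := by rw [S.eq, S.eq, he]
      exact congrArg Prod.fst (MulAction.injective g h1)
    have hα : ∀ x w, α x = α w → x = w := by
      intro x w he
      have h1 : g • (x0, x) = g • (x0, w) := by rw [S.eq, S.eq, he]
      exact congrArg Prod.snd (MulAction.injective g h1)
    rcases hC with ⟨a, b, hab, rfl⟩ | ⟨a, b, hab, rfl⟩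
    · right
      refine ⟨β a, β b, S.be _ _ hab, ?_⟩
      ext n
      rw [U.mem_cS, mem_ES, mem_ES]
      have h1 : ∀ x, β (U.cj g⁻¹ n • x) = n • β x := by
        intro x
        rw [S.bn, U.cj_inv']
      rw [← h1, ← h1]
      constructor
      · rintro ⟨e1, e2⟩
        rw [e1, e2]
        exact ⟨rfl, rfl⟩
      · rintro ⟨e1, e2⟩
        exact ⟨hβ _ _ e1, hβ _ _ e2⟩
    · left
      refine ⟨α a, α b, S.al _ _ hab, ?_⟩
      ext n
      rw [U.mem_cS, mem_ES, mem_ES]
      have h1 : ∀ x, α (U.cj g⁻¹ n • x) = n • α x := by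
        intro x
        rw [S.an, U.cj_inv']
      rw [← h1, ← h1]
      constructor
      · rintro ⟨e1, e2⟩
        rw [e1, e2]
        exact ⟨rfl, rfl⟩
      · rintro ⟨e1, e2⟩
        exact ⟨hα _ _ e1, hα _ _ e2⟩

/-- the action on the vertices of the tree -/
abbrev ellAct (U : UD G N X X') (hX : TA N X) (hX' : TA N X') :
    MulAction G (EZ N V V' ⊕ EC N X X') where
  smul := fun g => Sum.map
    (fun p => ⟨g • p.1, by
      rw [U.A2_smul]
      exact U.cyc_cS p.2⟩)
    (fun C => ⟨U.cS g C.1, U.cc_cS hX hX' g C.2⟩)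
  one_smul := by
    rintro (⟨p, hp⟩ | ⟨C, hC⟩)
    · exact congrArg Sum.inl (Subtype.ext (one_smul G p))
    · refine congrArg Sum.inr (Subtype.ext ?_)
      show U.cS 1 C = C
      ext n
      rw [U.mem_cS, inv_one, U.cj_one]
  mul_smul := by
    rintro g g' (⟨p, hp⟩ | ⟨C, hC⟩)
    · exact congrArg Sum.inl (Subtype.ext (mul_smul g g' p))
    · refine congrArg Sum.inr (Subtype.ext ?_)
      show U.cS (g * g') C = U.cS g (U.cS g' C)
      ext n
      rw [U.mem_cS, U.mem_cS, U.mem_cS, U.cj_cj, mul_inv_rev]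

/-- GOING UP in the elliptic case -/
theorem up_ell (U : UD G N X X') (D : ND N X X' v t v' t') (H : Ell N X X')
    (L : Hgt G X X' h h') (tf : ∀ g : G, ∀ n : ℕ, 0 < n → g ^ n = 1 → g = 1) :
    ∃ (W : Type) (_ : MulAction G W) (Y : SimpleGraph W) (u w : W) (z : G), TA G Y ∧
      Y.Adj u w ∧ Ess Y (⊤ : Subgroup G) u w ∧ ES G u w = Subgroup.zpowers z ∧
      ∀ n : ℕ, 0 < n → z ^ n ≠ 1 := by
  let act := ellAct U D.ht.toTA D.ht'.toTA
  have hinc : ∀ (g : G) (p : EZ N V V') (C : EC N X X'), Inc p C →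
      (EG N X X').Adj (g • (Sum.inl p : EZ N V V' ⊕ EC N X X')) (g • Sum.inr C) := by
    intro g p C hpC
    refine Or.inl ⟨_, _, ?_, rfl, rfl⟩
    show U.cS g C.1 ≤ MulAction.stabilizer N (g • p.1).1 ⊓ MulAction.stabilizer N (g • p.1).2
    rw [U.A2_smul]
    intro n hn
    rw [U.mem_cS] at hn ⊢
    exact hpC hn
  have hTA : TA G (EG N X X') := by
    refine ⟨ell_tree D H, ?_, ?_⟩
    · rintro g s s' (⟨p, C, hpC, rfl, rfl⟩ | ⟨p, C, hpC, rfl, rfl⟩)
      · exact hinc g p C hpC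
      · exact (hinc g p C hpC).symm
    · rintro g s s' (⟨p, C, hpC, rfl, rfl⟩ | ⟨p, C, hpC, rfl, rfl⟩) ⟨h1, h2⟩
      · exact absurd h1 (by
          show (Sum.inl _ : EZ N V V' ⊕ EC N X X') ≠ Sum.inr _
          simp)
      · exact absurd h2 (by
          show (Sum.inl _ : EZ N V V' ⊕ EC N X X') ≠ Sum.inr _
          simp)
  -- `t` fixes no vertex of `X`
  obtain ⟨y0⟩ := D.ht'.tree.connected.nonempty
  have ht : ∀ x : V, t • x ≠ x := by
    intro x hx
    have h1 := L.n_h U t (x := x) (w := v) y0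
    rw [hx] at h1
    rcases L.hh v (t • v) D.ht.adj with h2 | h2 <;> omega
  have hnorm : ∀ (n : N) (C : Subgroup N), MC C → U.cS (n : G) C = C → n ∈ C := by
    intro n C hC he
    obtain ⟨a, ha, ha1⟩ := mc_ne hC
    refine hC.2 a ha ha1 n ?_
    rw [← he, U.mem_cS]
    have : U.cj (n : G)⁻¹ (n * a * n⁻¹) = a := Subtype.ext (by
      show (n : G)⁻¹ * (n * a * (n : G)⁻¹) * ((n : G)⁻¹)⁻¹ = a
      group)
    rw [this]
    exact ha
  have hnf : ∀ s : EZ N V V' ⊕ EC N X X', (t : G) • s ≠ s := by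
    rintro (⟨p, hp⟩ | ⟨C, hC⟩) he
    · have h1 : (t : G) • p = p := congrArg Subtype.val (Sum.inl.inj he)
      rw [← U.mem_A2] at h1
      exact ht p.1 h1.1
    · have h1 : U.cS (t : G) C = C := congrArg Subtype.val (Sum.inr.inj he)
      have h2 := hnorm t C (cc_mc D hC) h1
      obtain ⟨x, hx⟩ := cc_fix H hC
      exact ht x (hx h2)
  obtain ⟨u, w, huw, htr⟩ := exists_tr hTA hnf
  -- the edge stabilisers
  have key : ∀ (p : EZ N V V') (C : EC N X X'), Inc p C →
      ∃ z : G, ES G (Sum.inl p : EZ N V V' ⊕ EC N X X') (Sum.inr C) = Subgroup.zpowers z ∧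
        ∀ n : ℕ, 0 < n → z ^ n ≠ 1 := by
    rintro ⟨p, hp⟩ ⟨C, hC⟩ hpC
    have hpC' : C ≤ MulAction.stabilizer N p.1 ⊓ MulAction.stabilizer N p.2 := hpC
    have hmc := cc_mc D hC
    obtain ⟨w, hw0, hw⟩ := hmc.1
    have hwC : w ∈ C := by
      rw [hw]
      exact Subgroup.mem_zpowers w
    have hw1 : (w : G) ≠ 1 := by
      intro e
      exact hw0 1 one_pos (by rw [pow_one]; exact Subtype.ext e)
    have hmem : ∀ n : N, (n : G) ∈ ES G (Sum.inl ⟨p, hp⟩ : EZ N V V' ⊕ EC N X X')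
        (Sum.inr ⟨C, hC⟩) ↔ n ∈ C := by
      intro n
      rw [mem_ES]
      constructor
      · rintro ⟨_, h2⟩
        exact hnorm n C hmc (congrArg Subtype.val (Sum.inr.inj h2))
      · intro hn
        constructor
        · refine congrArg Sum.inl (Subtype.ext ?_)
          exact U.mem_A2.1 (hpC' hn)
        · refine congrArg Sum.inr (Subtype.ext ?_)
          show U.cS (n : G) C = C
          ext m
          rw [U.mem_cS]
          have e : U.cj (n : G)⁻¹ m = n⁻¹ * m * n := Subtype.ext (by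
            show (n : G)⁻¹ * m * ((n : G)⁻¹)⁻¹ = (n : G)⁻¹ * m * n
            rw [inv_inv])
          rw [e, C.mul_mem_cancel_right hn, C.mul_mem_cancel_left (C.inv_mem hn)]
    obtain ⟨z, hz⟩ := cyc_ext tf U.nor U.sq hw1
      (K := ES G (Sum.inl ⟨p, hp⟩ : EZ N V V' ⊕ EC N X X') (Sum.inr ⟨C, hC⟩)) (by
        intro g hg hgN
        have h1 : (⟨g, hgN⟩ : N) ∈ C := (hmem ⟨g, hgN⟩).1 hg
        rw [hw, Subgroup.mem_zpowers_iff] at h1
        obtain ⟨k, hk⟩ := h1
        rw [Subgroup.mem_zpowers_iff]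
        refine ⟨k, ?_⟩
        have := congrArg Subtype.val hk
        rwa [Subgroup.coe_zpow] at this) ((hmem w).2 hwC) w.2
    refine ⟨z, hz, ?_⟩
    intro n hn hzn
    have hz1 := tf z n hn hzn
    have h2 := (hmem w).2 hwC
    rw [hz, hz1, Subgroup.zpowers_one_eq_bot, Subgroup.mem_bot] at h2
    exact hw1 h2
  have hes : Ess (EG N X X') (⊤ : Subgroup G) u w := htr.ess hTA huw (Subgroup.mem_top _)
  have huw' := huw
  rcases huw with ⟨p, C, hpC, rfl, rfl⟩ | ⟨p, C, hpC, rfl, rfl⟩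
  · obtain ⟨z, h1, h2⟩ := key p C hpC
    exact ⟨_, act, EG N X X', _, _, z, hTA, huw', hes, h1, h2⟩
  · obtain ⟨z, h1, h2⟩ := key p C hpC
    rw [ES_symm] at h1
    exact ⟨_, act, EG N X X', _, _, z, hTA, huw', hes, h1, h2⟩

/-- GOING UP -/
theorem up_main (U : UD G N X X') (D : ND N X X' v t v' t') (L : Hgt G X X' h h')
    (tf : ∀ g : G, ∀ n : ℕ, 0 < n → g ^ n = 1 → g = 1) :
    ∃ (W : Type) (_ : MulAction G W) (Y : SimpleGraph W) (u w : W) (z : G), TA G Y ∧
      Y.Adj u w ∧ Ess Y (⊤ : Subgroup G) u w ∧ ES G u w = Subgroup.zpowers z ∧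
      ∀ n : ℕ, 0 < n → z ^ n ≠ 1 := by
  rcases D.dich with H | H
  · exact up_hyp U D H L tf
  · exact up_ell U D H L tf

end

end Pool.Agent.SuUp
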