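import Pool.Agent.Lib.MP_305fdd_al.Su.Up.Ess

/-!
# Essential edges: no leaves, fixed points, existence (MP_305fdd_al, surface groups, block UP)
-/

set_option autoImplicit false

namespace Pool.Agent.SuUp

section

variable {G : Type} [Group G] {V : Type} [MulAction G V] {X : SimpleGraph V}

/-- the minimal subtree has no leaves -/
theorem two_ess (hT : TA G X) {E : Subgroup G} {y y' : V} (hadj : X.Adj y y')
    (h : Ess X E y y') : ∃ y'', X.Adj y y'' ∧ y'' ≠ y' ∧ Ess X E y y'' := by
  by_cases hc : ∃ b ∈ E, b • y ∉ Hf X y y' ∧ b • y ≠ y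
  · obtain ⟨b, hb, h1, h2⟩ := hc
    obtain ⟨c, hc, h3⟩ := first_edge hT.tree h2.symm
    refine ⟨c, hc, ?_, ?_⟩
    · rintro rfl
      exact h1 h3
    · refine ess_conv hT.tree hc ⟨y', hadj, h⟩ ⟨b • y', hT.act b _ _ hadj, h.smul_mem hT hb⟩
        left_not_mem_Hf h3
  · push Not at hc
    obtain ⟨_, ⟨b, hb, h1⟩⟩ := h y'
    by_cases hby : b • y = y
    · refine ⟨b • y', ?_, ?_, ?_⟩
      · have := hT.act b _ _ hadj
        rwa [hby] at this
      · intro e
        rw [e] at h1
        exact h1 (right_mem_Hf hT.tree hadj)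
      · have := h.smul_mem hT hb
        rwa [hby] at this
    · have h2 : b • y ∈ Hf X y y' := by
        by_contra h2
        exact hby (hc b hb h2)
      obtain ⟨e1, e2⟩ := cross_edge hT.tree hadj h1 h2 (hT.act b _ _ hadj).symm
      exact absurd ⟨e2, e1⟩ (hT.noinv b y y' hadj)

/-- a group with a unique fixed vertex has it in every minimal subtree which it preserves -/
theorem fixed_mem (hT : TA G X) {P E : Subgroup G} (hPE : P ≤ E) {v : V}
    (hv : ∀ p ∈ P, p • v = v) (huniq : ∀ u : V, (∀ p ∈ P, p • u = u) → u = v)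
    (hne : ∃ q, EssV X E q) : EssV X E v := by
  classical
  have hex : ∃ n : ℕ, ∃ q, EssV X E q ∧ X.dist v q = n := by
    obtain ⟨q, hq⟩ := hne
    exact ⟨_, q, hq, rfl⟩
  obtain ⟨q, hq, hqn⟩ := Nat.find_spec hex
  have hmin : ∀ q', EssV X E q' → X.dist v q ≤ X.dist v q' := by
    intro q' hq'
    rw [hqn]
    exact Nat.find_min' hex ⟨q', hq', rfl⟩
  have hfix : ∀ p ∈ P, p • q = q := by
    intro p hp
    by_contra hne
    obtain ⟨c, hc, h3⟩ := first_edge hT.tree (Ne.symm hne)
    have hpq : EssV X E (p • q) := by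
      obtain ⟨q', h1, h2⟩ := hq
      exact ⟨p • q', hT.act p _ _ h1, h2.smul_mem hT (hPE hp)⟩
    have h4 : Ess X E q c := ess_conv hT.tree hc hq hpq left_not_mem_Hf h3
    have h5 : EssV X E c := ⟨q, hc.symm, h4.symm hT.tree hc⟩
    by_cases h6 : v ∈ Hf X q c
    · rw [mem_Hf] at h6
      have := hmin c h5
      omega
    · rw [not_mem_Hf hT.tree hc] at h6
      have h7 := sep hT.tree hc h6 h3
      have h8 : X.dist v (p • q) = X.dist v q := by
        conv_lhs => rw [← hv p hp]
        exact dist_smul hT.act hT.tree p v q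
      omega
  rw [← huniq q hfix]
  exact hq

/-- translations -/
theorem trans_dist (hT : TA G X) {u v : V} (hadj : X.Adj u v) {g : G} (h1 : g • u ∈ Hf X u v)
    (h2 : u ∉ Hf X (g • u) (g • v)) :
    (∀ n : ℕ, u ∉ Hf X (g ^ n • u) (g ^ n • v)) ∧ (∀ n : ℕ, g ^ (n + 1) • u ∈ Hf X u v) ∧
      (∀ n : ℕ, n ≤ X.dist u (g ^ n • u)) ∧ Hf X (g • u) (g • v) ⊆ Hf X u v := by
  have hgv : g • v ∈ Hf X u v := by
    by_contra h3
    obtain ⟨e1, e2⟩ := cross_edge hT.tree hadj h3 h1 (hT.act g _ _ hadj).symm
    exact hT.noinv g u v hadj ⟨e2, e1⟩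
  have hsub : Hf X (g • u) (g • v) ⊆ Hf X u v := nest hT.tree (hT.act g _ _ hadj) hadj hgv h2
  have hsubn : ∀ n : ℕ, Hf X (g ^ n • u) (g ^ n • v) ⊆ Hf X u v := by
    intro n
    induction n with
    | zero => simp
    | succ n ih =>
      intro x hx
      rw [pow_succ', mul_smul, mul_smul, mem_Hf_smul hT.act hT.tree] at hx
      have h3 := ih hx
      rw [← mem_Hf_smul hT.act hT.tree] at h3
      exact hsub h3
  have ha : ∀ n : ℕ, u ∉ Hf X (g ^ n • u) (g ^ n • v) := by
    intro n
    cases n with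
    | zero =>
      simp only [pow_zero, one_smul]
      exact left_not_mem_Hf
    | succ n =>
      intro h3
      apply h2
      rw [pow_succ', mul_smul, mul_smul, mem_Hf_smul hT.act hT.tree] at h3
      have h4 := hsubn n h3
      rwa [← mem_Hf_smul hT.act hT.tree] at h4
  have hb : ∀ n : ℕ, g ^ (n + 1) • u ∈ Hf X u v := by
    intro n
    have h3 : g ^ (n + 1) • u ∈ Hf X (g ^ n • u) (g ^ n • v) := by
      rw [pow_succ, mul_smul, smul_mem_Hf hT.act hT.tree]
      exact h1
    exact hsubn n h3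
  refine ⟨ha, hb, ?_, hsub⟩
  intro n
  induction n with
  | zero => simp
  | succ n ih =>
    have h3 : g ^ (n + 1) • u ∈ Hf X (g ^ n • u) (g ^ n • v) := by
      rw [pow_succ, mul_smul, smul_mem_Hf hT.act hT.tree]
      exact h1
    have h4 := ha n
    rw [not_mem_Hf hT.tree (hT.act _ _ _ hadj)] at h4
    have h5 := sep hT.tree (hT.act _ _ _ hadj) h4 h3
    omega

theorem trans_out (hT : TA G X) {u v : V} (hadj : X.Adj u v) {g : G} (h1 : g • u ∈ Hf X u v)
    (h2 : u ∉ Hf X (g • u) (g • v)) (y : V) : ∃ n : ℕ, (g ^ n)⁻¹ • y ∉ Hf X u v := by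
  obtain ⟨ha, hb, hd, hsub⟩ := trans_dist hT hadj h1 h2
  by_contra hc
  push Not at hc
  have h3 := hc (X.dist u y)
  rw [← mem_Hf_smul hT.act hT.tree] at h3
  have h4 := ha (X.dist u y)
  rw [not_mem_Hf hT.tree (hT.act _ _ _ hadj)] at h4
  have h5 := sep hT.tree (hT.act _ _ _ hadj) h4 h3
  have h6 := hd (X.dist u y)
  omega

theorem trans_in (hT : TA G X) {u v : V} (hadj : X.Adj u v) {g : G} (h1 : g • u ∈ Hf X u v)
    (h2 : u ∉ Hf X (g • u) (g • v)) (y : V) : ∃ n : ℕ, g ^ n • y ∈ Hf X u v := by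
  obtain ⟨ha, hb, hd, hsub⟩ := trans_dist hT hadj h1 h2
  by_contra hc
  push Not at hc
  set n := X.dist y u + 1 with hn
  have h3 := hc n
  have h4 : g ^ n • u ∈ Hf X u v := hb _
  rw [not_mem_Hf hT.tree hadj] at h3
  have h5 := sep hT.tree hadj h3 h4
  have h6 : X.dist (g ^ n • y) (g ^ n • u) = X.dist y u := dist_smul hT.act hT.tree _ _ _
  have h7 := hd n
  have h8 : X.dist v u = 1 := SimpleGraph.dist_eq_one_iff_adj.mpr hadj.symm
  have h9 : X.dist u v = 1 := SimpleGraph.dist_eq_one_iff_adj.mpr hadj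
  have h10 := dist_tri hT.tree u v (g ^ n • u)
  omega

/-- a translation makes the edge essential -/
theorem ess_of_trans (hT : TA G X) {E : Subgroup G} {u v : V} (hadj : X.Adj u v) {g : G}
    (hg : g ∈ E) (h1 : g • u ∈ Hf X u v) (h2 : u ∉ Hf X (g • u) (g • v)) : Ess X E u v := by
  intro y
  obtain ⟨n, hn⟩ := trans_in hT hadj h1 h2 y
  obtain ⟨m, hm⟩ := trans_out hT hadj h1 h2 y
  exact ⟨⟨g ^ n, E.pow_mem hg n, hn⟩, ⟨(g ^ m)⁻¹, E.inv_mem (E.pow_mem hg m), hm⟩⟩

/-- a finitely generated group without a fixed vertex has an essential edge -/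
theorem exists_ess (hT : TA G X) {E : Subgroup G} (hfg : E.FG)
    (hnf : ¬ ∃ v : V, ∀ g ∈ E, g • v = v) : ∃ u v, X.Adj u v ∧ Ess X E u v := by
  classical
  obtain ⟨S, hS⟩ := hfg
  let f : V → ℕ := fun x => ∑ a ∈ S, X.dist x (a • x)
  obtain ⟨x0⟩ := hT.tree.connected.nonempty
  have hex : ∃ n : ℕ, ∃ x, f x = n := ⟨_, x0, rfl⟩
  obtain ⟨x, hx⟩ := Nat.find_spec hex
  have hmin : ∀ y, f x ≤ f y := by
    intro y
    rw [hx]
    exact Nat.find_min' hex ⟨y, rfl⟩
  have hSE : ∀ a ∈ S, a ∈ E := by
    intro a ha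
    rw [← hS]
    exact Subgroup.subset_closure ha
  have hmove : ∃ a ∈ S, a • x ≠ x := by
    by_contra hc
    push Not at hc
    apply hnf
    refine ⟨x, ?_⟩
    have : E ≤ MulAction.stabilizer G x := by
      rw [← hS, Subgroup.closure_le]
      intro a ha
      exact hc a ha
    intro g hg
    exact this hg
  obtain ⟨a, haS, hax⟩ := hmove
  obtain ⟨x1, hadj, h1⟩ := first_edge hT.tree (Ne.symm hax)
  refine ⟨x, x1, hadj, ?_⟩
  intro y
  constructor
  · by_contra hc
    push Not at hc
    by_cases h2 : x ∈ Hf X (a • x) (a • x1)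
    · have h3 : Hf X x1 x ⊆ Hf X (a • x) (a • x1) := by
        refine nest hT.tree hadj.symm (hT.act a _ _ hadj) h2 ?_
        rw [not_mem_Hf hT.tree hadj.symm]
        exact h1
      have h4 := hc 1 E.one_mem
      rw [one_smul, not_mem_Hf hT.tree hadj] at h4
      have h5 := h3 h4
      rw [mem_Hf_smul hT.act hT.tree] at h5
      exact hc a⁻¹ (E.inv_mem (hSE a haS)) h5
    · obtain ⟨n, hn⟩ := trans_in hT hadj h1 h2 y
      exact hc _ (E.pow_mem (hSE a haS) n) hn
  · by_contra hc
    push Not at hc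
    have hle : ∀ b ∈ S, X.dist x1 (b • x1) ≤ X.dist x (b • x) ∧
        (b • x ≠ x → X.dist x1 (b • x1) < X.dist x (b • x)) := by
      intro b hb
      have hyH : y ∈ Hf X x x1 := by
        have := hc 1 E.one_mem
        rwa [one_smul] at this
      have hybH : y ∈ Hf X (b • x) (b • x1) := by
        rw [mem_Hf_smul hT.act hT.tree]
        exact hc b⁻¹ (E.inv_mem (hSE b hb))
      by_cases hbx : b • x = x
      · have hb1 : b • x1 = x1 := by
          have hadj' : X.Adj x (b • x1) := by
            have := hT.act b _ _ hadj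
            rwa [hbx] at this
          rw [hbx] at hybH
          exact (first_unique hT.tree hadj hadj' hyH hybH).symm
        rw [hb1, hbx]
        refine ⟨by simp, fun h => absurd rfl h⟩
      · have hstrict : X.dist x1 (b • x1) < X.dist x (b • x) := by
          by_cases k1 : b • x ∈ Hf X x x1
          · by_cases k2 : x ∈ Hf X (b • x) (b • x1)
            · have k3 : x1 ∈ Hf X (b • x) (b • x1) := by
                by_contra k3
                obtain ⟨e1, e2⟩ := cross_edge hT.tree (hT.act b _ _ hadj) k3 k2 hadj.symm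
                exact hT.noinv b x x1 hadj ⟨e1.symm, e2.symm⟩
              rw [mem_Hf] at k1 k3
              have c1 : X.dist (b • x) x1 = X.dist x1 (b • x) := SimpleGraph.dist_comm
              have c2 : X.dist (b • x) x = X.dist x (b • x) := SimpleGraph.dist_comm
              omega
            · exfalso
              obtain ⟨n, hn⟩ := trans_out hT hadj k1 k2 y
              exact hn (hc _ (E.inv_mem (E.pow_mem (hSE b hb) n)))
          · by_cases k2 : x ∈ Hf X (b • x) (b • x1)
            · exfalso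
              rw [mem_Hf_smul hT.act hT.tree] at k2
              have k3 : x ∉ Hf X (b⁻¹ • x) (b⁻¹ • x1) := by
                rw [mem_Hf_smul hT.act hT.tree, inv_inv]
                exact k1
              obtain ⟨n, hn⟩ := trans_out hT hadj k2 k3 y
              exact hn (hc _ (E.inv_mem (E.pow_mem (E.inv_mem (hSE b hb)) n)))
            · exfalso
              rw [not_mem_Hf hT.tree hadj] at k1
              rw [not_mem_Hf hT.tree (hT.act b _ _ hadj)] at k2
              have s1 := sep hT.tree hadj k1 hyH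
              have s2 := sep hT.tree (hT.act b _ _ hadj) k2 hybH
              have d1 := dist_adj hT.tree hadj y
              have d2 := dist_adj hT.tree (hT.act b _ _ hadj) y
              rw [mem_Hf] at hyH hybH
              have c1 : X.dist y x1 = X.dist x1 y := SimpleGraph.dist_comm
              have c2 : X.dist y x = X.dist x y := SimpleGraph.dist_comm
              have c3 : X.dist y (b • x) = X.dist (b • x) y := SimpleGraph.dist_comm
              have c4 : X.dist y (b • x1) = X.dist (b • x1) y := SimpleGraph.dist_comm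
              have c5 : X.dist (b • x) x = X.dist x (b • x) := SimpleGraph.dist_comm
              have hD : X.dist x (b • x) = 0 := by omega
              exact hbx ((hT.tree.connected.dist_eq_zero_iff).mp hD).symm
        exact ⟨hstrict.le, fun _ => hstrict⟩
    have hlt : f x1 < f x := by
      refine Finset.sum_lt_sum (fun b hb => (hle b hb).1) ⟨a, haS, (hle a haS).2 hax⟩
    exact absurd (hmin x1) (not_le.mpr hlt)

end

end Pool.Agent.SuUp
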