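import Pool.Agent.Lib.MP_305fdd_al.Su.Rep2
import Pool.Agent.Lib.MP_305fdd_al.Su.StmTree

/-!
# Malnormal cyclic subgroups of free groups (MP_305fdd_al, surface groups, block UP)
-/

set_option autoImplicit false

namespace Pool.Agent.SuUp

open Pool.Agent.SuT

/-- the exponent of a generator -/
noncomputable def fexp {α : Type} (x : α) : FreeGroup α →* Multiplicative ℤ :=
  open Classical in FreeGroup.lift (fun y => if y = x then Multiplicative.ofAdd 1 else 1)

theorem fexp_self {α : Type} (x : α) : fexp x (FreeGroup.of x) = Multiplicative.ofAdd 1 := by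
  classical
  unfold fexp
  rw [FreeGroup.lift_apply_of, if_pos rfl]

theorem fexp_ne {α : Type} {x y : α} (h : y ≠ x) : fexp x (FreeGroup.of y) = 1 := by
  classical
  unfold fexp
  rw [FreeGroup.lift_apply_of, if_neg h]

theorem fexp_zpow {α : Type} (x : α) (k : ℤ) :
    fexp x (FreeGroup.of x ^ k) = Multiplicative.ofAdd k := by
  rw [map_zpow, fexp_self, ← ofAdd_zsmul, smul_eq_mul, mul_one]

/-- the centre of a free group which is not cyclic is trivial -/
theorem free_center {ι : Type} {i j : ι} (hij : i ≠ j) {s : FreeGroup ι}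
    (hi : s * FreeGroup.of i = FreeGroup.of i * s)
    (hj : s * FreeGroup.of j = FreeGroup.of j * s) : s = 1 := by
  -- `s` is a power of `of i`
  have key : ∀ k : ι, s * FreeGroup.of k = FreeGroup.of k * s →
      ∃ n : ℤ, s = FreeGroup.of k ^ n := by
    intro k hk
    have hcomm : ∀ x ∈ Subgroup.closure ({s, FreeGroup.of k} : Set (FreeGroup ι)),
        ∀ y ∈ Subgroup.closure ({s, FreeGroup.of k} : Set (FreeGroup ι)), x * y = y * x := by
      have h1 := Subgroup.isMulCommutative_closure (k := ({s, FreeGroup.of k} : Set (FreeGroup ι)))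
        (by
          rintro x (rfl | hx) y (rfl | hy)
          · rfl
          · rw [Set.mem_singleton_iff] at hy
            rw [hy]
            exact hk
          · rw [Set.mem_singleton_iff] at hx
            rw [hx]
            exact hk.symm
          · rw [Set.mem_singleton_iff] at hx hy
            rw [hx, hy])
      intro x hx y hy
      exact congrArg Subtype.val (h1.is_comm.comm (⟨x, hx⟩ : Subgroup.closure _) ⟨y, hy⟩)
    obtain ⟨r, _, hr⟩ := Su.sub_comm_cyc _ hcomm
    obtain ⟨m, hm⟩ := hr (FreeGroup.of k) (Subgroup.subset_closure (by simp))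
    obtain ⟨n, hn⟩ := hr s (Subgroup.subset_closure (by simp))
    have h2 := congrArg (fexp k) hm
    rw [fexp_self, map_zpow] at h2
    have h3 : m * Multiplicative.toAdd (fexp k r) = 1 := by
      have := congrArg Multiplicative.toAdd h2
      rw [toAdd_ofAdd, toAdd_zpow, smul_eq_mul] at this
      exact this.symm
    rcases Int.eq_one_or_neg_one_of_mul_eq_one h3 with h4 | h4
    · refine ⟨n, ?_⟩
      rw [hn, hm, h4, zpow_one]
    · refine ⟨-n, ?_⟩
      rw [hn, hm, h4, ← zpow_mul]
      congr 1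
      ring
  obtain ⟨n, hn⟩ := key i hi
  obtain ⟨m, hm⟩ := key j hj
  have h1 := congrArg (fexp i) hn
  rw [fexp_zpow, hm, map_zpow, fexp_ne hij.symm, one_zpow] at h1
  have h2 : n = 0 := by
    have := congrArg Multiplicative.toAdd h1
    rw [toAdd_one, toAdd_ofAdd] at this
    exact this.symm
  rw [hn, h2, zpow_zero]

/-- the centraliser of a nontrivial power of a generator -/
theorem free_centralizer {α : Type} (x : α) {n : ℤ} (hn : n ≠ 0) {w : FreeGroup α}
    (h : w * FreeGroup.of x ^ n = FreeGroup.of x ^ n * w) : w ∈ Subgroup.zpowers (FreeGroup.of x) := by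
  set s := FreeGroup.of x ^ n with hs
  have hs1 : s ≠ 1 := by
    intro e
    have h1 := congrArg (fexp x) e
    rw [hs, fexp_zpow, map_one] at h1
    apply hn
    have := congrArg Multiplicative.toAdd h1
    rw [toAdd_one, toAdd_ofAdd] at this
    exact this
  let H : Subgroup (FreeGroup α) := Subgroup.centralizer {s}
  have hH : ∀ y, y ∈ H ↔ y * s = s * y := by
    intro y
    rw [Subgroup.mem_centralizer_singleton_iff]
  obtain ⟨κ, ⟨b⟩⟩ := (inferInstance : IsFreeGroup H)
  let e : H ≃* FreeGroup κ := b.repr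
  have hsH : s ∈ H := by rw [hH]
  have hsub : Subsingleton κ := by
    constructor
    intro i j
    by_contra hij
    have hc : ∀ k, e ⟨s, hsH⟩ * FreeGroup.of k = FreeGroup.of k * e ⟨s, hsH⟩ := by
      intro k
      obtain ⟨⟨y, hy⟩, hy'⟩ := e.surjective (FreeGroup.of k)
      rw [← hy', ← map_mul, ← map_mul]
      congr 1
      exact Subtype.ext ((hH y).1 hy).symm
    have h1 := free_center hij (hc i) (hc j)
    have h2 : (⟨s, hsH⟩ : H) = 1 := e.injective (by rw [h1, map_one])
    exact hs1 (congrArg Subtype.val h2)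
  have hcomm : ∀ y ∈ H, ∀ z ∈ H, y * z = z * y := by
    intro y hy z hz
    have h1 : e ⟨y, hy⟩ * e ⟨z, hz⟩ = e ⟨z, hz⟩ * e ⟨y, hy⟩ := by
      rcases isEmpty_or_nonempty κ with he | ⟨⟨i⟩⟩
      · exact Subsingleton.elim _ _
      · have h2 : ∀ u : FreeGroup κ, ∃ k : ℤ, u = FreeGroup.of i ^ k := by
          intro u
          induction u using FreeGroup.induction_on with
          | C1 => exact ⟨0, by simp⟩
          | of j => exact ⟨1, by rw [zpow_one, Subsingleton.elim j i]⟩
          | inv_of j _ => exact ⟨-1, by rw [zpow_neg, zpow_one, Subsingleton.elim j i]⟩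
          | mul a b ha hb =>
            obtain ⟨m, hm⟩ := ha
            obtain ⟨n, hn⟩ := hb
            exact ⟨m + n, by rw [hm, hn, zpow_add]⟩
        obtain ⟨k, hk⟩ := h2 (e ⟨y, hy⟩)
        obtain ⟨l, hl⟩ := h2 (e ⟨z, hz⟩)
        rw [hk, hl, ← zpow_add, ← zpow_add, add_comm]
    rw [← map_mul, ← map_mul] at h1
    exact congrArg Subtype.val (e.injective h1)
  obtain ⟨r, _, hr⟩ := Su.sub_comm_cyc H hcomm
  have hxH : FreeGroup.of x ∈ H := by
    rw [hH, hs, ← zpow_one_add, ← zpow_add_one, add_comm]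
  obtain ⟨m, hm⟩ := hr _ hxH
  obtain ⟨k, hk⟩ := hr w ((hH w).2 h)
  have h2 := congrArg (fexp x) hm
  rw [fexp_self, map_zpow] at h2
  have h3 : m * Multiplicative.toAdd (fexp x r) = 1 := by
    have := congrArg Multiplicative.toAdd h2
    rw [toAdd_ofAdd, toAdd_zpow, smul_eq_mul] at this
    exact this.symm
  rw [Subgroup.mem_zpowers_iff]
  rcases Int.eq_one_or_neg_one_of_mul_eq_one h3 with h4 | h4
  · refine ⟨k, ?_⟩
    rw [hk, hm, h4, zpow_one]
  · refine ⟨-k, ?_⟩
    rw [hk, hm, h4, ← zpow_mul]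
    congr 1
    ring

/-- **a free factor `⟨x⟩` of a free group is malnormal** -/
theorem free_mc {α : Type} (x : α) : MC (Subgroup.zpowers (FreeGroup.of x)) := by
  refine ⟨⟨FreeGroup.of x, ?_, rfl⟩, ?_⟩
  · intro n hn h
    have h1 := congrArg (fexp x) h
    rw [← zpow_natCast, fexp_zpow, map_one] at h1
    have := congrArg Multiplicative.toAdd h1
    rw [toAdd_one, toAdd_ofAdd] at this
    omega
  · intro a ha ha1 g hg
    obtain ⟨n, rfl⟩ := Subgroup.mem_zpowers_iff.1 ha
    obtain ⟨m, hm⟩ := Subgroup.mem_zpowers_iff.1 hg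
    have hn : n ≠ 0 := by
      rintro rfl
      exact ha1 (zpow_zero _)
    have hmn : m = n := by
      have h1 := congrArg (fexp x) hm
      rw [map_mul, map_mul, map_inv, fexp_zpow, fexp_zpow, mul_comm, inv_mul_cancel_left] at h1
      exact Multiplicative.ofAdd.injective h1
    refine free_centralizer x hn ?_
    rw [hmn] at hm
    rw [eq_mul_inv_iff_mul_eq] at hm
    exact hm.symm

/-- free groups are torsion free -/
theorem free_tf {α : Type} {w : FreeGroup α} {n : ℕ} (hn : 0 < n) (h : w ^ n = 1) : w = 1 := by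
  have h1 : ∀ x ∈ Subgroup.zpowers w, ∀ y ∈ Subgroup.zpowers w, x * y = y * x := by
    intro x hx y hy
    obtain ⟨a, rfl⟩ := Subgroup.mem_zpowers_iff.1 hx
    obtain ⟨b, rfl⟩ := Subgroup.mem_zpowers_iff.1 hy
    rw [← zpow_add, ← zpow_add, add_comm]
  by_contra hne
  let H := Subgroup.zpowers w
  obtain ⟨κ, ⟨b⟩⟩ := (inferInstance : IsFreeGroup H)
  let e : H ≃* FreeGroup κ := b.repr
  rcases isEmpty_or_nonempty κ with he | ⟨⟨i⟩⟩
  · have h2 : e ⟨w, Subgroup.mem_zpowers w⟩ = 1 := Subsingleton.elim _ _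
    have h3 : (⟨w, Subgroup.mem_zpowers w⟩ : H) = 1 := e.injective (by rw [h2, map_one])
    exact hne (congrArg Subtype.val h3)
  · obtain ⟨⟨y, hy⟩, hy'⟩ := e.surjective (FreeGroup.of i)
    obtain ⟨k, hk⟩ := Subgroup.mem_zpowers_iff.1 hy
    have h2 : y ^ n = 1 := by
      rw [← hk, ← zpow_natCast, ← zpow_mul, mul_comm, zpow_mul, zpow_natCast, h, one_zpow]
    have h3 : FreeGroup.of i ^ n = 1 := by
      rw [← hy', ← map_pow]
      have : (⟨y, hy⟩ : H) ^ n = 1 := Subtype.ext h2
      rw [this, map_one]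
    have h4 := congrArg (fexp i) h3
    rw [← zpow_natCast, fexp_zpow, map_one] at h4
    have := congrArg Multiplicative.toAdd h4
    rw [toAdd_one, toAdd_ofAdd] at this
    omega

end Pool.Agent.SuUp
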