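import Mathlib

/-!
# A group acting freely on the vertices of a connected 2-regular graph is cyclic

(if it has no element of order two.)  MP_305fdd_al, surface groups, GOING UP.
-/

set_option autoImplicit false

namespace Pool.Agent.SuUp

section

variable {E : Type} (Q : SimpleGraph E)

/-- oriented edges -/
private abbrev Arc : Type := {p : E × E // Q.Adj p.1 p.2}

private def flip : Equiv.Perm (Arc Q) where
  toFun p := ⟨(p.1.2, p.1.1), p.2.symm⟩
  invFun p := ⟨(p.1.2, p.1.1), p.2.symm⟩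
  left_inv _ := rfl
  right_inv _ := rfl

private theorem conn_ind {E : Type} {Q : SimpleGraph E} (hconn : Q.Connected) (P : E → Prop)
    {e0 : E} (h0 : P e0) (step : ∀ x y, Q.Adj x y → P y → P x) (x : E) : P x := by
  obtain ⟨w⟩ := hconn.preconnected x e0
  induction w with
  | nil => exact h0
  | cons h w ih => exact step _ _ h (ih h0)

variable {Q}

private def stp (oth : E → E → E) (h1 : ∀ x a, Q.Adj x a → Q.Adj x (oth x a))
    (h2 : ∀ x a, Q.Adj x a → oth x (oth x a) = a) : Equiv.Perm (Arc Q) where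
  toFun p := ⟨(p.1.2, oth p.1.2 p.1.1), h1 _ _ p.2.symm⟩
  invFun p := ⟨(oth p.1.1 p.1.2, p.1.1), (h1 _ _ p.2).symm⟩
  left_inv p := by
    apply Subtype.ext
    apply Prod.ext
    · exact h2 _ _ p.2.symm
    · rfl
  right_inv p := by
    apply Subtype.ext
    apply Prod.ext
    · rfl
    · exact h2 _ _ p.2

variable {K : Type} [Group K] [MulAction K E]

private def rho (hact : ∀ (k : K) x y, Q.Adj x y → Q.Adj (k • x) (k • y)) :
    K →* Equiv.Perm (Arc Q) where
  toFun k :=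
    { toFun := fun p => ⟨(k • p.1.1, k • p.1.2), hact k _ _ p.2⟩
      invFun := fun p => ⟨(k⁻¹ • p.1.1, k⁻¹ • p.1.2), hact k⁻¹ _ _ p.2⟩
      left_inv := fun p => by
        apply Subtype.ext
        apply Prod.ext
        · exact inv_smul_smul k _
        · exact inv_smul_smul k _
      right_inv := fun p => by
        apply Subtype.ext
        apply Prod.ext
        · exact smul_inv_smul k _
        · exact smul_inv_smul k _ }
  map_one' := by
    apply Equiv.ext
    intro p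
    apply Subtype.ext
    apply Prod.ext
    · exact one_smul K _
    · exact one_smul K _
  map_mul' k l := by
    apply Equiv.ext
    intro p
    apply Subtype.ext
    apply Prod.ext
    · exact mul_smul k l _
    · exact mul_smul k l _

/-- LINE LEMMA -/
theorem line_cyclic (hconn : Q.Connected)
    (hact : ∀ (k : K) x y, Q.Adj x y → Q.Adj (k • x) (k • y))
    (two : ∀ x, ∃ a b, a ≠ b ∧ Q.Adj x a ∧ Q.Adj x b ∧ ∀ c, Q.Adj x c → c = a ∨ c = b)
    (free : ∀ (k : K) (x : E), k • x = x → k = 1) (h2 : ∀ k : K, k * k = 1 → k = 1) :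
    ∃ z : K, ∀ k : K, k ∈ Subgroup.zpowers z := by
  classical
  have hoth : ∀ x a, ∃ b, Q.Adj x a → (b ≠ a ∧ Q.Adj x b ∧ ∀ c, Q.Adj x c → c = a ∨ c = b) := by
    intro x a
    obtain ⟨b1, b2, hne, h3, h4, h5⟩ := two x
    by_cases ha : Q.Adj x a
    · rcases h5 a ha with rfl | rfl
      · exact ⟨b2, fun _ => ⟨hne.symm, h4, h5⟩⟩
      · exact ⟨b1, fun _ => ⟨hne, h3, fun c hc => (h5 c hc).symm⟩⟩
    · exact ⟨a, fun h => absurd h ha⟩
  choose oth hoth using hoth
  have o1 : ∀ x a, Q.Adj x a → Q.Adj x (oth x a) := fun x a h => (hoth x a h).2.1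
  have o2 : ∀ x a, Q.Adj x a → oth x (oth x a) = a := by
    intro x a h
    have h3 := hoth x _ (o1 x a h)
    rcases (hoth x a h).2.2 _ h3.2.1 with h4 | h4
    · exact h4
    · exact absurd h4 h3.1
  have o3 : ∀ (k : K) x a, Q.Adj x a → oth (k • x) (k • a) = k • oth x a := by
    intro k x a h
    have h3 := hoth (k • x) (k • a) (hact k _ _ h)
    rcases h3.2.2 _ (hact k _ _ (o1 x a h)) with h4 | h4
    · exact absurd (MulAction.injective k h4) (hoth x a h).1
    · exact h4.symm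
  set S := stp oth o1 o2 with hS
  set F := flip Q with hF
  set ρ := rho hact with hρ
  have FF : F * F = 1 := rfl
  have FSF : F * S * F = S⁻¹ := rfl
  have ρS : ∀ k, Commute (ρ k) S := by
    intro k
    apply Equiv.ext
    intro p
    apply Subtype.ext
    apply Prod.ext
    · rfl
    · exact (o3 k _ _ p.2.symm).symm
  have ρF : ∀ k, Commute (ρ k) F := fun k => rfl
  obtain ⟨e0⟩ := hconn.nonempty
  obtain ⟨e1, _, _, he1, _⟩ := two e0
  set a0 : Arc Q := ⟨(e0, e1), he1⟩ with ha0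
  -- all vertices
  have vert : ∀ x : E, ∃ n : ℤ, ((S ^ n) a0).1.1 = x := by
    refine conn_ind hconn _ (e0 := e0) ⟨0, rfl⟩ ?_
    rintro x y h ⟨n, hn⟩
    have h3 : Q.Adj y ((S ^ n) a0).1.2 := by
      have := ((S ^ n) a0).2
      rwa [hn] at this
    rcases (hoth y _ h3).2.2 x h.symm with h4 | h4
    · refine ⟨n + 1, ?_⟩
      rw [zpow_add, zpow_one, (Commute.zpow_self S n).eq]
      show ((S ^ n) a0).1.2 = x
      exact h4.symm
    · refine ⟨n - 1, ?_⟩
      rw [zpow_sub, zpow_one, ((Commute.zpow_self S n).inv_right).eq]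
      show oth ((S ^ n) a0).1.1 ((S ^ n) a0).1.2 = x
      rw [hn, h4]
  -- all arcs
  have arcs : ∀ p : Arc Q, ∃ n : ℤ, p = (S ^ n) a0 ∨ p = F ((S ^ n) a0) := by
    intro p
    obtain ⟨n, hn⟩ := vert p.1.1
    have h3 : Q.Adj p.1.1 ((S ^ n) a0).1.2 := by
      have := ((S ^ n) a0).2
      rwa [hn] at this
    rcases (hoth p.1.1 _ h3).2.2 p.1.2 p.2 with h4 | h4
    · refine ⟨n, Or.inl ?_⟩
      apply Subtype.ext
      apply Prod.ext
      · exact hn.symm
      · exact h4
    · refine ⟨n - 1, Or.inr ?_⟩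
      rw [zpow_sub, zpow_one, ((Commute.zpow_self S n).inv_right).eq]
      apply Subtype.ext
      apply Prod.ext
      · exact hn.symm
      · show p.1.2 = oth ((S ^ n) a0).1.1 ((S ^ n) a0).1.2
        rw [hn, h4]
  have hfree : ∀ (k : K) (p : Arc Q), ρ k p = p → k = 1 := by
    intro k p h
    exact free k p.1.1 (congrArg (fun q : Arc Q => q.1.1) h)
  have ρSn : ∀ k (n : ℤ), ρ k * S ^ n = S ^ n * ρ k := fun k n => ((ρS k).zpow_right n).eq
  have FSn : ∀ n : ℤ, F * S ^ n * F = S ^ (-n) := by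
    intro n
    have h3 : F⁻¹ = F := by
      rw [inv_eq_iff_mul_eq_one]
      exact FF
    have h4 := conj_zpow (a := F) (b := S) (i := n)
    rw [h3] at h4
    rw [← h4, FSF, inv_zpow, zpow_neg]
  have htr : ∀ k : K, ∃ n : ℤ, ρ k a0 = (S ^ n) a0 := by
    intro k
    obtain ⟨n, h | h⟩ := arcs (ρ k a0)
    · exact ⟨n, h⟩
    · have h3 : ρ (k * k) a0 = a0 := by
        rw [map_mul]
        have e1 : (ρ k * ρ k) a0 = (ρ k * (F * S ^ n)) a0 := congrArg (ρ k) h
        have e2 : ρ k * (F * S ^ n) = F * S ^ n * ρ k := by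
          rw [← mul_assoc, (ρF k).eq, mul_assoc, ρSn, ← mul_assoc]
        rw [e1, e2]
        have e3 : (F * S ^ n * ρ k) a0 = (F * S ^ n * (F * S ^ n)) a0 :=
          congrArg (F * S ^ n) h
        rw [e3, ← mul_assoc, FSn, ← zpow_add]
        simp
      have h4 := h2 k (hfree _ _ h3)
      refine ⟨0, ?_⟩
      rw [h4, map_one]
      rfl
  -- the subgroup of the integers
  let H : AddSubgroup ℤ :=
    { carrier := {n | ∃ k : K, ρ k a0 = (S ^ n) a0}
      zero_mem' := ⟨1, by rw [map_one]; rfl⟩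
      add_mem' := by
        rintro m n ⟨k, hk⟩ ⟨l, hl⟩
        refine ⟨k * l, ?_⟩
        rw [map_mul]
        have e1 : (ρ k * ρ l) a0 = (ρ k * S ^ n) a0 := congrArg (ρ k) hl
        rw [e1, ρSn]
        have e2 : (S ^ n * ρ k) a0 = (S ^ n * S ^ m) a0 := congrArg (S ^ n) hk
        rw [e2, ← zpow_add, add_comm]
      neg_mem' := by
        rintro n ⟨k, hk⟩
        refine ⟨k⁻¹, ?_⟩
        rw [map_inv, Equiv.Perm.inv_eq_iff_eq]
        have e1 : ρ k ((S ^ (-n)) a0) = (S ^ (-n) * ρ k) a0 := by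
          rw [← ρSn]
          rfl
        rw [e1]
        have e2 : (S ^ (-n) * ρ k) a0 = (S ^ (-n) * S ^ n) a0 := congrArg (S ^ (-n)) hk
        rw [e2, ← zpow_add]
        simp }
  obtain ⟨m, hm⟩ := Int.subgroup_cyclic H
  have hmem : m ∈ H := by
    rw [hm]
    exact AddSubgroup.subset_closure (Set.mem_singleton m)
  obtain ⟨z, hz⟩ := hmem
  have hzn : ∀ j : ℤ, ρ (z ^ j) a0 = (S ^ (m * j)) a0 := by
    intro j
    induction j using Int.induction_on with
    | zero => simp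
    | succ j ih =>
      rw [zpow_add_one, map_mul]
      have e1 : (ρ (z ^ (j : ℤ)) * ρ z) a0 = (ρ (z ^ (j : ℤ)) * S ^ m) a0 :=
        congrArg (ρ (z ^ (j : ℤ))) hz
      rw [e1, ρSn]
      have e2 : (S ^ m * ρ (z ^ (j : ℤ))) a0 = (S ^ m * S ^ (m * (j : ℤ))) a0 :=
        congrArg (S ^ m) ih
      rw [e2, ← zpow_add]
      congr 2
      ring
    | pred j ih =>
      have h5 : ρ z⁻¹ a0 = (S ^ (-m)) a0 := by
        rw [map_inv, Equiv.Perm.inv_eq_iff_eq]
        have e1 : ρ z ((S ^ (-m)) a0) = (S ^ (-m) * ρ z) a0 := by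
          rw [← ρSn]
          rfl
        rw [e1]
        have e2 : (S ^ (-m) * ρ z) a0 = (S ^ (-m) * S ^ m) a0 := congrArg (S ^ (-m)) hz
        rw [e2, ← zpow_add]
        simp
      rw [zpow_sub_one, map_mul]
      have e1 : (ρ (z ^ (-(j : ℤ))) * ρ z⁻¹) a0 = (ρ (z ^ (-(j : ℤ))) * S ^ (-m)) a0 :=
        congrArg (ρ (z ^ (-(j : ℤ)))) h5
      rw [e1, ρSn]
      have e2 : (S ^ (-m) * ρ (z ^ (-(j : ℤ)))) a0 = (S ^ (-m) * S ^ (m * (-(j : ℤ)))) a0 :=
        congrArg (S ^ (-m)) ih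
      rw [e2, ← zpow_add]
      congr 2
      ring
  refine ⟨z, ?_⟩
  intro k
  obtain ⟨n, hn⟩ := htr k
  have hnH : n ∈ H := ⟨k, hn⟩
  rw [hm, AddSubgroup.mem_closure_singleton] at hnH
  obtain ⟨j, hj⟩ := hnH
  have h6 : ρ ((z ^ j)⁻¹ * k) a0 = a0 := by
    rw [map_mul, map_inv]
    show (ρ (z ^ j))⁻¹ (ρ k a0) = a0
    rw [Equiv.Perm.inv_eq_iff_eq, hn, hzn]
    congr 2
    rw [← hj, smul_eq_mul, mul_comm]
  have h7 := hfree _ _ h6
  rw [inv_mul_eq_one] at h7
  exact ⟨j, h7⟩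

end

end Pool.Agent.SuUp
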