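import Pool.Agent.Lib.MP_305fdd_al.Su.Up.Coc
import Pool.Agent.Lib.MP_305fdd_al.Su.Up.Ess3
import Pool.Agent.Lib.MP_305fdd_al.Su.Up.Line

/-!
# The tree of a square complex with a height (MP_305fdd_al, surface groups, block UP)

`P` is the set of vertices, `up p q` the upward edges, `sq b m n t` the squares (bottom `b`, top `t`).
The two middle corners of a square are identified.
-/

set_option autoImplicit false

namespace Pool.Agent.SuUp

open Pool.Agent.FrT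

/-- the identification -/
def Md {P : Type} (sq : P → P → P → P → Prop) (p q : P) : Prop :=
  ∃ b t, sq b p q t ∨ sq b q p t

/-- parallel upward edges -/
def Par {P : Type} (sq : P → P → P → P → Prop) (e f : P × P) : Prop :=
  ∃ b m n t, sq b m n t ∧
    ((e = (b, m) ∧ f = (b, n)) ∨ (e = (b, n) ∧ f = (b, m)) ∨
      (e = (m, t) ∧ f = (n, t)) ∨ (e = (n, t) ∧ f = (m, t)))

theorem Par.symm {P : Type} {sq : P → P → P → P → Prop} {e f : P × P} (h : Par sq e f) :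
    Par sq f e := by
  obtain ⟨b, m, n, t, h1, h2⟩ := h
  refine ⟨b, m, n, t, h1, ?_⟩
  rcases h2 with ⟨e1, e2⟩ | ⟨e1, e2⟩ | ⟨e1, e2⟩ | ⟨e1, e2⟩
  · exact Or.inr (Or.inl ⟨e2, e1⟩)
  · exact Or.inl ⟨e2, e1⟩
  · exact Or.inr (Or.inr (Or.inr ⟨e2, e1⟩))
  · exact Or.inr (Or.inr (Or.inl ⟨e2, e1⟩))

/-- the properties of the square complex -/
structure SC (G : Type) [Group G] {P : Type} [MulAction G P] (up : P → P → Prop)
    (sq : P → P → P → P → Prop) (H : P → ℤ) : Prop where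
  ne : Nonempty P
  con : ∀ p q, Relation.ReflTransGen (fun p q => up p q ∨ up q p) p q
  side : ∀ b m n t, sq b m n t → up b m ∧ up b n ∧ up m t ∧ up n t
  ht : ∀ p q, up p q → H q = H p + 1
  hg : ∀ g : G, ∃ c : ℤ, ∀ p, H (g • p) = H p + c
  gup : ∀ (g : G) p q, up p q → up (g • p) (g • q)
  gsq : ∀ (g : G) b m n t, sq b m n t →
    sq (g • b) (g • m) (g • n) (g • t) ∨ sq (g • b) (g • n) (g • m) (g • t)
  pot : ∀ c : P → P → ℤ, (∀ p q, c q p = - c p q) →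
    (∀ b m n t, sq b m n t → c b m + c m t = c b n + c n t) →
    ∃ F : P → ℤ, ∀ p q, up p q → F q = F p + c p q

section

variable {G : Type} [Group G] {P : Type} [MulAction G P] {up : P → P → Prop}
  {sq : P → P → P → P → Prop} {H : P → ℤ}

theorem SC.md (S : SC G up sq H) (g : G) {p q : P} (h : Md sq p q) : Md sq (g • p) (g • q) := by
  obtain ⟨b, t, h | h⟩ := h
  · rcases S.gsq g _ _ _ _ h with h | h
    · exact ⟨_, _, Or.inl h⟩
    · exact ⟨_, _, Or.inr h⟩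
  · rcases S.gsq g _ _ _ _ h with h | h
    · exact ⟨_, _, Or.inr h⟩
    · exact ⟨_, _, Or.inl h⟩

theorem SC.par (S : SC G up sq H) (g : G) {e f : P × P} (h : Par sq e f) :
    Par sq (g • e.1, g • e.2) (g • f.1, g • f.2) := by
  obtain ⟨b, m, n, t, h1, h2⟩ := h
  rcases S.gsq g _ _ _ _ h1 with h3 | h3
  · refine ⟨_, _, _, _, h3, ?_⟩
    rcases h2 with ⟨rfl, rfl⟩ | ⟨rfl, rfl⟩ | ⟨rfl, rfl⟩ | ⟨rfl, rfl⟩
    · exact Or.inl ⟨rfl, rfl⟩
    · exact Or.inr (Or.inl ⟨rfl, rfl⟩)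
    · exact Or.inr (Or.inr (Or.inl ⟨rfl, rfl⟩))
    · exact Or.inr (Or.inr (Or.inr ⟨rfl, rfl⟩))
  · refine ⟨_, _, _, _, h3, ?_⟩
    rcases h2 with ⟨rfl, rfl⟩ | ⟨rfl, rfl⟩ | ⟨rfl, rfl⟩ | ⟨rfl, rfl⟩
    · exact Or.inr (Or.inl ⟨rfl, rfl⟩)
    · exact Or.inl ⟨rfl, rfl⟩
    · exact Or.inr (Or.inr (Or.inr ⟨rfl, rfl⟩))
    · exact Or.inr (Or.inr (Or.inl ⟨rfl, rfl⟩))

theorem SC.par_up (S : SC G up sq H) {e f : P × P} (h : Par sq e f) :
    up e.1 e.2 ∧ up f.1 f.2 := by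
  obtain ⟨b, m, n, t, h1, h2⟩ := h
  obtain ⟨s1, s2, s3, s4⟩ := S.side _ _ _ _ h1
  rcases h2 with ⟨rfl, rfl⟩ | ⟨rfl, rfl⟩ | ⟨rfl, rfl⟩ | ⟨rfl, rfl⟩
  · exact ⟨s1, s2⟩
  · exact ⟨s2, s1⟩
  · exact ⟨s3, s4⟩
  · exact ⟨s4, s3⟩

/-- the tree -/
theorem SC.tree (S : SC G up sq H) :
    ∃ (W : Type) (_ : MulAction G W) (Y : SimpleGraph W) (κ : P → W) (η : W → ℤ), TA G Y ∧
      (∀ w, ∃ p, κ p = w) ∧ (∀ (g : G) p, κ (g • p) = g • κ p) ∧ (∀ p, η (κ p) = H p) ∧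
      (∀ w w', Y.Adj w w' ↔ ∃ p q, up p q ∧ ((κ p = w ∧ κ q = w') ∨ (κ p = w' ∧ κ q = w))) ∧
      (∀ w w', Y.Adj w w' → η w' = η w + 1 ∨ η w = η w' + 1) ∧
      (∀ p q, Md sq p q → κ p = κ q) ∧
      ∀ p q p' q', up p q → up p' q' → κ p = κ p' → κ q = κ q' →
        Relation.ReflTransGen (Par sq) (p, q) (p', q') := by
  classical
  let κ : P → Quot (Md sq) := Quot.mk _
  let act : MulAction G (Quot (Md sq)) :=
    { smul := fun g => Quot.map (fun p => g • p) (fun _ _ h => S.md g h)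
      one_smul := by
        rintro ⟨p⟩
        exact congrArg κ (one_smul G p)
      mul_smul := by
        rintro g g' ⟨p⟩
        exact congrArg κ (mul_smul g g' p) }
  have heq : ∀ (g : G) p, κ (g • p) = g • κ p := fun g p => rfl
  have hmid : ∀ p q, Md sq p q → H p = H q := by
    rintro p q ⟨b, t, h | h⟩
    · obtain ⟨s1, s2, _, _⟩ := S.side _ _ _ _ h
      rw [S.ht _ _ s1, S.ht _ _ s2]
    · obtain ⟨s1, s2, _, _⟩ := S.side _ _ _ _ h
      rw [S.ht _ _ s1, S.ht _ _ s2]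
  let η : Quot (Md sq) → ℤ := Quot.lift H hmid
  have hη : ∀ p, η (κ p) = H p := fun p => rfl
  let Y : SimpleGraph (Quot (Md sq)) :=
    { Adj := fun w w' => ∃ p q, up p q ∧ ((κ p = w ∧ κ q = w') ∨ (κ p = w' ∧ κ q = w))
      symm := ⟨by
        rintro w w' ⟨p, q, h1, h | h⟩
        · exact ⟨p, q, h1, Or.inr h⟩
        · exact ⟨p, q, h1, Or.inl h⟩⟩
      loopless := ⟨by
        rintro w ⟨p, q, h1, ⟨e1, e2⟩ | ⟨e1, e2⟩⟩
        · have := S.ht p q h1
          rw [← hη, ← hη, e1, e2] at this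
          omega
        · have := S.ht p q h1
          rw [← hη, ← hη, e1, e2] at this
          omega⟩ }
  have hY : ∀ w w', Y.Adj w w' ↔
      ∃ p q, up p q ∧ ((κ p = w ∧ κ q = w') ∨ (κ p = w' ∧ κ q = w)) := fun _ _ => Iff.rfl
  have hYη : ∀ w w', Y.Adj w w' → η w' = η w + 1 ∨ η w = η w' + 1 := by
    rintro w w' ⟨p, q, h1, ⟨rfl, rfl⟩ | ⟨rfl, rfl⟩⟩
    · exact Or.inl (S.ht p q h1)
    · exact Or.inr (S.ht p q h1)
  have hupY : ∀ p q, up p q → Y.Adj (κ p) (κ q) := fun p q h => ⟨p, q, h, Or.inl ⟨rfl, rfl⟩⟩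
  have hconn : Y.Connected := by
    obtain ⟨p0⟩ := S.ne
    have : Nonempty (Quot (Md sq)) := ⟨κ p0⟩
    refine ⟨?_⟩
    rintro ⟨p⟩ ⟨q⟩
    have h1 := S.con p q
    show Y.Reachable (κ p) (κ q)
    induction h1 with
    | refl => exact SimpleGraph.Reachable.refl _
    | tail _ h ih =>
      refine ih.trans ?_
      rcases h with h | h
      · exact (hupY _ _ h).reachable
      · exact (hupY _ _ h).symm.reachable
  -- the images of parallel edges
  have hpar : ∀ e f : P × P, Relation.ReflTransGen (Par sq) e f →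
      κ e.1 = κ f.1 ∧ κ e.2 = κ f.2 := by
    intro e f h
    induction h with
    | refl => exact ⟨rfl, rfl⟩
    | tail _ h ih =>
      rw [ih.1, ih.2]
      obtain ⟨b, m, n, t, h1, h2⟩ := h
      have e1 : κ m = κ n := Quot.sound ⟨b, t, Or.inl h1⟩
      rcases h2 with ⟨rfl, rfl⟩ | ⟨rfl, rfl⟩ | ⟨rfl, rfl⟩ | ⟨rfl, rfl⟩
      · exact ⟨rfl, e1⟩
      · exact ⟨rfl, e1.symm⟩
      · exact ⟨e1, rfl⟩
      · exact ⟨e1.symm, rfl⟩
  -- the potential of a class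
  have hF : ∀ p q, up p q → ∃ f : Quot (Md sq) → ℤ, f (κ p) ≠ f (κ q) ∧
      ∀ a b, up a b → f (κ a) ≠ f (κ b) → Relation.ReflTransGen (Par sq) (p, q) (a, b) := by
    intro p q hpq
    let C : P → P → Prop := fun a b => up a b ∧ Relation.ReflTransGen (Par sq) (p, q) (a, b)
    let c : P → P → ℤ := fun a b => (if C a b then 1 else 0) - (if C b a then 1 else 0)
    have hCC : ∀ a b, C a b → ¬ C b a := by
      intro a b h1 h2
      have := S.ht _ _ h1.1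
      have := S.ht _ _ h2.1
      omega
    have hC : ∀ a b a' b', Par sq (a, b) (a', b') → C a b → C a' b' := by
      intro a b a' b' h h1
      exact ⟨(S.par_up h).2, h1.2.tail h⟩
    have hc0 : ∀ a b, up a b → c a b = if C a b then 1 else 0 := by
      intro a b hab
      show (if C a b then (1 : ℤ) else 0) - (if C b a then 1 else 0) = _
      have : ¬ C b a := by
        intro h2
        have := S.ht _ _ hab
        have := S.ht _ _ h2.1
        omega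
      rw [if_neg this, sub_zero]
    have hcp : ∀ a b a' b', Par sq (a, b) (a', b') → c a b = c a' b' := by
      intro a b a' b' h
      obtain ⟨u1, u2⟩ := S.par_up h
      rw [hc0 a b u1, hc0 a' b' u2]
      by_cases h1 : C a b
      · rw [if_pos h1, if_pos (hC _ _ _ _ h h1)]
      · rw [if_neg h1, if_neg (fun h2 => h1 (hC _ _ _ _ h.symm h2))]
    have hcb : ∀ b m n t, sq b m n t → c b m = c b n := fun b m n t h =>
      hcp _ _ _ _ ⟨b, m, n, t, h, Or.inl ⟨rfl, rfl⟩⟩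
    have hct : ∀ b m n t, sq b m n t → c m t = c n t := fun b m n t h =>
      hcp _ _ _ _ ⟨b, m, n, t, h, Or.inr (Or.inr (Or.inl ⟨rfl, rfl⟩))⟩
    obtain ⟨F, hF⟩ := S.pot c (by
      intro a b
      show (if C b a then (1 : ℤ) else 0) - (if C a b then 1 else 0) =
        - ((if C a b then (1 : ℤ) else 0) - (if C b a then 1 else 0))
      ring) (by
      intro b m n t h
      rw [hcb _ _ _ _ h, hct _ _ _ _ h])
    have hFm : ∀ a b, Md sq a b → F a = F b := by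
      rintro a b ⟨x, t, h | h⟩
      · obtain ⟨s1, s2, _, _⟩ := S.side _ _ _ _ h
        rw [hF _ _ s1, hF _ _ s2, hcb _ _ _ _ h]
      · obtain ⟨s1, s2, _, _⟩ := S.side _ _ _ _ h
        rw [hF _ _ s1, hF _ _ s2, hcb _ _ _ _ h]
    refine ⟨Quot.lift F hFm, ?_, ?_⟩
    · show F p ≠ F q
      have h1 : C p q := ⟨hpq, Relation.ReflTransGen.refl⟩
      rw [hF p q hpq, hc0 p q hpq, if_pos h1]
      omega
    · intro a b hab h
      have h2 : F a ≠ F b := h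
      rw [hF a b hab, hc0 a b hab] at h2
      by_contra h3
      apply h2
      rw [if_neg (fun h4 => h3 h4.2), add_zero]
  have htree : Y.IsTree := by
    refine tree_of_pot hconn ?_
    rintro w w' ⟨p, q, hpq, ⟨rfl, rfl⟩ | ⟨rfl, rfl⟩⟩
    · obtain ⟨f, h1, h2⟩ := hF p q hpq
      refine ⟨f, h1, ?_⟩
      rintro a b ⟨a', b', hab, ⟨rfl, rfl⟩ | ⟨rfl, rfl⟩⟩ h3
      · obtain ⟨e1, e2⟩ := hpar _ _ (h2 _ _ hab h3)
        exact Or.inl ⟨e1.symm, e2.symm⟩
      · obtain ⟨e1, e2⟩ := hpar _ _ (h2 _ _ hab (Ne.symm h3))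
        exact Or.inr ⟨e2.symm, e1.symm⟩
    · obtain ⟨f, h1, h2⟩ := hF p q hpq
      refine ⟨f, h1.symm, ?_⟩
      rintro a b ⟨a', b', hab, ⟨rfl, rfl⟩ | ⟨rfl, rfl⟩⟩ h3
      · obtain ⟨e1, e2⟩ := hpar _ _ (h2 _ _ hab h3)
        exact Or.inr ⟨e1.symm, e2.symm⟩
      · obtain ⟨e1, e2⟩ := hpar _ _ (h2 _ _ hab (Ne.symm h3))
        exact Or.inl ⟨e2.symm, e1.symm⟩
  have hηg : ∀ g : G, ∃ c : ℤ, ∀ w, η (g • w) = η w + c := by
    intro g
    obtain ⟨c, hc⟩ := S.hg g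
    refine ⟨c, ?_⟩
    rintro ⟨p⟩
    exact hc p
  have hTA : TA G Y := by
    refine ⟨htree, ?_, ?_⟩
    · rintro g w w' ⟨p, q, hpq, ⟨rfl, rfl⟩ | ⟨rfl, rfl⟩⟩
      · exact ⟨g • p, g • q, S.gup g p q hpq, Or.inl ⟨rfl, rfl⟩⟩
      · exact ⟨g • p, g • q, S.gup g p q hpq, Or.inr ⟨rfl, rfl⟩⟩
    · rintro g w w' hadj ⟨h1, h2⟩
      obtain ⟨c, hc⟩ := hηg g
      have e1 := hc w
      have e2 := hc w'
      rw [h1] at e1
      rw [h2] at e2
      rcases hYη w w' hadj with h | h <;> omega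
  refine ⟨Quot (Md sq), act, Y, κ, η, hTA, ?_, heq, hη, hY, hYη, fun p q h => Quot.sound h, ?_⟩
  · rintro ⟨p⟩
    exact ⟨p, rfl⟩
  · intro p q p' q' h1 h2 e1 e2
    obtain ⟨f, h3, h4⟩ := hF p q h1
    refine h4 p' q' h2 ?_
    rw [← e1, ← e2]
    exact h3

/-- the edge stabilisers are cyclic -/
theorem SC.cyc (S : SC G up sq H) (hmn : ∀ b m n t, sq b m n t → m ≠ n)
    (two : ∀ p q, up p q → ∃ f1 f2, f1 ≠ f2 ∧ Par sq (p, q) f1 ∧ Par sq (p, q) f2 ∧
      ∀ f, Par sq (p, q) f → f = f1 ∨ f = f2)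
    (free : ∀ (g : G) p q, up p q → g • p = p → g • q = q → g = 1)
    (inv : ∀ g : G, g * g = 1 → g = 1) {W : Type} [MulAction G W] (κ : P → W)
    (heq : ∀ (g : G) p, κ (g • p) = g • κ p) (hmd : ∀ p q, Md sq p q → κ p = κ q)
    (hcl : ∀ p q p' q', up p q → up p' q' → κ p = κ p' → κ q = κ q' →
        Relation.ReflTransGen (Par sq) (p, q) (p', q')) {p q : P} (hpq : up p q) :
    ∃ z : G, ES G (κ p) (κ q) = Subgroup.zpowers z := by
  classical
  have hpar : ∀ e f : P × P, Par sq e f → κ e.1 = κ f.1 ∧ κ e.2 = κ f.2 := by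
    rintro e f ⟨b, m, n, t, h1, h2⟩
    have e1 : κ m = κ n := hmd _ _ ⟨b, t, Or.inl h1⟩
    rcases h2 with ⟨rfl, rfl⟩ | ⟨rfl, rfl⟩ | ⟨rfl, rfl⟩ | ⟨rfl, rfl⟩
    · exact ⟨rfl, e1⟩
    · exact ⟨rfl, e1.symm⟩
    · exact ⟨e1, rfl⟩
    · exact ⟨e1.symm, rfl⟩
  have hirr : ∀ e : P × P, ¬ Par sq e e := by
    rintro e ⟨b, m, n, t, h1, h2⟩
    have h3 := hmn _ _ _ _ h1
    rcases h2 with ⟨rfl, h4⟩ | ⟨rfl, h4⟩ | ⟨rfl, h4⟩ | ⟨rfl, h4⟩
    · exact h3 (congrArg Prod.snd h4)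
    · exact h3 (congrArg Prod.snd h4).symm
    · exact h3 (congrArg Prod.fst h4)
    · exact h3 (congrArg Prod.fst h4).symm
  let Ed : P × P → Prop := fun e => up e.1 e.2 ∧ κ e.1 = κ p ∧ κ e.2 = κ q
  let K : Subgroup G := ES G (κ p) (κ q)
  have hKE : ∀ (k : K) (e : P × P), Ed e → Ed ((k : G) • e.1, (k : G) • e.2) := by
    rintro ⟨k, hk⟩ e ⟨h1, h2, h3⟩
    obtain ⟨k1, k2⟩ := mem_ES.1 hk
    refine ⟨S.gup k _ _ h1, ?_, ?_⟩
    · show κ (k • e.1) = κ p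
      rw [heq, h2, k1]
    · show κ (k • e.2) = κ q
      rw [heq, h3, k2]
  let act : MulAction K {e : P × P // Ed e} :=
    { smul := fun k e => ⟨((k : G) • e.1.1, (k : G) • e.1.2), hKE k e.1 e.2⟩
      one_smul := by
        rintro ⟨⟨a, b⟩, h⟩
        refine Subtype.ext ?_
        show (((1 : K) : G) • a, ((1 : K) : G) • b) = (a, b)
        rw [Subgroup.coe_one, one_smul, one_smul]
      mul_smul := by
        rintro k k' ⟨⟨a, b⟩, h⟩
        refine Subtype.ext ?_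
        show (((k * k' : K) : G) • a, ((k * k' : K) : G) • b) =
          ((k : G) • (k' : G) • a, (k : G) • (k' : G) • b)
        rw [Subgroup.coe_mul, mul_smul, mul_smul] }
  let Q : SimpleGraph {e : P × P // Ed e} :=
    { Adj := fun e f => Par sq e.1 f.1
      symm := ⟨fun e f h => Par.symm h⟩
      loopless := ⟨fun e h => hirr _ h⟩ }
  have he0 : Ed (p, q) := ⟨hpq, rfl, rfl⟩
  have hstep : ∀ (e f : P × P) (he : Ed e), Relation.ReflTransGen (Par sq) e f →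
      ∃ hf : Ed f, Q.Reachable ⟨e, he⟩ ⟨f, hf⟩ := by
    intro e f he h
    induction h with
    | refl => exact ⟨he, SimpleGraph.Reachable.refl _⟩
    | tail _ h ih =>
      obtain ⟨hf, h1⟩ := ih
      obtain ⟨k1, k2⟩ := hpar _ _ h
      refine ⟨⟨(S.par_up h).2, k1 ▸ hf.2.1, k2 ▸ hf.2.2⟩, h1.trans ?_⟩
      refine SimpleGraph.Adj.reachable ?_
      exact h
  have hconn : Q.Connected := by
    have : Nonempty {e : P × P // Ed e} := ⟨⟨(p, q), he0⟩⟩
    refine ⟨?_⟩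
    rintro ⟨e, he⟩ ⟨f, hf⟩
    have h1 := hcl e.1 e.2 f.1 f.2 he.1 hf.1 (he.2.1.trans hf.2.1.symm)
      (he.2.2.trans hf.2.2.symm)
    obtain ⟨_, h2⟩ := hstep e f he h1
    exact h2
  obtain ⟨z, hz⟩ := line_cyclic (K := K) hconn (by
      rintro k ⟨e, he⟩ ⟨f, hf⟩ h
      exact S.par (k : G) h) (by
      rintro ⟨e, he⟩
      obtain ⟨f1, f2, hne, h1, h2, h3⟩ := two e.1 e.2 he.1
      obtain ⟨hf1, _⟩ := hstep e f1 he (Relation.ReflTransGen.single h1)
      obtain ⟨hf2, _⟩ := hstep e f2 he (Relation.ReflTransGen.single h2)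
      refine ⟨⟨f1, hf1⟩, ⟨f2, hf2⟩, fun h => hne (congrArg Subtype.val h), h1, h2, ?_⟩
      rintro ⟨c, hc⟩ h
      rcases h3 c h with rfl | rfl
      · exact Or.inl rfl
      · exact Or.inr rfl) (by
      rintro ⟨k, hk⟩ ⟨⟨a, b⟩, he⟩ h
      have h1 := congrArg Subtype.val h
      have h2 : k • a = a := congrArg Prod.fst h1
      have h3 : k • b = b := congrArg Prod.snd h1
      exact Subtype.ext (free k a b he.1 h2 h3)) (by
      rintro ⟨k, hk⟩ h
      exact Subtype.ext (inv k (congrArg Subtype.val h)))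
  refine ⟨z, ?_⟩
  ext g
  constructor
  · intro hg
    obtain ⟨n, hn⟩ := Subgroup.mem_zpowers_iff.1 (hz ⟨g, hg⟩)
    rw [Subgroup.mem_zpowers_iff]
    refine ⟨n, ?_⟩
    have := congrArg Subtype.val hn
    rw [Subgroup.coe_zpow] at this
    exact this
  · intro hg
    have : Subgroup.zpowers (z : G) ≤ ES G (κ p) (κ q) := by
      rw [Subgroup.zpowers_le]
      exact z.2
    exact this hg

end

end Pool.Agent.SuUp
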