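import Pool.Agent.Lib.MP_305fdd_al.Su.Up.UD
import Pool.Agent.Lib.MP_305fdd_al.Su.Up.SqTree

/-!
# GOING UP, part 3: the hyperbolic case (MP_305fdd_al, surface groups, block UP)
-/

set_option autoImplicit false

namespace Pool.Agent.SuUp

open Pool.Agent.SuT Pool.Agent.FrT Pool.Agent.FrS

section

variable {N : Type} [Group N] {V V' : Type} [MulAction N V] [MulAction N V']
  {X : SimpleGraph V} {X' : SimpleGraph V'} {v : V} {t : N} {v' : V'}
  {t' : N} {h : V → ℤ} {h' : V' → ℤ}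

theorem ess_of_co (hT' : X'.IsTree) {x : V} {a b : V'} (hab : X'.Adj a b) (ha : Co N X' (x, a))
    (hb : Co N X' (x, b)) : Ess X' (MulAction.stabilizer N x) a b :=
  ess_conv hT' hab ha hb left_not_mem_Hf (right_mem_Hf hT' hab)

theorem co_of_ess (hT' : X'.IsTree) {x : V} {a b : V'} (hab : X'.Adj a b)
    (he : Ess X' (MulAction.stabilizer N x) a b) : Co N X' (x, a) ∧ Co N X' (x, b) :=
  ⟨⟨b, hab, he⟩, ⟨a, hab.symm, he.symm hT' hab⟩⟩

theorem ES_le (x w : V) : ES N x w ≤ MulAction.stabilizer N x := fun _ hs => (mem_ES.1 hs).1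

theorem ES_le' (x w : V) : ES N x w ≤ MulAction.stabilizer N w := fun _ hs => (mem_ES.1 hs).2

/-- four corners in the core -/
theorem co_of_sq (hT' : X'.IsTree) {x w : V} {a b : V'} (hab : X'.Adj a b)
    (he : Ess X' (ES N x w) a b) :
    Co N X' (x, a) ∧ Co N X' (x, b) ∧ Co N X' (w, a) ∧ Co N X' (w, b) := by
  obtain ⟨h1, h2⟩ := co_of_ess hT' hab (he.mono (ES_le x w))
  obtain ⟨h3, h4⟩ := co_of_ess hT' hab (he.mono (ES_le' x w))
  exact ⟨h1, h2, h3, h4⟩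

/-- the core is convex in the second direction -/
theorem co_conv (hT' : X'.IsTree) {x : V} {y y2 a b : V'} (h1 : Co N X' (x, y))
    (h2 : Co N X' (x, y2)) (hab : X'.Adj a b) (hy : y ∉ Hf X' a b) (hy2 : y2 ∈ Hf X' a b) :
    Co N X' (x, a) ∧ Co N X' (x, b) :=
  co_of_ess hT' hab (ess_conv hT' hab h1 h2 hy hy2)

/-- the core is not empty over adjacent vertices -/
theorem co_ne (D : ND N X X' v t v' t') (H : Hyp N X X') {x w : V} (hxw : X.Adj x w) :
    ∃ a, Co N X' (x, a) ∧ Co N X' (w, a) := by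
  obtain ⟨a, b, hab, he⟩ := D.core_ne H hxw
  obtain ⟨h1, _, h3, _⟩ := co_of_sq D.ht'.tree hab he
  exact ⟨a, h1, h3⟩

/-- points of the core -/
abbrev Cor (N : Type) [Group N] (V : Type) {V' : Type} [MulAction N V] [MulAction N V']
    (X' : SimpleGraph V') : Type := {p : V × V' // Co N X' p}

/-- squares of the core -/
def CSq (N : Type) [Group N] {V V' : Type} [MulAction N V] [MulAction N V']
    (X : SimpleGraph V) (X' : SimpleGraph V') (h : V → ℤ) (h' : V' → ℤ)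
    (p m n q : Cor N V X') : Prop :=
  ∃ x w a b, Sq N X X' h h' x w a b ∧ p.1 = (x, a) ∧ m.1 = (w, a) ∧ n.1 = (x, b) ∧ q.1 = (w, b)

/-- upward edges of the core -/
def CUp (N : Type) [Group N] {V V' : Type} [MulAction N V] [MulAction N V']
    (X : SimpleGraph V) (X' : SimpleGraph V') (h : V → ℤ) (h' : V' → ℤ) (p q : Cor N V X') : Prop :=
  ZE N X X' h h' p.1 q.1

theorem cor_con (D : ND N X X' v t v' t') (H : Hyp N X X') (hh : ∀ x y, X.Adj x y →
    h y = h x + 1 ∨ h x = h y + 1) (hh' : ∀ x y, X'.Adj x y → h' y = h' x + 1 ∨ h' x = h' y + 1)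
    (p q : Cor N V X') : Relation.ReflTransGen
      (fun p q => CUp N X X' h h' p q ∨ CUp N X X' h h' q p) p q := by
  -- one section
  have h1 : ∀ x, ∀ a b, Co N X' (x, a) → Co N X' (x, b) → ∀ (ha : Co N X' (x, a))
      (hb : Co N X' (x, b)), Relation.ReflTransGen
      (fun p q => CUp N X X' h h' p q ∨ CUp N X X' h h' q p) ⟨(x, a), ha⟩ ⟨(x, b), hb⟩ := by
    intro x
    refine convex_ind D.ht'.tree (fun a => Co N X' (x, a)) ?_
      (fun a b => ∀ (ha : Co N X' (x, a)) (hb : Co N X' (x, b)), Relation.ReflTransGen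
        (fun p q => CUp N X X' h h' p q ∨ CUp N X X' h h' q p) ⟨(x, a), ha⟩ ⟨(x, b), hb⟩)
      (fun _ _ _ _ => Relation.ReflTransGen.refl) ?_
    · intro y y2 hy hy2 a b hab h1 h2
      exact co_conv D.ht'.tree hy hy2 hab h1 h2
    · intro a b c hab ha hb _ ih ha' hc'
      refine Relation.ReflTransGen.head ?_ (ih hb hc')
      rcases hh' a b hab with h2 | h2
      · left
        refine ⟨ha, hb, Or.inl ⟨rfl, hab⟩, ?_⟩
        show h x + h' b = h x + h' a + 1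
        rw [h2]
        ring
      · right
        refine ⟨hb, ha, Or.inl ⟨rfl, hab.symm⟩, ?_⟩
        show h x + h' a = h x + h' b + 1
        rw [h2]
        ring
  -- paths in the first tree
  have h2 : ∀ (x y : V), X.Walk x y → ∀ a b (ha : Co N X' (x, a)) (hb : Co N X' (y, b)),
      Relation.ReflTransGen (fun p q => CUp N X X' h h' p q ∨ CUp N X X' h h' q p)
        ⟨(x, a), ha⟩ ⟨(y, b), hb⟩ := by
    intro x y p
    induction p with
    | nil => exact fun a b ha hb => h1 _ a b ha hb ha hb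
    | @cons x w y hxw p ih =>
      intro a b ha hb
      obtain ⟨c, hc1, hc2⟩ := co_ne D H hxw
      refine (h1 x a c ha hc1 ha hc1).trans ?_
      refine Relation.ReflTransGen.head ?_ (ih c b hc2 hb)
      rcases hh x w hxw with h3 | h3
      · left
        refine ⟨hc1, hc2, Or.inr ⟨hxw, rfl⟩, ?_⟩
        show h w + h' c = h x + h' c + 1
        rw [h3]
        ring
      · right
        refine ⟨hc2, hc1, Or.inr ⟨hxw.symm, rfl⟩, ?_⟩
        show h x + h' c = h w + h' c + 1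
        rw [h3]
        ring
  obtain ⟨⟨x, a⟩, hp⟩ := p
  obtain ⟨⟨y, b⟩, hq⟩ := q
  obtain ⟨w⟩ := D.ht.tree.connected.preconnected x y
  exact h2 x y w a b hp hq

theorem cor_side (hT' : X'.IsTree) {x w : V} {a b : V'} (hs : Sq N X X' h h' x w a b) :
    ZE N X X' h h' (x, a) (w, a) ∧ ZE N X X' h h' (x, a) (x, b) ∧
      ZE N X X' h h' (w, a) (w, b) ∧ ZE N X X' h h' (x, b) (w, b) := by
  obtain ⟨c1, c2, c3, c4⟩ := co_of_sq hT' hs.ab hs.es
  have e1 := hs.hx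
  have e2 := hs.ha
  refine ⟨⟨c1, c3, Or.inr ⟨hs.ax, rfl⟩, ?_⟩, ⟨c1, c2, Or.inl ⟨rfl, hs.ab⟩, ?_⟩,
    ⟨c3, c4, Or.inl ⟨rfl, hs.ab⟩, ?_⟩, ⟨c2, c4, Or.inr ⟨hs.ax, rfl⟩, ?_⟩⟩
  all_goals
    simp only
    linarith

/-- every square with corners in the core -/
theorem cor_sq (D : ND N X X' v t v' t') (H : Hyp N X X') (hh : ∀ x y, X.Adj x y →
    h y = h x + 1 ∨ h x = h y + 1) (hh' : ∀ x y, X'.Adj x y → h' y = h' x + 1 ∨ h' x = h' y + 1)
    (c : V × V' → V × V' → ℤ) (hc : ∀ p q, c q p = - c p q)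
    (hsq : ∀ x w a b, Sq N X X' h h' x w a b →
      c (x, a) (x, b) + c (x, b) (w, b) = c (x, a) (w, a) + c (w, a) (w, b))
    (x w : V) (a b : V') (hxw : X.Adj x w) (hab : X'.Adj a b) (h1 : Co N X' (x, a))
    (h2 : Co N X' (w, a)) (h3 : Co N X' (x, b)) (h4 : Co N X' (w, b)) :
    c (x, a) (x, b) + c (x, b) (w, b) = c (x, a) (w, a) + c (w, a) (w, b) := by
  have hes : Ess X' (ES N x w) a b := D.ess_inter H hxw hab (ess_of_co D.ht'.tree hab h1 h3)
    (ess_of_co D.ht'.tree hab h2 h4)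
  have hes' : Ess X' (ES N w x) a b := by
    rw [ES_symm]
    exact hes
  rcases hh x w hxw with e1 | e1 <;> rcases hh' a b hab with e2 | e2
  · exact hsq x w a b ⟨hxw, hab, e1, e2, hes⟩
  · have := hsq x w b a ⟨hxw, hab.symm, e1, e2, hes.symm D.ht'.tree hab⟩
    rw [hc (x, a) (x, b), hc (w, a) (w, b)] at this
    linarith
  · have := hsq w x a b ⟨hxw.symm, hab, e1, e2, hes'⟩
    rw [hc (x, b) (w, b), hc (x, a) (w, a)] at this
    linarith
  · have := hsq w x b a ⟨hxw.symm, hab.symm, e1, e2, hes'.symm D.ht'.tree hab⟩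
    rw [hc (x, a) (x, b), hc (w, a) (w, b), hc (x, b) (w, b), hc (x, a) (w, a)] at this
    linarith

theorem cor_pot (D : ND N X X' v t v' t') (H : Hyp N X X') (hh : ∀ x y, X.Adj x y →
    h y = h x + 1 ∨ h x = h y + 1) (hh' : ∀ x y, X'.Adj x y → h' y = h' x + 1 ∨ h' x = h' y + 1)
    (c : Cor N V X' → Cor N V X' → ℤ) (hc : ∀ p q, c q p = - c p q)
    (hsq : ∀ b m n t, CSq N X X' h h' b m n t → c b m + c m t = c b n + c n t) :
    ∃ F : Cor N V X' → ℤ, ∀ p q, CUp N X X' h h' p q → F q = F p + c p q := by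
  classical
  let c' : V × V' → V × V' → ℤ := fun p q =>
    if hp : Co N X' p then (if hq : Co N X' q then c ⟨p, hp⟩ ⟨q, hq⟩ else 0) else 0
  have hc' : ∀ p q (hp : Co N X' p) (hq : Co N X' q), c' p q = c ⟨p, hp⟩ ⟨q, hq⟩ := by
    intro p q hp hq
    show (if hp : Co N X' p then (if hq : Co N X' q then c ⟨p, hp⟩ ⟨q, hq⟩ else 0) else 0) = _
    rw [dif_pos hp, dif_pos hq]
  have hanti : ∀ p q, c' q p = - c' p q := by
    intro p q
    by_cases hp : Co N X' p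
    · by_cases hq : Co N X' q
      · rw [hc' q p hq hp, hc' p q hp hq, hc]
      · show (if hq : Co N X' q then (if hp : Co N X' p then c ⟨q, hq⟩ ⟨p, hp⟩ else 0) else 0) =
          - (if hp : Co N X' p then (if hq : Co N X' q then c ⟨p, hp⟩ ⟨q, hq⟩ else 0) else 0)
        rw [dif_neg hq, dif_pos hp, dif_neg hq, neg_zero]
    · by_cases hq : Co N X' q
      · show (if hq : Co N X' q then (if hp : Co N X' p then c ⟨q, hq⟩ ⟨p, hp⟩ else 0) else 0) =
          - (if hp : Co N X' p then (if hq : Co N X' q then c ⟨p, hp⟩ ⟨q, hq⟩ else 0) else 0)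
        rw [dif_neg hp, dif_pos hq, dif_neg hp, neg_zero]
      · show (if hq : Co N X' q then (if hp : Co N X' p then c ⟨q, hq⟩ ⟨p, hp⟩ else 0) else 0) =
          - (if hp : Co N X' p then (if hq : Co N X' q then c ⟨p, hp⟩ ⟨q, hq⟩ else 0) else 0)
        rw [dif_neg hp, dif_neg hq, neg_zero]
  obtain ⟨F, h1, h2⟩ := pot2 D.ht.tree D.ht'.tree (fun x a => Co N X' (x, a)) (by
    intro x w _ y y2 hy hy2 a b hab h1 h2
    obtain ⟨k1, k2⟩ := co_conv D.ht'.tree hy.1 hy2.1 hab h1 h2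
    obtain ⟨k3, k4⟩ := co_conv D.ht'.tree hy.2 hy2.2 hab h1 h2
    exact ⟨⟨k1, k3⟩, ⟨k2, k4⟩⟩) (fun x w hxw => co_ne D H hxw) c' hanti (by
    intro x w a b hxw hab h1 h2 h3 h4
    refine cor_sq D H hh hh' c' hanti ?_ x w a b hxw hab h1 h2 h3 h4
    intro x w a b hs
    obtain ⟨k1, k2, k3, k4⟩ := co_of_sq D.ht'.tree hs.ab hs.es
    rw [hc' _ _ k1 k2, hc' _ _ k2 k4, hc' _ _ k1 k3, hc' _ _ k3 k4]
    exact (hsq ⟨_, k1⟩ ⟨_, k3⟩ ⟨_, k2⟩ ⟨_, k4⟩ ⟨x, w, a, b, hs, rfl, rfl, rfl, rfl⟩).symm)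
  refine ⟨fun p => F p.1, ?_⟩
  rintro ⟨⟨x, a⟩, hp⟩ ⟨⟨w, b⟩, hq⟩ hpq
  rcases hpq.ty with ⟨e1, e2⟩ | ⟨e1, e2⟩
  · have e1' : x = w := e1
    subst e1'
    rw [← hc' _ _ hp hq]
    exact h1 x a b e2
  · have e2' : a = b := e2
    subst e2'
    rw [← hc' _ _ hp hq]
    exact h2 x w a e1 hp hq

end

section

variable {G : Type} [Group G] {N : Subgroup G} {V V' : Type} [MulAction N V] [MulAction N V']
  [MulAction G (V × V')] {X : SimpleGraph V} {X' : SimpleGraph V'} {v : V} {t : N} {v' : V'}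
  {t' : N} {h : V → ℤ} {h' : V' → ℤ}

/-- the action on the core -/
abbrev corAct (U : UD G N X X') (D : ND N X X' v t v' t') (H : Hyp N X X') :
    MulAction G (Cor N V X') where
  smul := fun g p => ⟨g • p.1, co_smul U D H g p.2⟩
  one_smul := fun p => Subtype.ext (one_smul G p.1)
  mul_smul := fun g g' p => Subtype.ext (mul_smul g g' p.1)

/-- the square complex -/
theorem cor_sc (U : UD G N X X') (D : ND N X X' v t v' t') (H : Hyp N X X')
    (L : Hgt G X X' h h') :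
    letI := corAct U D H
    SC G (CUp N X X' h h') (CSq N X X' h h') (fun p => h p.1.1 + h' p.1.2) := by
  let := corAct U D H
  refine ⟨?_, cor_con D H L.hh L.hh', ?_, ?_, ?_, ?_, ?_, cor_pot D H L.hh L.hh'⟩
  · obtain ⟨a, ha, _⟩ := co_ne D H D.ht.adj
    exact ⟨⟨(v, a), ha⟩⟩
  · rintro ⟨p, hp⟩ ⟨m, hm⟩ ⟨n, hn⟩ ⟨q, hq⟩ ⟨x, w, a, b, hs, h1, h2, h3, h4⟩
    obtain ⟨s1, s2, s3, s4⟩ := cor_side D.ht'.tree hs
    simp only at h1 h2 h3 h4
    subst h1 h2 h3 h4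
    exact ⟨s1, s2, s3, s4⟩
  · intro p q hpq
    exact hpq.up
  · intro g
    obtain ⟨c, hc⟩ := L.H g
    exact ⟨c, fun p => hc p.1⟩
  · intro g p q hpq
    exact ze_smul U D H L g hpq
  · rintro g ⟨p, hp⟩ ⟨m, hm⟩ ⟨n, hn⟩ ⟨q, hq⟩ ⟨x, w, a, b, hs, h1, h2, h3, h4⟩
    simp only at h1 h2 h3 h4
    subst h1 h2 h3 h4
    obtain ⟨x1, w1, a1, b1, hs1, e1, e2, ⟨e3, e4⟩ | ⟨e3, e4⟩⟩ := sq_smul U D L g hs
    · left
      exact ⟨x1, w1, a1, b1, hs1, e1, e3, e4, e2⟩
    · right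
      exact ⟨x1, w1, a1, b1, hs1, e1, e4, e3, e2⟩

end

end Pool.Agent.SuUp
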