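import Mathlib

/-!
# Metric facts on trees (MP_305fdd_al, surface groups, block UP)

`X` is a tree; `Hf X u v` is the half tree at the edge `u v` which contains `v`.
-/

set_option autoImplicit false

namespace Pool.Agent.SuUp

variable {V : Type} {X : SimpleGraph V}

theorem len_eq_dist (hX : X.IsTree) {a b : V} (p : X.Walk a b) (hp : p.IsPath) :
    p.length = X.dist a b := by
  obtain ⟨q, hq⟩ := (hX.connected.preconnected a b).exists_walk_length_eq_dist
  have h1 : q.IsPath := SimpleGraph.Walk.isPath_of_length_eq_dist q hq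
  have h2 : p = q := congrArg Subtype.val ((hX.isAcyclic.subsingleton_path a b).elim ⟨p, hp⟩ ⟨q, h1⟩)
  rw [h2, hq]

theorem exists_path (hX : X.IsTree) (a b : V) : ∃ p : X.Walk a b, p.IsPath ∧ p.length = X.dist a b := by
  obtain ⟨q, hq⟩ := (hX.connected.preconnected a b).exists_walk_length_eq_dist
  exact ⟨q, SimpleGraph.Walk.isPath_of_length_eq_dist q hq, hq⟩

theorem dist_tri (hX : X.IsTree) (a b c : V) : X.dist a c ≤ X.dist a b + X.dist b c :=
  hX.connected.dist_triangle

/-- adjacent vertices have distances which differ by exactly one -/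
theorem dist_adj (hX : X.IsTree) {u v : V} (h : X.Adj u v) (x : V) :
    X.dist x v = X.dist x u + 1 ∨ X.dist x u = X.dist x v + 1 := by
  classical
  obtain ⟨p, hp, hl⟩ := exists_path hX x u
  by_cases hv : v ∈ p.support
  · right
    have h1 := len_eq_dist hX (p.takeUntil v hv) (hp.takeUntil hv)
    have h2 := len_eq_dist hX (p.dropUntil v hv) (hp.dropUntil hv)
    have h3 : (p.takeUntil v hv).length + (p.dropUntil v hv).length = p.length := by
      rw [← SimpleGraph.Walk.length_append, p.take_spec hv]
    have h4 : X.dist v u = 1 := SimpleGraph.dist_eq_one_iff_adj.mpr h.symm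
    omega
  · left
    have h1 := len_eq_dist hX (p.concat h) (hp.concat hv h)
    rw [SimpleGraph.Walk.length_concat, hl] at h1
    exact h1.symm

/-- the half tree at the edge `u v` which contains `v` -/
def Hf (X : SimpleGraph V) (u v : V) : Set V := {x | X.dist x v < X.dist x u}

theorem mem_Hf {u v x : V} : x ∈ Hf X u v ↔ X.dist x v < X.dist x u := Iff.rfl

theorem right_mem_Hf (hX : X.IsTree) {u v : V} (h : X.Adj u v) : v ∈ Hf X u v := by
  rw [mem_Hf, SimpleGraph.dist_self]
  have := SimpleGraph.dist_eq_one_iff_adj.mpr h.symm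
  omega

theorem left_not_mem_Hf {u v : V} : u ∉ Hf X u v := by
  rw [mem_Hf, SimpleGraph.dist_self]
  omega

theorem not_mem_Hf (hX : X.IsTree) {u v : V} (h : X.Adj u v) {x : V} :
    x ∉ Hf X u v ↔ x ∈ Hf X v u := by
  rw [mem_Hf, mem_Hf]
  rcases dist_adj hX h x with h1 | h1 <;> omega

/-- separation -/
theorem sep (hX : X.IsTree) {u v : V} (h : X.Adj u v) {a x : V} (ha : a ∈ Hf X v u)
    (hx : x ∈ Hf X u v) : X.dist a x = X.dist a u + 1 + X.dist v x := by
  classical
  obtain ⟨p, hp, hlp⟩ := exists_path hX a u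
  obtain ⟨q, hq, hlq⟩ := exists_path hX v x
  rw [mem_Hf] at ha hx
  have key : ∀ w, w ∈ p.support → w ∈ q.support → False := by
    intro w hwp hwq
    have h1 := len_eq_dist hX (p.takeUntil w hwp) (hp.takeUntil hwp)
    have h2 := len_eq_dist hX (p.dropUntil w hwp) (hp.dropUntil hwp)
    have h3 : (p.takeUntil w hwp).length + (p.dropUntil w hwp).length = p.length := by
      rw [← SimpleGraph.Walk.length_append, p.take_spec hwp]
    have k1 := len_eq_dist hX (q.takeUntil w hwq) (hq.takeUntil hwq)
    have k2 := len_eq_dist hX (q.dropUntil w hwq) (hq.dropUntil hwq)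
    have k3 : (q.takeUntil w hwq).length + (q.dropUntil w hwq).length = q.length := by
      rw [← SimpleGraph.Walk.length_append, q.take_spec hwq]
    have t1 := dist_tri hX a w v
    have t2 := dist_tri hX x w u
    have c1 : X.dist x w = X.dist w x := SimpleGraph.dist_comm
    have c2 : X.dist x v = X.dist v x := SimpleGraph.dist_comm
    have c3 : X.dist v w = X.dist w v := SimpleGraph.dist_comm
    omega
  have hpath : (p.append (SimpleGraph.Walk.cons h q)).IsPath := by
    rw [SimpleGraph.Walk.isPath_def, SimpleGraph.Walk.support_append,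
      SimpleGraph.Walk.support_cons, List.tail_cons, List.nodup_append]
    refine ⟨hp.support_nodup, hq.support_nodup, ?_⟩
    intro w hw w' hw' heq
    subst heq
    exact key w hw hw'
  have h5 := len_eq_dist hX _ hpath
  rw [SimpleGraph.Walk.length_append, SimpleGraph.Walk.length_cons] at h5
  omega

/-- an edge from one half tree to the other one is the edge -/
theorem cross_edge (hX : X.IsTree) {u v : V} (h : X.Adj u v) {a x : V} (ha : a ∉ Hf X u v)
    (hx : x ∈ Hf X u v) (hax : X.Adj a x) : a = u ∧ x = v := by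
  rw [not_mem_Hf hX h] at ha
  have h1 := sep hX h ha hx
  have h2 : X.dist a x = 1 := SimpleGraph.dist_eq_one_iff_adj.mpr hax
  have h3 : X.dist a u = 0 := by omega
  have h4 : X.dist v x = 0 := by omega
  exact ⟨(hX.connected.dist_eq_zero_iff).mp h3, ((hX.connected.dist_eq_zero_iff).mp h4).symm⟩

/-- nesting of half trees -/
theorem nest (hX : X.IsTree) {u v a b : V} (h : X.Adj u v) (h' : X.Adj a b)
    (hv : v ∈ Hf X a b) (ha : a ∉ Hf X u v) : Hf X u v ⊆ Hf X a b := by
  intro x hx
  by_contra hxa
  rw [not_mem_Hf hX h] at ha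
  rw [not_mem_Hf hX h'] at hxa
  have h1 := sep hX h ha hx
  have h2 := sep hX h' hxa hv
  have c1 : X.dist x v = X.dist v x := SimpleGraph.dist_comm
  have c2 : X.dist x a = X.dist a x := SimpleGraph.dist_comm
  omega

section action

variable {G : Type} [Group G] [MulAction G V]

theorem dist_smul (hact : ∀ (g : G) (x y : V), X.Adj x y → X.Adj (g • x) (g • y))
    (hX : X.IsTree) (g : G) (x y : V) : X.dist (g • x) (g • y) = X.dist x y := by
  have key : ∀ (g : G) (x y : V), X.dist (g • x) (g • y) ≤ X.dist x y := by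
    intro g x y
    obtain ⟨p, _, hl⟩ := exists_path hX x y
    have h1 : ∀ {a b : V} (p : X.Walk a b), ∃ q : X.Walk (g • a) (g • b), q.length = p.length := by
      intro a b p
      induction p with
      | nil => exact ⟨SimpleGraph.Walk.nil, rfl⟩
      | cons h p ih =>
        obtain ⟨q, hq⟩ := ih
        exact ⟨SimpleGraph.Walk.cons (hact g _ _ h) q, by simp [hq]⟩
    obtain ⟨q, hq⟩ := h1 p
    rw [← hl, ← hq]
    exact SimpleGraph.dist_le q
  refine le_antisymm (key g x y) ?_
  have := key g⁻¹ (g • x) (g • y)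
  rwa [inv_smul_smul, inv_smul_smul] at this

theorem smul_mem_Hf (hact : ∀ (g : G) (x y : V), X.Adj x y → X.Adj (g • x) (g • y))
    (hX : X.IsTree) (g : G) {u v x : V} : g • x ∈ Hf X (g • u) (g • v) ↔ x ∈ Hf X u v := by
  rw [mem_Hf, mem_Hf, dist_smul hact hX, dist_smul hact hX]

theorem mem_Hf_smul (hact : ∀ (g : G) (x y : V), X.Adj x y → X.Adj (g • x) (g • y))
    (hX : X.IsTree) (g : G) {u v x : V} : x ∈ Hf X (g • u) (g • v) ↔ g⁻¹ • x ∈ Hf X u v := by
  conv_rhs => rw [← smul_mem_Hf hact hX g, smul_inv_smul]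

end action

end Pool.Agent.SuUp
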