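import Pool.Agent.Lib.MP_305fdd_al.Su.Up.EllC

/-!
# GOING UP, part 8: the model (MP_305fdd_al, surface groups, block UP)

`N` is normal of index two in `G` and acts on the tree `X` with one orbit of edges and of vertices
(`HT`).  The second tree is the same tree with the action twisted by an element `s` outside `N`.
-/

set_option autoImplicit false

namespace Pool.Agent.SuUp

open Pool.Agent.SuT Pool.Agent.FrT Pool.Agent.FrS

/-! ## Heights -/

section

variable {N : Type} [Group N] {V : Type} [MulAction N V] {X : SimpleGraph V} {v : V} {t : N}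

/-- the height of an HNN tree -/
theorem ht_height (hX : HT N X v t) : ∃ (h : V → ℤ) (ψ : N → ℤ),
    (∀ x y, X.Adj x y → h y = h x + 1 ∨ h x = h y + 1) ∧ (∀ n x, h (n • x) = h x + ψ n) ∧
      h (t • v) = h v + 1 := by
  classical
  let A : V → V → Prop := fun a b => ∃ n : N, n • v = a ∧ n • t • v = b
  have hA : ∀ a b, A a b → ¬ A b a := by
    rintro a b ⟨n, rfl, rfl⟩ ⟨m, h1, h2⟩
    refine hX.noinv (m * n⁻¹) (n • v) (n • t • v) (hX.act n _ _ hX.adj) ?_
    rw [mul_smul, mul_smul, inv_smul_smul, inv_smul_smul]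
    exact ⟨h1, h2⟩
  have hAn : ∀ (n : N) a b, A (n • a) (n • b) ↔ A a b := by
    intro n a b
    constructor
    · rintro ⟨m, h1, h2⟩
      refine ⟨n⁻¹ * m, ?_, ?_⟩
      · rw [mul_smul, h1, inv_smul_smul]
      · rw [mul_smul, h2, inv_smul_smul]
    · rintro ⟨m, rfl, rfl⟩
      exact ⟨n * m, mul_smul _ _ _, mul_smul _ _ _⟩
  let c : V → V → ℤ := fun a b => (if A a b then 1 else 0) - (if A b a then 1 else 0)
  obtain ⟨h, hh⟩ := pot hX.tree c (by
    intro a b _
    show (if A b a then (1 : ℤ) else 0) - (if A a b then 1 else 0) =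
      - ((if A a b then (1 : ℤ) else 0) - (if A b a then 1 else 0))
    ring)
  have hc1 : ∀ a b, A a b → c a b = 1 := by
    intro a b hab
    show (if A a b then (1 : ℤ) else 0) - (if A b a then 1 else 0) = 1
    rw [if_pos hab, if_neg (hA a b hab), sub_zero]
  have hc2 : ∀ a b, A b a → c a b = -1 := by
    intro a b hab
    show (if A a b then (1 : ℤ) else 0) - (if A b a then 1 else 0) = -1
    rw [if_neg (hA b a hab), if_pos hab, zero_sub]
  have hcn : ∀ (n : N) a b, c (n • a) (n • b) = c a b := by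
    intro n a b
    show (if A (n • a) (n • b) then (1 : ℤ) else 0) - (if A (n • b) (n • a) then 1 else 0) =
      (if A a b then (1 : ℤ) else 0) - (if A b a then 1 else 0)
    by_cases h1 : A a b
    · rw [if_pos h1, if_pos ((hAn n a b).2 h1), if_neg (hA _ _ h1),
        if_neg (hA _ _ ((hAn n a b).2 h1))]
    · rw [if_neg h1, if_neg (fun h2 => h1 ((hAn n a b).1 h2))]
      by_cases h3 : A b a
      · rw [if_pos h3, if_pos ((hAn n b a).2 h3)]
      · rw [if_neg h3, if_neg (fun h2 => h3 ((hAn n b a).1 h2))]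
  have hconst : ∀ (n : N) x, h (n • x) = h x + (h (n • v) - h v) := by
    intro n
    have h1 : ∀ a b : V, X.Walk a b → h (n • b) - h b = h (n • a) - h a := by
      intro a b p
      induction p with
      | nil => rfl
      | @cons a b d hab p ih =>
        rw [ih, hh a b hab, hh _ _ (hX.act n a b hab), hcn]
        ring
    intro x
    obtain ⟨p⟩ := hX.tree.connected.preconnected v x
    have := h1 v x p
    linarith
  refine ⟨h, fun n => h (n • v) - h v, ?_, hconst, ?_⟩
  · intro x y hxy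
    rcases hX.one x y hxy with ⟨n, h1 | h1⟩
    · left
      rw [hh x y hxy, hc1 x y ⟨n, h1⟩]
    · right
      rw [hh x y hxy, hc2 x y ⟨n, h1⟩]
      ring
  · rw [hh v (t • v) hX.adj, hc1 _ _ ⟨1, one_smul _ _, one_smul _ _⟩]

/-- an HNN tree: the group is generated by a vertex group and the stable letter -/
theorem ht_gen (hX : HT N X v t) (K : Subgroup N) (hK : MulAction.stabilizer N v ≤ K)
    (ht : t ∈ K) : K = ⊤ := by
  have hv : ∀ (n k : N), k ∈ K → n • v = k • v → n ∈ K := by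
    intro n k hk h
    have h1 : k⁻¹ * n ∈ MulAction.stabilizer N v := by
      rw [MulAction.mem_stabilizer_iff, mul_smul, h, inv_smul_smul]
    have h2 := K.mul_mem hk (hK h1)
    rwa [mul_inv_cancel_left] at h2
  have hstep : ∀ x y : V, X.Walk x y → (∃ k ∈ K, k • v = x) → ∃ k ∈ K, k • v = y := by
    intro x y p
    induction p with
    | nil => exact fun h => h
    | @cons a b d hab p ih =>
      intro hk
      apply ih
      obtain ⟨k, hk, rfl⟩ := hk
      obtain ⟨n, ⟨h1, h2⟩ | ⟨h1, h2⟩⟩ := hX.one _ _ hab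
      · have h3 := hv n k hk h1
        exact ⟨n * t, K.mul_mem h3 ht, by rw [mul_smul, h2]⟩
      · have h3 : n * t ∈ K := hv (n * t) k hk (by rw [mul_smul, h2])
        have h4 : n ∈ K := by
          have := K.mul_mem h3 (K.inv_mem ht)
          rwa [mul_inv_cancel_right] at this
        exact ⟨n, h4, h1⟩
  rw [eq_top_iff]
  intro n _
  obtain ⟨p⟩ := hX.tree.connected.preconnected v (n • v)
  obtain ⟨k, hk, h1⟩ := hstep _ _ p ⟨1, K.one_mem, one_smul _ _⟩
  exact hv n k hk h1.symm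

/-- the height has the expected character -/
theorem ht_char (hX : HT N X v t) {h : V → ℤ} {ψ : N → ℤ} (hψ : ∀ n x, h (n • x) = h x + ψ n)
    (ht : h (t • v) = h v + 1) (φ : N → ℤ) (hφ : ∀ a b, φ (a * b) = φ a + φ b)
    (h0 : ∀ a ∈ MulAction.stabilizer N v, φ a = 0) (h1 : φ t = 1) : ψ = φ := by
  have hψm : ∀ a b, ψ (a * b) = ψ a + ψ b := by
    intro a b
    have e1 := hψ (a * b) v
    rw [mul_smul, hψ, hψ] at e1
    linarith
  have hψ1 : ψ 1 = 0 := by
    have := hψm 1 1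
    rw [mul_one] at this
    linarith
  have hφ1 : φ 1 = 0 := by
    have := hφ 1 1
    rw [mul_one] at this
    linarith
  let K : Subgroup N :=
    { carrier := {n | ψ n = φ n}
      one_mem' := by
        show ψ 1 = φ 1
        rw [hψ1, hφ1]
      mul_mem' := by
        intro a b (ha : ψ a = φ a) (hb : ψ b = φ b)
        show ψ (a * b) = φ (a * b)
        rw [hψm, hφ, ha, hb]
      inv_mem' := by
        intro a (ha : ψ a = φ a)
        show ψ a⁻¹ = φ a⁻¹
        have e1 := hψm a a⁻¹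
        have e2 := hφ a a⁻¹
        rw [mul_inv_cancel] at e1 e2
        linarith }
  have hK : K = ⊤ := by
    refine ht_gen hX K ?_ ?_
    · intro a ha
      show ψ a = φ a
      rw [h0 a ha]
      have e1 := hψ a v
      rw [MulAction.mem_stabilizer_iff] at ha
      rw [ha] at e1
      linarith
    · show ψ t = φ t
      rw [h1]
      have e1 := hψ t v
      linarith
  funext n
  have : n ∈ K := by
    rw [hK]
    exact Subgroup.mem_top n
  exact this

end

/-! ## The twisted tree -/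

/-- the same type -/
def Tw {N M : Type} [Group N] [Group M] (_ : M ≃* N) (V : Type) : Type := V

/-- the identity -/
def tw {N M : Type} [Group N] [Group M] (σ : M ≃* N) {V : Type} (x : V) : Tw σ V := x

/-- the identity -/
def utw {N M : Type} [Group N] [Group M] {σ : M ≃* N} {V : Type} (x : Tw σ V) : V := x

theorem utw_tw {N M : Type} [Group N] [Group M] (σ : M ≃* N) {V : Type} (x : V) :
    utw (tw σ x) = x := rfl

theorem tw_utw {N M : Type} [Group N] [Group M] {σ : M ≃* N} {V : Type} (x : Tw σ V) :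
    tw σ (utw x) = x := rfl

instance {N M : Type} [Group N] [Group M] (σ : M ≃* N) (V : Type) [MulAction N V] :
    MulAction M (Tw σ V) where
  smul := fun n x => tw σ (σ n • utw x)
  one_smul := fun x => by
    show tw σ (σ 1 • utw x) = x
    rw [map_one, one_smul, tw_utw]
  mul_smul := fun n m x => by
    show tw σ (σ (n * m) • utw x) = tw σ (σ n • utw (tw σ (σ m • utw x)))
    rw [map_mul, mul_smul, utw_tw]

section

variable {N M : Type} [Group N] [Group M] (σ : M ≃* N) {V : Type} [MulAction N V]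
  {X : SimpleGraph V} {v : V} {t : N}

/-- the same graph -/
def TwX (X : SimpleGraph V) : SimpleGraph (Tw σ V) := X

theorem tw_smul (n : M) (x : V) : n • tw σ x = tw σ (σ n • x) := rfl

omit [MulAction N V] in
theorem tw_adj {x y : V} : (TwX σ X).Adj (tw σ x) (tw σ y) ↔ X.Adj x y := Iff.rfl

theorem tw_stab (x : V) : MulAction.stabilizer M (tw σ x) =
    (MulAction.stabilizer N x).comap σ.toMonoidHom := by
  ext n
  rfl

theorem tw_es (x y : V) : ES M (tw σ x) (tw σ y) = (ES N x y).comap σ.toMonoidHom := by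
  ext n
  rfl

theorem mc_comap {Z : Subgroup N} (hZ : MC Z) : MC (Z.comap σ.toMonoidHom) := by
  obtain ⟨⟨z, h1, h2⟩, h3⟩ := hZ
  refine ⟨⟨σ.symm z, ?_, ?_⟩, ?_⟩
  · intro n hn h
    refine h1 n hn ?_
    have h4 := congrArg σ h
    rwa [map_pow, σ.apply_symm_apply, map_one] at h4
  · ext n
    rw [Subgroup.mem_comap, h2, Subgroup.mem_zpowers_iff, Subgroup.mem_zpowers_iff]
    constructor
    · rintro ⟨k, hk⟩
      refine ⟨k, ?_⟩
      rw [← map_zpow, hk]
      exact σ.symm_apply_apply n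
    · rintro ⟨k, hk⟩
      refine ⟨k, ?_⟩
      rw [← hk, ← map_zpow]
      exact (σ.apply_symm_apply _).symm
  · intro a ha ha1 g hg
    refine h3 (σ a) ha ?_ (σ g) ?_
    · intro e
      apply ha1
      exact σ.injective (by rw [e, map_one])
    · have : σ (g * a * g⁻¹) ∈ Z := hg
      rwa [map_mul, map_mul, map_inv] at this

theorem fg_comap {Z : Subgroup N} (hZ : Z.FG) : (Z.comap σ.toMonoidHom).FG := by
  have h1 : Z.comap σ.toMonoidHom = Z.map σ.symm.toMonoidHom := by
    ext n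
    rw [Subgroup.mem_comap, Subgroup.mem_map]
    constructor
    · intro h
      exact ⟨σ n, h, σ.symm_apply_apply n⟩
    · rintro ⟨m, hm, rfl⟩
      have : σ.toMonoidHom (σ.symm.toMonoidHom m) = m := σ.apply_symm_apply m
      rw [this]
      exact hm
  rw [h1]
  obtain ⟨S, hS, hf⟩ := (Subgroup.fg_iff _).1 hZ
  rw [Subgroup.fg_iff]
  refine ⟨σ.symm.toMonoidHom '' S, ?_, hf.image _⟩
  rw [← hS, MonoidHom.map_closure]

theorem ncyc_comap {Z : Subgroup N} (hZ : NCyc Z) : NCyc (Z.comap σ.toMonoidHom) := by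
  rintro ⟨z, hz⟩
  apply hZ
  refine ⟨σ z, ?_⟩
  ext n
  have h1 : n ∈ Z ↔ σ.symm n ∈ Z.comap σ.toMonoidHom := by
    rw [Subgroup.mem_comap]
    have : σ.toMonoidHom (σ.symm n) = n := σ.apply_symm_apply n
    rw [this]
  rw [h1, hz, Subgroup.mem_zpowers_iff, Subgroup.mem_zpowers_iff]
  constructor
  · rintro ⟨k, hk⟩
    refine ⟨k, ?_⟩
    rw [← map_zpow, hk]
    exact σ.apply_symm_apply n
  · rintro ⟨k, hk⟩
    refine ⟨k, ?_⟩
    rw [← hk, ← map_zpow]
    exact (σ.symm_apply_apply _).symm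

theorem tw_ta (hX : TA N X) : TA M (TwX σ X) :=
  ⟨hX.tree, fun n x y h => hX.act (σ n) x y h, fun n x y h => hX.noinv (σ n) x y h⟩

theorem tw_ht (hX : HT N X v t) : HT M (TwX σ X) (tw σ v) (σ.symm t) := by
  refine ⟨tw_ta σ hX.toTA, ?_, ?_, ?_⟩
  · rw [tw_smul, tw_adj, σ.apply_symm_apply]
    exact hX.adj
  · intro x y hxy
    obtain ⟨n, hn⟩ := hX.one (utw x) (utw y) hxy
    refine ⟨σ.symm n, ?_⟩
    rw [tw_smul, tw_smul, tw_smul, σ.apply_symm_apply, σ.apply_symm_apply]
    exact hn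
  · rw [tw_smul, tw_es, σ.apply_symm_apply]
    exact mc_comap σ hX.mc

end

/-! ## The model -/

section

variable {G : Type} [Group G] {N : Subgroup G} {V : Type} [MulAction N V]
  {X : SimpleGraph V} {v : V} {t : N}

/-- conjugation `n ↦ s⁻¹ n s` -/
def cjN (hN : N.Normal) (s : G) : N ≃* N where
  toFun n := ⟨s⁻¹ * n * s, by
    have := hN.conj_mem n n.2 s⁻¹
    rwa [inv_inv] at this⟩
  invFun n := ⟨s * n * s⁻¹, hN.conj_mem n n.2 s⟩
  left_inv n := Subtype.ext (by
    show s * (s⁻¹ * (n : G) * s) * s⁻¹ = n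
    group)
  right_inv n := Subtype.ext (by
    show s⁻¹ * (s * (n : G) * s⁻¹) * s = n
    group)
  map_mul' a b := Subtype.ext (by
    show s⁻¹ * ((a : G) * b) * s = (s⁻¹ * a * s) * (s⁻¹ * b * s)
    group)

open Classical in
/-- the action of `G` on the product -/
noncomputable def mact (hN : N.Normal) (hsq : ∀ g g' : G, g ∉ N → g' ∉ N → g * g' ∈ N) {s : G}
    (hs : s ∉ N) (g : G) (p : V × Tw (cjN hN s) V) : V × Tw (cjN hN s) V :=
  if hg : g ∈ N then ((⟨g, hg⟩ : N) • p.1, (⟨g, hg⟩ : N) • p.2)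
  else ((⟨g * s, hsq g s hg hs⟩ : N) • utw p.2,
    tw (cjN hN s)
      ((⟨s⁻¹ * g, hsq s⁻¹ g (fun h => hs (by simpa using N.inv_mem h)) hg⟩ : N) • p.1))

theorem mact_pos (hN : N.Normal) (hsq : ∀ g g' : G, g ∉ N → g' ∉ N → g * g' ∈ N) {s : G}
    (hs : s ∉ N) {g : G} (hg : g ∈ N) (x y : V) :
    mact hN hsq hs g (x, tw (cjN hN s) y) =
      ((⟨g, hg⟩ : N) • x, tw (cjN hN s) (cjN hN s ⟨g, hg⟩ • y)) := by
  unfold mact
  rw [dif_pos hg, tw_smul]

theorem mact_neg (hN : N.Normal) (hsq : ∀ g g' : G, g ∉ N → g' ∉ N → g * g' ∈ N) {s : G}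
    (hs : s ∉ N) {g : G} (hg : g ∉ N) (x y : V) (h1 : g * s ∈ N) (h2 : s⁻¹ * g ∈ N) :
    mact hN hsq hs g (x, tw (cjN hN s) y) =
      ((⟨g * s, h1⟩ : N) • y, tw (cjN hN s) ((⟨s⁻¹ * g, h2⟩ : N) • x)) := by
  unfold mact
  rw [dif_neg hg, utw_tw]

theorem smul_eq_aux {a b : N} (h : (a : G) = b) (x : V) : a • x = b • x := by
  rw [Subtype.ext h]

theorem mact_one (hN : N.Normal) (hsq : ∀ g g' : G, g ∉ N → g' ∉ N → g * g' ∈ N) {s : G}
    (hs : s ∉ N) (x y : V) : mact hN hsq hs 1 (x, tw (cjN hN s) y) = (x, tw (cjN hN s) y) := by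
  rw [mact_pos hN hsq hs N.one_mem x y]
  have e1 : (⟨1, N.one_mem⟩ : N) = 1 := rfl
  rw [e1, map_one, one_smul, one_smul]

theorem mact_mul (hN : N.Normal) (hsq : ∀ g g' : G, g ∉ N → g' ∉ N → g * g' ∈ N) {s : G}
    (hs : s ∉ N) (g g' : G) (x y : V) : mact hN hsq hs (g * g') (x, tw (cjN hN s) y) =
      mact hN hsq hs g (mact hN hsq hs g' (x, tw (cjN hN s) y)) := by
  have hs' : s⁻¹ ∉ N := fun h => hs (by simpa using N.inv_mem h)
  by_cases hg : g ∈ N <;> by_cases hg' : g' ∈ N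
  · rw [mact_pos hN hsq hs (N.mul_mem hg hg') x y, mact_pos hN hsq hs hg' x y,
      mact_pos hN hsq hs hg, ← mul_smul, ← mul_smul, ← map_mul]
    rfl
  · have hgg : g * g' ∉ N := fun h => hg' ((N.mul_mem_cancel_left hg).1 h)
    rw [mact_neg hN hsq hs hgg x y (hsq _ _ hgg hs) (hsq _ _ hs' hgg),
      mact_neg hN hsq hs hg' x y (hsq _ _ hg' hs) (hsq _ _ hs' hg'),
      mact_pos hN hsq hs hg, ← mul_smul, ← mul_smul]
    refine congrArg₂ Prod.mk (smul_eq_aux ?_ y) (congrArg (tw (cjN hN s)) (smul_eq_aux ?_ x))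
    · show g * g' * s = g * (g' * s)
      group
    · show s⁻¹ * (g * g') = s⁻¹ * g * s * (s⁻¹ * g')
      group
  · have hgg : g * g' ∉ N := fun h => hg ((N.mul_mem_cancel_right hg').1 h)
    rw [mact_neg hN hsq hs hgg x y (hsq _ _ hgg hs) (hsq _ _ hs' hgg),
      mact_pos hN hsq hs hg' x y,
      mact_neg hN hsq hs hg _ _ (hsq _ _ hg hs) (hsq _ _ hs' hg), ← mul_smul, ← mul_smul]
    refine congrArg₂ Prod.mk (smul_eq_aux ?_ y) (congrArg (tw (cjN hN s)) (smul_eq_aux ?_ x))
    · show g * g' * s = g * s * (s⁻¹ * g' * s)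
      group
    · show s⁻¹ * (g * g') = s⁻¹ * g * g'
      group
  · have hgg : g * g' ∈ N := hsq g g' hg hg'
    rw [mact_pos hN hsq hs hgg x y,
      mact_neg hN hsq hs hg' x y (hsq _ _ hg' hs) (hsq _ _ hs' hg'),
      mact_neg hN hsq hs hg _ _ (hsq _ _ hg hs) (hsq _ _ hs' hg), ← mul_smul, ← mul_smul]
    refine congrArg₂ Prod.mk (smul_eq_aux ?_ x) (congrArg (tw (cjN hN s)) (smul_eq_aux ?_ y))
    · show g * g' = g * s * (s⁻¹ * g')
      group
    · show s⁻¹ * (g * g') * s = s⁻¹ * g * (g' * s)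
      group

/-- the action of `G` on the product -/
noncomputable abbrev mAct (hN : N.Normal) (hsq : ∀ g g' : G, g ∉ N → g' ∉ N → g * g' ∈ N)
    {s : G} (hs : s ∉ N) (V : Type) [MulAction N V] : MulAction G (V × Tw (cjN hN s) V) where
  smul := mact hN hsq hs
  one_smul p := mact_one hN hsq hs p.1 (utw p.2)
  mul_smul g g' p := mact_mul hN hsq hs g g' p.1 (utw p.2)

/-- GOING UP (index two): the HNN tree `X` of `N` has character `φ` with `φ + φ^s ≠ 0` -/
theorem going_up (hN : N.Normal) (hsq : ∀ g g' : G, g ∉ N → g' ∉ N → g * g' ∈ N) {s : G}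
    (hs : s ∉ N) (tf : ∀ g : G, ∀ n : ℕ, 0 < n → g ^ n = 1 → g = 1) (fi : FI N)
    (hX : HT N X v t) (fg : (MulAction.stabilizer N v).FG) (nc : NCyc (MulAction.stabilizer N v))
    (φ : N → ℤ) (hφ : ∀ a b, φ (a * b) = φ a + φ b)
    (h0 : ∀ a ∈ MulAction.stabilizer N v, φ a = 0) (h1 : φ t = 1)
    (hφs : ∃ n : N, φ n + φ (cjN hN s n) ≠ 0) :
    ∃ (W : Type) (_ : MulAction G W) (Y : SimpleGraph W) (u w : W) (z : G), TA G Y ∧
      Y.Adj u w ∧ Ess Y (⊤ : Subgroup G) u w ∧ ES G u w = Subgroup.zpowers z ∧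
      ∀ n : ℕ, 0 < n → z ^ n ≠ 1 := by
  let act := mAct hN hsq hs V
  have hs' : s⁻¹ ∉ N := fun h => hs (by simpa using N.inv_mem h)
  have hpos : ∀ (g : G) (hg : g ∈ N) (x y : V), g • (x, tw (cjN hN s) y) =
      ((⟨g, hg⟩ : N) • x, tw (cjN hN s) (cjN hN s ⟨g, hg⟩ • y)) :=
    fun g hg x y => mact_pos hN hsq hs hg x y
  have hneg : ∀ (g : G) (hg : g ∉ N) (x y : V), g • (x, tw (cjN hN s) y) =
      ((⟨g * s, hsq g s hg hs⟩ : N) • y, tw (cjN hN s) ((⟨s⁻¹ * g, hsq _ _ hs' hg⟩ : N) • x)) :=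
    fun g hg x y => mact_neg hN hsq hs hg x y _ _
  -- all vertices are translates of `v`
  have horb : ∀ x : V, ∃ n : N, n • v = x := by
    intro x
    have hstep : ∀ a b : V, X.Walk a b → (∃ n : N, n • v = a) → ∃ n : N, n • v = b := by
      intro a b p
      induction p with
      | nil => exact fun h => h
      | @cons a b d hab p ih =>
        intro _
        apply ih
        obtain ⟨n, ⟨_, h2⟩ | ⟨h2, _⟩⟩ := hX.one _ _ hab
        · exact ⟨n * t, by rw [mul_smul, h2]⟩
        · exact ⟨n, h2⟩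
    obtain ⟨p⟩ := hX.tree.connected.preconnected v x
    exact hstep v x p ⟨1, one_smul _ _⟩
  have hstab : ∀ (n : N), MulAction.stabilizer N (n • v) =
      (MulAction.stabilizer N v).comap (MulAut.conj n⁻¹).toMonoidHom := by
    intro n
    ext m
    rw [Subgroup.mem_comap, MulAction.mem_stabilizer_iff, MulAction.mem_stabilizer_iff]
    show m • n • v = n • v ↔ (n⁻¹ * m * n⁻¹⁻¹) • v = v
    rw [inv_inv, mul_smul, mul_smul, inv_smul_eq_iff]
  have hfg : ∀ x : V, (MulAction.stabilizer N x).FG := by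
    intro x
    obtain ⟨n, rfl⟩ := horb x
    rw [hstab]
    exact fg_comap (MulAut.conj n⁻¹) fg
  have hnc : ∀ x : V, NCyc (MulAction.stabilizer N x) := by
    intro x
    obtain ⟨n, rfl⟩ := horb x
    rw [hstab]
    exact ncyc_comap (MulAut.conj n⁻¹) nc
  have htf : ∀ g : N, ∀ n : ℕ, 0 < n → g ^ n = 1 → g = 1 := by
    intro g n hn hg
    refine Subtype.ext (tf g n hn ?_)
    have := congrArg Subtype.val hg
    rwa [Subgroup.coe_pow] at this
  have D : ND N X (TwX (cjN hN s) X) v t (tw (cjN hN s) v) ((cjN hN s).symm t) := by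
    refine ⟨htf, fi, hX, tw_ht (cjN hN s) hX, hfg, hnc, ?_, ?_⟩
    · intro y
      rw [← tw_utw y, tw_stab]
      exact fg_comap _ (hfg _)
    · intro y
      rw [← tw_utw y, tw_stab]
      exact ncyc_comap _ (hnc _)
  have U : UD G N X (TwX (cjN hN s) X) := by
    refine ⟨hN, hsq, ?_, ?_⟩
    · intro n x y
      rw [← tw_utw y, tw_smul]
      exact hpos n n.2 x (utw y)
    · intro g hg
      refine ⟨fun y => (⟨g * s, hsq g s hg hs⟩ : N) • utw y,
        fun x => tw (cjN hN s) ((⟨s⁻¹ * g, hsq _ _ hs' hg⟩ : N) • x),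
        fun x y => hneg g hg x (utw y), ?_, ?_⟩
      · intro a b hab
        exact hX.act _ _ _ hab
      · intro a b hab
        exact hX.act _ _ _ hab
  obtain ⟨h, ψ, k1, k2, k3⟩ := ht_height hX
  have hψ : ψ = φ := ht_char hX k2 k3 φ hφ h0 h1
  have L : Hgt G X (TwX (cjN hN s) X) h (fun y => h (utw y)) := by
    refine ⟨k1, fun x y hxy => k1 (utw x) (utw y) hxy, ?_, ?_⟩
    · intro g
      by_cases hg : g ∈ N
      · refine ⟨ψ ⟨g, hg⟩ + ψ (cjN hN s ⟨g, hg⟩), ?_⟩
        rintro ⟨x, y⟩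
        rw [← tw_utw y, hpos g hg]
        simp only [utw_tw]
        rw [k2, k2]
        ring
      · refine ⟨ψ ⟨g * s, hsq g s hg hs⟩ + ψ ⟨s⁻¹ * g, hsq _ _ hs' hg⟩, ?_⟩
        rintro ⟨x, y⟩
        rw [← tw_utw y, hneg g hg]
        simp only [utw_tw]
        rw [k2, k2]
        ring
    · obtain ⟨n, hn⟩ := hφs
      refine ⟨n, φ n + φ (cjN hN s n), hn, ?_⟩
      rintro ⟨x, y⟩
      rw [← tw_utw y, hpos n n.2]
      simp only [utw_tw]
      rw [k2, k2, hψ]
      ring
  exact up_main U D L tf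

end

end Pool.Agent.SuUp
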