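import Pool.Agent.Lib.MP_305fdd_al.Su.Up.WC
import Pool.Agent.Lib.MP_305fdd_al.Su.Tr.All

/-!
# GOING UP, part 1: two HNN trees of a freely indecomposable group

`ND N X X' v t v' t'`: the data.  Dichotomy `ND.dich`: either all edge groups of `X` and of `X'` act on
the other tree without a fixed vertex (`Hyp`), or all have fixed vertices (`Ell`).
-/

set_option autoImplicit false

namespace Pool.Agent.SuUp

open Pool.Agent.SuT Pool.Agent.FrT Pool.Agent.FrS

/-- freely indecomposable implies freely indecomposable for trees -/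
theorem fit_of_fi {G : Type} [Group G] (h : FI G) : FIt G := by
  intro V _ X hT u v hadj hess hbot
  have hinv : ∀ g : G, ¬ (g • u = v ∧ g • v = u) := fun g hg => hT.noinv g u v hadj hg
  have hj : FrV.Fac (MonoidHom.id G) := by
    intro R _ _ r x hx
    have : x = 1 := hx
    rw [this]
    exact Subgroup.one_mem _
  have hSC : SC G u v = ⊥ := hbot
  have hmap : ∀ H : Subgroup G, H.map (MonoidHom.id G) = H := Subgroup.map_id
  have hran : (MonoidHom.id G).range = ⊤ := MonoidHom.range_eq_top_of_surjective _ (fun x => ⟨x, rfl⟩)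
  by_cases hex : ∃ g : G, Rch G X u v (g • u) v
  · obtain ⟨g, hg⟩ := hex
    have h1 := FrV.isHn hT.act (MonoidHom.id G) hj hT.tree hinv hadj g hg
    rw [hSC, hmap, hmap, hran] at h1
    exact h.2 ⟨_, _, h1⟩
  · push Not at hex
    have h1 := FrV.isAm hT.act (MonoidHom.id G) hj hT.tree hinv hadj hex
    rw [hSC, hmap, hmap, hmap, hran] at h1
    refine h.1 ⟨_, _, h1, ?_, ?_⟩
    · intro hb
      have h2 := h1.sup
      rw [hb, bot_sup_eq] at h2
      obtain ⟨_, ⟨b, _, hb2⟩⟩ := hess v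
      have h3 : b ∈ Sst (u := u) (v := v) hT.act v := by
        rw [← h2]
        exact Subgroup.mem_top b
      rw [mem_Sst] at h3
      exact hb2 ((rch_Hf hT.tree hadj h3).2 (right_mem_Hf hT.tree hadj))
    · intro hb
      have h2 := h1.sup
      rw [hb, sup_bot_eq] at h2
      obtain ⟨⟨a, _, ha2⟩, _⟩ := hess u
      have h3 : a ∈ Sst (u := u) (v := v) hT.act u := by
        rw [← h2]
        exact Subgroup.mem_top a
      rw [mem_Sst] at h3
      exact left_not_mem_Hf ((rch_Hf hT.tree hadj h3).1 ha2)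

/-- not cyclic -/
def NCyc {G : Type} [Group G] (A : Subgroup G) : Prop := ¬ ∃ z : G, A = Subgroup.zpowers z

/-- a group with a fixed vertex has no essential edge -/
theorem not_ess_of_fix {G V : Type} [Group G] [MulAction G V] {X : SimpleGraph V} {E : Subgroup G}
    {u v p : V} (hp : ∀ g ∈ E, g • p = p) : ¬ Ess X E u v := by
  intro h
  obtain ⟨⟨a, ha, h1⟩, ⟨b, hb, h2⟩⟩ := h p
  rw [hp a ha] at h1
  rw [hp b hb] at h2
  exact h2 h1

/-- two HNN trees of a freely indecomposable group -/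
structure ND (N : Type) [Group N] {V V' : Type} [MulAction N V] [MulAction N V']
    (X : SimpleGraph V) (X' : SimpleGraph V') (v : V) (t : N) (v' : V') (t' : N) : Prop where
  tf : ∀ g : N, ∀ n : ℕ, 0 < n → g ^ n = 1 → g = 1
  fi : FI N
  ht : HT N X v t
  ht' : HT N X' v' t'
  fg : ∀ x : V, (MulAction.stabilizer N x).FG
  nc : ∀ x : V, NCyc (MulAction.stabilizer N x)
  fg' : ∀ y : V', (MulAction.stabilizer N y).FG
  nc' : ∀ y : V', NCyc (MulAction.stabilizer N y)

/-- all edge groups act without a fixed vertex on the other tree -/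
structure Hyp (N : Type) [Group N] {V V' : Type} [MulAction N V] [MulAction N V']
    (X : SimpleGraph V) (X' : SimpleGraph V') : Prop where
  h : ∀ a b, X.Adj a b → ∀ z : N, ES N a b = Subgroup.zpowers z → ∀ y : V', z • y ≠ y
  h' : ∀ a b, X'.Adj a b → ∀ z : N, ES N a b = Subgroup.zpowers z → ∀ x : V, z • x ≠ x

/-- all edge groups have fixed vertices in the other tree -/
structure Ell (N : Type) [Group N] {V V' : Type} [MulAction N V] [MulAction N V']
    (X : SimpleGraph V) (X' : SimpleGraph V') : Prop where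
  h : ∀ a b, X.Adj a b → ∃ y : V', ∀ n ∈ ES N a b, n • y = y
  h' : ∀ a b, X'.Adj a b → ∃ x : V, ∀ n ∈ ES N a b, n • x = x
  le : ∀ (x : V) (a b : V'), X'.Adj a b → Ess X' (MulAction.stabilizer N x) a b →
    ES N a b ≤ MulAction.stabilizer N x
  le' : ∀ (y : V') (a b : V), X.Adj a b → Ess X (MulAction.stabilizer N y) a b →
    ES N a b ≤ MulAction.stabilizer N y

section

variable {N : Type} [Group N] {V V' : Type} [MulAction N V] [MulAction N V']
  {X : SimpleGraph V} {X' : SimpleGraph V'} {v : V} {t : N} {v' : V'} {t' : N}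

theorem ND.symm (D : ND N X X' v t v' t') : ND N X' X v' t' v t :=
  ⟨D.tf, D.fi, D.ht', D.ht, D.fg', D.nc', D.fg, D.nc⟩

theorem Hyp.symm (H : Hyp N X X') : Hyp N X' X := ⟨H.h', H.h⟩

theorem Ell.symm (H : Ell N X X') : Ell N X' X := ⟨H.h', H.h, H.le', H.le⟩

/-- one orbit of edges -/
theorem ht_one (hX : HT N X v t) {a b c d : V} (h : X.Adj a b) (h' : X.Adj c d) :
    ∃ n : N, (n • a = c ∧ n • b = d) ∨ (n • a = d ∧ n • b = c) := by
  obtain ⟨g, hg⟩ := hX.one a b h
  obtain ⟨k, hk⟩ := hX.one c d h'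
  refine ⟨k * g⁻¹, ?_⟩
  rcases hg with ⟨rfl, rfl⟩ | ⟨rfl, rfl⟩ <;> rcases hk with ⟨rfl, rfl⟩ | ⟨rfl, rfl⟩ <;>
    simp [mul_smul, inv_smul_smul]

/-- fixed vertices are transported by conjugation -/
theorem fix_conj {a b : V} (n : N) (h : ∃ y : V', ∀ s ∈ ES N a b, s • y = y) :
    ∃ y : V', ∀ s ∈ ES N (n • a) (n • b), s • y = y := by
  obtain ⟨y, hy⟩ := h
  refine ⟨n • y, ?_⟩
  intro s hs
  rw [mem_ES_smul] at hs
  have := hy _ hs
  rwa [mul_smul, mul_smul, inv_smul_eq_iff] at this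

theorem fix_all (hX : HT N X v t) {a b : V} (h : X.Adj a b)
    (hf : ∃ y : V', ∀ s ∈ ES N a b, s • y = y) {c d : V} (h' : X.Adj c d) :
    ∃ y : V', ∀ s ∈ ES N c d, s • y = y := by
  obtain ⟨n, ⟨rfl, rfl⟩ | ⟨rfl, rfl⟩⟩ := ht_one hX h h'
  · exact fix_conj n hf
  · rw [ES_symm]
    exact fix_conj n hf

/-- the edge groups are finitely generated -/
theorem ht_fg (hX : HT N X v t) {a b : V} (h : X.Adj a b) : (ES N a b).FG := by
  obtain ⟨z, _, hz⟩ := (ht_mc hX h).1
  rw [hz, Subgroup.fg_iff]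
  exact ⟨{z}, (Subgroup.zpowers_eq_closure z).symm, Set.finite_singleton z⟩

theorem zpowers_fix {z : N} {y : V'} (h : z • y = y) : ∀ s ∈ Subgroup.zpowers z, s • y = y := by
  intro s hs
  have h1 : Subgroup.zpowers z ≤ MulAction.stabilizer N y := by
    rw [Subgroup.zpowers_le]
    exact h
  exact h1 hs

/-- if the edge groups of `X` have fixed vertices in `X'` then also conversely -/
theorem ND.ell_aux (D : ND N X X' v t v' t') (h : ∀ a b, X.Adj a b → ∃ y : V', ∀ n ∈ ES N a b, n • y = y) :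
    (∀ a b, X'.Adj a b → ∃ x : V, ∀ n ∈ ES N a b, n • x = x) ∧
      ∀ (x : V) (a b : V'), X'.Adj a b → Ess X' (MulAction.stabilizer N x) a b →
        ES N a b ≤ MulAction.stabilizer N x := by
  constructor
  · intro a b hab
    by_contra hc
    obtain ⟨c, d, hcd, hess⟩ := exists_ess D.ht.toTA (ht_fg D.ht' hab) hc
    have h1 := C1' N V' V X' X v' t' v t D.fi D.ht' D.ht a b c d hab hcd hess
    obtain ⟨y, hy⟩ := h c d hcd
    exact not_ess_of_fix hy h1
  · intro x a b hab hess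
    obtain ⟨w, hw0, hw⟩ := (ht_mc D.ht' hab).1
    have hne : MulAction.stabilizer N x ⊓ ES N a b ≠ ⊥ := by
      intro hbot
      obtain ⟨c, _, _, hc, _, hec, _⟩ := FS' N V V' X X' v t a b D.fi D.ht D.ht'.toTA hab x
        hess hbot
      obtain ⟨y, hy⟩ := h x c hc
      exact not_ess_of_fix hy hec
    obtain ⟨⟨s, hs⟩, hs1⟩ := Subgroup.ne_bot_iff_exists_ne_one.1 hne
    obtain ⟨hs2, hs3⟩ := Subgroup.mem_inf.1 hs
    have hs1' : s ≠ 1 := fun e => hs1 (Subtype.ext e)
    rw [hw, Subgroup.mem_zpowers_iff] at hs3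
    obtain ⟨m, hm⟩ := hs3
    rw [hw, Subgroup.zpowers_le]
    refine root_fix D.ht.toTA (fun _ _ h => ht_mc D.ht h) (n := m) ?_ ?_
    · rw [hm]
      exact hs1'
    · rw [hm]
      exact hs2

/-- DICHOTOMY -/
theorem ND.dich (D : ND N X X' v t v' t') : Hyp N X X' ∨ Ell N X X' := by
  by_cases hE : ∃ y : V', ∀ n ∈ ES N v (t • v), n • y = y
  · right
    have h1 : ∀ a b, X.Adj a b → ∃ y : V', ∀ n ∈ ES N a b, n • y = y :=
      fun a b h => fix_all D.ht D.ht.adj hE h
    obtain ⟨h2, h3⟩ := D.ell_aux h1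
    obtain ⟨_, h4⟩ := D.symm.ell_aux h2
    exact ⟨h1, h2, h3, h4⟩
  · left
    have h1 : ∀ a b, X.Adj a b → ¬ ∃ y : V', ∀ n ∈ ES N a b, n • y = y :=
      fun a b h hf => hE (fix_all D.ht h hf D.ht.adj)
    have h2 : ∀ a b, X'.Adj a b → ¬ ∃ x : V, ∀ n ∈ ES N a b, n • x = x := by
      intro a b hab hf
      have h3 : ∀ a b, X'.Adj a b → ∃ x : V, ∀ n ∈ ES N a b, n • x = x :=
        fun c d h => fix_all D.ht' hab hf h
      exact h1 _ _ D.ht.adj ((D.symm.ell_aux h3).1 _ _ D.ht.adj)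
    refine ⟨?_, ?_⟩
    · intro a b hab z hz y hy
      apply h1 a b hab
      rw [hz]
      exact ⟨y, zpowers_fix hy⟩
    · intro a b hab z hz y hy
      apply h2 a b hab
      rw [hz]
      exact ⟨y, zpowers_fix hy⟩

/-! ## The hyperbolic case -/

/-- edge groups meet the vertex groups of the other tree trivially -/
theorem ND.hyp_bot (D : ND N X X' v t v' t') (H : Hyp N X X') (x : V) {a b : V'}
    (hab : X'.Adj a b) : MulAction.stabilizer N x ⊓ ES N a b = ⊥ := by
  obtain ⟨w, hw0, hw⟩ := (ht_mc D.ht' hab).1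
  rw [eq_bot_iff]
  intro s hs
  obtain ⟨hs1, hs2⟩ := Subgroup.mem_inf.1 hs
  rw [Subgroup.mem_bot]
  refine conj_fix (g := 1) D.ht.toTA (H.h' a b hab w hw) ?_ hs1
  rw [one_mul, inv_one, mul_one, ← hw]
  exact hs2

/-- exactly two crossing edges -/
theorem ND.hyp_two (D : ND N X X' v t v' t') (H : Hyp N X X') (x : V) {a b : V'}
    (hab : X'.Adj a b) (hess : Ess X' (MulAction.stabilizer N x) a b) :
    ∃ c1 c2 : V, c1 ≠ c2 ∧ X.Adj x c1 ∧ X.Adj x c2 ∧ Ess X' (ES N x c1) a b ∧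
      Ess X' (ES N x c2) a b ∧ ∀ c, X.Adj x c → Ess X' (ES N x c) a b → c = c1 ∨ c = c2 := by
  have hbot := D.hyp_bot H x hab
  obtain ⟨c1, c2, hne, h1, h2, e1, e2⟩ := FS' N V V' X X' v t a b D.fi D.ht D.ht'.toTA hab x
    hess hbot
  refine ⟨c1, c2, hne, h1, h2, e1, e2, ?_⟩
  intro c hc hec
  rcases C2' N V V' X X' v t v' t' D.fi D.ht D.ht' x a b hab hbot c c1 c2 hc h1 h2 hec e1 e2 with
    h | h | h
  · exact Or.inl h
  · exact Or.inr h
  · exact absurd h hne

theorem ND.c1 (D : ND N X X' v t v' t') {a b : V} {c d : V'} (hab : X.Adj a b)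
    (hcd : X'.Adj c d) (h : Ess X' (ES N a b) c d) : Ess X (ES N c d) a b :=
  C1' N V V' X X' v t v' t' D.fi D.ht D.ht' a b c d hab hcd h

/-- symmetry of the core -/
theorem ND.core_symm (D : ND N X X' v t v' t') (H : Hyp N X X') {x : V} {y : V'}
    (h : EssV X' (MulAction.stabilizer N x) y) : EssV X (MulAction.stabilizer N y) x := by
  obtain ⟨y', hadj, hess⟩ := h
  obtain ⟨c, _, _, hc, _, hec, _, _⟩ := D.hyp_two H x hadj hess
  have h1 := D.c1 hc hadj hec
  refine ⟨c, hc, h1.mono ?_⟩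
  intro s hs
  exact (mem_ES.1 hs).1

/-- the intersection of the minimal trees of two adjacent vertices -/
theorem ND.ess_inter (D : ND N X X' v t v' t') (H : Hyp N X X') {x w : V} {a b : V'}
    (hxw : X.Adj x w) (hab : X'.Adj a b) (hx : Ess X' (MulAction.stabilizer N x) a b)
    (hw : Ess X' (MulAction.stabilizer N w) a b) : Ess X' (ES N x w) a b := by
  have key : ∀ {x : V}, Ess X' (MulAction.stabilizer N x) a b → EssV X (ES N a b) x := by
    intro x hx
    obtain ⟨c, _, _, hc, _, hec, _, _⟩ := D.hyp_two H x hab hx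
    exact ⟨c, hc, D.c1 hc hab hec⟩
  have h1 : Ess X (ES N a b) x w := by
    refine ess_conv D.ht.tree hxw (key hx) (key hw) left_not_mem_Hf (right_mem_Hf D.ht.tree hxw)
  exact D.symm.c1 hab hxw h1

/-- sections are not empty -/
theorem ND.core_ne (D : ND N X X' v t v' t') (H : Hyp N X X') {x w : V} (hxw : X.Adj x w) :
    ∃ a b, X'.Adj a b ∧ Ess X' (ES N x w) a b := by
  refine exists_ess D.ht'.toTA (ht_fg D.ht hxw) ?_
  rintro ⟨y, hy⟩
  obtain ⟨z, _, hz⟩ := (ht_mc D.ht hxw).1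
  refine H.h x w hxw z hz y (hy z ?_)
  rw [hz]
  exact Subgroup.mem_zpowers z

theorem ht_nbr (hX : HT N X v t) (x : V) : ∃ w, X.Adj x w := by
  by_contra hc
  push Not at hc
  have hne : x ≠ v := by
    rintro rfl
    exact hc _ hX.adj
  obtain ⟨c, h, _⟩ := first_edge hX.tree hne
  exact hc c h

end

end Pool.Agent.SuUp
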