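import Pool.Agent.Lib.MP_305fdd_al.Su.Up.FreeMal
import Pool.Agent.Lib.MP_305fdd_al.Su.Up.CosT
import Pool.Agent.Lib.MP_305fdd_al.Su.Up.Model
import Mathlib.GroupTheory.HNNExtension

/-!
# The standard HNN tree of a closed surface group (MP_305fdd_al, surface groups, block UP)

`SurfaceGroup (n + 1)` is the HNN extension with stable letter `b_0` of the free group on `a_0` and the
other generators.
-/

set_option autoImplicit false

namespace Pool.Agent.SuUp

open Pool.Agent.SuT Pool.Agent.Su

/-! ## A cocycle from an affine action -/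

section

variable {G : Type} [Group G]

/-- translation of functions -/
def Lf (g : G) : Equiv.Perm (G → ℤ) where
  toFun φ x := φ (g⁻¹ * x)
  invFun φ x := φ (g * x)
  left_inv φ := by
    funext x
    show φ (g⁻¹ * (g * x)) = φ x
    rw [inv_mul_cancel_left]
  right_inv φ := by
    funext x
    show φ (g * (g⁻¹ * x)) = φ x
    rw [mul_inv_cancel_left]

theorem Lf_apply (g : G) (φ : G → ℤ) (x : G) : Lf g φ x = φ (g⁻¹ * x) := rfl

/-- translation of functions as a homomorphism -/
def LF (G : Type) [Group G] : G →* Equiv.Perm (G → ℤ) where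
  toFun := Lf
  map_one' := by
    ext φ x
    rw [Lf_apply, inv_one, one_mul]
    rfl
  map_mul' a b := by
    ext φ x
    rw [Equiv.Perm.mul_apply, Lf_apply, Lf_apply, Lf_apply, mul_inv_rev, mul_assoc]

theorem LF_apply (g : G) (φ : G → ℤ) (x : G) : LF G g φ x = φ (g⁻¹ * x) := rfl

theorem LF_add (g : G) (φ ψ : G → ℤ) : LF G g (φ + ψ) = LF G g φ + LF G g ψ := rfl

theorem LF_zero (g : G) : LF G g 0 = 0 := rfl

/-- adding a function -/
def Ad (e : G → ℤ) : Equiv.Perm (G → ℤ) := Equiv.addRight e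

omit [Group G] in
theorem Ad_apply (e φ : G → ℤ) : Ad e φ = φ + e := rfl

theorem LF_Ad (g : G) (e : G → ℤ) : LF G g * Ad e = Ad (LF G g e) * LF G g := by
  ext φ x
  rw [Equiv.Perm.mul_apply, Equiv.Perm.mul_apply, Ad_apply, LF_add, Ad_apply]

/-- the relation -/
theorem aff_rel (a t : G) (e : G → ℤ) (he : LF G (t * a * t⁻¹) e = e) :
    LF G a * (Ad e * LF G t) * (LF G a)⁻¹ * (Ad e * LF G t)⁻¹ = LF G (a * t * a⁻¹ * t⁻¹) := by
  have h1 : LF G (t * a * t⁻¹) * Ad e = Ad e * LF G (t * a * t⁻¹) := by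
    rw [LF_Ad, he]
  have h2 : Ad e * (LF G (t * a * t⁻¹))⁻¹ = (LF G (t * a * t⁻¹))⁻¹ * Ad e := by
    rw [eq_inv_mul_iff_mul_eq, ← mul_assoc, h1, mul_inv_cancel_right]
  have h3 : LF G t * (LF G a)⁻¹ * (LF G t)⁻¹ = (LF G (t * a * t⁻¹))⁻¹ := by
    rw [map_mul, map_mul, map_inv]
    group
  calc LF G a * (Ad e * LF G t) * (LF G a)⁻¹ * (Ad e * LF G t)⁻¹
      = LF G a * (Ad e * (LF G t * (LF G a)⁻¹ * (LF G t)⁻¹)) * (Ad e)⁻¹ := by group
    _ = LF G a * (LF G (t * a * t⁻¹))⁻¹ := by rw [h3, h2]; group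
    _ = LF G (a * t * a⁻¹ * t⁻¹) := by
      rw [← map_inv, ← map_mul]
      congr 1
      group

end

/-! ## The free group -/

/-- the free group on `a_0` and the other generators -/
abbrev FA (n : ℕ) : Type := FreeGroup (Option (Fin n ⊕ Fin n))

/-- the product of the other commutators -/
def RR (n : ℕ) : FA n := FreeGroup.map some (surfRel n)

/-- the automorphism `x ↦ r x` -/
def tws (n : ℕ) (r : FA n) : FA n →* FA n :=
  FreeGroup.lift (fun o => Option.elim o (r * FreeGroup.of none) (fun k => FreeGroup.of (some k)))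

theorem tws_none (n : ℕ) (r : FA n) : tws n r (FreeGroup.of none) = r * FreeGroup.of none := by
  unfold tws
  rw [FreeGroup.lift_apply_of]
  rfl

theorem tws_some (n : ℕ) (r : FA n) (k : Fin n ⊕ Fin n) :
    tws n r (FreeGroup.of (some k)) = FreeGroup.of (some k) := by
  unfold tws
  rw [FreeGroup.lift_apply_of]
  rfl

theorem tws_map (n : ℕ) (r : FA n) (u : FreeGroup (Fin n ⊕ Fin n)) :
    tws n r (FreeGroup.map some u) = FreeGroup.map some u := by
  have h : (tws n r).comp (FreeGroup.map some) = FreeGroup.map some := by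
    ext k
    rw [MonoidHom.comp_apply, FreeGroup.map.of, tws_some]
  exact DFunLike.congr_fun h u

theorem tws_tws (n : ℕ) : (tws n (RR n)⁻¹).comp (tws n (RR n)) = MonoidHom.id _ := by
  ext o
  rcases o with _ | k
  · rw [MonoidHom.comp_apply, tws_none, map_mul, tws_none, RR, tws_map, mul_inv_cancel_left]
    rfl
  · rw [MonoidHom.comp_apply, tws_some, tws_some]
    rfl

theorem tws_tws' (n : ℕ) : (tws n (RR n)).comp (tws n (RR n)⁻¹) = MonoidHom.id _ := by
  ext o
  rcases o with _ | k
  · rw [MonoidHom.comp_apply, tws_none, map_mul, tws_none, map_inv]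
    have : tws n (RR n) (RR n) = RR n := tws_map n _ _
    rw [this, inv_mul_cancel_left]
    rfl
  · rw [MonoidHom.comp_apply, tws_some, tws_some]
    rfl

/-- the automorphism `x ↦ R x` -/
def sig (n : ℕ) : FA n ≃* FA n :=
  MonoidHom.toMulEquiv (tws n (RR n)) (tws n (RR n)⁻¹) (tws_tws n) (tws_tws' n)

theorem sig_none (n : ℕ) : sig n (FreeGroup.of none) = RR n * FreeGroup.of none := tws_none n _

theorem RR_ne (n : ℕ) : RR (n + 1) ≠ 1 := by
  intro h
  let f : Option (Fin (n + 1) ⊕ Fin (n + 1)) → Equiv.Perm (Fin 3) := fun o =>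
    match o with
    | none => 1
    | some (Sum.inl i) => if i = 0 then Equiv.swap 0 1 else 1
    | some (Sum.inr i) => if i = 0 then Equiv.swap 1 2 else 1
  have h1 := congrArg (FreeGroup.lift f) h
  have h2 : (FreeGroup.lift f).comp (FreeGroup.map some) = FreeGroup.lift (f ∘ some) := by
    ext k
    rw [MonoidHom.comp_apply, FreeGroup.map.of, FreeGroup.lift_apply_of, FreeGroup.lift_apply_of]
    rfl
  have h3 : FreeGroup.lift f (RR (n + 1)) = FreeGroup.lift (f ∘ some) (surfRel (n + 1)) :=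
    DFunLike.congr_fun h2 _
  rw [h3, lift_surfRel, map_one, List.ofFn_succ, List.prod_cons] at h1
  have h4 : (List.ofFn fun i : Fin n => (f ∘ some) (Sum.inl i.succ) * (f ∘ some) (Sum.inr i.succ) *
      ((f ∘ some) (Sum.inl i.succ))⁻¹ * ((f ∘ some) (Sum.inr i.succ))⁻¹).prod = 1 := by
    apply List.prod_eq_one
    intro x hx
    rw [List.mem_ofFn] at hx
    obtain ⟨i, rfl⟩ := hx
    have e1 : (f ∘ some) (Sum.inl i.succ) = 1 := by
      show (if i.succ = 0 then Equiv.swap 0 1 else 1) = _
      rw [if_neg (Fin.succ_ne_zero i)]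
    have e2 : (f ∘ some) (Sum.inr i.succ) = 1 := by
      show (if i.succ = 0 then Equiv.swap 1 2 else 1) = _
      rw [if_neg (Fin.succ_ne_zero i)]
    simp only [e1, e2]
    simp
  rw [h4, mul_one] at h1
  have e1 : (f ∘ some) (Sum.inl 0) = Equiv.swap 0 1 := by
    show (if (0 : Fin (n + 1)) = 0 then Equiv.swap 0 1 else 1) = _
    rw [if_pos rfl]
  have e2 : (f ∘ some) (Sum.inr 0) = Equiv.swap 1 2 := by
    show (if (0 : Fin (n + 1)) = 0 then Equiv.swap 1 2 else 1) = _
    rw [if_pos rfl]
  rw [e1, e2] at h1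
  revert h1
  decide

/-! ## The embedding of the free group -/

/-- the embedding -/
def io (n : ℕ) : FA n →* SurfaceGroup (n + 1) :=
  FreeGroup.lift (fun o => Option.elim o (sa (n + 1) 0)
    (Sum.elim (fun i => sa (n + 1) i.succ) (fun i => sb (n + 1) i.succ)))

theorem io_none (n : ℕ) : io n (FreeGroup.of none) = sa (n + 1) 0 := by
  unfold io
  rw [FreeGroup.lift_apply_of]
  rfl

theorem io_inl (n : ℕ) (i : Fin n) : io n (FreeGroup.of (some (Sum.inl i))) = sa (n + 1) i.succ := by
  unfold io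
  rw [FreeGroup.lift_apply_of]
  rfl

theorem io_inr (n : ℕ) (i : Fin n) : io n (FreeGroup.of (some (Sum.inr i))) = sb (n + 1) i.succ := by
  unfold io
  rw [FreeGroup.lift_apply_of]
  rfl

theorem comp_RR {n : ℕ} {Q : Type} [Group Q] (f : FA n →* Q) :
    f (RR n) = (List.ofFn fun i : Fin n => f (FreeGroup.of (some (Sum.inl i))) *
      f (FreeGroup.of (some (Sum.inr i))) * (f (FreeGroup.of (some (Sum.inl i))))⁻¹ *
        (f (FreeGroup.of (some (Sum.inr i))))⁻¹).prod := by
  have h2 : f.comp (FreeGroup.map some) =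
      FreeGroup.lift (fun k => f (FreeGroup.of (some k))) := by
    ext k
    rw [MonoidHom.comp_apply, FreeGroup.map.of, FreeGroup.lift_apply_of]
  have h3 : f (RR n) = FreeGroup.lift (fun k => f (FreeGroup.of (some k))) (surfRel n) :=
    DFunLike.congr_fun h2 _
  rw [h3, lift_surfRel]

/-- the relation -/
theorem sb_conj (n : ℕ) : sb (n + 1) 0 * sa (n + 1) 0 * (sb (n + 1) 0)⁻¹ =
    io n (RR n * FreeGroup.of none) := by
  have h1 := surf_rel (n + 1)
  rw [List.ofFn_succ, List.prod_cons] at h1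
  have h2 : (List.ofFn fun i : Fin n => sa (n + 1) i.succ * sb (n + 1) i.succ *
      (sa (n + 1) i.succ)⁻¹ * (sb (n + 1) i.succ)⁻¹).prod = io n (RR n) := by
    rw [comp_RR]
    simp only [io_inl, io_inr]
  rw [h2] at h1
  rw [map_mul, io_none]
  have h3 : io n (RR n) = (sa (n + 1) 0 * sb (n + 1) 0 * (sa (n + 1) 0)⁻¹ * (sb (n + 1) 0)⁻¹)⁻¹ :=
    (inv_eq_of_mul_eq_one_right h1).symm
  rw [h3]
  group

/-- the HNN extension -/
abbrev HN (n : ℕ) : Type :=
  HNNExtension (FA n) (Subgroup.zpowers (FreeGroup.of none))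
    ((Subgroup.zpowers (FreeGroup.of none)).map (sig n : FA n →* FA n))
    ((sig n).subgroupMap (Subgroup.zpowers (FreeGroup.of none)))

theorem hn_rel (n : ℕ) : (HNNExtension.t : HN n) * HNNExtension.of (FreeGroup.of none) =
    HNNExtension.of (RR n * FreeGroup.of none) * HNNExtension.t := by
  have h := HNNExtension.t_mul_of (φ := (sig n).subgroupMap (Subgroup.zpowers (FreeGroup.of none)))
    ⟨FreeGroup.of none, Subgroup.mem_zpowers _⟩
  rw [MulEquiv.coe_subgroupMap_apply] at h
  rw [← sig_none]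
  exact h

theorem io_injective (n : ℕ) : Function.Injective (io n) := by
  let a : Fin (n + 1) → HN n := Fin.cons (HNNExtension.of (FreeGroup.of none))
    (fun i => HNNExtension.of (FreeGroup.of (some (Sum.inl i))))
  let b : Fin (n + 1) → HN n := Fin.cons HNNExtension.t
    (fun i => HNNExtension.of (FreeGroup.of (some (Sum.inr i))))
  have hrel : (List.ofFn fun i : Fin (n + 1) => a i * b i * (a i)⁻¹ * (b i)⁻¹).prod = 1 := by
    rw [List.ofFn_succ, List.prod_cons]
    have h1 : (List.ofFn fun i : Fin n => a i.succ * b i.succ * (a i.succ)⁻¹ *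
        (b i.succ)⁻¹).prod = HNNExtension.of (RR n) := by
      rw [comp_RR]
      rfl
    rw [h1]
    show HNNExtension.of (FreeGroup.of none) * HNNExtension.t *
      (HNNExtension.of (FreeGroup.of none))⁻¹ * (HNNExtension.t)⁻¹ * HNNExtension.of (RR n) = 1
    have h2 := hn_rel n
    rw [map_mul] at h2
    have h3 : (HNNExtension.of (RR n) : HN n) = HNNExtension.t *
        HNNExtension.of (FreeGroup.of none) * (HNNExtension.t)⁻¹ *
          (HNNExtension.of (FreeGroup.of none))⁻¹ := by
      rw [h2]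
      group
    rw [h3]
    group
  let Θ : SurfaceGroup (n + 1) →* HN n := surfLift a b hrel
  have hΘ : Θ.comp (io n) = HNNExtension.of := by
    ext o
    rcases o with _ | (i | i)
    · rw [MonoidHom.comp_apply, io_none]
      exact surfLift_sa a b hrel 0
    · rw [MonoidHom.comp_apply, io_inl]
      exact surfLift_sa a b hrel i.succ
    · rw [MonoidHom.comp_apply, io_inr]
      exact surfLift_sb a b hrel i.succ
  intro x y hxy
  refine HNNExtension.of_injective (φ := (sig n).subgroupMap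
    (Subgroup.zpowers (FreeGroup.of none))) ?_
  have h1 := congrArg Θ hxy
  have h2 : ∀ z, Θ (io n z) = HNNExtension.of z := fun z => DFunLike.congr_fun hΘ z
  rwa [h2, h2] at h1

end Pool.Agent.SuUp
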