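import Pool.Agent.Lib.MP_305fdd_al.Su.Up.STree

/-!
# The standard HNN tree of a closed surface group, part 2 (MP_305fdd_al, surface groups, block UP)
-/

set_option autoImplicit false

namespace Pool.Agent.SuUp

open Pool.Agent.SuT Pool.Agent.Su

/-- the edge group -/
def CE (n : ℕ) : Subgroup (SurfaceGroup (n + 1)) :=
  Subgroup.zpowers (io n (RR n * FreeGroup.of none))

open Classical in
/-- the indicator function of the edge group -/
noncomputable def eE (n : ℕ) : SurfaceGroup (n + 1) → ℤ := fun x => if x ∈ CE n then 1 else 0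

theorem LF_eE (n : ℕ) : LF (SurfaceGroup (n + 1))
    (sb (n + 1) 0 * sa (n + 1) 0 * (sb (n + 1) 0)⁻¹) (eE n) = eE n := by
  classical
  rw [sb_conj]
  funext x
  rw [LF_apply]
  unfold eE
  have : (io n (RR n * FreeGroup.of none))⁻¹ * x ∈ CE n ↔ x ∈ CE n :=
    (CE n).mul_mem_cancel_left ((CE n).inv_mem (Subgroup.mem_zpowers _))
  by_cases h : x ∈ CE n
  · rw [if_pos h, if_pos (this.2 h)]
  · rw [if_neg h, if_neg (fun h' => h (this.1 h'))]

/-- the affine action -/
theorem exists_TT (n : ℕ) : ∃ T : SurfaceGroup (n + 1) →* Equiv.Perm (SurfaceGroup (n + 1) → ℤ),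
    (∀ i, T (sa (n + 1) i) = LF _ (sa (n + 1) i)) ∧
    T (sb (n + 1) 0) = Ad (eE n) * LF _ (sb (n + 1) 0) ∧
    ∀ i : Fin n, T (sb (n + 1) i.succ) = LF _ (sb (n + 1) i.succ) := by
  let a : Fin (n + 1) → Equiv.Perm (SurfaceGroup (n + 1) → ℤ) :=
    fun i => LF _ (sa (n + 1) i)
  let b : Fin (n + 1) → Equiv.Perm (SurfaceGroup (n + 1) → ℤ) :=
    Fin.cons (Ad (eE n) * LF _ (sb (n + 1) 0)) (fun i => LF _ (sb (n + 1) i.succ))
  have hrel : (List.ofFn fun i : Fin (n + 1) => a i * b i * (a i)⁻¹ * (b i)⁻¹).prod = 1 := by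
    have h0 := congrArg (LF (SurfaceGroup (n + 1))) (surf_rel (n + 1))
    rw [Su.map_rel, map_one, List.ofFn_succ, List.prod_cons] at h0
    rw [List.ofFn_succ, List.prod_cons]
    have h1 : a 0 * b 0 * (a 0)⁻¹ * (b 0)⁻¹ = LF (SurfaceGroup (n + 1))
        (sa (n + 1) 0 * sb (n + 1) 0 * (sa (n + 1) 0)⁻¹ * (sb (n + 1) 0)⁻¹) :=
      aff_rel _ _ _ (LF_eE n)
    rw [h1]
    rw [← map_mul, ← map_inv, ← map_mul, ← map_inv, ← map_mul] at h0
    exact h0
  refine ⟨surfLift a b hrel, ?_, ?_, ?_⟩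
  · intro i
    rw [surfLift_sa]
  · rw [surfLift_sb]
    rfl
  · intro i
    rw [surfLift_sb]
    rfl

/-- the vertex group -/
def AE (n : ℕ) : Subgroup (SurfaceGroup (n + 1)) := (io n).range

theorem sa_mem (n : ℕ) (i : Fin (n + 1)) : sa (n + 1) i ∈ AE n := by
  rcases Fin.eq_zero_or_eq_succ i with rfl | ⟨j, rfl⟩
  · exact ⟨_, io_none n⟩
  · exact ⟨_, io_inl n j⟩

theorem sb_mem (n : ℕ) (i : Fin n) : sb (n + 1) i.succ ∈ AE n := ⟨_, io_inr n i⟩

theorem exists_coc (n : ℕ) : ∃ D : SurfaceGroup (n + 1) → SurfaceGroup (n + 1) → ℤ,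
    Coc (AE n) (CE n) (sb (n + 1) 0) D := by
  classical
  obtain ⟨T, h1, h2, h3⟩ := exists_TT n
  have aff : ∀ g, ∀ φ, T g φ = LF _ g φ + T g 0 := by
    intro g
    induction g using surf_induction with
    | h1 =>
      intro φ
      rw [map_one, map_one]
      show φ = φ + 0
      rw [add_zero]
    | ha i =>
      intro φ
      rw [h1, LF_zero, add_zero]
    | hb i =>
      intro φ
      rcases Fin.eq_zero_or_eq_succ i with rfl | ⟨j, rfl⟩
      · rw [h2, Equiv.Perm.mul_apply, Equiv.Perm.mul_apply, Ad_apply, Ad_apply, LF_zero, zero_add]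
      · rw [h3, LF_zero, add_zero]
    | hm x y hx hy =>
      intro φ
      rw [map_mul, map_mul, Equiv.Perm.mul_apply, Equiv.Perm.mul_apply, Equiv.Perm.mul_apply,
        hy φ, hx, LF_add, hx (T y 0), add_assoc]
    | hi x hx =>
      intro φ
      have key : ∀ ψ, T x⁻¹ ψ = LF _ x⁻¹ (ψ - T x 0) := by
        intro ψ
        rw [map_inv, Equiv.Perm.inv_eq_iff_eq, hx]
        rw [← Equiv.Perm.mul_apply, ← map_mul, mul_inv_cancel, map_one]
        show ψ = ψ - T x 0 + T x 0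
        rw [sub_add_cancel]
      rw [key, key, ← LF_add]
      congr 1
      rw [zero_sub, sub_eq_add_neg]
  refine ⟨fun g => T g 0, ?_, ?_, ?_, ?_, ?_⟩
  · unfold CE AE
    rw [Subgroup.zpowers_le]
    exact ⟨_, rfl⟩
  · intro c hc
    obtain ⟨k, rfl⟩ := Subgroup.mem_zpowers_iff.1 hc
    rw [← sb_conj]
    have : (sb (n + 1) 0)⁻¹ * (sb (n + 1) 0 * sa (n + 1) 0 * (sb (n + 1) 0)⁻¹) ^ k *
        sb (n + 1) 0 = sa (n + 1) 0 ^ k := by
      rw [conj_zpow]
      group
    rw [this]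
    exact (AE n).zpow_mem (sa_mem n 0) k
  · intro K hK ht
    refine surf_gen K (fun i => hK (sa_mem n i)) ?_
    intro i
    rcases Fin.eq_zero_or_eq_succ i with rfl | ⟨j, rfl⟩
    · exact ht
    · exact hK (sb_mem n j)
  · rintro g _ ⟨w, rfl⟩
    have hw : T (io n w) 0 = 0 := by
      have : T.comp (io n) = (LF _).comp (io n) := by
        ext o : 1
        rcases o with _ | (i | i)
        · rw [MonoidHom.comp_apply, MonoidHom.comp_apply, io_none, h1]
        · rw [MonoidHom.comp_apply, MonoidHom.comp_apply, io_inl, h1]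
        · rw [MonoidHom.comp_apply, MonoidHom.comp_apply, io_inr, h3]
      have h4 : T (io n w) = LF _ (io n w) := DFunLike.congr_fun this w
      rw [h4, LF_zero]
    show T (g * io n w) 0 = T g 0
    rw [map_mul, Equiv.Perm.mul_apply, hw]
  · intro g x
    show T (g * sb (n + 1) 0) 0 x = T g 0 x + _
    rw [map_mul, Equiv.Perm.mul_apply, h2, Equiv.Perm.mul_apply, LF_zero, Ad_apply, zero_add, aff,
      Pi.add_apply, LF_apply, add_comm]
    rfl

theorem AE_fg (n : ℕ) : (AE n).FG := by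
  rw [Subgroup.fg_iff]
  refine ⟨io n '' Set.range FreeGroup.of, ?_, (Set.finite_range _).image _⟩
  rw [← MonoidHom.map_closure, FreeGroup.closure_range_of, ← MonoidHom.range_eq_map]
  rfl

theorem AE_ncyc (n : ℕ) : NCyc (AE (n + 1)) := by
  rintro ⟨z, hz⟩
  have hcomm : ∀ x ∈ AE (n + 1), ∀ y ∈ AE (n + 1), x * y = y * x := by
    intro x hx y hy
    rw [hz] at hx hy
    obtain ⟨a, rfl⟩ := Subgroup.mem_zpowers_iff.1 hx
    obtain ⟨b, rfl⟩ := Subgroup.mem_zpowers_iff.1 hy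
    rw [← zpow_add, ← zpow_add, add_comm a b]
  have h1 : RR (n + 1) = 1 := by
    apply io_injective
    rw [map_one, comp_RR]
    apply List.prod_eq_one
    intro x hx
    rw [List.mem_ofFn] at hx
    obtain ⟨i, rfl⟩ := hx
    rw [hcomm _ ⟨_, rfl⟩ (io (n + 1) (FreeGroup.of (some (Sum.inr i)))) ⟨_, rfl⟩,
      mul_inv_cancel_right, mul_inv_cancel]
  exact RR_ne n h1

theorem mc_sig (n : ℕ) : MC (Subgroup.zpowers (RR n * FreeGroup.of none)) := by
  have h := mc_comap (sig n).symm (free_mc (none : Option (Fin n ⊕ Fin n)))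
  have h1 : (Subgroup.zpowers (FreeGroup.of none)).comap (sig n).symm.toMonoidHom =
      Subgroup.zpowers (RR n * FreeGroup.of none) := by
    ext w
    rw [Subgroup.mem_comap, Subgroup.mem_zpowers_iff, Subgroup.mem_zpowers_iff]
    constructor
    · rintro ⟨k, hk⟩
      refine ⟨k, ?_⟩
      rw [← sig_none, ← map_zpow, hk]
      exact (sig n).apply_symm_apply w
    · rintro ⟨k, hk⟩
      refine ⟨k, ?_⟩
      rw [← hk, ← sig_none, ← map_zpow]
      exact ((sig n).symm_apply_apply _).symm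
  rwa [h1] at h

theorem CE_mal (n : ℕ) : ∀ a ∈ CE (n + 1), a ≠ 1 → ∀ g : SurfaceGroup (n + 1 + 1),
    g * a * g⁻¹ ∈ CE (n + 1) → g ∈ CE (n + 1) := by
  obtain ⟨D, hD⟩ := exists_coc (n + 1)
  -- membership in the edge groups in terms of the free group
  have hC : ∀ w : FA (n + 1), io (n + 1) w ∈ CE (n + 1) ↔
      w ∈ Subgroup.zpowers (RR (n + 1) * FreeGroup.of none) := by
    intro w
    unfold CE
    rw [Subgroup.mem_zpowers_iff, Subgroup.mem_zpowers_iff]
    constructor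
    · rintro ⟨k, hk⟩
      exact ⟨k, io_injective _ (by rw [map_zpow, hk])⟩
    · rintro ⟨k, hk⟩
      exact ⟨k, by rw [← map_zpow, hk]⟩
  have hC' : ∀ s, sb (n + 1 + 1) 0 * s * (sb (n + 1 + 1) 0)⁻¹ ∈ CE (n + 1) ↔
      s ∈ Subgroup.zpowers (sa (n + 1 + 1) 0) := by
    intro s
    unfold CE
    rw [← sb_conj, Subgroup.mem_zpowers_iff, Subgroup.mem_zpowers_iff]
    constructor
    · rintro ⟨k, hk⟩
      refine ⟨k, ?_⟩
      rw [conj_zpow] at hk
      exact mul_left_cancel (mul_right_cancel hk)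
    · rintro ⟨k, hk⟩
      refine ⟨k, ?_⟩
      rw [conj_zpow, hk]
  have hC'' : ∀ w : FA (n + 1), io (n + 1) w ∈ Subgroup.zpowers (sa (n + 1 + 1) 0) ↔
      w ∈ Subgroup.zpowers (FreeGroup.of none) := by
    intro w
    rw [← io_none, Subgroup.mem_zpowers_iff, Subgroup.mem_zpowers_iff]
    constructor
    · rintro ⟨k, hk⟩
      exact ⟨k, io_injective _ (by rw [map_zpow, hk])⟩
    · rintro ⟨k, hk⟩
      exact ⟨k, by rw [← map_zpow, hk]⟩
  refine hD.mal ?_ ?_ ?_
  · rintro _ ⟨w, rfl⟩ s hs hs1 h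
    obtain ⟨u, rfl⟩ := hD.le hs
    rw [← map_inv, ← map_mul, ← map_mul, hC] at h
    rw [hC] at hs ⊢
    have h2 := (mc_sig (n + 1)).2 u hs (fun e => hs1 (by rw [e, map_one])) w⁻¹ (by rwa [inv_inv])
    exact inv_mem_iff.1 h2
  · rintro _ ⟨w, rfl⟩ s hs hs1 h
    obtain ⟨u, rfl⟩ := hD.le hs
    rw [hC'] at h
    rw [← map_inv, ← map_mul, ← map_mul, hC''] at h
    rw [hC] at hs
    obtain ⟨k, rfl⟩ := Subgroup.mem_zpowers_iff.1 hs
    obtain ⟨m, hm⟩ := Subgroup.mem_zpowers_iff.1 h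
    -- kill `x`
    let f : FA (n + 1) →* FA (n + 1) :=
      FreeGroup.lift (fun o => Option.elim o 1 (fun k => FreeGroup.of (some k)))
    have f1 : f (FreeGroup.of none) = 1 := by
      show FreeGroup.lift _ _ = _
      rw [FreeGroup.lift_apply_of]
      rfl
    have f2 : f (RR (n + 1)) = RR (n + 1) := by
      have h3 : f.comp (FreeGroup.map some) = FreeGroup.map some := by
        ext k
        rw [MonoidHom.comp_apply, FreeGroup.map.of]
        show FreeGroup.lift _ _ = _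
        rw [FreeGroup.lift_apply_of]
        rfl
      exact DFunLike.congr_fun h3 _
    have h4 := congrArg f hm
    rw [map_zpow, f1, one_zpow, map_mul, map_mul, map_inv, map_zpow, map_mul, f1, f2, mul_one] at h4
    have h5 : RR (n + 1) ^ k = 1 := by
      have : RR (n + 1) ^ k = f w * ((f w)⁻¹ * RR (n + 1) ^ k * f w) * (f w)⁻¹ := by group
      rw [this, ← h4, mul_one, mul_inv_cancel]
    have h6 : k = 0 := by
      by_contra hk
      apply RR_ne n
      have h7 : RR (n + 1) ^ k.natAbs = 1 := by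
        rcases Int.natAbs_eq k with h | h
        · rw [h, zpow_natCast] at h5
          exact h5
        · rw [h, zpow_neg, inv_eq_one, zpow_natCast] at h5
          exact h5
      exact free_tf (Int.natAbs_pos.2 hk) h7
    apply hs1
    rw [h6, zpow_zero, map_one]
  · rintro _ ⟨w, rfl⟩ s hs hs1 h
    rw [hC'] at hs h ⊢
    have hsA : s ∈ AE (n + 1) := by
      have : Subgroup.zpowers (sa (n + 1 + 1) 0) ≤ AE (n + 1) := by
        rw [Subgroup.zpowers_le]
        exact sa_mem _ _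
      exact this hs
    obtain ⟨u, rfl⟩ := hsA
    rw [← map_inv, ← map_mul, ← map_mul, hC''] at h
    rw [hC''] at hs ⊢
    have h2 := (free_mc (none : Option (Fin (n + 1) ⊕ Fin (n + 1)))).2 u hs
      (fun e => hs1 (by rw [e, map_one])) w⁻¹ (by rwa [inv_inv])
    exact inv_mem_iff.1 h2

/-- **the standard HNN tree of a surface group of genus at least two** -/
theorem surf_ht (n : ℕ) : ∃ (V : Type) (_ : MulAction (SurfaceGroup (n + 2)) V)
    (X : SimpleGraph V) (v : V), HT (SurfaceGroup (n + 2)) X v (sb (n + 2) 0) ∧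
    (MulAction.stabilizer (SurfaceGroup (n + 2)) v).FG ∧
    NCyc (MulAction.stabilizer (SurfaceGroup (n + 2)) v) ∧
    MulAction.stabilizer (SurfaceGroup (n + 2)) v = AE (n + 1) ∧
    ES (SurfaceGroup (n + 2)) v (sb (n + 2) 0 • v) = CE (n + 1) := by
  obtain ⟨D, hD⟩ := exists_coc (n + 1)
  refine ⟨SurfaceGroup (n + 2) ⧸ AE (n + 1), inferInstance, CosG (AE (n + 1)) (sb (n + 2) 0) hD.t_not,
    ((1 : SurfaceGroup (n + 2)) : SurfaceGroup (n + 2) ⧸ AE (n + 1)), ⟨hD.ta, hD.adj, hD.one, ?_⟩,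
    ?_, ?_, stab_one, hD.es⟩
  · rw [hD.es]
    refine ⟨⟨io (n + 1) (RR (n + 1) * FreeGroup.of none), ?_, rfl⟩, CE_mal n⟩
    intro k hk h
    obtain ⟨⟨z, h1, h2⟩, _⟩ := mc_sig (n + 1)
    rw [← map_pow] at h
    have h3 : (RR (n + 1) * FreeGroup.of none) ^ k = 1 := io_injective _ (by rw [h, map_one])
    have h4 : z ∈ Subgroup.zpowers (RR (n + 1) * FreeGroup.of none) := by
      rw [h2]
      exact Subgroup.mem_zpowers z
    obtain ⟨m, hm⟩ := Subgroup.mem_zpowers_iff.1 h4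
    apply h1 k hk
    rw [← hm, ← zpow_natCast, ← zpow_mul, mul_comm, zpow_mul, zpow_natCast, h3, one_zpow]
  · rw [stab_one]
    exact AE_fg _
  · rw [stab_one]
    exact AE_ncyc _

end Pool.Agent.SuUp
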