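import Pool.Agent.Lib.MP_305fdd_al.Su.Up.STree2

/-!
# GOING UP from a surface group (MP_305fdd_al, surface groups, block UP)

If the torsion free group `G` has a subgroup `N` of index two which is a surface group of genus at
least two, and if `G` has a nonzero homomorphism to `ℤ`, then `G` acts on a tree with an essential edge
with infinite cyclic stabiliser.
-/

set_option autoImplicit false

namespace Pool.Agent.SuUp

open Pool.Agent.SuT Pool.Agent.Su

/-! ## Characters -/

theorem comm_rel {g : ℕ} {Q : Type} [CommGroup Q] (a b : Fin g → Q) :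
    (List.ofFn fun i : Fin g => a i * b i * (a i)⁻¹ * (b i)⁻¹).prod = 1 := by
  apply List.prod_eq_one
  intro x hx
  rw [List.mem_ofFn] at hx
  obtain ⟨i, rfl⟩ := hx
  rw [mul_comm (a i) (b i), mul_inv_cancel_right, mul_inv_cancel]

/-- the exponent of `a_i` -/
noncomputable def ca (g : ℕ) (i : Fin g) : SurfaceGroup g →* Multiplicative ℤ :=
  surfLift (fun j => if j = i then Multiplicative.ofAdd 1 else 1) (fun _ => 1) (comm_rel _ _)

/-- the exponent of `b_i` -/
noncomputable def cb (g : ℕ) (i : Fin g) : SurfaceGroup g →* Multiplicative ℤ :=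
  surfLift (fun _ => 1) (fun j => if j = i then Multiplicative.ofAdd 1 else 1) (comm_rel _ _)

theorem ca_sa (g : ℕ) (i j : Fin g) :
    ca g i (sa g j) = if j = i then Multiplicative.ofAdd 1 else 1 := by
  unfold ca
  rw [surfLift_sa]

theorem ca_sb (g : ℕ) (i j : Fin g) : ca g i (sb g j) = 1 := by
  unfold ca
  rw [surfLift_sb]

theorem cb_sa (g : ℕ) (i j : Fin g) : cb g i (sa g j) = 1 := by
  unfold cb
  rw [surfLift_sa]

theorem cb_sb (g : ℕ) (i j : Fin g) :
    cb g i (sb g j) = if j = i then Multiplicative.ofAdd 1 else 1 := by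
  unfold cb
  rw [surfLift_sb]

/-- every character is a combination of the exponents -/
theorem char_eq {g : ℕ} (χ : SurfaceGroup g →* Multiplicative ℤ) (m : SurfaceGroup g) :
    Multiplicative.toAdd (χ m) =
      ∑ i, Multiplicative.toAdd (χ (sa g i)) * Multiplicative.toAdd (ca g i m) +
        ∑ i, Multiplicative.toAdd (χ (sb g i)) * Multiplicative.toAdd (cb g i m) := by
  induction m using surf_induction with
  | h1 => simp
  | ha j =>
    simp only [ca_sa, cb_sa]
    rw [Finset.sum_eq_single j]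
    · simp
    · intro b _ hb
      rw [if_neg (Ne.symm hb)]
      simp
    · simp
  | hb j =>
    simp only [ca_sb, cb_sb]
    rw [Finset.sum_eq_single j (f := fun i => Multiplicative.toAdd (χ (sb g i)) *
      Multiplicative.toAdd (if j = i then Multiplicative.ofAdd (1 : ℤ) else 1))]
    · simp
    · intro b _ hb
      rw [if_neg (Ne.symm hb)]
      simp
    · simp
  | hm x y hx hy =>
    simp only [map_mul, toAdd_mul, mul_add, Finset.sum_add_distrib]
    rw [hx, hy]
    ring
  | hi x hx =>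
    simp only [map_inv, toAdd_inv, mul_neg, Finset.sum_neg_distrib]
    rw [hx]
    ring

/-! ## Automorphisms -/

theorem rot_prod {n : ℕ} {Q : Type} [Group Q] (f : Fin (n + 1) → Q) :
    (List.ofFn fun i : Fin (n + 1) => f (i + 1)).prod = 1 ↔ (List.ofFn f).prod = 1 := by
  rw [List.ofFn_succ', List.ofFn_succ, List.concat_eq_append, List.prod_append, List.prod_cons,
    List.prod_cons, List.prod_nil, mul_one, Fin.last_add_one]
  have h : (fun i : Fin n => f (i.castSucc + 1)) = fun i : Fin n => f i.succ := by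
    funext i
    rw [Fin.coeSucc_eq_succ]
  rw [h]
  constructor
  · intro h1
    rw [mul_eq_one_iff_eq_inv] at h1
    rw [h1, mul_inv_cancel]
  · intro h1
    rw [mul_eq_one_iff_eq_inv] at h1
    rw [h1, mul_inv_cancel]

/-- rotation -/
def rot (n : ℕ) : SurfaceGroup (n + 1) →* SurfaceGroup (n + 1) :=
  surfLift (fun i => sa (n + 1) (i + 1)) (fun i => sb (n + 1) (i + 1))
    ((rot_prod (fun i => sa (n + 1) i * sb (n + 1) i * (sa (n + 1) i)⁻¹ * (sb (n + 1) i)⁻¹)).2
      (surf_rel (n + 1)))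

/-- rotation -/
def rot' (n : ℕ) : SurfaceGroup (n + 1) →* SurfaceGroup (n + 1) :=
  surfLift (fun i => sa (n + 1) (i - 1)) (fun i => sb (n + 1) (i - 1))
    ((rot_prod (fun i => sa (n + 1) (i - 1) * sb (n + 1) (i - 1) * (sa (n + 1) (i - 1))⁻¹ *
      (sb (n + 1) (i - 1))⁻¹)).1 (by
        simp only [add_sub_cancel_right]
        exact surf_rel (n + 1)))

theorem rot_sa (n : ℕ) (i : Fin (n + 1)) : rot n (sa (n + 1) i) = sa (n + 1) (i + 1) :=
  surfLift_sa _ _ _ i

theorem rot_sb (n : ℕ) (i : Fin (n + 1)) : rot n (sb (n + 1) i) = sb (n + 1) (i + 1) :=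
  surfLift_sb _ _ _ i

theorem rot'_sa (n : ℕ) (i : Fin (n + 1)) : rot' n (sa (n + 1) i) = sa (n + 1) (i - 1) :=
  surfLift_sa _ _ _ i

theorem rot'_sb (n : ℕ) (i : Fin (n + 1)) : rot' n (sb (n + 1) i) = sb (n + 1) (i - 1) :=
  surfLift_sb _ _ _ i

/-- the inverse rotation as an automorphism -/
def rotE (n : ℕ) : SurfaceGroup (n + 1) ≃* SurfaceGroup (n + 1) :=
  MonoidHom.toMulEquiv (rot' n) (rot n)
    (surf_ext (fun i => by
      rw [MonoidHom.comp_apply, rot'_sa, rot_sa, sub_add_cancel]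
      rfl) (fun i => by
      rw [MonoidHom.comp_apply, rot'_sb, rot_sb, sub_add_cancel]
      rfl))
    (surf_ext (fun i => by
      rw [MonoidHom.comp_apply, rot_sa, rot'_sa, add_sub_cancel_right]
      rfl) (fun i => by
      rw [MonoidHom.comp_apply, rot_sb, rot'_sb, add_sub_cancel_right]
      rfl))

theorem rotE_sa (n : ℕ) (i : Fin (n + 1)) : rotE n (sa (n + 1) i) = sa (n + 1) (i - 1) :=
  rot'_sa n i

theorem rotE_sb (n : ℕ) (i : Fin (n + 1)) : rotE n (sb (n + 1) i) = sb (n + 1) (i - 1) :=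
  rot'_sb n i

theorem swp_rel (n : ℕ) (p q : SurfaceGroup (n + 1))
    (h : p * q * p⁻¹ * q⁻¹ = sa (n + 1) 0 * sb (n + 1) 0 * (sa (n + 1) 0)⁻¹ * (sb (n + 1) 0)⁻¹) :
    (List.ofFn fun i : Fin (n + 1) => (if i = 0 then p else sa (n + 1) i) *
      (if i = 0 then q else sb (n + 1) i) * (if i = 0 then p else sa (n + 1) i)⁻¹ *
        (if i = 0 then q else sb (n + 1) i)⁻¹).prod = 1 := by
  have h0 := surf_rel (n + 1)
  rw [List.ofFn_succ, List.prod_cons] at h0 ⊢
  rw [if_pos rfl, if_pos rfl, h]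
  have h1 : (fun i : Fin n => (if i.succ = 0 then p else sa (n + 1) i.succ) *
      (if i.succ = 0 then q else sb (n + 1) i.succ) *
      (if i.succ = 0 then p else sa (n + 1) i.succ)⁻¹ *
        (if i.succ = 0 then q else sb (n + 1) i.succ)⁻¹) =
      fun i : Fin n => sa (n + 1) i.succ * sb (n + 1) i.succ * (sa (n + 1) i.succ)⁻¹ *
        (sb (n + 1) i.succ)⁻¹ := by
    funext i
    rw [if_neg (Fin.succ_ne_zero i), if_neg (Fin.succ_ne_zero i)]
  rw [h1]
  exact h0

/-- the automorphism `a ↦ a b a⁻¹`, `b ↦ a⁻¹` -/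
def swp (n : ℕ) : SurfaceGroup (n + 1) →* SurfaceGroup (n + 1) :=
  surfLift (fun i => if i = 0 then sa (n + 1) 0 * sb (n + 1) 0 * (sa (n + 1) 0)⁻¹
    else sa (n + 1) i) (fun i => if i = 0 then (sa (n + 1) 0)⁻¹ else sb (n + 1) i)
    (swp_rel n _ _ (by group))

/-- the automorphism `a ↦ b⁻¹`, `b ↦ b a b⁻¹` -/
def swp' (n : ℕ) : SurfaceGroup (n + 1) →* SurfaceGroup (n + 1) :=
  surfLift (fun i => if i = 0 then (sb (n + 1) 0)⁻¹ else sa (n + 1) i)
    (fun i => if i = 0 then sb (n + 1) 0 * sa (n + 1) 0 * (sb (n + 1) 0)⁻¹ else sb (n + 1) i)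
    (swp_rel n _ _ (by group))

theorem swp_sa (n : ℕ) (i : Fin (n + 1)) : swp n (sa (n + 1) i) =
    if i = 0 then sa (n + 1) 0 * sb (n + 1) 0 * (sa (n + 1) 0)⁻¹ else sa (n + 1) i :=
  surfLift_sa _ _ _ i

theorem swp_sb (n : ℕ) (i : Fin (n + 1)) : swp n (sb (n + 1) i) =
    if i = 0 then (sa (n + 1) 0)⁻¹ else sb (n + 1) i :=
  surfLift_sb _ _ _ i

theorem swp'_sa (n : ℕ) (i : Fin (n + 1)) : swp' n (sa (n + 1) i) =
    if i = 0 then (sb (n + 1) 0)⁻¹ else sa (n + 1) i :=
  surfLift_sa _ _ _ i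

theorem swp'_sb (n : ℕ) (i : Fin (n + 1)) : swp' n (sb (n + 1) i) =
    if i = 0 then sb (n + 1) 0 * sa (n + 1) 0 * (sb (n + 1) 0)⁻¹ else sb (n + 1) i :=
  surfLift_sb _ _ _ i

/-- the swap as an automorphism -/
def swpE (n : ℕ) : SurfaceGroup (n + 1) ≃* SurfaceGroup (n + 1) :=
  MonoidHom.toMulEquiv (swp n) (swp' n)
    (surf_ext (fun i => by
      rw [MonoidHom.comp_apply, MonoidHom.id_apply, swp_sa]
      by_cases h : i = 0
      · rw [if_pos h, map_mul, map_mul, map_inv, swp'_sa, swp'_sb, if_pos rfl, if_pos rfl, h]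
        group
      · rw [if_neg h, swp'_sa, if_neg h]) (fun i => by
      rw [MonoidHom.comp_apply, MonoidHom.id_apply, swp_sb]
      by_cases h : i = 0
      · rw [if_pos h, map_inv, swp'_sa, if_pos rfl, h, inv_inv]
      · rw [if_neg h, swp'_sb, if_neg h]))
    (surf_ext (fun i => by
      rw [MonoidHom.comp_apply, MonoidHom.id_apply, swp'_sa]
      by_cases h : i = 0
      · rw [if_pos h, map_inv, swp_sb, if_pos rfl, h, inv_inv]
      · rw [if_neg h, swp_sa, if_neg h]) (fun i => by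
      rw [MonoidHom.comp_apply, MonoidHom.id_apply, swp'_sb]
      by_cases h : i = 0
      · rw [if_pos h, map_mul, map_mul, map_inv, swp_sa, swp_sb, if_pos rfl, if_pos rfl, h]
        group
      · rw [if_neg h, swp_sb, if_neg h]))

theorem swpE_sa (n : ℕ) (i : Fin (n + 1)) : swpE n (sa (n + 1) i) =
    if i = 0 then sa (n + 1) 0 * sb (n + 1) 0 * (sa (n + 1) 0)⁻¹ else sa (n + 1) i := swp_sa n i

theorem swpE_sb (n : ℕ) (i : Fin (n + 1)) : swpE n (sb (n + 1) i) =
    if i = 0 then (sa (n + 1) 0)⁻¹ else sb (n + 1) i := swp_sb n i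

theorem cb_aut (n : ℕ) (i : Fin (n + 1)) : ∃ θ : SurfaceGroup (n + 1) ≃* SurfaceGroup (n + 1),
    ∀ x, cb (n + 1) i x = cb (n + 1) 0 (θ x) := by
  induction i using Fin.induction with
  | zero => exact ⟨MulEquiv.refl _, fun x => rfl⟩
  | succ i ih =>
    obtain ⟨θ, hθ⟩ := ih
    refine ⟨(rotE n).trans θ, fun x => ?_⟩
    rw [MulEquiv.trans_apply, ← hθ]
    have h : cb (n + 1) i.succ = (cb (n + 1) i.castSucc).comp (rotE n).toMonoidHom := by
      refine surf_ext (fun j => ?_) (fun j => ?_)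
      · rw [MonoidHom.comp_apply, cb_sa]
        show 1 = cb (n + 1) i.castSucc (rotE n (sa (n + 1) j))
        rw [rotE_sa, cb_sa]
      · rw [MonoidHom.comp_apply, cb_sb]
        show _ = cb (n + 1) i.castSucc (rotE n (sb (n + 1) j))
        rw [rotE_sb, cb_sb, ← Fin.coeSucc_eq_succ]
        exact if_congr sub_eq_iff_eq_add.symm rfl rfl
    rw [h]
    rfl

theorem ca_aut (n : ℕ) (i : Fin (n + 1)) : ∃ θ : SurfaceGroup (n + 1) ≃* SurfaceGroup (n + 1),
    ∀ x, ca (n + 1) i x = cb (n + 1) 0 (θ x) := by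
  induction i using Fin.induction with
  | zero =>
    refine ⟨swpE n, fun x => ?_⟩
    have h : ca (n + 1) 0 = (cb (n + 1) 0).comp (swpE n).toMonoidHom := by
      refine surf_ext (fun j => ?_) (fun j => ?_)
      · rw [MonoidHom.comp_apply, ca_sa]
        show _ = cb (n + 1) 0 (swpE n (sa (n + 1) j))
        rw [swpE_sa]
        by_cases h : j = 0
        · rw [if_pos h, if_pos h, map_mul, map_mul, map_inv, cb_sa, cb_sb, if_pos rfl]
          simp
        · rw [if_neg h, if_neg h, cb_sa]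
      · rw [MonoidHom.comp_apply, ca_sb]
        show _ = cb (n + 1) 0 (swpE n (sb (n + 1) j))
        rw [swpE_sb]
        by_cases h : j = 0
        · rw [if_pos h, map_inv, cb_sa, inv_one]
        · rw [if_neg h, cb_sb, if_neg h]
    rw [h]
    rfl
  | succ i ih =>
    obtain ⟨θ, hθ⟩ := ih
    refine ⟨(rotE n).trans θ, fun x => ?_⟩
    rw [MulEquiv.trans_apply, ← hθ]
    have h : ca (n + 1) i.succ = (ca (n + 1) i.castSucc).comp (rotE n).toMonoidHom := by
      refine surf_ext (fun j => ?_) (fun j => ?_)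
      · rw [MonoidHom.comp_apply, ca_sa]
        show _ = ca (n + 1) i.castSucc (rotE n (sa (n + 1) j))
        rw [rotE_sa, ca_sa, ← Fin.coeSucc_eq_succ]
        exact if_congr sub_eq_iff_eq_add.symm rfl rfl
      · rw [MonoidHom.comp_apply, ca_sb]
        show 1 = ca (n + 1) i.castSucc (rotE n (sb (n + 1) j))
        rw [rotE_sb, ca_sb]
    rw [h]
    rfl

/-- the character of the standard tree vanishes on the vertex group -/
theorem cb_AE (n : ℕ) : ∀ a ∈ AE n, cb (n + 1) 0 a = 1 := by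
  rintro _ ⟨w, rfl⟩
  have h : (cb (n + 1) 0).comp (io n) = 1 := by
    ext o : 1
    rcases o with _ | (i | i)
    · rw [MonoidHom.comp_apply, io_none, cb_sa]
      rfl
    · rw [MonoidHom.comp_apply, io_inl, cb_sa]
      rfl
    · rw [MonoidHom.comp_apply, io_inr, cb_sb, if_neg (Fin.succ_ne_zero i)]
      rfl
  exact DFunLike.congr_fun h w

/-- **GOING UP from a surface group** -/
theorem going_up_surf {G : Type} [Group G] {N : Subgroup G} (hN : N.Normal)
    (hsq : ∀ g g' : G, g ∉ N → g' ∉ N → g * g' ∈ N) {s : G} (hs : s ∉ N)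
    (tf : ∀ g : G, ∀ n : ℕ, 0 < n → g ^ n = 1 → g = 1) (fi : FI N) {n : ℕ}
    (e : N ≃* SurfaceGroup (n + 2)) (ψ : G →* Multiplicative ℤ) (hψ : ∃ g, ψ g ≠ 1) :
    ∃ (W : Type) (_ : MulAction G W) (Y : SimpleGraph W) (u w : W) (z : G), TA G Y ∧
      Y.Adj u w ∧ Ess Y (⊤ : Subgroup G) u w ∧ ES G u w = Subgroup.zpowers z ∧
      ∀ n : ℕ, 0 < n → z ^ n ≠ 1 := by
  obtain ⟨V, _, X, v, hX, fg, nc, hst, _⟩ := surf_ht n
  by_contra hcon
  -- all characters in the orbit are anti-invariant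
  have key : ∀ (θ : SurfaceGroup (n + 2) ≃* SurfaceGroup (n + 2)) (m : N),
      cb (n + 2) 0 (θ (e (m * cjN hN s m))) = 1 := by
    intro θ m
    by_contra hne
    apply hcon
    let σ : N ≃* SurfaceGroup (n + 2) := e.trans θ
    refine going_up hN hsq hs tf fi (tw_ht σ hX) ?_ ?_
      (fun k => Multiplicative.toAdd (cb (n + 2) 0 (σ k))) ?_ ?_ ?_ ⟨m, ?_⟩
    · rw [tw_stab]
      exact fg_comap σ fg
    · rw [tw_stab]
      exact ncyc_comap σ nc
    · intro a b
      show Multiplicative.toAdd (cb (n + 2) 0 (σ (a * b))) = _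
      rw [map_mul, map_mul, toAdd_mul]
    · intro a ha
      rw [tw_stab, Subgroup.mem_comap, hst] at ha
      show Multiplicative.toAdd (cb (n + 2) 0 (σ a)) = 0
      rw [cb_AE (n + 1) (σ a) ha, toAdd_one]
    · show Multiplicative.toAdd (cb (n + 2) 0 (σ (σ.symm (sb (n + 2) 0)))) = 1
      rw [σ.apply_symm_apply, cb_sb, if_pos rfl, toAdd_ofAdd]
    · intro h0
      apply hne
      apply Multiplicative.toAdd.injective
      rw [toAdd_one, ← h0, map_mul, map_mul, map_mul, toAdd_mul]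
      rfl
  have hN2 : ∀ m : N, ψ (m : G) = 1 := by
    intro m
    let χ : SurfaceGroup (n + 2) →* Multiplicative ℤ := (ψ.comp N.subtype).comp e.symm.toMonoidHom
    have hχ : ∀ k : N, χ (e k) = ψ (k : G) := by
      intro k
      show ψ ((e.symm (e k) : N) : G) = ψ k
      rw [e.symm_apply_apply]
    have h1 := char_eq χ (e (m * cjN hN s m))
    have h2 : ∀ i, ca (n + 2) i (e (m * cjN hN s m)) = 1 := by
      intro i
      obtain ⟨θ, hθ⟩ := ca_aut (n + 1) i
      rw [hθ]
      exact key θ m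
    have h3 : ∀ i, cb (n + 2) i (e (m * cjN hN s m)) = 1 := by
      intro i
      obtain ⟨θ, hθ⟩ := cb_aut (n + 1) i
      rw [hθ]
      exact key θ m
    simp only [h2, h3, toAdd_one, mul_zero, Finset.sum_const_zero, add_zero] at h1
    rw [hχ, Subgroup.coe_mul, map_mul] at h1
    have h4 : ψ ((cjN hN s m : N) : G) = ψ (m : G) := by
      show ψ (s⁻¹ * (m : G) * s) = _
      rw [map_mul, map_mul, map_inv, mul_comm, mul_inv_cancel_left]
    rw [h4, toAdd_mul] at h1
    apply Multiplicative.toAdd.injective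
    rw [toAdd_one]
    omega
  obtain ⟨g, hg⟩ := hψ
  by_cases hgN : g ∈ N
  · exact hg (hN2 ⟨g, hgN⟩)
  · have h1 := hN2 ⟨g * g, hsq g g hgN hgN⟩
    have h2 : ψ g * ψ g = 1 := by
      rw [← map_mul]
      exact h1
    apply hg
    apply Multiplicative.toAdd.injective
    have h3 := congrArg Multiplicative.toAdd h2
    rw [toAdd_mul, toAdd_one] at h3
    rw [toAdd_one]
    omega

end Pool.Agent.SuUp
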