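import Pool.Agent.Lib.MP_305fdd_al.Su.Up.VFr
import Pool.Agent.Lib.MP_305fdd_al.Su.Up.SUp
import Pool.Agent.Lib.MP_305fdd_al.Su.E.Up
import Pool.Agent.Lib.MP_305fdd_al.Su.Tr.Col
import Pool.Agent.Lib.MP_305fdd_al.Su.Inf.Main

/-!
# One step up: actions on trees (MP_305fdd_al, surface groups, block UP)

`up_step`: a torsion free group in the genus of a surface group, with a surface group as the kernel
of a nontrivial homomorphism to `ℤ/2`, is a surface group.
-/

set_option autoImplicit false

namespace Pool.Agent.SuUp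

open Pool.Agent.SuT Pool.Agent.SuE Pool.Agent.FrT Pool.Agent.FrS Pool.Agent.Su
  Pool.Agent.Lib.MP_305fdd_al

/-! ## Free indecomposability -/

theorem fi_equiv {G H : Type} [Group G] [Group H] (e : G ≃* H) (h : SuT.FI H) : SuT.FI G := by
  have key : ∀ {Q : Type} [Group Q] (A : Subgroup G) (r : H → Q),
      MulOn (A.map e.toMonoidHom) r → MulOn A (fun x => r (e x)) := by
    intro Q _ A r hr x hx y hy
    show r (e (x * y)) = r (e x) * r (e y)
    rw [map_mul]
    exact hr _ ⟨x, hx, rfl⟩ _ ⟨y, hy, rfl⟩
  constructor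
  · rintro ⟨A, A', hA, h1, h2⟩
    apply h.1
    refine ⟨A.map e.toMonoidHom, A'.map e.toMonoidHom, ?_, ?_, ?_⟩
    · refine ⟨?_, bot_le, bot_le, ?_⟩
      · rw [← Subgroup.map_sup, ← hA.sup, Subgroup.map_top_of_surjective _ e.surjective]
      · intro R _ _ r r' hr hr' hb
        obtain ⟨q, q1, q2, q3⟩ := hA.ext R (fun x => r (e x)) (fun x => r' (e x)) (key A r hr)
          (key A' r' hr') (by
            intro d hd
            rw [Subgroup.mem_bot] at hd
            rw [hd, map_one]
            exact hb 1 (Subgroup.one_mem _))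
        refine ⟨fun y => q (e.symm y), ?_, ?_, ?_⟩
        · intro x _ y _
          show q (e.symm (x * y)) = _
          rw [map_mul]
          exact q1 _ (Subgroup.mem_top _) _ (Subgroup.mem_top _)
        · rintro _ ⟨a, ha, rfl⟩
          show q (e.symm (e a)) = r (e a)
          rw [MulEquiv.symm_apply_apply]
          exact q2 a ha
        · rintro _ ⟨a, ha, rfl⟩
          show q (e.symm (e a)) = r' (e a)
          rw [MulEquiv.symm_apply_apply]
          exact q3 a ha
    · intro h3
      apply h1
      rwa [Subgroup.map_eq_bot_iff_of_injective _ e.injective] at h3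
    · intro h3
      apply h2
      rwa [Subgroup.map_eq_bot_iff_of_injective _ e.injective] at h3
  · rintro ⟨A, s, hA⟩
    apply h.2
    refine ⟨A.map e.toMonoidHom, e s, ?_, bot_le, ?_, ?_⟩
    · rw [← Subgroup.map_top_of_surjective e.toMonoidHom e.surjective, hA.sup, Subgroup.map_sup,
        MonoidHom.map_zpowers]
      rfl
    · intro d hd
      rw [Subgroup.mem_bot] at hd
      rw [hd]
      have : (e s)⁻¹ * 1 * e s = 1 := by group
      rw [this]
      exact Subgroup.one_mem _
    · intro R _ _ r t hr ht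
      obtain ⟨q, q1, q2, q3⟩ := hA.ext R (fun x => r (e x)) t (key A r hr) (by
        intro d hd
        rw [Subgroup.mem_bot] at hd
        have h3 := ht 1 (Subgroup.one_mem _)
        have h4 : s⁻¹ * d * s = 1 := by rw [hd]; group
        have h5 : (e s)⁻¹ * 1 * e s = 1 := by group
        rw [h4, hd, map_one]
        rw [h5] at h3
        exact h3)
      refine ⟨fun y => q (e.symm y), ?_, ?_, ?_⟩
      · intro x _ y _
        show q (e.symm (x * y)) = _
        rw [map_mul]
        exact q1 _ (Subgroup.mem_top _) _ (Subgroup.mem_top _)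
      · rintro _ ⟨a, ha, rfl⟩
        show q (e.symm (e a)) = r (e a)
        rw [MulEquiv.symm_apply_apply]
        exact q2 a ha
      · show q (e.symm (e s)) = t
        rw [MulEquiv.symm_apply_apply]
        exact q3

/-! ## Stabilisers of vertices -/

section

variable {G : Type} [Group G] {V : Type} [MulAction G V] {X : SimpleGraph V}

/-- a stabiliser of a vertex has infinite index, in every subgroup of finite index -/
theorem stab_index (hT : TA G X) {u v : V} (huv : X.Adj u v) (hess : Ess X (⊤ : Subgroup G) u v)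
    {N : Subgroup G} (hN : N.index ≠ 0) (p : V) :
    ((MulAction.stabilizer G p).subgroupOf N).index = 0 := by
  by_contra h
  obtain ⟨τ, -, hτ⟩ := exists_tr_of_ess hT huv hess
  obtain ⟨k, hk, hk'⟩ : ∃ k : ℕ, 0 < k ∧ τ ^ k ∈ N := by
    obtain ⟨k, hk, -, hk'⟩ := Subgroup.exists_pow_mem_of_index_ne_zero hN τ
    exact ⟨k, hk, hk'⟩
  obtain ⟨m, hm, -, hm'⟩ := Subgroup.exists_pow_mem_of_index_ne_zero h (⟨τ ^ k, hk'⟩ : N)
  have h1 : τ ^ (k * m) • p = p := by
    rw [pow_mul]
    exact hm'
  exact Tr.pow_not_fix hT huv hτ (Nat.mul_pos hk hm) p h1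

/-- the stabilisers of vertices of a torsion free group with a surface group of index two are free -/
theorem stab_free (hT : TA G X) {u v : V} (huv : X.Adj u v) (hess : Ess X (⊤ : Subgroup G) u v)
    (tf : ∀ x : G, ∀ k : ℕ, 0 < k → x ^ k = 1 → x = 1) (θ : G →* Multiplicative (ZMod 2)) {m : ℕ}
    (e : θ.ker ≃* SurfaceGroup m) (p : V) (hfg : (MulAction.stabilizer G p).FG) :
    IsFreeGroup (MulAction.stabilizer G p) := by
  set A := MulAction.stabilizer G p with hA
  have hi : θ.ker.index ≠ 0 := by
    haveI : Finite (G ⧸ θ.ker) := Finite.of_injective _ (QuotientGroup.kerLift_injective θ)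
    exact Subgroup.index_ne_zero_of_finite
  have h0 := stab_index hT huv hess hi p
  have h1 : ((A.subgroupOf θ.ker).map e.toMonoidHom).index = 0 := by
    have h2 := Subgroup.index_map_equiv (A.subgroupOf θ.ker) e
    rw [h0] at h2
    exact h2
  have h2 := SuInf.inf_free _ h1
  have e1 : A.subgroupOf θ.ker ≃* (A.subgroupOf θ.ker).map e.toMonoidHom :=
    e.subgroupMap (A.subgroupOf θ.ker)
  have h3 : IsFreeGroup (A.subgroupOf θ.ker) := IsFreeGroup.ofMulEquiv e1.symm
  let α : A →* Multiplicative (ZMod 2) := θ.comp A.subtype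
  let e2 : A.subgroupOf θ.ker ≃* α.ker :=
    { toFun := fun x => ⟨⟨x.1.1, x.2⟩, x.1.2⟩
      invFun := fun x => ⟨⟨x.1.1, x.2⟩, x.1.2⟩
      left_inv := fun _ => rfl
      right_inv := fun _ => rfl
      map_mul' := fun _ _ => rfl }
  have h4 : IsFreeGroup α.ker := IsFreeGroup.ofMulEquiv e2
  haveI : Group.FG A := (Group.fg_iff_subgroup_fg A).2 hfg
  haveI : α.ker.FiniteIndex := by
    haveI : Finite (A ⧸ α.ker) := Finite.of_injective _ (QuotientGroup.kerLift_injective α)
    exact ⟨Subgroup.index_ne_zero_of_finite⟩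
  have h5 : Group.FG α.ker := inferInstance
  obtain ⟨r, hr⟩ := fin_of_free h4 h5
  refine isFree_of_ker ?_ α hr
  intro a k hk hak
  have h6 : (a : G) ^ k = 1 := congrArg Subtype.val hak
  exact Subtype.ext (tf a k hk h6)

end

end Pool.Agent.SuUp
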