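import Pool.Agent.Lib.MP_305fdd_al.Su.Up.StepA

/-!
# One step up: the theorem (MP_305fdd_al, surface groups, block UP)
-/

set_option autoImplicit false

namespace Pool.Agent.SuUp

open Pool.Agent.SuT Pool.Agent.SuE Pool.Agent.FrT Pool.Agent.FrS Pool.Agent.Su Monoid
  Pool.Agent.Lib.MP_305fdd_al

section

variable {G : Type} [Group G] {V : Type} [MulAction G V] {X : SimpleGraph V}

/-- an action on a tree with one orbit of edges and one orbit of vertices, cyclic edge groups, is an
honest HNN extension -/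
theorem hnUP_of_tree' {v : V} {t : G} (hT : TA G X) (hadj : X.Adj v (t • v))
    (hoe : OE G X v (t • v)) (z : G) (hz : ES G v (t • v) = Subgroup.zpowers z) :
    HnUP G (MulAction.stabilizer G v) t (t⁻¹ * z * t) z := by
  have hsst := hoe.sst hT.act v
  obtain ⟨A, hA⟩ : ∃ A, A = MulAction.stabilizer G v := ⟨_, rfl⟩
  rw [← hA] at hsst ⊢
  obtain ⟨C₁, C₂, φ, hC1, hC2, hφ⟩ := hnn_data hT.act t (Rch.refl X v (t • v) (t • v))
    A hsst.symm
  have hbij := hnn hT.act hT.tree (fun g => hT.noinv g _ _ hadj) hadj t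
    (Rch.refl X v (t • v) (t • v)) A hsst.symm C₁ C₂ hC1 hC2 φ hφ
  set nat : HNNExtension A C₁ C₂ φ →* G := HNNExtension.lift (φ := φ) A.subtype t
      (fun a => by rw [Subgroup.subtype_apply, Subgroup.subtype_apply, hφ]; group) with hnat
  have hnat_of : ∀ (a : A), nat (HNNExtension.of a) = a := by
    intro a
    rw [hnat, HNNExtension.lift_of]
    rfl
  have hnat_t : nat HNNExtension.t = t := by
    rw [hnat, HNNExtension.lift_t]
  have hbij' : Function.Bijective nat := hbij
  let Φ : HNNExtension A C₁ C₂ φ ≃* G := MulEquiv.ofBijective nat hbij'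
  have hΦ : ∀ a : A, Φ.symm (a : G) = HNNExtension.of a := by
    intro a
    rw [MulEquiv.symm_apply_eq]
    exact (hnat_of a).symm
  have hΦt : Φ.symm t = HNNExtension.t := by
    rw [MulEquiv.symm_apply_eq]
    exact hnat_t.symm
  have hzz : z ∈ ES G v (t • v) := by
    rw [hz]
    exact Subgroup.mem_zpowers z
  have hz0 : t⁻¹ * z * t ∈ A := by
    rw [hA, MulAction.mem_stabilizer_iff, mul_smul, mul_smul,
      MulAction.mem_stabilizer_iff.1 hzz.2, inv_smul_smul]
  have hz1 : z ∈ A := by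
    rw [hA]
    exact hzz.1
  refine ⟨hz0, hz1, by group, ?_, ?_⟩
  · rw [eq_top_iff]
    intro g _
    obtain ⟨w, rfl⟩ := hbij'.2 g
    induction w using HNNExtension.induction_on with
    | of a =>
      rw [hnat_of]
      exact Subgroup.mem_sup_left a.2
    | t =>
      rw [hnat_t]
      exact Subgroup.mem_sup_right (Subgroup.mem_zpowers _)
    | mul x y hx hy =>
      rw [map_mul]
      exact Subgroup.mul_mem _ (hx trivial) (hy trivial)
    | inv x hx =>
      rw [map_inv]
      exact Subgroup.inv_mem _ (hx trivial)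
  · intro H _ f τ hτ
    let ψ : HNNExtension A C₁ C₂ φ →* H :=
      HNNExtension.lift (φ := φ) f τ (by
        intro a
        have h1 := (hC1 _).1 a.2
        have h2 : t * ((a : A) : G) * t⁻¹ ∈ Subgroup.zpowers z := by rw [← hz]; exact h1
        obtain ⟨k, hk⟩ := h2
        have e1 : (a : A) = ⟨t⁻¹ * z * t, hz0⟩ ^ k := by
          apply Subtype.ext
          have e2 : ((⟨t⁻¹ * z * t, hz0⟩ ^ k : A) : G) = (t⁻¹ * z * t) ^ k := rfl
          have e3 : (t⁻¹ * z * t) ^ k = t⁻¹ * z ^ k * t := by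
            have := conj_zpow (a := t⁻¹) (b := z) (i := k)
            rw [inv_inv] at this
            exact this
          rw [e2, e3]
          have hk' : z ^ k = t * ((a : A) : G) * t⁻¹ := hk
          rw [hk']
          group
        have e4 : (φ a : A) = ⟨z, hz1⟩ ^ k := by
          apply Subtype.ext
          rw [hφ]
          exact hk.symm
        rw [e4, map_zpow, e1, map_zpow, ← hτ, conj_zpow, inv_mul_cancel_right])
    have hψ : ∀ a : A, ψ (HNNExtension.of a) = f a := fun a => HNNExtension.lift_of _ _ _ a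
    have hψt : ψ HNNExtension.t = τ := HNNExtension.lift_t _ _ _
    refine ⟨ψ.comp Φ.symm.toMonoidHom, ?_, ?_⟩
    · intro a
      change ψ (Φ.symm a) = _
      rw [hΦ, hψ]
    · change ψ (Φ.symm t) = _
      rw [hΦt, hψt]

theorem kerSL_id : SuPts.KerSL (MonoidHom.id G) := by
  intro k _ _ _ r x hx
  have h : x = 1 := hx
  rw [h]
  exact Subgroup.one_mem _

/-- a torsion free group in the genus of a surface group, with a surface group as the kernel of a
homomorphism to `ℤ/2`, which acts on a tree with one orbit of edges and cyclic edge groups -/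
theorem up_tree {g n : ℕ} (hg : 1 ≤ g) [Group.FG G] (Φ : NatBij G (SurfaceGroup g))
    (tf : ∀ x : G, ∀ k : ℕ, 0 < k → x ^ k = 1 → x = 1) (θ : G →* Multiplicative (ZMod 2))
    (e : θ.ker ≃* SurfaceGroup (n + 2)) (hT : TA G X) {u v : V} (huv : X.Adj u v)
    (hoe : OE G X u v) (hess : Ess X (⊤ : Subgroup G) u v) (z : G)
    (hz : ES G u v = Subgroup.zpowers z) (hz1 : ∀ n : ℕ, 0 < n → z ^ n ≠ 1) :
    Nonempty (G ≃* SurfaceGroup g) := by
  have hlg : LgOrd z := lgOrd_ker (by omega) θ e z hz1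
  have hfgE : (Pool.Agent.FrT.SC G u v).FG := by
    rw [SC_eq, hz]
    exact ⟨{z}, by rw [Finset.coe_singleton, ← Subgroup.zpowers_eq_closure]⟩
  by_cases hs : ∃ t : G, t • u = v
  · obtain ⟨t, rfl⟩ := hs
    have h2 := FrV.fg_hn hT.act FrR.p_fgH hT.tree (fun g => hT.noinv g _ _ huv) huv t
      (hoe.rch.2 rfl) hfgE
    rw [hoe.sst] at h2
    have h3 := stab_free hT huv hess tf θ e u h2
    refine surf_of_hn_free hg Φ (MonoidHom.id G) Function.surjective_id kerSL_id
      (z₀ := t⁻¹ * z * t) (z₁ := z) ?_ (hnUP_of_tree' hT huv hoe z hz) h3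
    have h4 := hlg.conj t⁻¹
    rwa [inv_inv] at h4
  · push Not at hs
    have h2 := FrV.fg_am hT.act FrR.p_fgA hT.tree (fun g => hT.noinv g _ _ huv) huv
      (fun g hg => hs g (hoe.rch.1 hg)) hfgE
    rw [hoe.sst, hoe.sst] at h2
    have h3 := stab_free hT huv hess tf θ e u h2.1
    have h4 := stab_free hT huv hess tf θ e v h2.2
    exact surf_of_tree_am_free hg Φ (MonoidHom.id G) Function.surjective_id kerSL_id hT huv hoe
      hs z hz hlg h3 h4

end

/-- **ONE STEP UP**: a torsion free group in the genus of a surface group, with a surface group as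
the kernel of a nontrivial homomorphism to `ℤ/2`, is a surface group -/
theorem up_step {g n : ℕ} (hg : 1 ≤ g) {L : Type} [Group L] [Group.FG L]
    (Φ : NatBij L (SurfaceGroup g)) (tf : ∀ x : L, ∀ k : ℕ, 0 < k → x ^ k = 1 → x = 1)
    (θ : L →* Multiplicative (ZMod 2)) (hθ : θ ≠ 1) (e : θ.ker ≃* SurfaceGroup (n + 2))
    (fi : SuT.FI (SurfaceGroup (n + 2))) : Nonempty (L ≃* SurfaceGroup g) := by
  have h2 : ∀ a b : Multiplicative (ZMod 2), a ≠ 1 → b ≠ 1 → a * b = 1 := by decide
  obtain ⟨s, hs⟩ : ∃ s, s ∉ θ.ker := by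
    by_contra h
    push Not at h
    exact hθ (MonoidHom.ext h)
  obtain ⟨ψ, -, hψ⟩ := exists_psi hg Φ
  obtain ⟨W, _, Y, u, w, z, hT, huw, hess, hz, hz1⟩ := going_up_surf (N := θ.ker)
    (MonoidHom.normal_ker θ) (by
      intro a b ha hb
      rw [MonoidHom.mem_ker] at ha hb ⊢
      rw [map_mul]
      exact h2 _ _ ha hb) hs tf (fi_equiv e fi) e ψ hψ
  obtain ⟨W', _, Y', κ, hT', hsurj, hact, -, hadj, hhf, hES⟩ := p_COL L W Y u w hT huw
  refine up_tree hg Φ tf θ e hT' (u := κ u) (v := κ w) ?_ ?_ ?_ z (hES.trans hz) hz1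
  · rw [hadj]
    exact ⟨1, Or.inl ⟨one_smul _ _, one_smul _ _⟩⟩
  · intro x y hxy
    exact (hadj x y).1 hxy
  · intro x'
    obtain ⟨x, rfl⟩ := hsurj x'
    obtain ⟨⟨a, ha, h3⟩, ⟨b, hb, h4⟩⟩ := hess x
    refine ⟨⟨a, ha, ?_⟩, ⟨b, hb, ?_⟩⟩
    · rw [← hact, hhf]
      exact h3
    · rw [← hact, hhf]
      exact h4

end Pool.Agent.SuUp
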