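import Pool.Agent.Lib.MP_305fdd_al.Su.Up.ND
import Pool.Agent.Lib.MP_305fdd_al.Su.Up.Line

/-!
# GOING UP, part 2: the group `G`

`G` contains `N` with index at most two and acts on `V × V'`: the elements of `N` diagonally, the others
exchange the factors.
-/

set_option autoImplicit false

namespace Pool.Agent.SuUp

open Pool.Agent.SuT Pool.Agent.FrT Pool.Agent.FrS

/-- `G` acts on `V × V'` -/
structure UD (G : Type) [Group G] (N : Subgroup G) {V V' : Type} [MulAction N V] [MulAction N V']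
    [MulAction G (V × V')] (X : SimpleGraph V) (X' : SimpleGraph V') : Prop where
  nor : N.Normal
  sq : ∀ g g' : G, g ∉ N → g' ∉ N → g * g' ∈ N
  act : ∀ (n : N) (x : V) (y : V'), (n : G) • (x, y) = (n • x, n • y)
  sw : ∀ g : G, g ∉ N → ∃ (α : V' → V) (β : V → V'), (∀ x y, g • (x, y) = (α y, β x)) ∧
    (∀ a b, X'.Adj a b → X.Adj (α a) (α b)) ∧ ∀ a b, X.Adj a b → X'.Adj (β a) (β b)

/-- heights -/
structure Hgt (G : Type) [Group G] {V V' : Type} [MulAction G (V × V')] (X : SimpleGraph V)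
    (X' : SimpleGraph V') (h : V → ℤ) (h' : V' → ℤ) : Prop where
  hh : ∀ x y, X.Adj x y → h y = h x + 1 ∨ h x = h y + 1
  hh' : ∀ x y, X'.Adj x y → h' y = h' x + 1 ∨ h' x = h' y + 1
  H : ∀ g : G, ∃ c : ℤ, ∀ p : V × V', h (g • p).1 + h' (g • p).2 = h p.1 + h' p.2 + c
  H1 : ∃ g : G, ∃ c : ℤ, c ≠ 0 ∧ ∀ p : V × V', h (g • p).1 + h' (g • p).2 = h p.1 + h' p.2 + c

/-- graph homomorphisms do not increase distances -/
theorem dist_hom {V W : Type} {X : SimpleGraph V} {Y : SimpleGraph W} (hX : X.IsTree)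
    (β : V → W) (hβ : ∀ a b, X.Adj a b → Y.Adj (β a) (β b)) (x y : V) :
    Y.dist (β x) (β y) ≤ X.dist x y := by
  obtain ⟨p, _, hl⟩ := exists_path hX x y
  have h1 : ∀ {a b : V} (p : X.Walk a b), ∃ q : Y.Walk (β a) (β b), q.length = p.length := by
    intro a b p
    induction p with
    | nil => exact ⟨SimpleGraph.Walk.nil, rfl⟩
    | cons h p ih =>
      obtain ⟨q, hq⟩ := ih
      exact ⟨SimpleGraph.Walk.cons (hβ _ _ h) q, by simp [hq]⟩
  obtain ⟨q, hq⟩ := h1 p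
  rw [← hl, ← hq]
  exact SimpleGraph.dist_le q

section

variable {G : Type} [Group G] {N : Subgroup G} {V V' : Type} [MulAction N V] [MulAction N V']
  [MulAction G (V × V')] {X : SimpleGraph V} {X' : SimpleGraph V'}

/-- conjugation -/
def UD.cj (U : UD G N X X') (g : G) (n : N) : N := ⟨g * n * g⁻¹, U.nor.conj_mem n n.2 g⟩

/-- the data of an element which exchanges the factors -/
structure Sw (U : UD G N X X') (g : G) (α : V' → V) (β : V → V') : Prop where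
  eq : ∀ x y, g • (x, y) = (α y, β x)
  al : ∀ a b, X'.Adj a b → X.Adj (α a) (α b)
  be : ∀ a b, X.Adj a b → X'.Adj (β a) (β b)
  an : ∀ (n : N) y, α (n • y) = U.cj g n • α y
  bn : ∀ (n : N) x, β (n • x) = U.cj g n • β x
  as : Function.Surjective α
  bs : Function.Surjective β
  ha : ∀ a b y, α y ∈ Hf X (α a) (α b) ↔ y ∈ Hf X' a b
  hb : ∀ a b x, β x ∈ Hf X' (β a) (β b) ↔ x ∈ Hf X a b

theorem UD.sw' (U : UD G N X X') (hX : X.IsTree) (hX' : X'.IsTree) {g : G} (hg : g ∉ N) :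
    ∃ α β, Sw U g α β := by
  obtain ⟨α, β, h1, h2, h3⟩ := U.sw g hg
  have hg' : g⁻¹ ∉ N := fun h => hg (by simpa using N.inv_mem h)
  obtain ⟨α', β', k1, k2, k3⟩ := U.sw g⁻¹ hg'
  obtain ⟨x0⟩ := hX.connected.nonempty
  obtain ⟨y0⟩ := hX'.connected.nonempty
  have e1 : ∀ x, α' (β x) = x := by
    intro x
    have h := inv_smul_smul g (x, y0)
    rw [h1, k1] at h
    exact congrArg Prod.fst h
  have e2 : ∀ y, β' (α y) = y := by
    intro y
    have h := inv_smul_smul g (x0, y)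
    rw [h1, k1] at h
    exact congrArg Prod.snd h
  have e3 : ∀ x, α (β' x) = x := by
    intro x
    have h := smul_inv_smul g (x, y0)
    rw [k1, h1] at h
    exact congrArg Prod.fst h
  have e4 : ∀ y, β (α' y) = y := by
    intro y
    have h := smul_inv_smul g (x0, y)
    rw [k1, h1] at h
    exact congrArg Prod.snd h
  have d1 : ∀ a b, X.dist (α a) (α b) = X'.dist a b := by
    intro a b
    refine le_antisymm (dist_hom hX' α h2 a b) ?_
    have := dist_hom hX β' k3 (α a) (α b)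
    rwa [e2, e2] at this
  have d2 : ∀ a b, X'.dist (β a) (β b) = X.dist a b := by
    intro a b
    refine le_antisymm (dist_hom hX β h3 a b) ?_
    have := dist_hom hX' α' k2 (β a) (β b)
    rwa [e1, e1] at this
  have key : ∀ (n : N) x y, (α (n • y), β (n • x)) = (U.cj g n • α y, U.cj g n • β x) := by
    intro n x y
    rw [← h1, ← U.act, ← U.act, ← h1]
    show g • (n : G) • (x, y) = (g * n * g⁻¹) • g • (x, y)
    rw [← mul_smul, ← mul_smul, inv_mul_cancel_right]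
  refine ⟨α, β, h1, h2, h3, ?_, ?_, fun x => ⟨_, e3 x⟩, fun y => ⟨_, e4 y⟩, ?_, ?_⟩
  · intro n y
    exact congrArg Prod.fst (key n x0 y)
  · intro n x
    exact congrArg Prod.snd (key n x y0)
  · intro a b y
    rw [mem_Hf, mem_Hf, d1, d1]
  · intro a b x
    rw [mem_Hf, mem_Hf, d2, d2]

theorem Sw.ess_b {U : UD G N X X'} {g : G} {α : V' → V} {β : V → V'} (S : Sw U g α β)
    {A B : Subgroup N} (hAB : ∀ a ∈ A, U.cj g a ∈ B) {u w : V} (h : Ess X A u w) :
    Ess X' B (β u) (β w) := by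
  intro y
  obtain ⟨x, rfl⟩ := S.bs y
  obtain ⟨⟨a, ha, h1⟩, ⟨b, hb, h2⟩⟩ := h x
  refine ⟨⟨_, hAB a ha, ?_⟩, ⟨_, hAB b hb, ?_⟩⟩
  · rw [← S.bn, S.hb]
    exact h1
  · rw [← S.bn, S.hb]
    exact h2

theorem Sw.ess_a {U : UD G N X X'} {g : G} {α : V' → V} {β : V → V'} (S : Sw U g α β)
    {A B : Subgroup N} (hAB : ∀ a ∈ A, U.cj g a ∈ B) {u w : V'} (h : Ess X' A u w) :
    Ess X B (α u) (α w) := by
  intro x
  obtain ⟨y, rfl⟩ := S.as x
  obtain ⟨⟨a, ha, h1⟩, ⟨b, hb, h2⟩⟩ := h y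
  refine ⟨⟨_, hAB a ha, ?_⟩, ⟨_, hAB b hb, ?_⟩⟩
  · rw [← S.an, S.ha]
    exact h1
  · rw [← S.an, S.ha]
    exact h2

theorem Sw.stab_b {U : UD G N X X'} {g : G} {α : V' → V} {β : V → V'} (S : Sw U g α β) {x : V} :
    ∀ a ∈ MulAction.stabilizer N x, U.cj g a ∈ MulAction.stabilizer N (β x) := by
  intro a ha
  rw [MulAction.mem_stabilizer_iff] at ha ⊢
  rw [← S.bn, ha]

theorem Sw.stab_a {U : UD G N X X'} {g : G} {α : V' → V} {β : V → V'} (S : Sw U g α β) {y : V'} :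
    ∀ a ∈ MulAction.stabilizer N y, U.cj g a ∈ MulAction.stabilizer N (α y) := by
  intro a ha
  rw [MulAction.mem_stabilizer_iff] at ha ⊢
  rw [← S.an, ha]

theorem Sw.es_b {U : UD G N X X'} {g : G} {α : V' → V} {β : V → V'} (S : Sw U g α β) {x w : V} :
    ∀ a ∈ ES N x w, U.cj g a ∈ ES N (β x) (β w) := by
  intro a ha
  rw [mem_ES] at ha ⊢
  rw [← S.bn, ← S.bn, ha.1, ha.2]
  exact ⟨rfl, rfl⟩

theorem Sw.es_a {U : UD G N X X'} {g : G} {α : V' → V} {β : V → V'} (S : Sw U g α β)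
    {x w : V'} : ∀ a ∈ ES N x w, U.cj g a ∈ ES N (α x) (α w) := by
  intro a ha
  rw [mem_ES] at ha ⊢
  rw [← S.an, ← S.an, ha.1, ha.2]
  exact ⟨rfl, rfl⟩

/-! ## The core in the hyperbolic case -/

/-- the core -/
def Co (N : Type) [Group N] {V V' : Type} [MulAction N V] [MulAction N V'] (X' : SimpleGraph V')
    (p : V × V') : Prop := EssV X' (MulAction.stabilizer N p.1) p.2

/-- squares: `(x, a)` is the bottom, `(w, b)` the top -/
structure Sq (N : Type) [Group N] {V V' : Type} [MulAction N V] [MulAction N V']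
    (X : SimpleGraph V) (X' : SimpleGraph V') (h : V → ℤ) (h' : V' → ℤ) (x w : V) (a b : V') :
    Prop where
  ax : X.Adj x w
  ab : X'.Adj a b
  hx : h w = h x + 1
  ha : h' b = h' a + 1
  es : Ess X' (ES N x w) a b

/-- upward edges of the core -/
structure ZE (N : Type) [Group N] {V V' : Type} [MulAction N V] [MulAction N V']
    (X : SimpleGraph V) (X' : SimpleGraph V') (h : V → ℤ) (h' : V' → ℤ) (p q : V × V') :
    Prop where
  cp : Co N X' p
  cq : Co N X' q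
  ty : (p.1 = q.1 ∧ X'.Adj p.2 q.2) ∨ (X.Adj p.1 q.1 ∧ p.2 = q.2)
  up : h q.1 + h' q.2 = h p.1 + h' p.2 + 1

variable {v : V} {t : N} {v' : V'} {t' : N} {h : V → ℤ} {h' : V' → ℤ}

theorem co_smul (U : UD G N X X') (D : ND N X X' v t v' t') (H : Hyp N X X') (g : G)
    {p : V × V'} (hp : Co N X' p) : Co N X' (g • p) := by
  obtain ⟨x, y⟩ := p
  by_cases hg : g ∈ N
  · have e : g • (x, y) = ((⟨g, hg⟩ : N) • x, (⟨g, hg⟩ : N) • y) := U.act ⟨g, hg⟩ x y
    rw [e]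
    obtain ⟨y', hadj, hess⟩ := hp
    refine ⟨(⟨g, hg⟩ : N) • y', D.ht'.act _ _ _ hadj, ?_⟩
    refine hess.conj D.ht'.toTA (⟨g, hg⟩ : N) ?_
    intro a ha
    rw [MulAction.mem_stabilizer_iff] at ha ⊢
    show ((⟨g, hg⟩ : N) * a * (⟨g, hg⟩ : N)⁻¹) • (⟨g, hg⟩ : N) • x = (⟨g, hg⟩ : N) • x
    rw [mul_smul, mul_smul, inv_smul_smul]
    have ha' : a • x = x := ha
    rw [ha']
  · obtain ⟨α, β, S⟩ := U.sw' D.ht.tree D.ht'.tree hg
    rw [S.eq]
    obtain ⟨x', hadj, hess⟩ := D.core_symm H hp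
    exact ⟨β x', S.be _ _ hadj, S.ess_b S.stab_a hess⟩

theorem Hgt.n_h (U : UD G N X X') (L : Hgt G X X' h h') (n : N) {x w : V} (y : V') :
    h (n • w) - h (n • x) = h w - h x := by
  obtain ⟨c, hc⟩ := L.H (n : G)
  have h1 := hc (x, y)
  have h2 := hc (w, y)
  rw [U.act] at h1 h2
  simp only at h1 h2
  linarith

theorem Hgt.n_h' (U : UD G N X X') (L : Hgt G X X' h h') (n : N) {a b : V'} (x : V) :
    h' (n • b) - h' (n • a) = h' b - h' a := by
  obtain ⟨c, hc⟩ := L.H (n : G)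
  have h1 := hc (x, a)
  have h2 := hc (x, b)
  rw [U.act] at h1 h2
  simp only at h1 h2
  linarith

theorem Hgt.s_h {U : UD G N X X'} (L : Hgt G X X' h h') {g : G} {α : V' → V} {β : V → V'}
    (S : Sw U g α β) {a b : V'} (x : V) : h (α b) - h (α a) = h' b - h' a := by
  obtain ⟨c, hc⟩ := L.H g
  have h1 := hc (x, a)
  have h2 := hc (x, b)
  rw [S.eq] at h1 h2
  simp only at h1 h2
  linarith

theorem Hgt.s_h' {U : UD G N X X'} (L : Hgt G X X' h h') {g : G} {α : V' → V} {β : V → V'}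
    (S : Sw U g α β) {x w : V} (a : V') : h' (β w) - h' (β x) = h w - h x := by
  obtain ⟨c, hc⟩ := L.H g
  have h1 := hc (x, a)
  have h2 := hc (w, a)
  rw [S.eq] at h1 h2
  simp only at h1 h2
  linarith

theorem ze_smul (U : UD G N X X') (D : ND N X X' v t v' t') (H : Hyp N X X')
    (L : Hgt G X X' h h') (g : G) {p q : V × V'} (hpq : ZE N X X' h h' p q) :
    ZE N X X' h h' (g • p) (g • q) := by
  refine ⟨co_smul U D H g hpq.cp, co_smul U D H g hpq.cq, ?_, ?_⟩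
  · obtain ⟨x, a⟩ := p
    obtain ⟨w, b⟩ := q
    by_cases hg : g ∈ N
    · have e : ∀ x y, g • (x, y) = ((⟨g, hg⟩ : N) • x, (⟨g, hg⟩ : N) • y) :=
        fun x y => U.act ⟨g, hg⟩ x y
      rw [e, e]
      rcases hpq.ty with ⟨e1, e2⟩ | ⟨e1, e2⟩
      · left
        exact ⟨congrArg (fun z : V => (⟨g, hg⟩ : N) • z) e1, D.ht'.act _ _ _ e2⟩
      · right
        exact ⟨D.ht.act _ _ _ e1, congrArg (fun z : V' => (⟨g, hg⟩ : N) • z) e2⟩
    · obtain ⟨α, β, S⟩ := U.sw' D.ht.tree D.ht'.tree hg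
      rw [S.eq, S.eq]
      rcases hpq.ty with ⟨e1, e2⟩ | ⟨e1, e2⟩
      · right
        exact ⟨S.al _ _ e2, congrArg β e1⟩
      · left
        exact ⟨congrArg α e2, S.be _ _ e1⟩
  · obtain ⟨c, hc⟩ := L.H g
    rw [hc, hc, hpq.up]
    ring

/-- the images of a square, as a statement on the four corners -/
theorem sq_smul (U : UD G N X X') (D : ND N X X' v t v' t') (L : Hgt G X X' h h') (g : G)
    {x w : V} {a b : V'} (hs : Sq N X X' h h' x w a b) :
    ∃ x1 w1 a1 b1, Sq N X X' h h' x1 w1 a1 b1 ∧ g • (x, a) = (x1, a1) ∧ g • (w, b) = (w1, b1) ∧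
      ((g • (w, a) = (w1, a1) ∧ g • (x, b) = (x1, b1)) ∨
        (g • (w, a) = (x1, b1) ∧ g • (x, b) = (w1, a1))) := by
  by_cases hg : g ∈ N
  · have e : ∀ x y, g • (x, y) = ((⟨g, hg⟩ : N) • x, (⟨g, hg⟩ : N) • y) :=
      fun x y => U.act ⟨g, hg⟩ x y
    refine ⟨_, _, _, _, ⟨D.ht.act ⟨g, hg⟩ _ _ hs.ax, D.ht'.act ⟨g, hg⟩ _ _ hs.ab, ?_, ?_, ?_⟩,
      e x a, e w b, Or.inl ⟨e w a, e x b⟩⟩
    · have := L.n_h U (⟨g, hg⟩ : N) (x := x) (w := w) a
      have := hs.hx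
      linarith
    · have := L.n_h' U (⟨g, hg⟩ : N) (a := a) (b := b) x
      have := hs.ha
      linarith
    · refine hs.es.conj D.ht'.toTA (⟨g, hg⟩ : N) ?_
      intro s hs'
      rw [mem_ES_smul]
      have : (⟨g, hg⟩ : N)⁻¹ * ((⟨g, hg⟩ : N) * s * (⟨g, hg⟩ : N)⁻¹) * (⟨g, hg⟩ : N) = s := by
        group
      rw [this]
      exact hs'
  · obtain ⟨α, β, S⟩ := U.sw' D.ht.tree D.ht'.tree hg
    refine ⟨α a, α b, β x, β w, ⟨S.al _ _ hs.ab, S.be _ _ hs.ax, ?_, ?_, ?_⟩, S.eq x a, S.eq w b,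
      Or.inr ⟨S.eq w a, S.eq x b⟩⟩
    · have := L.s_h S (a := a) (b := b) x
      have := hs.ha
      linarith
    · have := L.s_h' S (x := x) (w := w) a
      have := hs.hx
      linarith
    · exact S.ess_b S.es_a (D.c1 hs.ax hs.ab hs.es)

end

end Pool.Agent.SuUp
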