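import Pool.Agent.Lib.MP_305fdd_al.VF.I.Final
import Pool.Agent.Lib.MP_305fdd_al.VF.S.Main
import Pool.Agent.Lib.MP_305fdd_al.Corank

/-!
# Torsion free virtually free groups are free (MP_305fdd_al, surface groups, block UP)
-/

set_option autoImplicit false

namespace Pool.Agent.SuUp

open Monoid Pool.Agent.MP_305fdd_al Pool.Agent.Lib.MP_305fdd_al

/-- a finitely generated free group -/
theorem fin_of_free {B : Type} [Group B] (hB : IsFreeGroup B) (hfg : Group.FG B) :
    ∃ r : ℕ, Nonempty (B ≃* FreeGroup (Fin r)) := by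
  have e1 : B ≃* FreeGroup (IsFreeGroup.Generators B) := IsFreeGroup.toFreeGroup B
  have hfg' : Group.FG (FreeGroup (IsFreeGroup.Generators B)) :=
    Group.fg_of_surjective (f := e1.toMonoidHom) e1.surjective
  have hfin : Finite (IsFreeGroup.Generators B) := finite_of_fg hfg'
  obtain ⟨a, ⟨e2⟩⟩ := Finite.exists_equiv_fin (IsFreeGroup.Generators B)
  exact ⟨a, ⟨e1.trans (FreeGroup.freeGroupCongr e2)⟩⟩

theorem isFree_zmod {m : ℕ} (h : m = 0 ∨ m = 1) : IsFreeGroup (Multiplicative (ZMod m)) := by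
  rcases h with rfl | rfl
  · exact IsFreeGroup.ofMulEquiv (FreeGroup.mulEquivIntOfUnique (α := Unit))
  · haveI : Unique (Multiplicative (ZMod 1)) := ⟨⟨1⟩, fun a => by
      apply Multiplicative.toAdd.injective
      exact Subsingleton.elim _ _⟩
    exact IsFreeGroup.ofMulEquiv (MulEquiv.ofUnique (M := FreeGroup Empty)
      (N := Multiplicative (ZMod 1)))

/-- a torsion free free product of cyclic groups is free -/
theorem isFree_fp {n : ℕ} (m : Fin n → ℕ)
    (tf : ∀ a : FP m, ∀ n : ℕ, 0 < n → a ^ n = 1 → a = 1) : IsFreeGroup (FP m) := by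
  have h : ∀ i, m i = 0 ∨ m i = 1 := by
    intro i
    by_contra hi
    push Not at hi
    have hpos : 0 < m i := Nat.pos_of_ne_zero hi.1
    have h1 : (CoprodI.of (M := fun i => Multiplicative (ZMod (m i))) (i := i)
        (Multiplicative.ofAdd (1 : ZMod (m i)))) = (1 : FP m) := by
      refine tf _ (m i) hpos ?_
      rw [← map_pow, ← ofAdd_nsmul, nsmul_eq_mul, mul_one, ZMod.natCast_self, ofAdd_zero, map_one]
    rw [← map_one (CoprodI.of (M := fun i => Multiplicative (ZMod (m i))) (i := i))] at h1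
    have h2 := CoprodI.of_injective i h1
    have h3 : (1 : ZMod (m i)) = 0 := h2
    haveI : Fact (1 < m i) := ⟨by omega⟩
    exact one_ne_zero h3
  haveI : ∀ i, IsFreeGroup (Multiplicative (ZMod (m i))) := fun i => isFree_zmod (h i)
  exact inferInstance

/-- **a torsion free group with a homomorphism to a finite abelian group, whose kernel is free of
finite rank, is free** -/
theorem isFree_of_ker {A T : Type} [Group A] [CommGroup T] [Finite T]
    (tf : ∀ a : A, ∀ n : ℕ, 0 < n → a ^ n = 1 → a = 1) (α : A →* T) {r : ℕ}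
    (h : Nonempty (α.ker ≃* FreeGroup (Fin r))) : IsFreeGroup A := by
  have hno : ∀ x : A, x ≠ 1 → ¬ IsOfFinOrder x := by
    intro x hx hf
    rw [isOfFinOrder_iff_pow_eq_one] at hf
    obtain ⟨n, hn, hn'⟩ := hf
    exact hx (tf x n hn hn')
  obtain ⟨n, m, ⟨e⟩⟩ := VF.p_I Pool.Agent.VFS.p_S A T α r
    ⟨h, fun x hx hx' => (hno x hx hx').elim, fun x hx hx' => (hno x hx hx').elim⟩
  haveI : IsFreeGroup (FP m) := by
    refine isFree_fp m ?_
    intro a n hn ha
    have h1 := tf (e.symm a) n hn (by rw [← map_pow, ha, map_one])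
    rwa [map_eq_one_iff _ e.symm.injective] at h1
  exact IsFreeGroup.ofMulEquiv e.symm

end Pool.Agent.SuUp
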