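import Pool.Agent.Lib.MP_305fdd_al.Su.Up.Ess3
import Pool.Agent.Lib.MP_305fdd_al.Su.Tr.Blow

/-!
# The weak crossing lemma (MP_305fdd_al, surface groups, Route H, (2.3) of surf_h89)

`weak_cross`: `B` has no tree with an essential edge of trivial stabiliser; all edge groups of the
minimal tree `X` are conjugates of `⟨z⟩`; `X1` is a tree with one orbit of edges, finitely generated
abelian edge groups, finitely generated vertex groups, in which `z` has no fixed vertex.  Then the edge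
groups of `X1` meet the vertex groups of `X` trivially.
-/

set_option autoImplicit false

namespace Pool.Agent.SuUp

open Pool.Agent.SuT Pool.Agent.FrT

/-- freely indecomposable, in the language of trees -/
def FIt (G : Type) [Group G] : Prop :=
  ∀ (V : Type) [MulAction G V] (X : SimpleGraph V), TA G X → ∀ u v : V, X.Adj u v →
    Ess X (⊤ : Subgroup G) u v → ES G u v ≠ ⊥

/-! ## General tools -/

/-- an equivariant map on an invariant set, from fixed points of the stabilisers -/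
theorem equiv_map {G P V : Type} [Group G] [MulAction G P] [MulAction G V] [Nonempty V]
    (S : P → Prop) (hS : ∀ (g : G) p, S p → S (g • p))
    (h : ∀ p, S p → ∃ v : V, ∀ g ∈ MulAction.stabilizer G p, g • v = v) :
    ∃ f : P → V, ∀ (g : G) p, S p → f (g • p) = g • f p := by
  classical
  let r : P → P := fun p => (Quotient.out (s := MulAction.orbitRel G P) ⟦p⟧ : P)
  have hr : ∀ p, ∃ g : G, g • r p = p := by
    intro p
    have h1 : (MulAction.orbitRel G P).r (r p) p :=
      Quotient.exact (s := MulAction.orbitRel G P) (Quotient.out_eq _)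
    have h2 : r p ∈ MulAction.orbit G p := h1
    obtain ⟨g, hg⟩ := h2
    refine ⟨g⁻¹, ?_⟩
    rw [← hg]
    exact inv_smul_smul g p
  have hrr : ∀ (g : G) p, r (g • p) = r p := by
    intro g p
    show Quotient.out _ = Quotient.out _
    congr 1
    apply Quotient.sound (s := MulAction.orbitRel G P)
    exact ⟨g, rfl⟩
  choose k hk using hr
  let F : P → V := fun p => if hp : S p then (h p hp).choose else Classical.arbitrary V
  have hF : ∀ p, S p → ∀ g ∈ MulAction.stabilizer G p, g • F p = F p := by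
    intro p hp
    simp only [F]
    rw [dif_pos hp]
    exact (h p hp).choose_spec
  refine ⟨fun p => k p • F (r p), ?_⟩
  intro g p hp
  show k (g • p) • F (r (g • p)) = g • k p • F (r p)
  have hSr : S (r p) := by
    have := hS (k p)⁻¹ p hp
    have e : (k p)⁻¹ • p = r p := by
      rw [inv_smul_eq_iff]
      exact (hk p).symm
    rwa [e] at this
  have h1 : k (g • p) • r p = g • k p • r p := by
    have h2 := hk (g • p)
    rw [hrr] at h2
    rw [h2, hk p]
  have h3 : (g * k p)⁻¹ * k (g • p) ∈ MulAction.stabilizer G (r p) := by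
    rw [MulAction.mem_stabilizer_iff, mul_smul, h1, ← mul_smul g, inv_smul_smul]
  have h4 := hF (r p) hSr _ h3
  rw [hrr, ← mul_smul g]
  rw [mul_smul, inv_smul_eq_iff] at h4
  exact h4

/-- a connected graph has an edge across every partition -/
theorem exists_switch {V : Type} {X : SimpleGraph V} (hX : X.Connected) (S : V → Prop) {a b : V}
    (ha : ¬ S a) (hb : S b) : ∃ p q, X.Adj p q ∧ ¬ S p ∧ S q := by
  obtain ⟨w⟩ := hX.preconnected a b
  induction w with
  | nil => exact absurd hb ha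
  | @cons a c b h w ih =>
    by_cases hc : S c
    · exact ⟨a, c, h, ha, hc⟩
    · exact ih hc hb

/-- half trees are unions of components of the complement of the orbit -/
theorem rch_Hf {G V : Type} [Group G] [MulAction G V] {X : SimpleGraph V} (hT : X.IsTree)
    {u v : V} (h : X.Adj u v) {x y : V} (hr : Rch G X u v x y) : x ∈ Hf X u v ↔ y ∈ Hf X u v := by
  obtain ⟨w⟩ := hr
  induction w with
  | nil => exact Iff.rfl
  | @cons a b c hab w ih =>
    rw [← ih]
    rw [SimpleGraph.deleteEdges_adj] at hab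
    obtain ⟨h1, h2⟩ := hab
    constructor
    · intro ha
      by_contra hb
      obtain ⟨e1, e2⟩ := cross_edge hT h hb ha h1.symm
      apply h2
      refine ⟨1, ?_⟩
      rw [e1, e2, one_smul, one_smul, Sym2.eq_swap]
    · intro hb
      by_contra ha
      obtain ⟨e1, e2⟩ := cross_edge hT h ha hb h1
      apply h2
      refine ⟨1, ?_⟩
      rw [e1, e2, one_smul, one_smul]

/-- half trees are connected -/
theorem half_ind {V : Type} {X : SimpleGraph V} (hT : X.IsTree) {u v : V} (h : X.Adj u v)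
    (P : V → Prop) (hv : P v)
    (step : ∀ a b, X.Adj a b → a ∈ Hf X u v → b ∈ Hf X u v → P a → P b) :
    ∀ y ∈ Hf X u v, P y := by
  have key : ∀ n : ℕ, ∀ y ∈ Hf X u v, X.dist v y = n → P y := by
    intro n
    induction n with
    | zero =>
      intro y _ hn
      have : v = y := (hT.connected.dist_eq_zero_iff).mp hn
      rwa [← this]
    | succ n ih =>
      intro y hy hn
      have hne : y ≠ v := by
        rintro rfl
        rw [SimpleGraph.dist_self] at hn
        omega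
      obtain ⟨c, hc, h1⟩ := first_edge hT hne
      have hcH : c ∈ Hf X u v := by
        by_contra h2
        obtain ⟨_, e2⟩ := cross_edge hT h h2 hy hc.symm
        exact hne e2
      have h3 : X.dist v c = n := by
        rw [mem_Hf] at h1
        have := dist_adj hT hc v
        omega
      exact step c y hc.symm hcH hy (ih c hcH h3)
  intro y hy
  exact key _ y hy rfl

/-- half trees under a collapse map -/
theorem map_half {V W : Type} {X : SimpleGraph V} {Y : SimpleGraph W} (hX : X.IsTree)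
    (hY : Y.IsTree) (κ : V → W) {u v : V} (h : X.Adj u v) (h' : Y.Adj (κ u) (κ v))
    (step : ∀ a b, X.Adj a b → κ a = κ b ∨ Y.Adj (κ a) (κ b))
    (side : ∀ a, κ a = κ u → a ∉ Hf X u v) : ∀ y ∈ Hf X u v, κ y ∈ Hf Y (κ u) (κ v) := by
  refine half_ind hX h (fun y => κ y ∈ Hf Y (κ u) (κ v)) (right_mem_Hf hY h') ?_
  intro a b hab ha hb hka
  rcases step a b hab with e | e
  · rwa [← e]
  · by_contra hkb
    obtain ⟨e1, _⟩ := cross_edge hY h' hkb hka e.symm
    exact side b e1 hb

/-! ## The two elliptic cases -/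

section

variable {B : Type} [Group B] {V V1 : Type} [MulAction B V] [MulAction B V1]
  {X : SimpleGraph V} {X1 : SimpleGraph V1}

/-- powers of conjugates of `z` have no fixed vertex -/
theorem conj_fix (hT1 : TA B X1) {z : B} (hz : ∀ p : V1, z • p ≠ p) {g s : B} {x : V1}
    (hs : s ∈ Subgroup.zpowers (g * z * g⁻¹)) (hx : s • x = x) : s = 1 := by
  rw [Subgroup.mem_zpowers_iff] at hs
  obtain ⟨n, rfl⟩ := hs
  by_contra hne
  have hn0 : n ≠ 0 := by
    rintro rfl
    exact hne (zpow_zero _)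
  have hnat : (g * z * g⁻¹) ^ n.natAbs • x = x := by
    rcases Int.natAbs_eq n with e | e
    · rw [e, zpow_natCast] at hx
      exact hx
    · rw [e, zpow_neg, zpow_natCast, inv_smul_eq_iff] at hx
      exact hx.symm
  obtain ⟨b, hb⟩ := pow_fix hT1 (Int.natAbs_pos.2 hn0) hnat
  apply hz (g⁻¹ • b)
  rw [mul_smul, mul_smul] at hb
  rw [← inv_smul_smul g (z • g⁻¹ • b), hb]

/-- all vertex groups of `X1` have fixed vertices in `X`: an edge group of `X1` is trivial -/
theorem wc_ell (hT : TA B X) (hT1 : TA B X1) {z : B} (hz : ∀ p : V1, z • p ≠ p)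
    (hS : ∀ x y, X.Adj x y → ∃ g : B, ES B x y = Subgroup.zpowers (g * z * g⁻¹))
    (hmin : ∀ x y, X.Adj x y → Ess X (⊤ : Subgroup B) x y) (hex : ∃ x y, X.Adj x y)
    (hell : ∀ p : V1, ∃ v : V, ∀ g ∈ MulAction.stabilizer B p, g • v = v) :
    ∃ p q, X1.Adj p q ∧ ES B p q = ⊥ := by
  obtain ⟨a, b, hab⟩ := hex
  have : Nonempty V := ⟨a⟩
  obtain ⟨f, hf⟩ := equiv_map (G := B) (fun _ : V1 => True) (fun _ _ _ => trivial)
    (fun p _ => hell p)
  obtain ⟨p0⟩ := hT1.tree.connected.nonempty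
  obtain ⟨⟨g1, _, h1⟩, ⟨g2, _, h2⟩⟩ := hmin a b hab (f p0)
  rw [← hf _ _ trivial] at h1 h2
  obtain ⟨p, q, hpq, hp, hq⟩ := exists_switch hT1.tree.connected (fun p => f p ∈ Hf X a b) h2 h1
  refine ⟨p, q, hpq, ?_⟩
  rw [eq_bot_iff]
  intro s hs
  rw [Subgroup.mem_bot]
  obtain ⟨hs1, hs2⟩ := mem_ES.1 hs
  have e1 : s • f p = f p := by rw [← hf _ _ trivial, hs1]
  have e2 : s • f q = f q := by rw [← hf _ _ trivial, hs2]
  have h3 := fix_between hT hab e1 e2 hp hq
  obtain ⟨g, hg⟩ := hS a b hab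
  rw [hg] at h3
  exact conj_fix hT1 hz h3 hs1

/-- some vertex group of `X1` has no fixed vertex in `X`, but the edge groups do: blow up -/
theorem wc_blow (hFI : FIt B) (hT : TA B X) (hT1 : TA B X1) {z : B}
    (hz : ∀ p : V1, z • p ≠ p)
    (hS : ∀ x y, X.Adj x y → ∃ g : B, ES B x y = Subgroup.zpowers (g * z * g⁻¹))
    (hE : ∀ x y, X1.Adj x y → ∃ v : V, ∀ g ∈ ES B x y, g • v = v)
    {p1 : V1} (hfg : (MulAction.stabilizer B p1).FG)
    (hell : ¬ ∃ v : V, ∀ g ∈ MulAction.stabilizer B p1, g • v = v) : False := by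
  obtain ⟨y1, y2, hy, hess⟩ := exists_ess hT hfg hell
  have : Nonempty V := ⟨y1⟩
  obtain ⟨φ, hφ⟩ := equiv_map (G := B) (P := V1 × V1) (V := V)
    (fun e : V1 × V1 => X1.Adj e.1 e.2)
    (fun g e he => hT1.act g _ _ he)
    (by
      rintro ⟨x, y⟩ he
      obtain ⟨v, hv⟩ := hE x y he
      refine ⟨v, ?_⟩
      intro g hg
      apply hv
      rw [MulAction.mem_stabilizer_iff, Prod.smul_mk, Prod.mk.injEq] at hg
      exact mem_ES.2 hg)
  obtain ⟨W, _, Y, κ, p, hY, _, hp, hκ, hpe, hR, hadj⟩ :=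
    p_BLOW B V1 V X1 X hT1 hT (fun x y => φ (x, y))
      (fun g x y h => hφ g (x, y) h) p1 y1 y2 hy
  -- the new edge
  have hw : Y.Adj (κ p1 y1) (κ p1 y2) := by
    rw [hadj]
    right
    exact ⟨1, Or.inl ⟨one_smul _ _, one_smul _ _⟩⟩
  have hE1 : ∀ g ∈ MulAction.stabilizer B p1, ∀ y, κ p1 (g • y) = g • κ p1 y := by
    intro g hg y
    rw [← hκ, MulAction.mem_stabilizer_iff.1 hg]
  have step : ∀ a b, X.Adj a b → κ p1 a = κ p1 b ∨ Y.Adj (κ p1 a) (κ p1 b) := by
    intro a b hab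
    by_cases hO : s(a, b) ∈ Orb (MulAction.stabilizer B p1) y1 y2
    · right
      obtain ⟨g, hg⟩ := hO
      rw [Sym2.eq_iff] at hg
      rw [hadj]
      right
      refine ⟨g, ?_⟩
      rcases hg with ⟨e1, e2⟩ | ⟨e1, e2⟩
      · left
        rw [e1, e2]
        exact ⟨(hE1 g g.2 y1).symm, (hE1 g g.2 y2).symm⟩
      · right
        rw [e1, e2]
        exact ⟨(hE1 g g.2 y1).symm, (hE1 g g.2 y2).symm⟩
    · left
      rw [hR]
      exact Rch.adj hab hO
  have side1 : ∀ a, κ p1 a = κ p1 y1 → a ∉ Hf X y1 y2 := by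
    intro a ha h
    rw [hR] at ha
    rw [rch_Hf hT.tree hy ha] at h
    exact left_not_mem_Hf h
  have side2 : ∀ a, κ p1 a = κ p1 y2 → a ∈ Hf X y1 y2 := by
    intro a ha
    rw [hR] at ha
    rw [rch_Hf hT.tree hy ha]
    exact right_mem_Hf hT.tree hy
  have m1 : ∀ y ∈ Hf X y1 y2, κ p1 y ∈ Hf Y (κ p1 y1) (κ p1 y2) :=
    map_half hT.tree hY.tree (κ p1) hy hw step side1
  have m2 : ∀ y ∈ Hf X y2 y1, κ p1 y ∈ Hf Y (κ p1 y2) (κ p1 y1) := by
    refine map_half hT.tree hY.tree (κ p1) hy.symm hw.symm step ?_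
    intro a ha h
    rw [← not_mem_Hf hT.tree hy] at h
    exact h (side2 a ha)
  have m : ∀ y, κ p1 y ∈ Hf Y (κ p1 y1) (κ p1 y2) ↔ y ∈ Hf X y1 y2 := by
    intro y
    constructor
    · intro h
      by_contra h2
      rw [not_mem_Hf hT.tree hy] at h2
      have h3 := m2 y h2
      rw [← not_mem_Hf hY.tree hw] at h3
      exact h3 h
    · exact m1 y
  -- it is essential
  obtain ⟨g, hg, htr⟩ := exists_tr_of_ess hT hy hess
  have htrY : Tr Y g (κ p1 y1) (κ p1 y2) := by
    constructor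
    · rw [← hE1 g hg, m]
      exact htr.1
    · rw [mem_Hf_smul hY.act hY.tree, ← hE1 g⁻¹ (Subgroup.inv_mem _ hg), m,
        ← mem_Hf_smul hT.act hT.tree]
      exact htr.2
  refine hFI W Y hY (κ p1 y1) (κ p1 y2) hw (htrY.ess hY hw (Subgroup.mem_top g)) ?_
  -- its stabiliser is trivial
  rw [eq_bot_iff]
  intro s hs
  rw [Subgroup.mem_bot]
  obtain ⟨hs1, hs2⟩ := mem_ES.1 hs
  have hsp : s • p1 = p1 := by
    have := hpe s (κ p1 y1)
    rwa [hs1, hp, eq_comm] at this
  have hsE : s ∈ MulAction.stabilizer B p1 := hsp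
  have k1 : s • y1 ∉ Hf X y1 y2 := side1 _ (by rw [hE1 s hsE, hs1])
  have k2 : s • y2 ∈ Hf X y1 y2 := side2 _ (by rw [hE1 s hsE, hs2])
  obtain ⟨e1, e2⟩ := cross_edge hT.tree hy k1 k2 (hT.act s _ _ hy)
  have h3 : s ∈ ES B y1 y2 := mem_ES.2 ⟨e1, e2⟩
  obtain ⟨k, hk⟩ := hS y1 y2 hy
  rw [hk] at h3
  exact conj_fix hT1 hz h3 hsp

/-- WEAK CROSSING LEMMA -/
theorem weak_cross (hFI : FIt B) (hT : TA B X) (hT1 : TA B X1) {z : B}
    (hz : ∀ p : V1, z • p ≠ p)
    (hS : ∀ x y, X.Adj x y → ∃ g : B, ES B x y = Subgroup.zpowers (g * z * g⁻¹))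
    (hmin : ∀ x y, X.Adj x y → Ess X (⊤ : Subgroup B) x y) (hex : ∃ x y, X.Adj x y)
    (one : ∀ x y x' y', X1.Adj x y → X1.Adj x' y' →
      ∃ g : B, (g • x = x' ∧ g • y = y') ∨ (g • x = y' ∧ g • y = x'))
    (hfgE : ∀ x y, X1.Adj x y → (ES B x y).FG)
    (hab : ∀ x y, X1.Adj x y → ∀ a ∈ ES B x y, ∀ b ∈ ES B x y, a * b = b * a)
    (hfgV : ∀ x : V1, (MulAction.stabilizer B x).FG) :
    ∀ x y, X1.Adj x y → ∀ u : V, ES B x y ⊓ MulAction.stabilizer B u = ⊥ := by
  intro x y hxy u
  by_cases hell : ∃ v : V, ∀ g ∈ ES B x y, g • v = v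
  · exfalso
    -- all edge groups have fixed vertices
    have hE : ∀ x' y', X1.Adj x' y' → ∃ v : V, ∀ g ∈ ES B x' y', g • v = v := by
      intro x' y' h'
      obtain ⟨v, hv⟩ := hell
      obtain ⟨g, ⟨rfl, rfl⟩ | ⟨rfl, rfl⟩⟩ := one x y x' y' hxy h'
      · refine ⟨g • v, ?_⟩
        intro s hs
        rw [mem_ES_smul] at hs
        have := hv _ hs
        rwa [mul_smul, mul_smul, inv_smul_eq_iff] at this
      · refine ⟨g • v, ?_⟩
        intro s hs
        rw [ES_symm, mem_ES_smul] at hs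
        have := hv _ hs
        rwa [mul_smul, mul_smul, inv_smul_eq_iff] at this
    by_cases hV : ∀ p : V1, ∃ v : V, ∀ g ∈ MulAction.stabilizer B p, g • v = v
    · obtain ⟨p, q, hpq, hbot⟩ := wc_ell hT hT1 hz hS hmin hex hV
      obtain ⟨a, b, hab', htr⟩ := exists_tr hT1 hz
      refine hFI V1 X1 hT1 a b hab' (htr.ess hT1 hab' (Subgroup.mem_top z)) ?_
      have key : ∀ g : B, ES B (g • p) (g • q) = ⊥ := by
        intro g
        rw [eq_bot_iff]
        intro s hs
        rw [mem_ES_smul, hbot, Subgroup.mem_bot] at hs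
        rw [Subgroup.mem_bot]
        have : s = g * (g⁻¹ * s * g) * g⁻¹ := by group
        rw [this, hs]
        group
      obtain ⟨g, ⟨rfl, rfl⟩ | ⟨rfl, rfl⟩⟩ := one p q a b hpq hab'
      · exact key g
      · rw [ES_symm]
        exact key g
    · push Not at hV
      obtain ⟨p1, hp1⟩ := hV
      refine wc_blow hFI hT hT1 hz hS hE (hfgV p1) ?_
      rintro ⟨v, hv⟩
      obtain ⟨g, hg, hgv⟩ := hp1 v
      exact hgv (hv g hg)
  · exact wc_hyp hT hT1 hz hS (hfgE x y hxy) (hab x y hxy) hell u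

end

end Pool.Agent.SuUp
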